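import Mathlib

open Filter

namespace MinMod

/-- The maximum modulus `M(r,f)`: the maximum of `|f|` on the circle `|z| = r`. -/
noncomputable def maxMod (f : ℂ → ℂ) (r : ℝ) : ℝ := ⨆ z : Metric.sphere (0:ℂ) r, ‖f z‖

/-- The minimum modulus `m_0(r,f)`: the minimum of `|f|` on the circle `|z| = r`. -/
noncomputable def minMod (f : ℂ → ℂ) (r : ℝ) : ℝ := ⨅ z : Metric.sphere (0:ℂ) r, ‖f z‖

/-- `a_f(r) = log M(r,f)`. -/
noncomputable def aF (f : ℂ → ℂ) (r : ℝ) : ℝ := Real.log (maxMod f r)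

/-- `b_f(r) = log m_0(r,f)` in the extended reals, with `log 0 = -∞`. -/
noncomputable def bF (f : ℂ → ℂ) (r : ℝ) : EReal := ENNReal.log (ENNReal.ofReal (minMod f r))

/-- The lower order: the lower limit of `log a_f(r) / log r` as `r → ∞`. -/
noncomputable def lowerOrder (f : ℂ → ℂ) : EReal :=
  liminf (fun r : ℝ => ((Real.log (aF f r) / Real.log r : ℝ) : EReal)) atTop

/-- `Λ(f)`: the upper limit of `b_f(r) / a_f(r)` as `r → ∞`. -/
noncomputable def Lam (f : ℂ → ℂ) : EReal := limsup (fun r : ℝ => bF f r / (aF f r : EReal)) atTop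

/-- `C(λ)`: the infimum of `Λ(f)` over the non-constant entire functions `f` of lower order `λ`. -/
noncomputable def Cc (lam : ℝ) : EReal :=
  sInf {L : EReal | ∃ f : ℂ → ℂ, Differentiable ℂ f ∧ (¬ ∃ c, ∀ z, f z = c) ∧
    lowerOrder f = (lam : EReal) ∧ L = Lam f}

/-- Auxiliary (used only in the proof): an entire function of lower order `lam` which on every large
circle is somewhere at most `exp (-T a_f(r))`. -/
def GoodFn (lam T : ℝ) (f : ℂ → ℂ) : Prop :=
  Differentiable ℂ f ∧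
  liminf (fun r : ℝ => ((Real.log (aF f r) / Real.log r : ℝ) : EReal)) atTop = (lam : EReal) ∧
  ∀ᶠ r : ℝ in atTop, 0 < aF f r ∧ ∃ z : ℂ, ‖z‖ = r ∧ ‖f z‖ ≤ Real.exp (-(T * aF f r))

/-- Auxiliary: the Weierstrass primary factor of genus `p`. -/
noncomputable def Ep (p : ℕ) (z : ℂ) : ℂ :=
  (1 - z) * Complex.exp (∑ k ∈ Finset.range p, z ^ (k + 1) / ((k : ℂ) + 1))

end MinMod
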