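import Mathlib
import Pool.Agent.MP06ac62.Defs

set_option linter.all false
set_option maxHeartbeats 1000000

namespace MinMod.L1

open MinMod
/-- Polya peak with additive error: L is increasing, liminf L(t)/t = lam. -/
theorem polya_peak (L : ℝ → ℝ) (lam τ0 : ℝ) (hlam : 0 < lam)
    (hmono : MonotoneOn L (Set.Ici τ0))
    (h1 : ∀ η > 0, ∀ᶠ τ in Filter.atTop, (lam - η) * τ ≤ L τ)
    (h2 : ∀ η > 0, ∃ᶠ τ in Filter.atTop, L τ ≤ (lam + η) * τ)
    (κ H τ1 : ℝ) (hκ : 0 < κ) (hH : 0 < H) :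
    ∃ τ ≥ τ1, ∀ s, |s| ≤ H → L (τ + s) ≤ L τ + lam * s + κ := by
  obtain ⟨d, hd⟩ : ∃ d, d = κ / (2 * H) := ⟨_, rfl⟩
  have hd0 : 0 < d := by rw [hd]; positivity
  have hdH : d * H = κ / 2 := by rw [hd]; field_simp
  obtain ⟨T, hT⟩ := Filter.eventually_atTop.1 (h1 (d / 4) (by positivity))
  obtain ⟨t3, ht3⟩ : ∃ t3, t3 = max (max τ1 τ0) (max T 1) := ⟨_, rfl⟩
  have a1 : τ1 ≤ t3 := by rw [ht3]; exact (le_max_left _ _).trans (le_max_left _ _)
  have a2 : τ0 ≤ t3 := by rw [ht3]; exact (le_max_right _ _).trans (le_max_left _ _)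
  have a3 : T ≤ t3 := by rw [ht3]; exact (le_max_left _ _).trans (le_max_right _ _)
  obtain ⟨c0, hc0⟩ : ∃ c, c = L (t3 + H) - lam * t3 := ⟨_, rfl⟩
  obtain ⟨u, hu⟩ : ∃ u, u = max (t3 + H + 1) ((c0 + d * (t3 + H) + κ + 1) / (3 * d / 4)) :=
    ⟨_, rfl⟩
  have hu1 : t3 + H + 1 ≤ u := by rw [hu]; exact le_max_left _ _
  have hu2 : c0 + d * (t3 + H) + κ + 1 ≤ (3 * d / 4) * u := by
    have : (c0 + d * (t3 + H) + κ + 1) / (3 * d / 4) ≤ u := by rw [hu]; exact le_max_right _ _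
    rw [div_le_iff₀ (by positivity)] at this
    linarith
  have hgu : -(d / 4) * u ≤ L u - lam * u := by
    have := hT u (by linarith)
    linarith
  obtain ⟨v, hv1, hv2⟩ := (Filter.frequently_atTop.1 (h2 (d / 4) (by positivity)))
    (max (u + H + 1) ((lam * H + d * H + d * u - (L u - lam * u) + κ + 1) / (3 * d / 4)))
  have hv3 : u + H + 1 ≤ v := (le_max_left _ _).trans hv1
  have hv4 : lam * H + d * H + d * u - (L u - lam * u) + κ + 1 ≤ (3 * d / 4) * v := by
    have : (lam * H + d * H + d * u - (L u - lam * u) + κ + 1) / (3 * d / 4) ≤ v :=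
      (le_max_right _ _).trans hv1
    rw [div_le_iff₀ (by positivity)] at this
    linarith
  obtain ⟨G, hG⟩ : ∃ G : ℝ → ℝ, G = fun t => L t - lam * t - d * |t - u| := ⟨_, rfl⟩
  have hGu : G u = L u - lam * u := by rw [hG]; simp
  have hbdd : BddAbove (G '' Set.Icc t3 v) := by
    refine ⟨L v - lam * t3, ?_⟩
    rintro _ ⟨t, ht, rfl⟩
    rw [hG]
    have e1 : L t ≤ L v := hmono (Set.mem_Ici.2 (a2.trans ht.1))
      (Set.mem_Ici.2 (by linarith)) ht.2
    have e2 : lam * t3 ≤ lam * t := mul_le_mul_of_nonneg_left ht.1 hlam.le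
    have e3 : 0 ≤ d * |t - u| := by positivity
    show L t - lam * t - d * |t - u| ≤ _
    linarith
  have huI : u ∈ Set.Icc t3 v := ⟨by linarith, by linarith⟩
  have hne : (G '' Set.Icc t3 v).Nonempty := ⟨_, u, huI, rfl⟩
  obtain ⟨_, ⟨t, ht, rfl⟩, htS⟩ := exists_lt_of_lt_csSup hne
    (show sSup (G '' Set.Icc t3 v) - κ / 2 < sSup (G '' Set.Icc t3 v) by linarith)
  have hle : ∀ x ∈ Set.Icc t3 v, G x < G t + κ / 2 := by
    intro x hx
    have := le_csSup hbdd ⟨x, hx, rfl⟩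
    linarith
  have hGt : G u - κ / 2 < G t := by linarith [hle u huI]
  have hGt2 : G t = L t - lam * t - d * |t - u| := by rw [hG]
  have hleft : t3 + H < t := by
    by_contra hcon
    push Not at hcon
    have e1 : L t ≤ L (t3 + H) := hmono (Set.mem_Ici.2 (a2.trans ht.1))
      (Set.mem_Ici.2 (by linarith)) hcon
    have e2 : lam * t3 ≤ lam * t := mul_le_mul_of_nonneg_left ht.1 hlam.le
    have e3 : d * (u - t3 - H) ≤ d * |t - u| := by
      apply mul_le_mul_of_nonneg_left _ hd0.le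
      rw [abs_sub_comm]
      exact (by linarith : u - t3 - H ≤ u - t).trans (le_abs_self _)
    rw [hGu] at hGt
    nlinarith
  have hright : t < v - H := by
    by_contra hcon
    push Not at hcon
    have e1 : L t ≤ L v := hmono (Set.mem_Ici.2 (a2.trans ht.1))
      (Set.mem_Ici.2 (by linarith)) ht.2
    have e2 : lam * (v - H) ≤ lam * t := mul_le_mul_of_nonneg_left hcon hlam.le
    have e3 : d * (v - H - u) ≤ d * |t - u| := by
      apply mul_le_mul_of_nonneg_left _ hd0.le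
      exact (by linarith : v - H - u ≤ t - u).trans (le_abs_self _)
    rw [hGu] at hGt
    nlinarith
  refine ⟨t, by linarith, fun s hs => ?_⟩
  have hs' := abs_le.1 hs
  have h5 := hle (t + s) ⟨by linarith, by linarith⟩
  have h6 : G (t + s) = L (t + s) - lam * (t + s) - d * |t + s - u| := by rw [hG]
  have h7 : |t + s - u| ≤ |t - u| + |s| := by
    have : t + s - u = (t - u) + s := by ring
    rw [this]; exact abs_add_le _ _
  have h8 : d * |t + s - u| ≤ d * (|t - u| + |s|) := mul_le_mul_of_nonneg_left h7 hd0.le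
  have h9 : d * |s| ≤ d * H := mul_le_mul_of_nonneg_left hs hd0.le
  rw [h6, hGt2] at h5
  nlinarith

end MinMod.L1
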