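import Mathlib
import Pool.Agent.MP06ac62.Defs

set_option linter.all false
set_option maxHeartbeats 1000000

namespace MinMod.L3

open MinMod
theorem j19559_factor (f : ℂ → ℂ) (hf : Differentiable ℂ f) (hne : ∃ z, f z ≠ 0) :
    ∃ (k : ℕ) (g : ℂ → ℂ), Differentiable ℂ g ∧ g 0 ≠ 0 ∧ ∀ z, f z = z ^ k * g z := by
  have han : AnalyticAt ℂ f 0 := hf.analyticAt 0
  have hnz : ¬ ∀ᶠ z in nhds (0:ℂ), f z = 0 := by
    intro h
    obtain ⟨z, hz⟩ := hne
    apply hz
    have h1 : AnalyticOnNhd ℂ f Set.univ := fun z _ => hf.analyticAt z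
    have := h1.eqOn_zero_of_preconnected_of_eventuallyEq_zero isPreconnected_univ
      (Set.mem_univ 0) h
    exact this (Set.mem_univ z)
  obtain ⟨k, g, hg, hg0, hfg⟩ := han.exists_eventuallyEq_pow_smul_nonzero_iff.2 hnz
  simp only [sub_zero, smul_eq_mul] at hfg
  let G : ℂ → ℂ := fun z => if z = 0 then g 0 else f z / z ^ k
  have hG : ∀ᶠ z in nhds (0:ℂ), G z = g z := by
    filter_upwards [hfg] with z hz
    by_cases h : z = 0
    · simp [G, h]
    · simp only [G, if_neg h, hz]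
      exact mul_div_cancel_left₀ _ (pow_ne_zero k h)
  refine ⟨k, G, ?_, ?_, ?_⟩
  · intro z
    by_cases h : z = 0
    · subst h
      exact (hg.differentiableAt).congr_of_eventuallyEq hG
    · have h1 : DifferentiableAt ℂ (fun z => f z / z^k) z :=
        (hf z).div (differentiableAt_id.pow k) (pow_ne_zero k h)
      refine h1.congr_of_eventuallyEq ?_
      filter_upwards [isOpen_ne.mem_nhds h] with w hw
      simp only [G, if_neg hw]
  · simpa [G] using hg0
  · intro z
    by_cases h : z = 0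
    · subst h
      have := hfg.self_of_nhds
      simpa [G] using this
    · simp only [G, if_neg h]
      exact (mul_div_cancel₀ _ (pow_ne_zero k h)).symm

theorem j19559_arc (N : ℕ) (hN : 0 < N) (ψ θ0 : ℝ) :
    ∃ k ∈ Finset.range N, ∃ θ : ℝ, |θ - θ0| ≤ Real.pi / N ∧
      Complex.exp (ψ * Complex.I) * Complex.exp (2 * Real.pi * Complex.I * k / N) =
        Complex.exp (θ * Complex.I) := by
  have hN' : (0 : ℝ) < N := by exact_mod_cast hN
  have hNC : (N : ℂ) ≠ 0 := by exact_mod_cast hN.ne'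
  set m : ℤ := round ((θ0 - ψ) * N / (2 * Real.pi)) with hm
  have hpi := Real.pi_pos
  have h1 := abs_sub_round ((θ0 - ψ) * N / (2 * Real.pi))
  rw [← hm] at h1
  have hmod0 : 0 ≤ m % (N : ℤ) := Int.emod_nonneg _ (by exact_mod_cast hN.ne')
  have hmod1 : m % (N : ℤ) < N := Int.emod_lt_of_pos _ (by exact_mod_cast hN)
  refine ⟨(m % (N : ℤ)).toNat, ?_, ψ + 2 * Real.pi * m / N, ?_, ?_⟩
  · rw [Finset.mem_range]
    omega
  · have e : ψ + 2 * Real.pi * m / N - θ0 =
        -((2 * Real.pi / N) * ((θ0 - ψ) * N / (2 * Real.pi) - m)) := by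
      field_simp
      ring
    rw [e, abs_neg, abs_mul, abs_of_pos (by positivity)]
    calc 2 * Real.pi / N * |(θ0 - ψ) * N / (2 * Real.pi) - m|
        ≤ 2 * Real.pi / N * (1 / 2) := mul_le_mul_of_nonneg_left h1 (by positivity)
      _ = Real.pi / N := by ring
  · rw [← Complex.exp_add]
    rw [Complex.exp_eq_exp_iff_exists_int]
    refine ⟨-(m / (N : ℤ)), ?_⟩
    have h2 : (((m % (N : ℤ)).toNat : ℕ) : ℂ) = ((m % (N : ℤ) : ℤ) : ℂ) := by
      have : (((m % (N : ℤ)).toNat : ℕ) : ℤ) = m % (N : ℤ) := Int.toNat_of_nonneg hmod0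
      exact_mod_cast congrArg (fun x : ℤ => (x : ℂ)) this
    have h3 : (m : ℂ) = (N : ℂ) * ((m / (N : ℤ) : ℤ) : ℂ) + ((m % (N : ℤ) : ℤ) : ℂ) := by
      have := Int.mul_ediv_add_emod m N
      exact_mod_cast congrArg (fun x : ℤ => (x : ℂ)) this.symm
    rw [h2]
    push_cast
    rw [h3]
    push_cast
    field_simp
    ring

/-- If an entire function is small on one arc of length 2π/N of |z| = r and bounded by exp a on the circle,
then c^N ≤ exp((N-1)a - κ), c > 0 depending only on f. -/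
theorem rotation_leak (f : ℂ → ℂ) (hf : Differentiable ℂ f) (hne : ∃ z, f z ≠ 0) :
    ∃ c > (0:ℝ), ∀ (N : ℕ), 0 < N → ∀ (r a κ θ0 : ℝ), 1 ≤ r →
      (∀ z : ℂ, ‖z‖ = r → ‖f z‖ ≤ Real.exp a) →
      (∀ θ : ℝ, |θ - θ0| ≤ Real.pi / N → ‖f (r * Complex.exp (θ * Complex.I))‖ ≤ Real.exp (-κ)) →
      c ^ N ≤ Real.exp ((N - 1) * a - κ) := by
  obtain ⟨k, g, hg, hg0, hfg⟩ := j19559_factor f hf hne
  refine ⟨‖g 0‖, norm_pos_iff.2 hg0, fun N hN r a κ θ0 hr hfa hfκ => ?_⟩
  have hle : ∀ z : ℂ, ‖z‖ = r → ‖g z‖ ≤ ‖f z‖ := by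
    intro z hz
    rw [hfg z, norm_mul, norm_pow, hz]
    exact le_mul_of_one_le_left (norm_nonneg _) (one_le_pow₀ hr)
  let F : ℂ → ℂ := fun z => ∏ j ∈ Finset.range N,
    g (z * Complex.exp (2 * Real.pi * Complex.I * j / N))
  have hF : Differentiable ℂ F := by
    intro z
    apply DifferentiableAt.fun_finset_prod
    intro j _
    exact (hg _).comp z (differentiableAt_id.mul_const _)
  have hr0 : 0 < r := by linarith
  have hexpn : ∀ j : ℕ, ‖Complex.exp (2 * Real.pi * Complex.I * j / N)‖ = 1 := by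
    intro j
    have e : (2 * Real.pi * Complex.I * j / N : ℂ) = ((2 * Real.pi * j / N : ℝ) : ℂ) * Complex.I := by
      push_cast
      ring
    rw [e, Complex.norm_exp_ofReal_mul_I]
  have hbound : ∀ z ∈ frontier (Metric.ball (0:ℂ) r), ‖F z‖ ≤ Real.exp ((N - 1) * a - κ) := by
    intro z hz
    rw [frontier_ball (0:ℂ) hr0.ne', mem_sphere_zero_iff_norm] at hz
    obtain ⟨k0, hk0, θ, hθ, hexp⟩ := j19559_arc N hN (Complex.arg z) θ0
    have hz2 : z = r * Complex.exp (Complex.arg z * Complex.I) := by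
      rw [← hz]
      exact (Complex.norm_mul_exp_arg_mul_I z).symm
    have hnz : ∀ j : ℕ, ‖z * Complex.exp (2 * Real.pi * Complex.I * j / N)‖ = r := by
      intro j
      rw [norm_mul, hexpn, mul_one, hz]
    have h1 : ‖g (z * Complex.exp (2 * Real.pi * Complex.I * k0 / N))‖ ≤ Real.exp (-κ) := by
      refine (hle _ (hnz k0)).trans ?_
      have h2 : z * Complex.exp (2 * Real.pi * Complex.I * k0 / N) =
          r * Complex.exp (θ * Complex.I) := by
        conv_lhs => rw [hz2]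
        rw [mul_assoc, hexp]
      rw [h2]
      exact hfκ θ hθ
    have h2 : ∀ j ∈ (Finset.range N).erase k0,
        ‖g (z * Complex.exp (2 * Real.pi * Complex.I * j / N))‖ ≤ Real.exp a :=
      fun j _ => (hle _ (hnz j)).trans (hfa _ (hnz j))
    have h3 : ∏ j ∈ (Finset.range N).erase k0,
        ‖g (z * Complex.exp (2 * Real.pi * Complex.I * j / N))‖ ≤ Real.exp ((N - 1) * a) := by
      refine (Finset.prod_le_prod (fun j _ => norm_nonneg _) h2).trans ?_
      rw [Finset.prod_const, Finset.card_erase_of_mem hk0, Finset.card_range, ← Real.exp_nat_mul]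
      rw [Nat.cast_sub hN, Nat.cast_one]
    have h4 : ‖F z‖ = ‖g (z * Complex.exp (2 * Real.pi * Complex.I * k0 / N))‖ *
        ∏ j ∈ (Finset.range N).erase k0,
          ‖g (z * Complex.exp (2 * Real.pi * Complex.I * j / N))‖ := by
      rw [Finset.mul_prod_erase (Finset.range N)
        (fun j : ℕ => ‖g (z * Complex.exp (2 * Real.pi * Complex.I * j / N))‖) hk0]
      exact norm_prod _ _
    rw [h4]
    calc _ ≤ Real.exp (-κ) * Real.exp ((N - 1) * a) :=
          mul_le_mul h1 h3 (Finset.prod_nonneg fun j _ => norm_nonneg _) (Real.exp_pos _).le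
      _ = Real.exp ((N - 1) * a - κ) := by
          rw [← Real.exp_add]
          congr 1
          ring
  have h0 : ‖F 0‖ ≤ Real.exp ((N - 1) * a - κ) :=
    Complex.norm_le_of_forall_mem_frontier_norm_le Metric.isBounded_ball
      hF.diffContOnCl hbound (subset_closure (Metric.mem_ball_self hr0))
  have h1 : F 0 = g 0 ^ N := by
    simp only [F, zero_mul, Finset.prod_const, Finset.card_range]
  rw [h1, norm_pow] at h0
  exact h0

end MinMod.L3
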