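import Mathlib
import Pool.Agent.MP06ac62.Defs

set_option linter.all false
set_option maxHeartbeats 1000000

namespace MinMod.LC

open MinMod
theorem cartan_aux (r : ℝ) (hr : 0 < r) :
    ∫⁻ x : ℝ, ENNReal.ofReal (max 0 (Real.log (r / |x|))) ≤ ENNReal.ofReal (2 * r) := by
  rw [MeasureTheory.lintegral_eq_lintegral_meas_lt MeasureTheory.volume
    (f := fun x : ℝ => max 0 (Real.log (r / |x|)))
    (Filter.Eventually.of_forall fun x => le_max_left 0 (Real.log (r / |x|))) (by fun_prop)]
  have h1 : ∀ t ∈ Set.Ioi (0 : ℝ), MeasureTheory.volume {x : ℝ | t < max 0 (Real.log (r / |x|))}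
      ≤ ENNReal.ofReal (2 * r * Real.exp (-t)) := by
    intro t ht
    have ht' : 0 < t := ht
    have hsub : {x : ℝ | t < max 0 (Real.log (r / |x|))} ⊆
        Set.Ioo (-(r * Real.exp (-t))) (r * Real.exp (-t)) := by
      intro x hx
      rw [Set.mem_setOf_eq] at hx
      have hx1 : t < Real.log (r / |x|) := by
        rcases lt_max_iff.1 hx with h | h
        · exact absurd h (not_lt.2 ht'.le)
        · exact h
      have hx0 : x ≠ 0 := by
        rintro rfl
        simp at hx1
        linarith
      have hpos : 0 < |x| := abs_pos.2 hx0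
      rw [Real.lt_log_iff_exp_lt (div_pos hr hpos), lt_div_iff₀ hpos] at hx1
      have : |x| < r * Real.exp (-t) := by
        rw [Real.exp_neg, ← div_eq_mul_inv, lt_div_iff₀ (Real.exp_pos t)]
        linarith
      exact abs_lt.1 this
    refine (MeasureTheory.measure_mono hsub).trans ?_
    rw [Real.volume_Ioo]
    apply le_of_eq
    congr 1
    ring
  refine (MeasureTheory.setLIntegral_mono (by fun_prop) h1).trans ?_
  rw [← MeasureTheory.ofReal_integral_eq_lintegral_ofReal]
  · apply ENNReal.ofReal_le_ofReal
    rw [MeasureTheory.integral_const_mul, integral_exp_neg_Ioi_zero, mul_one]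
  · exact ((integrableOn_exp_neg_Ioi 0).integrable).const_mul _
  · exact Filter.Eventually.of_forall fun t => by positivity

/-- Cartan/Polya type lemma on the line. -/
theorem cartan_real (n : ℕ) (hn : 0 < n) (a : Fin n → ℝ) (l : ℝ) (hl : 0 < l) :
    MeasureTheory.volume {x : ℝ | ∏ i, |x - a i| ≤ (l / (2 * Real.exp 1)) ^ n} ≤ ENNReal.ofReal l := by
  by_contra hcon
  push Not at hcon
  have hmeas : MeasurableSet {x : ℝ | ∏ i, |x - a i| ≤ (l / (2 * Real.exp 1)) ^ n} := by
    apply measurableSet_le (by fun_prop) (by fun_prop)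
  obtain ⟨t, htm, hts, htl, httop⟩ := MeasureTheory.Measure.exists_subset_measure_lt_top hmeas hcon
  set g := (MeasureTheory.volume t).toReal with hg
  have hgt : MeasureTheory.volume t = ENNReal.ofReal g := (ENNReal.ofReal_toReal httop.ne).symm
  have hlg : l < g := by
    rw [hgt] at htl
    exact (ENNReal.ofReal_lt_ofReal_iff_of_nonneg hl.le).1 htl
  have hg0 : 0 < g := hl.trans hlg
  set c := l / (2 * Real.exp 1) with hc
  have hc0 : 0 < c := by positivity
  have hr0 : 0 < g / 2 := by positivity
  have hae : ∀ᵐ x ∂(MeasureTheory.volume.restrict t), ENNReal.ofReal (n * Real.log (g / 2 / c)) ≤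
      ∑ i, ENNReal.ofReal (max 0 (Real.log (g / 2 / |x - a i|))) := by
    have h1 : ∀ᵐ x ∂(MeasureTheory.volume.restrict t), x ∈ t :=
      MeasureTheory.ae_restrict_mem htm
    have h2 : ∀ᵐ x ∂(MeasureTheory.volume.restrict t), ∀ i, x ≠ a i := by
      rw [MeasureTheory.ae_all_iff]
      intro i
      apply MeasureTheory.ae_restrict_of_ae
      exact MeasureTheory.Measure.ae_ne MeasureTheory.volume (a i)
    filter_upwards [h1, h2] with x hx hxa
    rw [← ENNReal.ofReal_sum_of_nonneg (fun i _ => le_max_left _ _)]
    apply ENNReal.ofReal_le_ofReal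
    have hpos : ∀ i, 0 < |x - a i| := fun i => abs_pos.2 (sub_ne_zero.2 (hxa i))
    have h3 : ∑ i, Real.log |x - a i| ≤ n * Real.log c := by
      rw [← Real.log_prod (fun i _ => (hpos i).ne'), ← Real.log_pow]
      exact Real.log_le_log (Finset.prod_pos fun i _ => hpos i) (hts hx)
    calc (n : ℝ) * Real.log (g / 2 / c) = n * Real.log (g / 2) - n * Real.log c := by
          rw [Real.log_div hr0.ne' hc0.ne']; ring
      _ ≤ n * Real.log (g / 2) - ∑ i, Real.log |x - a i| := by linarith
      _ = ∑ i, Real.log (g / 2 / |x - a i|) := by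
          rw [Finset.sum_congr rfl fun i _ => Real.log_div hr0.ne' (hpos i).ne',
            Finset.sum_sub_distrib]
          simp
      _ ≤ _ := Finset.sum_le_sum fun i _ => le_max_right _ _
  have hint := MeasureTheory.lintegral_mono_ae hae
  rw [MeasureTheory.lintegral_const, MeasureTheory.Measure.restrict_apply_univ,
    MeasureTheory.lintegral_finsetSum _ (fun i _ => by fun_prop)] at hint
  have hsum : ∑ i, ∫⁻ x in t, ENNReal.ofReal (max 0 (Real.log (g / 2 / |x - a i|))) ≤
      ENNReal.ofReal (n * g) := by
    calc ∑ i, ∫⁻ x in t, ENNReal.ofReal (max 0 (Real.log (g / 2 / |x - a i|)))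
        ≤ ∑ i : Fin n, ENNReal.ofReal g := by
          apply Finset.sum_le_sum
          intro i _
          refine (MeasureTheory.setLIntegral_le_lintegral _ _).trans ?_
          rw [MeasureTheory.lintegral_sub_right_eq_self
            (fun x => ENNReal.ofReal (max 0 (Real.log (g / 2 / |x|)))) (a i)]
          refine (cartan_aux (g / 2) hr0).trans (le_of_eq ?_)
          congr 1
          ring
      _ = ENNReal.ofReal (n * g) := by
          rw [Finset.sum_const, Finset.card_univ, Fintype.card_fin, nsmul_eq_mul,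
            ENNReal.ofReal_mul (by positivity), ENNReal.ofReal_natCast]
  have hfin := hint.trans hsum
  have hexp : g / 2 / c = Real.exp 1 * (g / l) := by
    rw [hc]; field_simp
  have hlog : Real.log (g / 2 / c) = 1 + Real.log (g / l) := by
    rw [hexp, Real.log_mul (Real.exp_pos 1).ne' (by positivity), Real.log_exp]
  have hlogpos : 0 < Real.log (g / l) := Real.log_pos ((one_lt_div hl).2 hlg)
  rw [hgt, ← ENNReal.ofReal_mul (by rw [hlog]; positivity)] at hfin
  rw [ENNReal.ofReal_le_ofReal_iff (by positivity), hlog] at hfin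
  have hn' : (0 : ℝ) < n := by exact_mod_cast hn
  have : 0 < n * g * Real.log (g / l) := by positivity
  nlinarith

end MinMod.LC
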