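import Mathlib
import Pool.Agent.MP06ac62.Defs

set_option linter.all false
set_option maxHeartbeats 1000000

namespace MinMod.LD

open MinMod
open Metric

noncomputable def bd_D (R : ℝ) (s w : ℂ) : ℂ := (R:ℂ) ^ 2 - (w - 1) * (starRingEnd ℂ) (s - 1)

theorem bd_D_ne {R : ℝ} (hR : 0 < R) {s w : ℂ} (hs : s ∈ ball (1:ℂ) R) (hw : w ∈ ball (1:ℂ) R) :
    bd_D R s w ≠ 0 := by
  intro h
  unfold bd_D at h
  have h1 : (R:ℂ) ^ 2 = (w - 1) * (starRingEnd ℂ) (s - 1) := sub_eq_zero.1 h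
  have h2 : ‖(R:ℂ) ^ 2‖ = ‖w - 1‖ * ‖s - 1‖ := by
    rw [h1, norm_mul, RCLike.norm_conj]
  rw [norm_pow, Complex.norm_real, Real.norm_eq_abs, abs_of_pos hR] at h2
  rw [mem_ball_iff_norm] at hs hw
  nlinarith [norm_nonneg (w - 1), norm_nonneg (s - 1)]

theorem bd_D_sphere {R : ℝ} (hR : 0 < R) {s w : ℂ} (hw : w ∈ sphere (1:ℂ) R) :
    ‖bd_D R s w‖ = R * ‖w - s‖ := by
  have hw' : ‖w - 1‖ = R := mem_sphere_iff_norm.1 hw
  have h1 : (R:ℂ) ^ 2 = (w - 1) * (starRingEnd ℂ) (w - 1) := by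
    rw [Complex.mul_conj, Complex.normSq_eq_norm_sq, hw']
    push_cast
    ring
  have h2 : bd_D R s w = (w - 1) * (starRingEnd ℂ) (w - s) := by
    unfold bd_D
    rw [h1, ← mul_sub, ← map_sub]
    congr 2
    ring
  rw [h2, norm_mul, RCLike.norm_conj, hw']

theorem bd_D_diff (R : ℝ) (s : ℂ) : Differentiable ℂ (bd_D R s) := by
  unfold bd_D
  fun_prop

def bd_C (R : ℝ) (U : Set ℂ) (f : ℂ → ℂ) : Prop :=
  ∃ (m : ℕ) (ζ : Fin m → ℂ) (h : ℂ → ℂ), (∀ i, ζ i ∈ ball (1:ℂ) R) ∧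
      DifferentiableOn ℂ h U ∧ (∀ w ∈ ball (1:ℂ) R, h w ≠ 0) ∧ (∀ w ∈ sphere (1:ℂ) R, ‖h w‖ ≤ 1) ∧
      ∀ w ∈ ball (1:ℂ) R, f w = h w * ∏ i, ((R:ℂ) * (w - ζ i) / bd_D R (ζ i) w)

theorem bd_step {R : ℝ} (hR : 0 < R) {U : Set ℂ} (hU : IsOpen U) (hKU : closedBall (1:ℂ) R ⊆ U)
    {s : ℂ} (hs : s ∈ ball (1:ℂ) R) {f : ℂ → ℂ} (hf : DifferentiableOn ℂ f U) (hfs : f s = 0)
    (hne : ∃ z ∈ ball (1:ℂ) R, f z ≠ 0) (hb : ∀ z ∈ sphere (1:ℂ) R, ‖f z‖ ≤ 1) :
    ∃ f2 : ℂ → ℂ, DifferentiableOn ℂ f2 U ∧ (∃ z ∈ ball (1:ℂ) R, f2 z ≠ 0) ∧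
      (∀ z ∈ sphere (1:ℂ) R, ‖f2 z‖ ≤ 1) ∧ (∀ w ∈ ball (1:ℂ) R, w ≠ s → f2 w = 0 → f w = 0) ∧
      analyticOrderAt f s = 1 + analyticOrderAt f2 s ∧ (bd_C R U f2 → bd_C R U f) := by
  have hsU : s ∈ U := hKU (ball_subset_closedBall hs)
  have hRc : (R:ℂ) ≠ 0 := by exact_mod_cast hR.ne'
  have hd : DifferentiableOn ℂ (dslope f s) U :=
    (Complex.differentiableOn_dslope (hU.mem_nhds hsU)).2 hf
  have hds : ∀ w, w ≠ s → dslope f s w = f w / (w - s) := by
    intro w hw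
    rw [dslope_of_ne _ hw, slope_def_field, hfs, sub_zero]
  have hmul : ∀ w, f w = (w - s) * dslope f s w := by
    intro w
    have := sub_smul_dslope f s w
    rw [hfs, sub_zero, smul_eq_mul] at this
    exact this.symm
  have hf2d : DifferentiableOn ℂ (fun w => dslope f s w * (bd_D R s w / R)) U :=
    hd.mul ((bd_D_diff R s).div_const _).differentiableOn
  refine ⟨fun w => dslope f s w * (bd_D R s w / R), hf2d, ?_, ?_, ?_, ?_, ?_⟩
  · obtain ⟨z, hz, hfz⟩ := hne
    have hzs : z ≠ s := fun h => hfz (h ▸ hfs)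
    refine ⟨z, hz, ?_⟩
    show dslope f s z * (bd_D R s z / R) ≠ 0
    rw [hds z hzs]
    exact mul_ne_zero (div_ne_zero hfz (sub_ne_zero.2 hzs)) (div_ne_zero (bd_D_ne hR hs hz) hRc)
  · intro z hz
    have hzs : z ≠ s := by
      intro h
      rw [h, mem_sphere_iff_norm] at hz
      rw [mem_ball_iff_norm] at hs
      linarith
    show ‖dslope f s z * (bd_D R s z / R)‖ ≤ 1
    rw [hds z hzs, norm_mul, norm_div, norm_div, bd_D_sphere hR hz, Complex.norm_real,
      Real.norm_eq_abs, abs_of_pos hR]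
    have h1 : 0 < ‖z - s‖ := norm_pos_iff.2 (sub_ne_zero.2 hzs)
    have h2 : ‖f z‖ / ‖z - s‖ * (R * ‖z - s‖ / R) = ‖f z‖ := by field_simp
    rw [h2]
    exact hb z hz
  · intro w hw hws h
    have h' : dslope f s w * (bd_D R s w / R) = 0 := h
    rcases mul_eq_zero.1 h' with h1 | h1
    · rw [hmul, h1, mul_zero]
    · exact absurd h1 (div_ne_zero (bd_D_ne hR hs hw) hRc)
  · have ha1 : AnalyticAt ℂ (dslope f s) s := (hd.analyticAt (hU.mem_nhds hsU))
    have ha2 : AnalyticAt ℂ (fun w => bd_D R s w / R) s :=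
      (((bd_D_diff R s).div_const _).differentiableOn (s := Set.univ)).analyticAt Filter.univ_mem
    have ha3 : AnalyticAt ℂ (fun w : ℂ => w - s) s := by fun_prop
    have e1 : analyticOrderAt f s = analyticOrderAt (fun w : ℂ => w - s) s
        + analyticOrderAt (dslope f s) s := by
      rw [← analyticOrderAt_mul ha3 ha1]
      congr 1
      funext w
      exact hmul w
    have e2 : analyticOrderAt (fun w => dslope f s w * (bd_D R s w / R)) s
        = analyticOrderAt (dslope f s) s + analyticOrderAt (fun w => bd_D R s w / R) s := by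
      rw [← analyticOrderAt_mul ha1 ha2]
      rfl
    have e3 : analyticOrderAt (fun w => bd_D R s w / R) s = 0 := by
      rw [ha2.analyticOrderAt_eq_zero]
      exact div_ne_zero (bd_D_ne hR hs hs) hRc
    have e4 : analyticOrderAt (fun w : ℂ => w - s) s = 1 := by
      have : ((1 : ℕ) : ℕ∞) = 1 := rfl
      rw [← this, ha3.analyticOrderAt_eq_natCast]
      refine ⟨fun _ => 1, analyticAt_const, one_ne_zero, ?_⟩
      filter_upwards with z
      simp
    rw [e1, e4, e2, e3, add_zero]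
  · rintro ⟨m, ζ, h, h1, h2, h3, h4, h5⟩
    refine ⟨m + 1, Fin.cons s ζ, h, ?_, h2, h3, h4, ?_⟩
    · intro i
      refine Fin.cases ?_ (fun j => ?_) i
      · exact hs
      · exact h1 j
    · intro w hw
      rw [Fin.prod_univ_succ]
      simp only [Fin.cons_zero, Fin.cons_succ]
      have h6 : dslope f s w * (bd_D R s w / R) = h w * ∏ i, ((R:ℂ) * (w - ζ i) / bd_D R (ζ i) w) :=
        h5 w hw
      have h7 : bd_D R s w ≠ 0 := bd_D_ne hR hs hw
      calc f w = (w - s) * dslope f s w := hmul w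
        _ = (R:ℂ) * (w - s) / bd_D R s w * (dslope f s w * (bd_D R s w / R)) := by
            field_simp
        _ = (R:ℂ) * (w - s) / bd_D R s w * (h w * ∏ i, ((R:ℂ) * (w - ζ i) / bd_D R (ζ i) w)) := by
            rw [h6]
        _ = _ := by ring

theorem bd_core {R : ℝ} (hR : 0 < R) {U : Set ℂ} (hU : IsOpen U) (hKU : closedBall (1:ℂ) R ⊆ U)
    (S : Finset ℂ) : ∀ f : ℂ → ℂ, DifferentiableOn ℂ f U → (∃ z ∈ ball (1:ℂ) R, f z ≠ 0) →
      (∀ z ∈ sphere (1:ℂ) R, ‖f z‖ ≤ 1) → (∀ w ∈ ball (1:ℂ) R, f w = 0 → w ∈ S) →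
      bd_C R U f := by
  classical
  induction S using Finset.induction_on with
  | empty =>
    intro f hf _ hb hS
    refine ⟨0, Fin.elim0, f, fun i => i.elim0, hf, fun w hw h => ?_, hb, fun w _ => by simp⟩
    exact absurd (hS w hw h) (by simp)
  | insert s S' _ ih =>
    by_cases hs : s ∈ ball (1:ℂ) R
    · have hsU : s ∈ U := hKU (ball_subset_closedBall hs)
      have key : ∀ n : ℕ, ∀ f : ℂ → ℂ, DifferentiableOn ℂ f U → (∃ z ∈ ball (1:ℂ) R, f z ≠ 0) →
          (∀ z ∈ sphere (1:ℂ) R, ‖f z‖ ≤ 1) → (∀ w ∈ ball (1:ℂ) R, f w = 0 → w ∈ insert s S') →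
          analyticOrderAt f s = n → bd_C R U f := by
        intro n
        induction n with
        | zero =>
          intro f hf hne hb hS hn
          have ha : AnalyticAt ℂ f s := hf.analyticAt (hU.mem_nhds hsU)
          have hfs : f s ≠ 0 := ha.analyticOrderAt_eq_zero.1 (by rw [hn]; rfl)
          refine ih f hf hne hb (fun w hw h => ?_)
          rcases Finset.mem_insert.1 (hS w hw h) with h1 | h1
          · exact absurd (h1 ▸ h) hfs
          · exact h1
        | succ n ihn =>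
          intro f hf hne hb hS hn
          have ha : AnalyticAt ℂ f s := hf.analyticAt (hU.mem_nhds hsU)
          have hfs : f s = 0 := by
            by_contra h
            rw [ha.analyticOrderAt_eq_zero.2 h] at hn
            have : (0 : ℕ) = n + 1 := by exact_mod_cast hn
            omega
          obtain ⟨f2, h1, h2, h3, h4, h5, h6⟩ := bd_step hR hU hKU hs hf hfs hne hb
          apply h6
          refine ihn f2 h1 h2 h3 (fun w hw h => ?_) ?_
          · by_cases hws : w = s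
            · rw [hws]; exact Finset.mem_insert_self _ _
            · exact hS w hw (h4 w hw hws h)
          · rw [hn] at h5
            have h7 : ((n + 1 : ℕ) : ℕ∞) = 1 + (n : ℕ∞) := by push_cast; ring
            rw [h7] at h5
            exact (ENat.add_right_injective_of_ne_top (n := 1) (by simp) h5).symm
      intro f hf hne hb hS
      have hfin : analyticOrderAt f s ≠ ⊤ := by
        intro htop
        rw [analyticOrderAt_eq_top] at htop
        have hon : AnalyticOnNhd ℂ f (ball (1:ℂ) R) :=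
          (hf.mono (ball_subset_closedBall.trans hKU)).analyticOnNhd isOpen_ball
        have := hon.eqOn_zero_of_preconnected_of_eventuallyEq_zero
          (convex_ball (1:ℂ) R).isPreconnected hs htop
        obtain ⟨z, hz, hfz⟩ := hne
        exact hfz (this hz)
      obtain ⟨n, hn⟩ := ENat.ne_top_iff_exists.1 hfin
      exact key n f hf hne hb hS hn.symm
    · intro f hf hne hb hS
      refine ih f hf hne hb (fun w hw h => ?_)
      rcases Finset.mem_insert.1 (hS w hw h) with h1 | h1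
      · exact absurd (h1 ▸ hw) hs
      · exact h1

/-- Blaschke decomposition of an analytic function bounded by 1 on a circle centred at 1. -/
theorem blaschke_decomp (R : ℝ) (hR : 0 < R) (g : ℂ → ℂ) (hg : AnalyticOnNhd ℂ g (closedBall 1 R))
    (hne : ∃ z ∈ ball (1:ℂ) R, g z ≠ 0)
    (hb : ∀ z ∈ sphere (1:ℂ) R, ‖g z‖ ≤ 1) :
    ∃ (m : ℕ) (ζ : Fin m → ℂ) (h : ℂ → ℂ), (∀ i, ζ i ∈ ball (1:ℂ) R) ∧
      DifferentiableOn ℂ h (ball 1 R) ∧ (∀ w ∈ ball (1:ℂ) R, h w ≠ 0 ∧ ‖h w‖ ≤ 1) ∧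
      ∀ w ∈ ball (1:ℂ) R, g w = h w * ∏ i, ((R:ℂ) * (w - ζ i) /
        ((R:ℂ) ^ 2 - (w - 1) * (starRingEnd ℂ) (ζ i - 1))) := by
  have hU : IsOpen {z | AnalyticAt ℂ g z} := isOpen_analyticAt ℂ g
  have hKU : closedBall (1:ℂ) R ⊆ {z | AnalyticAt ℂ g z} := fun z hz => hg z hz
  have hdiff : DifferentiableOn ℂ g {z | AnalyticAt ℂ g z} := by
    intro z hz
    have hz' : AnalyticAt ℂ g z := hz
    exact hz'.differentiableAt.differentiableWithinAt
  have hfin : ({w | w ∈ ball (1:ℂ) R ∧ g w = 0}).Finite := by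
    by_contra hinf
    have hinf' : ({w | w ∈ ball (1:ℂ) R ∧ g w = 0}).Infinite := hinf
    obtain ⟨x, hx, hacc⟩ := hinf'.exists_accPt_of_subset_isCompact
      (isCompact_closedBall (1:ℂ) R) (fun w hw => ball_subset_closedBall hw.1)
    rw [accPt_iff_frequently] at hacc
    have hfreq : ∃ᶠ z in nhdsWithin x {x}ᶜ, g z = 0 := by
      rw [frequently_nhdsWithin_iff]
      exact hacc.mono (fun y hy => ⟨hy.2.2, hy.1⟩)
    have h0 := hg.eqOn_zero_of_preconnected_of_frequently_eq_zero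
      (convex_closedBall (1:ℂ) R).isPreconnected hx hfreq
    obtain ⟨z, hz, hgz⟩ := hne
    exact hgz (h0 (ball_subset_closedBall hz))
  obtain ⟨m, ζ, h, h1, h2, h3, h4, h5⟩ := bd_core hR hU hKU hfin.toFinset g hdiff hne hb
    (fun w hw hgw => by rw [Set.Finite.mem_toFinset]; exact ⟨hw, hgw⟩)
  refine ⟨m, ζ, h, h1, h2.mono (ball_subset_closedBall.trans hKU), fun w hw => ⟨h3 w hw, ?_⟩, h5⟩
  have hdc : DiffContOnCl ℂ h (ball (1:ℂ) R) := by
    apply DifferentiableOn.diffContOnCl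
    rw [closure_ball (1:ℂ) hR.ne']
    exact h2.mono hKU
  refine Complex.norm_le_of_forall_mem_frontier_norm_le isBounded_ball hdc ?_
    (subset_closure hw)
  intro z hz
  rw [frontier_ball (1:ℂ) hR.ne'] at hz
  exact h4 z hz

end MinMod.LD
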