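import Mathlib
import Pool.Agent.MP06ac62.Defs

set_option linter.all false
set_option maxHeartbeats 1000000

namespace MinMod.LH

open MinMod
open Metric

theorem harnack_log_aux (R : ℝ) (hR : 0 < R) (k : ℂ → ℂ) (hd : DifferentiableOn ℂ k (ball 1 R))
    (hp : ∀ w ∈ ball (1:ℂ) R, 0 < (k w).re) (w : ℂ) (hw : w ∈ ball (1:ℂ) R) :
    (R - ‖w - 1‖) * (k 1).re ≤ (R + ‖w - 1‖) * (k w).re ∧
    (R - ‖w - 1‖) * (k w).re ≤ (R + ‖w - 1‖) * (k 1).re := by
  have h1 : (1:ℂ) ∈ ball (1:ℂ) R := mem_ball_self hR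
  have hx1 := hp 1 h1
  have hne : ∀ z ∈ ball (1:ℂ) R, k z + (starRingEnd ℂ) (k 1) ≠ 0 := by
    intro z hz h0
    have := congrArg Complex.re h0
    simp only [Complex.add_re, Complex.conj_re, Complex.zero_re] at this
    linarith [hp z hz]
  obtain ⟨φ, hφ⟩ : ∃ φ : ℂ → ℂ, φ = fun z => (k z - k 1) / (k z + (starRingEnd ℂ) (k 1)) :=
    ⟨_, rfl⟩
  have hφ1 : φ 1 = 0 := by rw [hφ]; simp
  have hφd : DifferentiableOn ℂ φ (ball 1 R) := by
    rw [hφ]
    exact (hd.sub_const _).div (hd.add_const _) hne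
  have hsq : ∀ z : ℂ, ‖z‖ ^ 2 = z.re ^ 2 + z.im ^ 2 := by
    intro z
    rw [← Complex.normSq_eq_norm_sq, Complex.normSq_apply]
    ring
  have hmaps : Set.MapsTo φ (ball 1 R) (closedBall (φ 1) 1) := by
    intro z hz
    rw [hφ1, mem_closedBall_zero_iff, hφ]
    show ‖(k z - k 1) / (k z + (starRingEnd ℂ) (k 1))‖ ≤ 1
    rw [norm_div]
    have hpos : 0 < ‖k z + (starRingEnd ℂ) (k 1)‖ := norm_pos_iff.mpr (hne z hz)
    rw [div_le_one hpos]
    apply le_of_sq_le_sq _ hpos.le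
    rw [hsq, hsq]
    simp only [Complex.sub_re, Complex.sub_im, Complex.add_re, Complex.add_im, Complex.conj_re,
      Complex.conj_im]
    have := mul_pos (hp z hz) hx1
    nlinarith
  have hS := Complex.dist_le_div_mul_dist_of_mapsTo_ball hφd hmaps hw
  rw [hφ1, dist_zero_right, dist_eq_norm, hφ] at hS
  simp only at hS
  rw [norm_div] at hS
  have hpos : 0 < ‖k w + (starRingEnd ℂ) (k 1)‖ := norm_pos_iff.mpr (hne w hw)
  rw [div_le_iff₀ hpos] at hS
  have hsR : ‖w - 1‖ < R := by rwa [mem_ball, dist_eq_norm] at hw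
  have hs0 : 0 ≤ ‖w - 1‖ := norm_nonneg _
  generalize ‖w - 1‖ = s at *
  have hS2 : R * ‖k w - k 1‖ ≤ s * ‖k w + (starRingEnd ℂ) (k 1)‖ := by
    have := mul_le_mul_of_nonneg_left hS hR.le
    calc R * ‖k w - k 1‖ ≤ R * (1 / R * s * ‖k w + (starRingEnd ℂ) (k 1)‖) := this
      _ = s * ‖k w + (starRingEnd ℂ) (k 1)‖ := by field_simp
  have hS3 : R ^ 2 * ‖k w - k 1‖ ^ 2 ≤ s ^ 2 * ‖k w + (starRingEnd ℂ) (k 1)‖ ^ 2 := by
    rw [← mul_pow, ← mul_pow]
    exact pow_le_pow_left₀ (by positivity) hS2 2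
  rw [hsq, hsq] at hS3
  simp only [Complex.sub_re, Complex.sub_im, Complex.add_re, Complex.add_im, Complex.conj_re,
      Complex.conj_im] at hS3
  have hxw := hp w hw
  generalize (k w).re = x at *
  generalize (k 1).re = x1 at *
  generalize (k w).im = y at *
  generalize (k 1).im = y1 at *
  have h5 : (R * (x - x1)) ^ 2 ≤ (s * (x + x1)) ^ 2 := by
    have h6 : s ^ 2 ≤ R ^ 2 := by nlinarith
    have h7 : 0 ≤ (R ^ 2 - s ^ 2) * (y - y1) ^ 2 := mul_nonneg (by linarith) (sq_nonneg _)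
    nlinarith
  have h8 := abs_le_of_sq_le_sq' h5 (by positivity)
  constructor <;> nlinarith [h8.1, h8.2]

/-- Harnack's inequality for -log|h|, h zero-free and bounded by one on the disc |w-1|<R. -/
theorem harnack_log (R : ℝ) (hR : 0 < R) (h : ℂ → ℂ) (hd : DifferentiableOn ℂ h (ball 1 R))
    (hz : ∀ w ∈ ball (1:ℂ) R, h w ≠ 0 ∧ ‖h w‖ ≤ 1) (w : ℂ) (hw : w ∈ ball (1:ℂ) R) :
    (R - ‖w - 1‖) / (R + ‖w - 1‖) * (-Real.log ‖h 1‖) ≤ -Real.log ‖h w‖ ∧
    -Real.log ‖h w‖ ≤ (R + ‖w - 1‖) / (R - ‖w - 1‖) * (-Real.log ‖h 1‖) := by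
  have h1 : (1:ℂ) ∈ ball (1:ℂ) R := mem_ball_self hR
  have hd' : DifferentiableOn ℂ (fun z => -(deriv h z / h z)) (ball 1 R) :=
    ((hd.deriv isOpen_ball).div hd (fun z hzz => (hz z hzz).1)).neg
  obtain ⟨g, hg1, hg⟩ := hd'.isExactOn_ball.with_val_at 1 (-Complex.log (h 1))
  have hdh : ∀ z ∈ ball (1:ℂ) R, HasDerivAt h (deriv h z) z := fun z hzz =>
    (hd.differentiableAt (isOpen_ball.mem_nhds hzz)).hasDerivAt
  have hF : ∀ z ∈ ball (1:ℂ) R, HasDerivAt (fun z => h z * Complex.exp (g z)) 0 z := by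
    intro z hzz
    have h2 := (hdh z hzz).mul ((hg z hzz).cexp)
    refine h2.congr_deriv ?_
    have h3 := (hz z hzz).1
    field_simp
    ring
  have hconst : ∀ z ∈ ball (1:ℂ) R, h z * Complex.exp (g z) = 1 := by
    intro z hzz
    have h4 := isOpen_ball.is_const_of_deriv_eq_zero (convex_ball (1:ℂ) R).isPreconnected
      (fun y hy => (hF y hy).differentiableAt.differentiableWithinAt)
      (fun y hy => (hF y hy).deriv) hzz h1
    rw [h4, hg1, Complex.exp_neg, Complex.exp_log (hz 1 h1).1, mul_inv_cancel₀ (hz 1 h1).1]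
  have hre : ∀ z ∈ ball (1:ℂ) R, -Real.log ‖h z‖ = (g z).re := by
    intro z hzz
    have h5 := congrArg norm (hconst z hzz)
    rw [norm_mul, Complex.norm_exp, norm_one] at h5
    have h6 : ‖h z‖ = Real.exp (-(g z).re) := by
      rw [Real.exp_neg]
      exact eq_inv_of_mul_eq_one_left h5
    rw [h6, Real.log_exp, neg_neg]
  have hnn : ∀ z ∈ ball (1:ℂ) R, 0 ≤ (g z).re := by
    intro z hzz
    rw [← hre z hzz]
    have := Real.log_nonpos (norm_nonneg _) (hz z hzz).2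
    linarith
  have hgd : DifferentiableOn ℂ g (ball 1 R) := fun z hzz =>
    (hg z hzz).differentiableAt.differentiableWithinAt
  have hsR : ‖w - 1‖ < R := by rwa [mem_ball, dist_eq_norm] at hw
  have hs0 : 0 ≤ ‖w - 1‖ := norm_nonneg _
  have key : ∀ ε : ℝ, 0 < ε → (R - ‖w - 1‖) * ((g 1).re + ε) ≤ (R + ‖w - 1‖) * ((g w).re + ε) ∧
    (R - ‖w - 1‖) * ((g w).re + ε) ≤ (R + ‖w - 1‖) * ((g 1).re + ε) := by
    intro ε hε
    have h7 := harnack_log_aux R hR (fun z => g z + (ε : ℂ)) (hgd.add_const _)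
      (fun z hzz => by
        simp only [Complex.add_re, Complex.ofReal_re]
        linarith [hnn z hzz]) w hw
    simpa only [Complex.add_re, Complex.ofReal_re] using h7
  rw [hre 1 h1, hre w hw]
  generalize ‖w - 1‖ = s at *
  have hp1 : 0 < R + s := by linarith
  have hp2 : 0 < R - s := by linarith
  constructor
  · rw [div_mul_eq_mul_div, div_le_iff₀ hp1]
    apply le_of_forall_pos_le_add
    intro ε hε
    have h8 := (key (ε / (2 * s + 1)) (by positivity)).1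
    have h9 : ε / (2 * s + 1) * (2 * s + 1) = ε := div_mul_cancel₀ _ (by positivity)
    have h10 : 0 < ε / (2 * s + 1) := by positivity
    nlinarith
  · rw [div_mul_eq_mul_div, le_div_iff₀ hp2]
    apply le_of_forall_pos_le_add
    intro ε hε
    have h8 := (key (ε / (2 * s + 1)) (by positivity)).2
    have h9 : ε / (2 * s + 1) * (2 * s + 1) = ε := div_mul_cancel₀ _ (by positivity)
    have h10 : 0 < ε / (2 * s + 1) := by positivity
    nlinarith

end MinMod.LH
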