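import Mathlib
import Pool.Agent.MP06ac62.Defs
import Pool.Agent.MP06ac62.LD
import Pool.Agent.MP06ac62.LH
import Pool.Agent.MP06ac62.LC

set_option linter.all false
set_option maxHeartbeats 1000000

namespace MinMod.LS

open MinMod
open MinMod.LD
open MinMod.LH
open MinMod.LC
open Metric MeasureTheory




noncomputable def ls_D (R : ℝ) (ζ w : ℂ) : ℝ :=
  ‖(R:ℂ) ^ 2 - (w - 1) * (starRingEnd ℂ) (ζ - 1)‖
noncomputable def ls_B (R : ℝ) (ζ w : ℂ) : ℝ :=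
  ‖(R:ℂ) * (w - ζ) / ((R:ℂ) ^ 2 - (w - 1) * (starRingEnd ℂ) (ζ - 1))‖

theorem ls_ident (R : ℝ) (ζ w : ℂ) : (ls_D R ζ w) ^ 2 - R ^ 2 * ‖w - ζ‖ ^ 2 =
    (R ^ 2 - ‖w - 1‖ ^ 2) * (R ^ 2 - ‖ζ - 1‖ ^ 2) := by
  unfold ls_D
  rw [Complex.sq_norm, Complex.sq_norm, Complex.sq_norm, Complex.sq_norm]
  simp only [Complex.normSq_apply, Complex.sub_re, Complex.sub_im, Complex.mul_re, Complex.mul_im,
    Complex.conj_re, Complex.conj_im, Complex.one_re, Complex.one_im, pow_two, Complex.ofReal_re,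
    Complex.ofReal_im]
  ring

theorem ls_D_le (R : ℝ) (ζ w : ℂ) : ls_D R ζ w ≤ R ^ 2 + ‖w - 1‖ * ‖ζ - 1‖ := by
  unfold ls_D
  refine (norm_sub_le _ _).trans ?_
  rw [norm_pow, Complex.norm_real, norm_mul, Complex.norm_conj, Real.norm_eq_abs, sq_abs]

theorem ls_D_ge (R : ℝ) (ζ w : ℂ) : R ^ 2 - ‖w - 1‖ * ‖ζ - 1‖ ≤ ls_D R ζ w := by
  unfold ls_D
  refine le_trans ?_ (norm_sub_norm_le _ _)
  rw [norm_pow, Complex.norm_real, norm_mul, Complex.norm_conj, Real.norm_eq_abs, sq_abs]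

theorem ls_B_eq (R : ℝ) (hR : 0 < R) (ζ w : ℂ) : ls_B R ζ w = R * ‖w - ζ‖ / ls_D R ζ w := by
  unfold ls_B ls_D
  rw [norm_div, norm_mul, Complex.norm_real, Real.norm_eq_abs, abs_of_pos hR]

theorem ls_one_sub (R : ℝ) (hR : 0 < R) (ζ w : ℂ) (hD : 0 < ls_D R ζ w) :
    1 - (ls_B R ζ w) ^ 2 = (R ^ 2 - ‖w - 1‖ ^ 2) * (R ^ 2 - ‖ζ - 1‖ ^ 2) / (ls_D R ζ w) ^ 2 := by
  rw [← ls_ident, ls_B_eq R hR]
  field_simp

theorem ls_log1 {x : ℝ} (hx : 0 < x) : (1 - x ^ 2) / 2 ≤ -Real.log x := by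
  have h := Real.log_le_sub_one_of_pos (pow_pos hx 2)
  rw [Real.log_pow] at h
  push_cast at h
  linarith

theorem ls_log2 {x : ℝ} (hx : 0 < x) : -Real.log x ≤ (1 - x ^ 2) / (2 * x ^ 2) := by
  have h := Real.one_sub_inv_le_log_of_pos (pow_pos hx 2)
  rw [Real.log_pow] at h
  push_cast at h
  have h2 : (1 - x ^ 2) / (2 * x ^ 2) = ((x ^ 2)⁻¹ - 1) / 2 := by
    field_simp
  linarith

/-- the algebra of step 1 -/
theorem ls_alg (ε δ A R q X S N sc H1 : ℝ) (hε : 0 < ε) (hε1 : ε ≤ 1) (hδ : 0 < δ) (hδ1 : δ ≤ ε / 100)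
    (hA : 1 ≤ A) (hR2 : 1 - δ ^ 2 ≤ R ^ 2) (hX : 0 < X) (hXq : 2 * q * (1 - 2 * δ) ≤ X)
    (hN0 : 0 ≤ N)
    (hS : S ≤ (2 + 2 * (ε / 50)) * A * q)
    (h1 : N * (X * (R ^ 2 - (ε / 100) ^ 2) / (2 * (1 + ε / 100) ^ 2)) ≤ S)
    (h2 : X / 8 * sc ≤ S) (h3 : X / 4 * H1 ≤ S) :
    N ≤ (2 + ε) * A ∧ sc ≤ 20 * A ∧ H1 ≤ 10 * A := by
  have hd : 0 < 1 - 2 * δ := by linarith
  have hq : q ≤ X / (2 * (1 - 2 * δ)) := by
    rw [le_div_iff₀ (by linarith)]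
    linarith
  have hS2 : S ≤ (1 + ε / 50) * A * (X / (1 - 2 * δ)) := by
    refine hS.trans ?_
    have e1 : (1 + ε / 50) * A * (X / (1 - 2 * δ)) = (2 + 2 * (ε / 50)) * A * (X / (2 * (1 - 2 * δ))) := by
      field_simp
    rw [e1]
    exact mul_le_mul_of_nonneg_left hq (by positivity)
  have hS3 : S * (1 - 2 * δ) ≤ (1 + ε / 50) * A * X := by
    have := mul_le_mul_of_nonneg_right hS2 hd.le
    refine this.trans (le_of_eq ?_)
    field_simp
  have hAX : 0 ≤ A * X := by positivity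
  have hS4 : S ≤ (21 / 20) * A * X := by
    have h5 : S * (98 / 100) ≤ (1 + ε / 50) * A * X := by
      by_cases hSn : 0 ≤ S
      · have : S * (98 / 100) ≤ S * (1 - 2 * δ) := mul_le_mul_of_nonneg_left (by linarith) hSn
        linarith
      · push Not at hSn
        have : 0 ≤ (1 + ε / 50) * A * X := by positivity
        linarith
    have h6 : (1 + ε / 50) * A * X ≤ (102 / 100) * A * X := by
      have h61 := mul_le_mul_of_nonneg_right (by linarith : 1 + ε / 50 ≤ 102 / 100) hAX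
      linarith
    linarith
  refine ⟨?_, ?_, ?_⟩
  · have hδ2 : δ ^ 2 ≤ (ε / 100) ^ 2 := by
      apply pow_le_pow_left₀ hδ.le hδ1
    have hee : ε ^ 2 ≤ ε := by nlinarith
    have hRR : 1 - ε / 1000 ≤ R ^ 2 - (ε / 100) ^ 2 := by
      have : (ε / 100) ^ 2 = ε ^ 2 / 10000 := by ring
      rw [this] at hδ2 ⊢
      linarith
    -- N (R²-ρ²) (1-2δ) ≤ 2 (1+ρ)² (1+κ) A
    have hpos : 0 < X / (2 * (1 + ε / 100) ^ 2) := by positivity
    have h4 : N * (R ^ 2 - (ε / 100) ^ 2) * (1 - 2 * δ) * (X / (2 * (1 + ε / 100) ^ 2)) ≤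
        (1 + ε / 50) * A * X := by
      have h41 := mul_le_mul_of_nonneg_right h1 hd.le
      refine le_trans (le_of_eq ?_) (h41.trans hS3)
      ring
    have h5 : N * (R ^ 2 - (ε / 100) ^ 2) * (1 - 2 * δ) ≤ 2 * (1 + ε / 100) ^ 2 * (1 + ε / 50) * A := by
      have h51 : (1 + ε / 50) * A * X =
          (2 * (1 + ε / 100) ^ 2 * (1 + ε / 50) * A) * (X / (2 * (1 + ε / 100) ^ 2)) := by
        field_simp
      rw [h51] at h4
      exact le_of_mul_le_mul_right h4 hpos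
    have h6 : N * ((1 - ε / 1000) * (1 - ε / 50)) ≤ N * ((R ^ 2 - (ε / 100) ^ 2) * (1 - 2 * δ)) := by
      apply mul_le_mul_of_nonneg_left _ hN0
      apply mul_le_mul hRR (by linarith) (by linarith) (by linarith)
    have h7 : N * (1 - ε / 10) ≤ N * ((1 - ε / 1000) * (1 - ε / 50)) := by
      apply mul_le_mul_of_nonneg_left _ hN0
      have e1 : (1 - ε / 1000) * (1 - ε / 50) = 1 - ε / 1000 - ε / 50 + ε ^ 2 / 50000 := by ring
      rw [e1]
      linarith [sq_nonneg ε]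
    have h8 : 2 * (1 + ε / 100) ^ 2 * (1 + ε / 50) * A ≤ 2 * (1 + ε / 10) * A := by
      apply mul_le_mul_of_nonneg_right _ (by linarith)
      have e3 : ε ^ 3 ≤ ε := by
        have : ε ^ 3 = ε * ε ^ 2 := by ring
        rw [this]
        calc ε * ε ^ 2 ≤ ε * 1 := mul_le_mul_of_nonneg_left (by linarith) hε.le
          _ = ε := mul_one _
      have e1 : 2 * (1 + ε / 100) ^ 2 * (1 + ε / 50) =
        2 + ε / 25 + ε / 25 + ε ^ 2 / 1250 + ε ^ 2 / 5000 + ε ^ 3 / 250000 := by ring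
      rw [e1]
      linarith
    have h9 : 2 * (1 + ε / 10) * A ≤ (2 + ε) * A * (1 - ε / 10) := by
      have h91 : 2 * (1 + ε / 10) ≤ (2 + ε) * (1 - ε / 10) := by
        have e1 : (2 + ε) * (1 - ε / 10) = 2 + ε - ε / 5 - ε ^ 2 / 10 := by ring
        rw [e1]
        linarith
      have h92 := mul_le_mul_of_nonneg_right h91 (by linarith : (0:ℝ) ≤ A)
      refine h92.trans (le_of_eq ?_)
      ring
    have h10 : N * (1 - ε / 10) ≤ (2 + ε) * A * (1 - ε / 10) := by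
      calc N * (1 - ε / 10) ≤ N * ((R ^ 2 - (ε / 100) ^ 2) * (1 - 2 * δ)) := h7.trans h6
        _ = N * (R ^ 2 - (ε / 100) ^ 2) * (1 - 2 * δ) := by ring
        _ ≤ _ := h5.trans (h8.trans h9)
    exact le_of_mul_le_mul_right h10 (by linarith)
  · have h4 : X / 8 * sc ≤ X / 8 * (20 * A) := by
      have : 0 ≤ A * X := by positivity
      linarith
    exact le_of_mul_le_mul_left h4 (by positivity)
  · have h4 : X / 4 * H1 ≤ X / 4 * (10 * A) := by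
      have : 0 ≤ A * X := by positivity
      linarith
    exact le_of_mul_le_mul_left h4 (by positivity)

theorem ls_Bpos {m : ℕ} (R A : ℝ) (F h : ℂ → ℂ) (ζ : Fin m → ℂ) (w : ℂ)
    (hdec : F w * Complex.exp (-(2 * A * w)) = h w * ∏ i, ((R:ℂ) * (w - ζ i) /
        ((R:ℂ) ^ 2 - (w - 1) * (starRingEnd ℂ) (ζ i - 1))))
    (hF : F w ≠ 0) : ∀ i, 0 < ls_B R (ζ i) w := by
  intro i
  have h1 : F w * Complex.exp (-(2 * A * w)) ≠ 0 := mul_ne_zero hF (Complex.exp_ne_zero _)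
  rw [hdec] at h1
  have h2 := right_ne_zero_of_mul h1
  rw [Finset.prod_ne_zero_iff] at h2
  exact norm_pos_iff.mpr (h2 i (Finset.mem_univ i))

theorem ls_logF {m : ℕ} (R A : ℝ) (F h : ℂ → ℂ) (ζ : Fin m → ℂ) (w : ℂ)
    (hdec : F w * Complex.exp (-(2 * A * w)) = h w * ∏ i, ((R:ℂ) * (w - ζ i) /
        ((R:ℂ) ^ 2 - (w - 1) * (starRingEnd ℂ) (ζ i - 1))))
    (hh : h w ≠ 0) (hB : ∀ i, 0 < ls_B R (ζ i) w) :
    F w ≠ 0 ∧ Real.log ‖F w‖ = 2 * A * w.re + Real.log ‖h w‖ +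
      ∑ i, Real.log (ls_B R (ζ i) w) := by
  have h1 := congrArg norm hdec
  rw [norm_mul, norm_mul, norm_prod, Complex.norm_exp] at h1
  have hre : (-(2 * A * w : ℂ)).re = -(2 * A * w.re) := by simp
  rw [hre] at h1
  have h2 : ∏ i, ‖((R:ℂ) * (w - ζ i) / ((R:ℂ) ^ 2 - (w - 1) * (starRingEnd ℂ) (ζ i - 1)))‖ =
      ∏ i, ls_B R (ζ i) w := rfl
  rw [h2] at h1
  have hp : 0 < ∏ i, ls_B R (ζ i) w := Finset.prod_pos (fun i _ => hB i)
  have hhp : 0 < ‖h w‖ := norm_pos_iff.mpr hh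
  have hF : F w ≠ 0 := by
    intro h0
    rw [h0, norm_zero, zero_mul] at h1
    exact (mul_pos hhp hp).ne h1
  refine ⟨hF, ?_⟩
  have hFp : 0 < ‖F w‖ := norm_pos_iff.mpr hF
  have h3 := congrArg Real.log h1
  rw [Real.log_mul hFp.ne' (Real.exp_pos _).ne', Real.log_exp, Real.log_mul hhp.ne' hp.ne',
    Real.log_prod (fun i _ => (hB i).ne')] at h3
  linarith

/-- pointwise estimate (step 2) -/
theorem ls_point {m : ℕ} (ε R A : ℝ) (hε : 0 < ε) (hε1 : ε ≤ 1) (hA : 1 ≤ A) (hR : 0 < R)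
    (hR1 : R < 1) (hR2 : 9 / 10 ≤ R ^ 2) (F h : ℂ → ℂ) (ζ : Fin m → ℂ)
    (hζ : ∀ i, ‖ζ i - 1‖ < R)
    (hd : DifferentiableOn ℂ h (ball 1 R)) (hh : ∀ w ∈ ball (1:ℂ) R, h w ≠ 0 ∧ ‖h w‖ ≤ 1)
    (hdec : ∀ w ∈ ball (1:ℂ) R, F w * Complex.exp (-(2 * A * w)) = h w * ∏ i, ((R:ℂ) * (w - ζ i) /
        ((R:ℂ) ^ 2 - (w - 1) * (starRingEnd ℂ) (ζ i - 1))))
    (hc : ∑ i, (R ^ 2 - ‖ζ i - 1‖ ^ 2) ≤ 20 * A) (hH : -Real.log ‖h 1‖ ≤ 10 * A)
    (w : ℂ) (hw : ‖w - 1‖ ≤ ε / 200)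
    (hnear : ∀ i ∈ Finset.univ.filter (fun i => ‖ζ i - 1‖ < ε / 100), w ≠ ζ i) :
    F w ≠ 0 ∧ -Real.log ‖F w‖ ≤ (20 + 2560 / (ε / 100) ^ 2) * A +
      ∑ i ∈ Finset.univ.filter (fun i => ‖ζ i - 1‖ < ε / 100), Real.log (4 / ‖w - ζ i‖) := by
  have hRR : 9 / 10 ≤ R := by nlinarith
  have hR2' : R ^ 2 ≤ 1 := by nlinarith
  have hwR : ‖w - 1‖ < R := by linarith
  have hwb : w ∈ ball (1:ℂ) R := by rwa [mem_ball, dist_eq_norm]
  have h1b : (1:ℂ) ∈ ball (1:ℂ) R := mem_ball_self hR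
  have hw0 := norm_nonneg (w - 1)
  have hDge : ∀ i, 1 / 2 ≤ ls_D R (ζ i) w := by
    intro i
    have h1 := ls_D_ge R (ζ i) w
    have h2 : ‖w - 1‖ * ‖ζ i - 1‖ ≤ 1 / 200 * 1 := by
      apply mul_le_mul (by linarith) (by linarith [hζ i]) (norm_nonneg _) (by norm_num)
    linarith
  have hDle : ∀ i, ls_D R (ζ i) w ≤ 2 := by
    intro i
    have h1 := ls_D_le R (ζ i) w
    have h2 : ‖w - 1‖ * ‖ζ i - 1‖ ≤ 1 * 1 := by
      apply mul_le_mul (by linarith) (by linarith [hζ i]) (norm_nonneg _) (by norm_num)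
    linarith
  have hDpos : ∀ i, 0 < ls_D R (ζ i) w := fun i => by linarith [hDge i]
  have hBge : ∀ i, ‖w - ζ i‖ / 4 ≤ ls_B R (ζ i) w := by
    intro i
    rw [ls_B_eq R hR, le_div_iff₀ (hDpos i)]
    have h1 := norm_nonneg (w - ζ i)
    have h2 : ‖w - ζ i‖ / 4 * ls_D R (ζ i) w ≤ ‖w - ζ i‖ / 4 * 2 :=
      mul_le_mul_of_nonneg_left (hDle i) (by linarith)
    nlinarith
  set Nr := Finset.univ.filter (fun i => ‖ζ i - 1‖ < ε / 100) with hNr
  have hfar : ∀ i, i ∉ Nr → ε / 100 / 8 ≤ ls_B R (ζ i) w := by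
    intro i hi
    rw [hNr, Finset.mem_filter, not_and] at hi
    have hi' := not_lt.mp (hi (Finset.mem_univ i))
    have h1 : ε / 200 ≤ ‖w - ζ i‖ := by
      have h2 : ζ i - 1 = (w - 1) - (w - ζ i) := by ring
      have h3 := norm_sub_le (w - 1) (w - ζ i)
      rw [← h2] at h3
      linarith
    linarith [hBge i]
  have hBpos : ∀ i, 0 < ls_B R (ζ i) w := by
    intro i
    by_cases hi : i ∈ Nr
    · have h1 : 0 < ‖w - ζ i‖ := norm_pos_iff.mpr (sub_ne_zero.mpr (hnear i hi))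
      linarith [hBge i]
    · have := hfar i hi
      linarith
  obtain ⟨hF, hlog⟩ := ls_logF R A F h ζ w (hdec w hwb) (hh w hwb).1 hBpos
  refine ⟨hF, ?_⟩
  have hcpos : ∀ i, 0 ≤ R ^ 2 - ‖ζ i - 1‖ ^ 2 := by
    intro i
    have := pow_le_pow_left₀ (norm_nonneg _) (hζ i).le 2
    linarith
  -- the bounds on the factors
  have hfar2 : ∀ i, i ∉ Nr → -Real.log (ls_B R (ζ i) w) ≤ 128 / (ε / 100) ^ 2 * (R ^ 2 - ‖ζ i - 1‖ ^ 2) := by
    intro i hi
    have hb := hfar i hi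
    have hβ : 0 < ε / 100 / 8 := by positivity
    refine (ls_log2 (hBpos i)).trans ?_
    rw [ls_one_sub R hR _ _ (hDpos i)]
    have h1 : (R ^ 2 - ‖w - 1‖ ^ 2) * (R ^ 2 - ‖ζ i - 1‖ ^ 2) / ls_D R (ζ i) w ^ 2 ≤
        4 * (R ^ 2 - ‖ζ i - 1‖ ^ 2) := by
      rw [div_le_iff₀ (pow_pos (hDpos i) 2)]
      have h2 : (1:ℝ) / 4 ≤ ls_D R (ζ i) w ^ 2 := by
        have := pow_le_pow_left₀ (by norm_num : (0:ℝ) ≤ 1 / 2) (hDge i) 2
        linarith
      have h3 : (R ^ 2 - ‖w - 1‖ ^ 2) * (R ^ 2 - ‖ζ i - 1‖ ^ 2) ≤ 1 * (R ^ 2 - ‖ζ i - 1‖ ^ 2) := by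
        apply mul_le_mul_of_nonneg_right _ (hcpos i)
        linarith [sq_nonneg ‖w - 1‖]
      have h4 : 4 * (R ^ 2 - ‖ζ i - 1‖ ^ 2) * (1 / 4) ≤
          4 * (R ^ 2 - ‖ζ i - 1‖ ^ 2) * ls_D R (ζ i) w ^ 2 :=
        mul_le_mul_of_nonneg_left h2 (by linarith [hcpos i])
      linarith
    rw [div_le_iff₀ (by have := hBpos i; positivity)]
    have h5 : 2 * (ε / 100 / 8) ^ 2 ≤ 2 * ls_B R (ζ i) w ^ 2 := by
      have := pow_le_pow_left₀ hβ.le hb 2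
      linarith
    have h6 : 128 / (ε / 100) ^ 2 * (R ^ 2 - ‖ζ i - 1‖ ^ 2) * (2 * (ε / 100 / 8) ^ 2) =
        4 * (R ^ 2 - ‖ζ i - 1‖ ^ 2) := by
      field_simp
      ring
    have h7 : 128 / (ε / 100) ^ 2 * (R ^ 2 - ‖ζ i - 1‖ ^ 2) * (2 * (ε / 100 / 8) ^ 2) ≤
        128 / (ε / 100) ^ 2 * (R ^ 2 - ‖ζ i - 1‖ ^ 2) * (2 * ls_B R (ζ i) w ^ 2) :=
      mul_le_mul_of_nonneg_left h5 (mul_nonneg (by positivity) (hcpos i))
    linarith
  have hnear2 : ∀ i ∈ Nr, -Real.log (ls_B R (ζ i) w) ≤ Real.log (4 / ‖w - ζ i‖) := by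
    intro i hi
    have h1 : 0 < ‖w - ζ i‖ := norm_pos_iff.mpr (sub_ne_zero.mpr (hnear i hi))
    have h2 := Real.log_le_log (by positivity) (hBge i)
    have h3 : Real.log (4 / ‖w - ζ i‖) = -Real.log (‖w - ζ i‖ / 4) := by
      rw [← Real.log_inv, inv_div]
    linarith
  have hsum : ∑ i, -Real.log (ls_B R (ζ i) w) ≤ ∑ i ∈ Nr, Real.log (4 / ‖w - ζ i‖) +
      128 / (ε / 100) ^ 2 * (20 * A) := by
    rw [← Finset.sum_filter_add_sum_filter_not Finset.univ (fun i => ‖ζ i - 1‖ < ε / 100)]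
    apply add_le_add
    · exact Finset.sum_le_sum hnear2
    · have h1 : ∑ i ∈ Finset.univ.filter (fun i => ¬ ‖ζ i - 1‖ < ε / 100), -Real.log (ls_B R (ζ i) w) ≤
          ∑ i ∈ Finset.univ.filter (fun i => ¬ ‖ζ i - 1‖ < ε / 100),
            128 / (ε / 100) ^ 2 * (R ^ 2 - ‖ζ i - 1‖ ^ 2) := by
        apply Finset.sum_le_sum
        intro i hi
        apply hfar2 i
        intro h0
        exact (Finset.mem_filter.mp hi).2 (Finset.mem_filter.mp h0).2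
      have h2 : ∑ i ∈ Finset.univ.filter (fun i => ¬ ‖ζ i - 1‖ < ε / 100),
            128 / (ε / 100) ^ 2 * (R ^ 2 - ‖ζ i - 1‖ ^ 2) ≤
          128 / (ε / 100) ^ 2 * ∑ i, (R ^ 2 - ‖ζ i - 1‖ ^ 2) := by
        rw [Finset.mul_sum Finset.univ]
        apply Finset.sum_le_sum_of_subset_of_nonneg (Finset.filter_subset _ _)
        intro i _ _
        exact mul_nonneg (by positivity) (hcpos i)
      have h3 := mul_le_mul_of_nonneg_left hc (by positivity : 0 ≤ 128 / (ε / 100) ^ 2)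
      linarith
  rw [Finset.sum_neg_distrib] at hsum
  -- the zero free part
  have hH2 : -Real.log ‖h w‖ ≤ 20 * A := by
    have h1 := (harnack_log R hR h hd hh w hwb).2
    have h2 : (R + ‖w - 1‖) / (R - ‖w - 1‖) ≤ 2 := by
      rw [div_le_iff₀ (by linarith)]
      linarith
    have h3 : 0 ≤ -Real.log ‖h 1‖ := by
      have := Real.log_nonpos (norm_nonneg _) (hh 1 h1b).2
      linarith
    have h4 := mul_le_mul_of_nonneg_right h2 h3
    linarith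
  have hre : 0 ≤ w.re := by
    have h1 := Complex.abs_re_le_norm (w - 1)
    rw [Complex.sub_re, Complex.one_re] at h1
    have h2 := abs_le.mp h1
    linarith
  have hre2 : 0 ≤ 2 * A * w.re := by positivity
  have e1 : 128 / (ε / 100) ^ 2 * (20 * A) = 2560 / (ε / 100) ^ 2 * A := by ring
  rw [e1] at hsum
  rw [hlog]
  linarith

/-- TARGET. -/
theorem disc_estimate (ε : ℝ) (hε : 0 < ε) (hε1 : ε ≤ 1) :
    ∃ ρ > 0, ρ ≤ 1/8 ∧ ∃ κ > 0, ∃ δ0 > 0, ∃ C > 0, ∀ δ : ℝ, 0 < δ → δ ≤ δ0 →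
      ∀ A : ℝ, 1 ≤ A → ∀ R : ℝ, 0 < R → R < 1 → 1 - δ ^ 2 ≤ R ^ 2 →
      ∀ F : ℂ → ℂ, AnalyticOnNhd ℂ F (closedBall 1 R) →
      (∀ w ∈ sphere (1:ℂ) R, ‖F w‖ ≤ Real.exp (A * ‖w‖ ^ 2)) →
      (∃ φ : ℝ, |φ| ≤ Real.pi / 4 ∧
        Real.exp (-(κ * A * δ)) < ‖F (δ * Complex.exp (φ * Complex.I))‖) →
      ∀ T l : ℝ, 0 < l → l ≤ 1 → ∀ E : Set ℝ, ENNReal.ofReal l < volume E →
      (∀ x ∈ E, ∃ w : ℂ, ‖w‖ = x ∧ ‖w - 1‖ ≤ ρ ∧ ‖F w‖ ≤ Real.exp (-(T * A))) →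
      T ≤ (2 + ε) * Real.log (1 / l) + C := by
  refine ⟨ε / 200, by positivity, by linarith, ε / 50, by positivity, ε / 100, by positivity,
    32 + 2560 / (ε / 100) ^ 2, by positivity, ?_⟩
  intro δ hδ hδ0 A hA R hR hR1 hR2 F hF hFb hφ0 T l hl hl1 E hE hEF
  obtain ⟨φ, hφ, hφF⟩ := hφ0
  have hA0 : 0 < A := by linarith
  have hδ2 : δ ≤ 1 / 100 := by linarith
  have hR9 : 9 / 10 ≤ R ^ 2 := by nlinarith
  have hR2' : R ^ 2 ≤ 1 := by nlinarith
  -- the base point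
  have hcos : 1 / 2 ≤ Real.cos φ := by
    rw [← Real.cos_abs φ, ← Real.cos_pi_div_three]
    apply Real.cos_le_cos_of_nonneg_of_le_pi (abs_nonneg _)
    · linarith [Real.pi_pos]
    · linarith [Real.pi_pos]
  have hcos1 := Real.cos_le_one φ
  set w0 : ℂ := δ * Complex.exp (φ * Complex.I) with hw0
  have hre0 : w0.re = δ * Real.cos φ := by
    rw [hw0, Complex.re_ofReal_mul, Complex.exp_ofReal_mul_I_re]
  have him0 : w0.im = δ * Real.sin φ := by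
    rw [hw0, Complex.im_ofReal_mul, Complex.exp_ofReal_mul_I_im]
  have hs2 : ‖w0 - 1‖ ^ 2 = 1 - 2 * (δ * Real.cos φ) + δ ^ 2 := by
    rw [Complex.sq_norm, Complex.normSq_apply]
    simp only [Complex.sub_re, Complex.sub_im, Complex.one_re, Complex.one_im, hre0, him0, sub_zero]
    have := Real.sin_sq_add_cos_sq φ
    linear_combination δ ^ 2 * this
  set q : ℝ := δ * Real.cos φ with hq
  have hqδ : δ ≤ 2 * q := by rw [hq]; nlinarith
  have hq0 : 0 < q := by linarith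
  set X : ℝ := R ^ 2 - ‖w0 - 1‖ ^ 2 with hX
  have hXq : 2 * q * (1 - 2 * δ) ≤ X := by
    rw [hX, hs2]
    nlinarith
  have hX0 : 0 < X := lt_of_lt_of_le (mul_pos (by linarith) (by linarith)) hXq
  have hw0R : ‖w0 - 1‖ < R := by
    by_contra hcon
    push Not at hcon
    have := pow_le_pow_left₀ hR.le hcon 2
    linarith
  have hw0b : w0 ∈ ball (1:ℂ) R := by rwa [mem_ball, dist_eq_norm]
  have hFpos : 0 < ‖F w0‖ := lt_trans (Real.exp_pos _) hφF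
  have hFne : F w0 ≠ 0 := norm_pos_iff.mp hFpos
  -- the decomposition
  have hg : AnalyticOnNhd ℂ (fun w => F w * Complex.exp (-(2 * A * w))) (closedBall 1 R) := by
    intro z hz
    have h1 : Differentiable ℂ (fun w : ℂ => Complex.exp (-(2 * A * w))) := by fun_prop
    exact (hF z hz).mul (h1.analyticAt z)
  obtain ⟨m, ζ, h, hζ, hd, hh, hdec⟩ := blaschke_decomp R hR _ hg
    ⟨w0, hw0b, mul_ne_zero hFne (Complex.exp_ne_zero _)⟩ (by
      intro z hz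
      have hzR : ‖z - 1‖ = R := by rwa [mem_sphere, dist_eq_norm] at hz
      have h1 : ‖z‖ ^ 2 = R ^ 2 - 1 + 2 * z.re := by
        rw [← hzR, Complex.sq_norm, Complex.sq_norm, Complex.normSq_apply, Complex.normSq_apply]
        simp only [Complex.sub_re, Complex.sub_im, Complex.one_re, Complex.one_im]
        ring
      rw [norm_mul, Complex.norm_exp]
      have hre : (-(2 * A * z : ℂ)).re = -(2 * A * z.re) := by simp
      rw [hre]
      have h2 := mul_le_mul_of_nonneg_right (hFb z hz) (Real.exp_pos (-(2 * A * z.re))).le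
      rw [← Real.exp_add] at h2
      refine h2.trans ?_
      rw [h1]
      have h3 : A * (R ^ 2 - 1 + 2 * z.re) + -(2 * A * z.re) ≤ 0 := by
        have h4 : A * (R ^ 2 - 1) ≤ 0 := mul_nonpos_of_nonneg_of_nonpos hA0.le (by linarith)
        linarith
      have h5 := Real.exp_le_exp.mpr h3
      rwa [Real.exp_zero] at h5)
  have hζ' : ∀ i, ‖ζ i - 1‖ < R := by
    intro i
    have := hζ i
    rwa [mem_ball, dist_eq_norm] at this
  have hB0 := ls_Bpos R A F h ζ w0 (hdec w0 hw0b) hFne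
  obtain ⟨_, hlog0⟩ := ls_logF R A F h ζ w0 (hdec w0 hw0b) (hh w0 hw0b).1 hB0
  rw [hre0] at hlog0
  have hcpos : ∀ i, 0 ≤ R ^ 2 - ‖ζ i - 1‖ ^ 2 := by
    intro i
    have := pow_le_pow_left₀ (norm_nonneg _) (hζ' i).le 2
    linarith
  have hs0 := norm_nonneg (w0 - 1)
  have hDpos : ∀ i, 0 < ls_D R (ζ i) w0 := by
    intro i
    have h1 := ls_D_ge R (ζ i) w0
    have h2 : ‖w0 - 1‖ * ‖ζ i - 1‖ < R ^ 2 := by
      have h3 : ‖w0 - 1‖ * ‖ζ i - 1‖ ≤ ‖w0 - 1‖ * R := mul_le_mul_of_nonneg_left (hζ' i).le hs0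
      have h4 : ‖w0 - 1‖ * R < R * R := mul_lt_mul_of_pos_right hw0R hR
      nlinarith
    linarith
  have hb8 : ∀ i, X / 8 * (R ^ 2 - ‖ζ i - 1‖ ^ 2) ≤ -Real.log (ls_B R (ζ i) w0) := by
    intro i
    refine le_trans ?_ (ls_log1 (hB0 i))
    rw [ls_one_sub R hR _ _ (hDpos i), ← hX]
    have h1 : ls_D R (ζ i) w0 ^ 2 ≤ 4 := by
      have h2 := ls_D_le R (ζ i) w0
      have h3 : ‖w0 - 1‖ * ‖ζ i - 1‖ ≤ 1 * 1 := by
        apply mul_le_mul (by linarith) (by linarith [hζ' i]) (norm_nonneg _) (by norm_num)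
      have h4 := pow_le_pow_left₀ (hDpos i).le (by linarith : ls_D R (ζ i) w0 ≤ 2) 2
      linarith
    have h2 : X * (R ^ 2 - ‖ζ i - 1‖ ^ 2) / 4 ≤ X * (R ^ 2 - ‖ζ i - 1‖ ^ 2) / ls_D R (ζ i) w0 ^ 2 :=
      div_le_div_of_nonneg_left (mul_nonneg hX0.le (hcpos i)) (pow_pos (hDpos i) 2) h1
    linarith
  have hbn : ∀ i, ‖ζ i - 1‖ < ε / 100 → X * (R ^ 2 - (ε / 100) ^ 2) / (2 * (1 + ε / 100) ^ 2) ≤
      -Real.log (ls_B R (ζ i) w0) := by
    intro i hi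
    refine le_trans ?_ (ls_log1 (hB0 i))
    rw [ls_one_sub R hR _ _ (hDpos i), ← hX]
    have h1 : ls_D R (ζ i) w0 ^ 2 ≤ (1 + ε / 100) ^ 2 := by
      have h2 := ls_D_le R (ζ i) w0
      have h3 : ‖w0 - 1‖ * ‖ζ i - 1‖ ≤ 1 * (ε / 100) := by
        apply mul_le_mul (by linarith) hi.le (norm_nonneg _) (by norm_num)
      exact pow_le_pow_left₀ (hDpos i).le (by linarith) 2
    have h2 : R ^ 2 - (ε / 100) ^ 2 ≤ R ^ 2 - ‖ζ i - 1‖ ^ 2 := by
      have := pow_le_pow_left₀ (norm_nonneg _) hi.le 2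
      linarith
    have h3 : X * (R ^ 2 - (ε / 100) ^ 2) / (1 + ε / 100) ^ 2 ≤
        X * (R ^ 2 - ‖ζ i - 1‖ ^ 2) / (1 + ε / 100) ^ 2 :=
      div_le_div_of_nonneg_right (mul_le_mul_of_nonneg_left h2 hX0.le) (by positivity)
    have h4 : X * (R ^ 2 - ‖ζ i - 1‖ ^ 2) / (1 + ε / 100) ^ 2 ≤
        X * (R ^ 2 - ‖ζ i - 1‖ ^ 2) / ls_D R (ζ i) w0 ^ 2 :=
      div_le_div_of_nonneg_left (mul_nonneg hX0.le (hcpos i)) (pow_pos (hDpos i) 2) h1
    have h5 : X * (R ^ 2 - (ε / 100) ^ 2) / (2 * (1 + ε / 100) ^ 2) =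
        X * (R ^ 2 - (ε / 100) ^ 2) / (1 + ε / 100) ^ 2 / 2 := by
      rw [div_div, mul_comm 2]
    rw [h5]
    linarith
  have hH1nn : 0 ≤ -Real.log ‖h 1‖ := by
    have := Real.log_nonpos (norm_nonneg _) (hh 1 (mem_ball_self hR)).2
    linarith
  have hHwnn : 0 ≤ -Real.log ‖h w0‖ := by
    have := Real.log_nonpos (norm_nonneg _) (hh w0 hw0b).2
    linarith
  have hbnn : ∀ i, 0 ≤ -Real.log (ls_B R (ζ i) w0) := fun i =>
    le_trans (mul_nonneg (by linarith) (hcpos i)) (hb8 i)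
  set sb := ∑ i, -Real.log (ls_B R (ζ i) w0) with hsb
  have hsbn : 0 ≤ sb := Finset.sum_nonneg (fun i _ => hbnn i)
  have hSle : sb + -Real.log ‖h w0‖ ≤ (2 + 2 * (ε / 50)) * A * q := by
    have h1 : -(ε / 50 * A * δ) < Real.log ‖F w0‖ := by
      rwa [Real.lt_log_iff_exp_lt hFpos]
    rw [hlog0] at h1
    rw [hsb, Finset.sum_neg_distrib]
    have h2 : ε / 50 * A * δ ≤ ε / 50 * A * (2 * q) :=
      mul_le_mul_of_nonneg_left hqδ (by positivity)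
    linarith
  set Nr := Finset.univ.filter (fun i => ‖ζ i - 1‖ < ε / 100) with hNr
  obtain ⟨hN, hc, hH1⟩ := ls_alg ε δ A R q X (sb + -Real.log ‖h w0‖) (Nr.card : ℝ)
    (∑ i, (R ^ 2 - ‖ζ i - 1‖ ^ 2)) (-Real.log ‖h 1‖) hε hε1 hδ hδ0 hA hR2 hX0 hXq (Nat.cast_nonneg _)
    hSle (by
      have h1 : ∑ i ∈ Nr, X * (R ^ 2 - (ε / 100) ^ 2) / (2 * (1 + ε / 100) ^ 2) ≤
          ∑ i ∈ Nr, -Real.log (ls_B R (ζ i) w0) :=
        Finset.sum_le_sum (fun i hi => hbn i (Finset.mem_filter.mp hi).2)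
      rw [Finset.sum_const, nsmul_eq_mul] at h1
      have h2 : ∑ i ∈ Nr, -Real.log (ls_B R (ζ i) w0) ≤ sb :=
        Finset.sum_le_sum_of_subset_of_nonneg (Finset.filter_subset _ _) (fun i _ _ => hbnn i)
      linarith) (by
      rw [Finset.mul_sum]
      have h1 : ∑ i, X / 8 * (R ^ 2 - ‖ζ i - 1‖ ^ 2) ≤ sb := Finset.sum_le_sum (fun i _ => hb8 i)
      linarith) (by
      have h1 := (harnack_log R hR h hd hh w0 hw0b).1
      have h2 : X / 4 ≤ (R - ‖w0 - 1‖) / (R + ‖w0 - 1‖) := by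
        rw [le_div_iff₀ (by linarith), hX]
        have h3 : (R ^ 2 - ‖w0 - 1‖ ^ 2) / 4 * (R + ‖w0 - 1‖) =
          (R - ‖w0 - 1‖) * ((R + ‖w0 - 1‖) ^ 2 / 4) := by ring
        rw [h3]
        have h4 : (R + ‖w0 - 1‖) ^ 2 / 4 ≤ 1 := by
          have := pow_le_pow_left₀ (by linarith) (by linarith : R + ‖w0 - 1‖ ≤ 2) 2
          linarith
        have h5 := mul_le_mul_of_nonneg_left h4 (by linarith : 0 ≤ R - ‖w0 - 1‖)
        linarith
      have h3 := mul_le_mul_of_nonneg_right h2 hH1nn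
      linarith)
  have hpt := ls_point ε R A hε hε1 hA hR hR1 hR9 F h ζ hζ' hd hh hdec hc hH1
  have hTlog : ∀ w : ℂ, F w ≠ 0 → ‖F w‖ ≤ Real.exp (-(T * A)) → T * A ≤ -Real.log ‖F w‖ := by
    intro w hw hwT
    have h1 := Real.log_le_log (norm_pos_iff.mpr hw) hwT
    rw [Real.log_exp] at h1
    linarith
  have hll : 0 ≤ Real.log (1 / l) := by
    apply Real.log_nonneg
    rw [le_div_iff₀ hl]
    linarith
  rcases Nat.eq_zero_or_pos Nr.card with hcard | hcard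
  · have hne : E.Nonempty := by
      apply nonempty_of_measure_ne_zero (μ := volume)
      exact (lt_of_le_of_lt (zero_le) hE).ne'
    obtain ⟨x, hx⟩ := hne
    obtain ⟨w, _, hw1, hw2⟩ := hEF x hx
    rw [Finset.card_eq_zero] at hcard
    obtain ⟨hFw, hle⟩ := hpt w hw1 (by
      intro i hi
      rw [← hNr, hcard] at hi
      exact absurd hi (Finset.notMem_empty i))
    rw [← hNr, hcard, Finset.sum_empty, add_zero] at hle
    have h1 := (hTlog w hFw hw2).trans hle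
    have h2 := le_of_mul_le_mul_right h1 hA0
    have h3 : 0 ≤ (2 + ε) * Real.log (1 / l) := by positivity
    linarith
  · have hprod : ∀ x : ℝ, ∏ k : Fin Nr.card, |x - ‖ζ (Nr.equivFin.symm k)‖| = ∏ i ∈ Nr, |x - ‖ζ i‖| := by
      intro x
      rw [← Finset.prod_coe_sort Nr (fun i => |x - ‖ζ i‖|)]
      exact Equiv.prod_comp Nr.equivFin.symm (fun i : Nr => |x - ‖ζ i‖|)
    have hcar := cartan_real Nr.card hcard (fun k => ‖ζ (Nr.equivFin.symm k)‖) l hl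
    obtain ⟨x, hxE, hx⟩ : ∃ x ∈ E, (l / (2 * Real.exp 1)) ^ Nr.card < ∏ i ∈ Nr, |x - ‖ζ i‖| := by
      by_contra hcon
      push Not at hcon
      have hsub : E ⊆ {x : ℝ | ∏ k : Fin Nr.card, |x - ‖ζ (Nr.equivFin.symm k)‖| ≤
          (l / (2 * Real.exp 1)) ^ Nr.card} := by
        intro x hx
        show ∏ k : Fin Nr.card, |x - ‖ζ (Nr.equivFin.symm k)‖| ≤ _
        rw [hprod]
        exact hcon x hx
      exact absurd (lt_of_lt_of_le hE ((measure_mono hsub).trans hcar)) (lt_irrefl _)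
    obtain ⟨w, hwx, hw1, hw2⟩ := hEF x hxE
    have hlpos : 0 < l / (2 * Real.exp 1) := by positivity
    have hppos : 0 < ∏ i ∈ Nr, |x - ‖ζ i‖| := lt_trans (pow_pos hlpos _) hx
    have hfac : ∀ i ∈ Nr, 0 < |x - ‖ζ i‖| := by
      intro i hi
      have := (Finset.prod_ne_zero_iff.mp hppos.ne') i hi
      exact lt_of_le_of_ne (abs_nonneg _) (Ne.symm this)
    have hdist : ∀ i, |x - ‖ζ i‖| ≤ ‖w - ζ i‖ := by
      intro i
      rw [← hwx]
      exact abs_norm_sub_norm_le w (ζ i)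
    obtain ⟨hFw, hle⟩ := hpt w hw1 (by
      intro i hi h0
      have h1 := hfac i hi
      have h2 := hdist i
      rw [h0, sub_self, norm_zero] at h2
      linarith)
    rw [← hNr] at hle
    have hsum : ∑ i ∈ Nr, Real.log (4 / ‖w - ζ i‖) ≤ ∑ i ∈ Nr, (Real.log 4 - Real.log |x - ‖ζ i‖|) := by
      apply Finset.sum_le_sum
      intro i hi
      have h1 := hfac i hi
      have h2 : 0 < ‖w - ζ i‖ := lt_of_lt_of_le h1 (hdist i)
      rw [Real.log_div (by norm_num) h2.ne']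
      have := Real.log_le_log h1 (hdist i)
      linarith
    rw [Finset.sum_sub_distrib, Finset.sum_const, nsmul_eq_mul,
      ← Real.log_prod (fun i hi => (hfac i hi).ne')] at hsum
    have hlogp : (Nr.card : ℝ) * Real.log (l / (2 * Real.exp 1)) ≤ Real.log (∏ i ∈ Nr, |x - ‖ζ i‖|) := by
      have := Real.log_le_log (pow_pos hlpos _) hx.le
      rwa [Real.log_pow] at this
    have hlogl : Real.log (l / (2 * Real.exp 1)) = -(Real.log (1 / l) + Real.log 2 + 1) := by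
      rw [Real.log_div hl.ne' (by positivity), Real.log_mul (by norm_num) (Real.exp_pos _).ne',
        Real.log_exp, one_div, Real.log_inv]
      ring
    rw [hlogl] at hlogp
    have hlog4 : Real.log 4 = 2 * Real.log 2 := by
      rw [show (4:ℝ) = 2 ^ 2 by norm_num, Real.log_pow]
      push_cast
      ring
    have hlog2 : Real.log 2 ≤ 1 := by linarith [Real.log_two_lt_d9]
    have hlog2' : 0 ≤ Real.log 2 := Real.log_nonneg (by norm_num)
    have h1 := (hTlog w hFw hw2).trans hle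
    have h2 : (Nr.card : ℝ) * (4 + Real.log (1 / l)) ≤ (2 + ε) * A * (4 + Real.log (1 / l)) :=
      mul_le_mul_of_nonneg_right hN (by linarith)
    have hNn : (0 : ℝ) ≤ Nr.card := Nat.cast_nonneg _
    have h3 : ∑ i ∈ Nr, Real.log (4 / ‖w - ζ i‖) ≤ (Nr.card : ℝ) * (4 + Real.log (1 / l)) := by
      have h4 : (Nr.card : ℝ) * (3 * Real.log 2) ≤ (Nr.card : ℝ) * 3 :=
        mul_le_mul_of_nonneg_left (by linarith) hNn
      rw [hlog4] at hsum
      linarith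
    have h5 : T * A ≤ (20 + 2560 / (ε / 100) ^ 2 + (2 + ε) * (4 + Real.log (1 / l))) * A := by
      linarith
    have h6 := le_of_mul_le_mul_right h5 hA0
    linarith

end MinMod.LS
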