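import Mathlib
import Pool.Agent.MP06ac62.Defs
import Pool.Agent.MP06ac62.L1
import Pool.Agent.MP06ac62.L4b

set_option linter.all false
set_option maxHeartbeats 1000000

namespace MinMod.L4a

open MinMod
open MinMod.L1
open MinMod.L4b
open Metric MeasureTheory Filter




theorem lower_main_bdd (f : ℂ → ℂ) (hf : Differentiable ℂ f) (r : ℝ) :
    BddAbove (Set.range (fun z : Metric.sphere (0:ℂ) r => ‖f z‖)) := by
  have hc : IsCompact (Metric.sphere (0:ℂ) r) := isCompact_sphere 0 r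
  have hb := (hc.image_of_continuousOn (f := fun z => ‖f z‖) (hf.continuous.norm.continuousOn)).bddAbove
  refine hb.mono ?_
  rintro x ⟨z, rfl⟩
  exact ⟨z, z.2, rfl⟩

/-- basic facts about maxMod -/
theorem le_maxMod (f : ℂ → ℂ) (hf : Differentiable ℂ f) (z : ℂ) : ‖f z‖ ≤ maxMod f ‖z‖ := by
  have hz : z ∈ Metric.sphere (0:ℂ) ‖z‖ := by simp
  exact le_ciSup (lower_main_bdd f hf ‖z‖) (⟨z, hz⟩ : Metric.sphere (0:ℂ) ‖z‖)

theorem maxMod_mono (f : ℂ → ℂ) (hf : Differentiable ℂ f) (r s : ℝ) (hr : 0 ≤ r) (hrs : r ≤ s) :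
    maxMod f r ≤ maxMod f s := by
  rcases eq_or_lt_of_le hrs with h | h
  · rw [h]
  have hs : 0 < s := lt_of_le_of_lt hr h
  haveI : Nonempty (Metric.sphere (0:ℂ) r) := by
    refine ⟨⟨(r:ℂ), ?_⟩⟩
    simp [abs_of_nonneg hr]
  unfold maxMod
  refine ciSup_le ?_
  rintro ⟨z, hz⟩
  have hz' : ‖z‖ = r := by simpa using hz
  have := Complex.norm_le_of_forall_mem_frontier_norm_le (U := Metric.ball (0:ℂ) s) (f := f)
    (C := ⨆ z : Metric.sphere (0:ℂ) s, ‖f z‖) Metric.isBounded_ball hf.diffContOnCl (by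
      intro w hw
      rw [frontier_ball _ hs.ne'] at hw
      exact le_ciSup (lower_main_bdd f hf s) (⟨w, hw⟩ : Metric.sphere (0:ℂ) s)) (z := z) (by
      rw [closure_ball _ hs.ne']
      simp [hz', hrs])
  exact this

/-- TARGET -/
theorem lower_main (ε : ℝ) (hε : 0 < ε) (hε1 : ε ≤ 1) :
    ∃ lam0 > (1:ℝ), ∀ lam ≥ lam0, ∀ f : ℂ → ℂ, Differentiable ℂ f →
      liminf (fun r : ℝ => ((Real.log (aF f r) / Real.log r : ℝ) : EReal)) atTop = (lam : EReal) →
      ∀ T : ℝ, 0 ≤ T → (∀ᶠ r : ℝ in atTop, ∃ z : ℂ, ‖z‖ = r ∧ ‖f z‖ ≤ Real.exp (-(T * aF f r))) →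
      T ≤ (2 + ε) * Real.log lam := by
  obtain ⟨lam0, hlam0, hpeak⟩ := peak_estimate ε hε hε1
  refine ⟨lam0, hlam0, fun lam hlam f hf hlim T hT hsmall => ?_⟩
  obtain ⟨H, hH, κ, hκ, hpk⟩ := hpeak lam hlam
  have hlpos : 0 < lam := by linarith
  -- eventual lower bound
  have hev : ∀ η > 0, ∀ᶠ r : ℝ in atTop, (lam - η) * Real.log r < Real.log (aF f r) := by
    intro η hη
    have h1 : (((lam - η : ℝ)) : EReal) < liminf (fun r : ℝ => ((Real.log (aF f r) / Real.log r : ℝ) : EReal)) atTop := by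
      rw [hlim]
      exact_mod_cast (by linarith : lam - η < lam)
    have h2 := Filter.eventually_lt_of_lt_liminf h1
    filter_upwards [h2, eventually_gt_atTop (1:ℝ)] with r hr hr1
    have h3 : lam - η < Real.log (aF f r) / Real.log r := by exact_mod_cast hr
    rwa [lt_div_iff₀ (Real.log_pos hr1)] at h3
  have hfr : ∀ η > 0, ∃ᶠ r : ℝ in atTop, Real.log (aF f r) < (lam + η) * Real.log r := by
    intro η hη
    have h1 : liminf (fun r : ℝ => ((Real.log (aF f r) / Real.log r : ℝ) : EReal)) atTop < (((lam + η : ℝ)) : EReal) := by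
      rw [hlim]
      exact_mod_cast (by linarith : lam < lam + η)
    have h2 := Filter.frequently_lt_of_liminf_lt (by isBoundedDefault) h1
    refine (h2.and_eventually (eventually_gt_atTop (1:ℝ))).mono ?_
    rintro r ⟨hr, hr1⟩
    have h3 : Real.log (aF f r) / Real.log r < lam + η := by exact_mod_cast hr
    rwa [div_lt_iff₀ (Real.log_pos hr1)] at h3
  -- f not identically zero
  have hne : ∃ z, f z ≠ 0 := by
    by_contra hcon
    push Not at hcon
    have hz : ∀ r, aF f r = 0 := by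
      intro r
      have : maxMod f r = 0 := by
        unfold maxMod
        simp [hcon]
      unfold aF
      rw [this, Real.log_zero]
    have h := hev (lam / 2) (by linarith)
    obtain ⟨r, hr, hr1⟩ := (h.and (eventually_gt_atTop (1:ℝ))).exists
    rw [hz r, Real.log_zero] at hr
    have := Real.log_pos hr1
    nlinarith
  obtain ⟨A0, hA0⟩ := hpk f hf hne
  obtain ⟨z0, hz0⟩ := hne
  have hMpos : ∀ r, ‖z0‖ ≤ r → 0 < maxMod f r := by
    intro r hr
    have h1 : 0 < ‖f z0‖ := norm_pos_iff.mpr hz0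
    have h2 := le_maxMod f hf z0
    have h3 := maxMod_mono f hf ‖z0‖ r (norm_nonneg _) hr
    linarith
  have hamono : ∀ r s, ‖z0‖ ≤ r → r ≤ s → aF f r ≤ aF f s := by
    intro r s hr hrs
    exact Real.log_le_log (hMpos r hr) (maxMod_mono f hf r s ((norm_nonneg _).trans hr) hrs)
  -- a → ∞
  have hatop : ∀ B : ℝ, ∀ᶠ r : ℝ in atTop, B ≤ aF f r := by
    intro B
    have h := hev (lam / 2) (by linarith)
    have hlog : ∀ᶠ r : ℝ in atTop, Real.log (|B| + |aF f ‖z0‖| + 1) ≤ (lam / 2) * Real.log r :=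
      (Real.tendsto_log_atTop.const_mul_atTop (by linarith : 0 < lam / 2)).eventually_ge_atTop _
    filter_upwards [h, hlog, eventually_ge_atTop ‖z0‖] with r h1 h2 h3
    have h4 : Real.log (|B| + |aF f ‖z0‖| + 1) < Real.log (aF f r) := by
      have : (lam - lam / 2) * Real.log r = (lam / 2) * Real.log r := by ring
      linarith
    have hB0 : 0 ≤ |B| := abs_nonneg _
    have hz00 : 0 ≤ |aF f ‖z0‖| := abs_nonneg _
    have hne0 : aF f r ≠ 0 := by
      intro h0
      rw [h0, Real.log_zero] at h4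
      have := Real.log_nonneg (by linarith : 1 ≤ |B| + |aF f ‖z0‖| + 1)
      linarith
    rw [← Real.log_abs (aF f r)] at h4
    have h5 : |B| + |aF f ‖z0‖| + 1 < |aF f r| :=
      (Real.log_lt_log_iff (by linarith) (abs_pos.mpr hne0)).mp h4
    have h6 := hamono ‖z0‖ r le_rfl h3
    have h7 : 0 < aF f r := by
      by_contra hcon
      push Not at hcon
      rw [abs_of_nonpos hcon] at h5
      have := neg_abs_le (aF f ‖z0‖)
      linarith
    rw [abs_of_pos h7] at h5
    have := le_abs_self B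
    linarith
  obtain ⟨r1, hr1⟩ := (((hatop 1).and (hatop A0)).and (hsmall.and (eventually_ge_atTop (max 1 ‖z0‖)))).exists_forall_of_atTop
  -- r1 with everything for r ≥ r1
  set R : ℝ := max r1 (max 1 ‖z0‖) with hR
  have hR1 : 1 ≤ R := le_max_of_le_right (le_max_left _ _)
  have hRz : ‖z0‖ ≤ R := le_max_of_le_right (le_max_right _ _)
  have hRr : r1 ≤ R := le_max_left _ _
  set τ0 : ℝ := Real.log R with hτ0
  have hexp0 : Real.exp τ0 = R := Real.exp_log (by linarith)
  have hge : ∀ τ, τ0 ≤ τ → R ≤ Real.exp τ := by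
    intro τ hτ
    rw [← hexp0]; exact Real.exp_le_exp.mpr hτ
  have hprop := fun τ (hτ : τ0 ≤ τ) => hr1 (Real.exp τ) (hRr.trans (hge τ hτ))
  set L : ℝ → ℝ := fun τ => Real.log (aF f (Real.exp τ)) with hL
  have hmono : MonotoneOn L (Set.Ici τ0) := by
    intro x hx y hy hxy
    have hx' : τ0 ≤ x := hx
    have h1 := (hprop x hx').1.1
    exact Real.log_le_log (by linarith) (hamono _ _ (hRz.trans (hge x hx')) (Real.exp_le_exp.mpr hxy))
  have hL1 : ∀ η > 0, ∀ᶠ τ in Filter.atTop, (lam - η) * τ ≤ L τ := by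
    intro η hη
    have := Real.tendsto_exp_atTop.eventually (hev η hη)
    filter_upwards [this] with τ hτ
    rw [Real.log_exp] at hτ
    exact hτ.le
  have hL2 : ∀ η > 0, ∃ᶠ τ in Filter.atTop, L τ ≤ (lam + η) * τ := by
    intro η hη
    have h1 := (hfr η hη).and_eventually (eventually_gt_atTop (0:ℝ))
    refine Real.tendsto_log_atTop.frequently (p := fun τ => L τ ≤ (lam + η) * τ) (h1.mono ?_)
    rintro r ⟨hr, hr0⟩
    simp only [hL]
    rw [Real.exp_log hr0]
    exact hr.le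
  obtain ⟨τ, hτ, hpeakτ⟩ := polya_peak L lam τ0 hlpos hmono hL1 hL2 κ H (max H (τ0 + H)) hκ hH
  have hτH : H ≤ τ := (le_max_left _ _).trans hτ
  have hτ0H : τ0 + H ≤ τ := (le_max_right _ _).trans hτ
  have hτ0' : τ0 ≤ τ := by linarith
  have hA1 : 1 ≤ aF f (Real.exp τ) := (hprop τ hτ0').1.1
  refine hA0 (Real.exp τ) (Real.exp_le_exp.mpr hτH) (aF f (Real.exp τ)) (hprop τ hτ0').1.2 ?_ T ?_
  · intro s hs z hz
    rw [← Real.exp_add] at hz
    have hs' := abs_le.mp hs
    have hτs : τ0 ≤ τ + s := by linarith [hs'.1]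
    have h1 := le_maxMod f hf z
    rw [hz] at h1
    have h2 : 0 < maxMod f (Real.exp (τ + s)) := hMpos _ (hRz.trans (hge _ hτs))
    have h3 : maxMod f (Real.exp (τ + s)) = Real.exp (aF f (Real.exp (τ + s))) := by
      unfold aF; rw [Real.exp_log h2]
    rw [h3] at h1
    refine h1.trans (Real.exp_le_exp.mpr ?_)
    have h4 : 1 ≤ aF f (Real.exp (τ + s)) := (hprop _ hτs).1.1
    have h5 : aF f (Real.exp (τ + s)) = Real.exp (L (τ + s)) := by
      simp only [hL]; rw [Real.exp_log (by linarith)]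
    have h6 : aF f (Real.exp τ) = Real.exp (L τ) := by
      simp only [hL]; rw [Real.exp_log (by linarith)]
    rw [h5, h6, ← Real.exp_add]
    refine Real.exp_le_exp.mpr ?_
    have := hpeakτ s hs
    linarith
  · intro s hs0 hsH
    have hτs : τ0 ≤ τ + s := by linarith
    obtain ⟨z, hz1, hz2⟩ := (hprop _ hτs).2.1
    refine ⟨z, by rw [hz1, Real.exp_add], hz2.trans (Real.exp_le_exp.mpr ?_)⟩
    have h1 : aF f (Real.exp τ) ≤ aF f (Real.exp (τ + s)) :=
      hamono _ _ (hRz.trans (hge _ hτ0')) (Real.exp_le_exp.mpr (by linarith))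
    have := mul_le_mul_of_nonneg_left h1 hT
    linarith

end MinMod.L4a
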