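import Mathlib
import Pool.Agent.MP06ac62.Defs

set_option linter.all false
set_option maxHeartbeats 1000000

namespace MinMod.U1

open MinMod
open Metric

/-- coefficients of the logarithm of the product -/
noncomputable def piA (p : ℕ) (q : ℝ) (Q : ℕ) (k : ℕ) : ℂ :=
  if k ≤ p then 0 else ((-(1 / (k : ℝ)) / (1 - Q / q ^ k) : ℝ) : ℂ)

theorem piA_den (p : ℕ) (lam q : ℝ) (Q : ℕ) (h2 : lam < p + 1)
    (hq : 1 < q) (hQ : (Q:ℝ) = q ^ lam) (k : ℕ) (hk : p < k) :
    0 < 1 - q ^ lam / q ^ (p + 1) ∧ 1 - q ^ lam / q ^ (p + 1) ≤ 1 - (Q : ℝ) / q ^ k := by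
  have hq0 : 0 < q := by linarith
  constructor
  · have h3 : q ^ lam < q ^ (p + 1) := by
      rw [← Real.rpow_natCast q (p + 1)]
      apply Real.rpow_lt_rpow_of_exponent_lt hq
      push_cast
      exact h2
    have h4 : q ^ lam / q ^ (p + 1) < 1 := by
      rw [div_lt_one (by positivity)]
      exact h3
    linarith
  · rw [hQ]
    have h3 : q ^ (p + 1) ≤ q ^ k := pow_le_pow_right₀ hq.le hk
    have h4 : q ^ lam / q ^ k ≤ q ^ lam / q ^ (p + 1) := by
      apply div_le_div_of_nonneg_left _ (by positivity) h3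
      positivity
    linarith

theorem piA_bound (p : ℕ) (lam q : ℝ) (Q : ℕ) (h2 : lam < p + 1)
    (hq : 1 < q) (hQ : (Q:ℝ) = q ^ lam) :
    ∃ A : ℝ, 0 ≤ A ∧ ∀ k, ‖piA p q Q k‖ ≤ A := by
  have hpos := (piA_den p lam q Q h2 hq hQ (p + 1) (Nat.lt_succ_self p)).1
  refine ⟨1 / (1 - q ^ lam / q ^ (p + 1)), by positivity, ?_⟩
  intro k
  unfold piA
  split_ifs with h
  · rw [norm_zero]
    positivity
  · obtain ⟨h3, h4⟩ := piA_den p lam q Q h2 hq hQ k (by omega)
    have hk1 : (1 : ℝ) ≤ k := by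
      have : 1 ≤ k := by omega
      exact_mod_cast this
    rw [Complex.norm_real, Real.norm_eq_abs, abs_div, abs_neg, abs_of_pos (lt_of_lt_of_le h3 h4),
      abs_of_nonneg (by positivity)]
    apply div_le_div₀ (by norm_num) _ h3 h4
    rw [div_le_one (by positivity)]
    exact hk1

/-- the logarithm of the product in the unit disc -/
noncomputable def piG (p : ℕ) (q : ℝ) (Q : ℕ) (z : ℂ) : ℂ := ∑' k, piA p q Q k * z ^ k

theorem piG_hasSum (p : ℕ) (lam q : ℝ) (Q : ℕ) (h2 : lam < p + 1)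
    (hq : 1 < q) (hQ : (Q:ℝ) = q ^ lam) (z : ℂ) (hz : ‖z‖ < 1) :
    HasSum (fun k => piA p q Q k * z ^ k) (piG p q Q z) := by
  obtain ⟨A, hA0, hA⟩ := piA_bound p lam q Q h2 hq hQ
  apply Summable.hasSum
  apply Summable.of_norm_bounded (g := fun k => A * ‖z‖ ^ k)
    ((summable_geometric_of_lt_one (norm_nonneg z) hz).mul_left A)
  intro k
  rw [norm_mul, norm_pow]
  exact mul_le_mul_of_nonneg_right (hA k) (by positivity)

theorem piG_diff (p : ℕ) (lam q : ℝ) (Q : ℕ) (h2 : lam < p + 1)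
    (hq : 1 < q) (hQ : (Q:ℝ) = q ^ lam) (z : ℂ) (hz : ‖z‖ < 1) :
    DifferentiableAt ℂ (piG p q Q) z := by
  obtain ⟨A, hA0, hA⟩ := piA_bound p lam q Q h2 hq hQ
  obtain ⟨r, hr1, hr2⟩ := exists_between hz
  have hr0 : 0 ≤ r := (norm_nonneg z).trans hr1.le
  have h3 : DifferentiableOn ℂ (fun w => ∑' k, piA p q Q k * w ^ k) (ball 0 r) := by
    apply Complex.differentiableOn_tsum_of_summable_norm (u := fun k => A * r ^ k)
      ((summable_geometric_of_lt_one hr0 hr2).mul_left A)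
    · intro k
      exact (differentiable_const _ |>.mul (differentiable_id.pow k)).differentiableOn
    · exact isOpen_ball
    · intro k w hw
      rw [mem_ball_zero_iff] at hw
      rw [norm_mul, norm_pow]
      exact mul_le_mul (hA k) (pow_le_pow_left₀ (norm_nonneg _) hw.le k) (by positivity) hA0
  exact (h3 z (by rwa [mem_ball_zero_iff])).differentiableAt
    (isOpen_ball.mem_nhds (by rwa [mem_ball_zero_iff]))

theorem piG_eq (p : ℕ) (lam q : ℝ) (Q : ℕ) (h2 : lam < p + 1)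
    (hq : 1 < q) (hQ : (Q:ℝ) = q ^ lam) (z : ℂ) (hz : ‖z‖ < 1) :
    Complex.exp (piG p q Q z) = Ep p z * Complex.exp (piG p q Q (z / (q : ℂ))) ^ Q := by
  have hq0 : 0 < q := by linarith
  have hqc : (q : ℂ) ≠ 0 := by exact_mod_cast hq0.ne'
  have hz' : ‖z / (q : ℂ)‖ < 1 := by
    rw [norm_div, Complex.norm_real, Real.norm_of_nonneg hq0.le, div_lt_one hq0]
    linarith
  have e1 := piG_hasSum p lam q Q h2 hq hQ z hz
  have e2 := (piG_hasSum p lam q Q h2 hq hQ (z / (q : ℂ)) hz').mul_left (Q : ℂ)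
  have e3 := e1.sub e2
  have e4 := Complex.hasSum_taylorSeries_neg_log hz
  have e5 : HasSum (fun k : ℕ => if k ≤ p then z ^ k / (k : ℂ) else 0)
      (∑ k ∈ Finset.range (p + 1), z ^ k / (k : ℂ)) := by
    have h3 : ∑ k ∈ Finset.range (p + 1), z ^ k / (k : ℂ) =
        ∑ k ∈ Finset.range (p + 1), (if k ≤ p then z ^ k / (k : ℂ) else 0) := by
      refine Finset.sum_congr rfl fun k hk => ?_
      rw [Finset.mem_range] at hk
      rw [if_pos (by omega)]
    rw [h3]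
    apply hasSum_sum_of_ne_finset_zero
    intro k hk
    rw [Finset.mem_range] at hk
    rw [if_neg (by omega)]
  have e6 := e5.sub e4
  have e7 : (fun k : ℕ => piA p q Q k * z ^ k - (Q : ℂ) * (piA p q Q k * (z / (q : ℂ)) ^ k)) =
      fun k : ℕ => (if k ≤ p then z ^ k / (k : ℂ) else 0) - z ^ k / (k : ℂ) := by
    funext k
    unfold piA
    by_cases hk : k ≤ p
    · rw [if_pos hk, if_pos hk]
      ring
    · rw [if_neg hk, if_neg hk]
      obtain ⟨h3, h4⟩ := piA_den p lam q Q h2 hq hQ k (by omega)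
      have h5 : (1 - (Q : ℝ) / q ^ k) ≠ 0 := (lt_of_lt_of_le h3 h4).ne'
      have h6 : (1 - (Q : ℂ) / (q : ℂ) ^ k) ≠ 0 := by exact_mod_cast h5
      have h7 : (k : ℂ) ≠ 0 := by
        have : k ≠ 0 := by omega
        exact_mod_cast this
      rw [div_pow]
      push_cast
      have h8 : (-(1 / (k : ℂ)) / (1 - (Q : ℂ) / (q : ℂ) ^ k)) * z ^ k -
          (Q : ℂ) * ((-(1 / (k : ℂ)) / (1 - (Q : ℂ) / (q : ℂ) ^ k)) * (z ^ k / (q : ℂ) ^ k)) =
          (-(1 / (k : ℂ)) / (1 - (Q : ℂ) / (q : ℂ) ^ k)) * (1 - (Q : ℂ) / (q : ℂ) ^ k) * z ^ k := by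
        ring
      rw [h8, div_mul_cancel₀ _ h6]
      ring
  rw [e7] at e3
  have e8 := e3.unique e6
  have e9 : ∑ k ∈ Finset.range (p + 1), z ^ k / (k : ℂ) =
      ∑ k ∈ Finset.range p, z ^ (k + 1) / ((k : ℂ) + 1) := by
    rw [Finset.sum_range_succ']
    simp
  rw [e9] at e8
  have h1z : (1 : ℂ) - z ≠ 0 := by
    intro h
    rw [sub_eq_zero] at h
    rw [← h, norm_one] at hz
    exact lt_irrefl _ hz
  have e10 : piG p q Q z = ((∑ k ∈ Finset.range p, z ^ (k + 1) / ((k : ℂ) + 1)) +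
      Complex.log (1 - z)) + (Q : ℂ) * piG p q Q (z / (q : ℂ)) := by
    linear_combination e8
  rw [e10, Complex.exp_add, Complex.exp_add, Complex.exp_log h1z, Complex.exp_nat_mul]
  unfold Ep
  ring

/-- the approximations -/
noncomputable def piF (p : ℕ) (q : ℝ) (Q : ℕ) : ℕ → ℂ → ℂ
  | 0, z => Complex.exp (piG p q Q z)
  | n + 1, z => Ep p z * piF p q Q n (z / (q : ℂ)) ^ Q

theorem Ep_diff (p : ℕ) : Differentiable ℂ (Ep p) := by
  unfold Ep
  fun_prop

theorem exists_Pi (p : ℕ) (lam q : ℝ) (Q : ℕ) (hp : 1 ≤ p) (h1 : (p:ℝ) < lam) (h2 : lam < p + 1)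
    (hq : 1 < q) (hQ : (Q:ℝ) = q ^ lam) :
    ∃ P : ℂ → ℂ, Differentiable ℂ P ∧ P 0 = 1 ∧
      (∀ z : ℂ, P z = Ep p z * P (z / (q:ℂ)) ^ Q) ∧ (∀ z : ℂ, ‖z‖ < 1 → P z ≠ 0) := by
  classical
  have hq0 : 0 < q := by linarith
  have hnd : ∀ z : ℂ, ‖z / (q : ℂ)‖ = ‖z‖ / q := by
    intro z
    rw [norm_div, Complex.norm_real, Real.norm_of_nonneg hq0.le]
  have hdown : ∀ (n : ℕ) (z : ℂ), ‖z‖ < q ^ (n + 1) → ‖z / (q : ℂ)‖ < q ^ n := by
    intro n z hz
    rw [hnd, div_lt_iff₀ hq0, ← pow_succ]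
    exact hz
  -- consistency
  have hF1 : ∀ (n : ℕ) (z : ℂ), ‖z‖ < q ^ n → piF p q Q (n + 1) z = piF p q Q n z := by
    intro n
    induction n with
    | zero =>
      intro z hz
      rw [pow_zero] at hz
      exact (piG_eq p lam q Q h2 hq hQ z hz).symm
    | succ n ih =>
      intro z hz
      change Ep p z * piF p q Q (n + 1) (z / (q : ℂ)) ^ Q = Ep p z * piF p q Q n (z / (q : ℂ)) ^ Q
      rw [ih _ (hdown n z hz)]
  have hF2 : ∀ (n m : ℕ) (z : ℂ), ‖z‖ < q ^ n → n ≤ m → piF p q Q m z = piF p q Q n z := by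
    intro n m z hz hnm
    induction m, hnm using Nat.le_induction with
    | base => rfl
    | succ m hm ih =>
      rw [hF1 m z (hz.trans_le (pow_le_pow_right₀ hq.le hm)), ih]
  -- differentiability
  have hFd : ∀ (n : ℕ) (z : ℂ), ‖z‖ < q ^ n → DifferentiableAt ℂ (piF p q Q n) z := by
    intro n
    induction n with
    | zero =>
      intro z hz
      rw [pow_zero] at hz
      exact (piG_diff p lam q Q h2 hq hQ z hz).cexp
    | succ n ih =>
      intro z hz
      have h3 : DifferentiableAt ℂ (fun z : ℂ => z / (q : ℂ)) z :=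
        differentiableAt_id.div_const _
      have h4 : DifferentiableAt ℂ (fun z : ℂ => piF p q Q n (z / (q : ℂ))) z :=
        DifferentiableAt.comp z (ih _ (hdown n z hz)) h3
      exact ((Ep_diff p) z).mul (h4.pow Q)
  have hex : ∀ z : ℂ, ∃ n : ℕ, ‖z‖ < q ^ n := fun z => pow_unbounded_of_one_lt _ hq
  have hP : ∀ (n : ℕ) (z : ℂ), ‖z‖ < q ^ n →
      piF p q Q (Nat.find (hex z)) z = piF p q Q n z := by
    intro n z hz
    exact (hF2 _ n z (Nat.find_spec (hex z)) (Nat.find_min' (hex z) hz)).symm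
  refine ⟨fun z => piF p q Q (Nat.find (hex z)) z, ?_, ?_, ?_, ?_⟩
  · intro z
    obtain ⟨n, hn⟩ := hex z
    have h3 : (fun z => piF p q Q (Nat.find (hex z)) z) =ᶠ[nhds z] piF p q Q n := by
      have h4 : ball (0 : ℂ) (q ^ n) ∈ nhds z := isOpen_ball.mem_nhds (by rwa [mem_ball_zero_iff])
      filter_upwards [h4] with w hw
      exact hP n w (by rwa [mem_ball_zero_iff] at hw)
    exact (hFd n z hn).congr_of_eventuallyEq h3
  · have h3 : piF p q Q (Nat.find (hex 0)) 0 = piF p q Q 0 0 := hP 0 0 (by simp)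
    change piF p q Q (Nat.find (hex 0)) 0 = 1
    rw [h3]
    change Complex.exp (piG p q Q 0) = 1
    have h4 : piG p q Q 0 = 0 := by
      unfold piG
      rw [tsum_eq_single 0]
      · simp [piA]
      · intro k hk
        rw [zero_pow hk, mul_zero]
    rw [h4, Complex.exp_zero]
  · intro z
    obtain ⟨n, hn⟩ := hex (z / (q : ℂ))
    have h3 : ‖z‖ < q ^ (n + 1) := by
      rw [hnd, div_lt_iff₀ hq0, ← pow_succ] at hn
      exact hn
    change piF p q Q (Nat.find (hex z)) z =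
      Ep p z * piF p q Q (Nat.find (hex (z / (q : ℂ)))) (z / (q : ℂ)) ^ Q
    rw [hP (n + 1) z h3, hP n (z / (q : ℂ)) hn]
    rfl
  · intro z hz
    change piF p q Q (Nat.find (hex z)) z ≠ 0
    rw [hP 0 z (by simpa using hz)]
    exact Complex.exp_ne_zero _

end MinMod.U1
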