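import Mathlib
import Pool.Agent.MP06ac62.Defs

set_option linter.all false
set_option maxHeartbeats 1000000

namespace MinMod.U2

open MinMod
open Metric MeasureTheory

theorem log_norm_ball_aux (w0 : ℂ) (R : ℝ) :
    IntegrableOn (fun w : ℂ => Real.log ‖w - w0‖) (ball w0 R) := by
  have h0 : IntegrableOn (fun w : ℂ => Real.log ‖w‖) (ball (0:ℂ) R) := by
    rw [integrableOn_fun_norm_addHaar (μ := volume) (f := Real.log)]
    have : (fun y : ℝ => y ^ (Module.finrank ℝ ℂ - 1) • Real.log y) = fun y => y * Real.log y := by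
      ext y; simp [Complex.finrank_real_complex]
    rw [this]
    exact (Real.continuous_mul_log.integrableOn_Icc (a := 0) (b := R)).mono_set
      Set.Ioo_subset_Icc_self
  have h1 := ((measurePreserving_sub_right volume w0).integrableOn_comp_preimage
    (MeasurableEquiv.subRight w0).measurableEmbedding (f := fun w : ℂ => Real.log ‖w‖)
    (s := ball (0:ℂ) R)).2 h0
  have h2 : (fun x : ℂ => x - w0) ⁻¹' ball (0:ℂ) R = ball w0 R := by
    ext x; simp [mem_ball, dist_eq_norm]
  rw [h2] at h1
  exact h1

theorem log_integrable (K U : Set ℂ) (hK : IsCompact K) (hU : IsOpen U) (hUc : IsPreconnected U)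
    (hKU : K ⊆ U) (H : ℂ → ℂ) (hH : DifferentiableOn ℂ H U) (hne : ∃ z ∈ U, H z ≠ 0) :
    IntegrableOn (fun w => Real.log ‖H w‖) K := by
  apply LocallyIntegrableOn.integrableOn_isCompact _ hK
  intro w0 hw0
  have hw0U : w0 ∈ U := hKU hw0
  have hAn : AnalyticOnNhd ℂ H U := hH.analyticOnNhd hU
  have hnz : ¬ ∀ᶠ z in nhds w0, H z = 0 := by
    intro h
    obtain ⟨z, hz, hz0⟩ := hne
    exact hz0 (hAn.eqOn_zero_of_preconnected_of_eventuallyEq_zero hUc hw0U h hz)
  obtain ⟨m, g, hg, hg0, hfg⟩ := (hAn w0 hw0U).exists_eventuallyEq_pow_smul_nonzero_iff.2 hnz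
  have hev : ∀ᶠ z in nhds w0, H z = (z - w0) ^ m • g z ∧ AnalyticAt ℂ g z ∧ g z ≠ 0 :=
    hfg.and (hg.eventually_analyticAt.and (hg.continuousAt.eventually_ne hg0))
  obtain ⟨r, hr, hball⟩ := Metric.eventually_nhds_iff_ball.1 hev
  have hr2 : 0 < r / 2 := by linarith
  have hgI : IntegrableOn (fun w => Real.log ‖g w‖) (closedBall w0 (r/2)) := by
    apply ContinuousOn.integrableOn_compact (isCompact_closedBall _ _)
    intro z hz
    have hz' : z ∈ ball w0 r := closedBall_subset_ball (by linarith) hz
    obtain ⟨_, h2, h3⟩ := hball z hz'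
    exact (h2.continuousAt.norm.log (norm_ne_zero_iff.2 h3)).continuousWithinAt
  have hI : IntegrableOn (fun w => Real.log ‖H w‖) (ball w0 (r/2)) := by
    have h1 : IntegrableOn (fun w => (m:ℝ) * Real.log ‖w - w0‖ + Real.log ‖g w‖) (ball w0 (r/2)) :=
      ((log_norm_ball_aux w0 (r/2)).const_mul _).add (hgI.mono_set ball_subset_closedBall)
    apply h1.congr
    have h2 : ∀ᵐ w ∂(volume : Measure ℂ), w ≠ w0 := by
      simp [ae_iff]
    filter_upwards [ae_restrict_mem measurableSet_ball, ae_restrict_of_ae h2] with w hw hne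
    obtain ⟨e1, _, e3⟩ := hball w (ball_subset_ball (by linarith) hw)
    have hne' : ‖w - w0‖ ≠ 0 := norm_ne_zero_iff.2 (sub_ne_zero.2 hne)
    rw [e1, norm_smul, norm_pow, Real.log_mul (pow_ne_zero _ hne') (norm_ne_zero_iff.2 e3),
      Real.log_pow]
  exact ⟨ball w0 (r/2), mem_nhdsWithin_of_mem_nhds (ball_mem_nhds _ hr2), hI⟩
theorem circAvg_ge (c : ℂ) (r : ℝ) (hr : 0 < r) (H : ℂ → ℂ) (hH : AnalyticOnNhd ℂ H (closedBall c r))
    (hc : H c ≠ 0) : Real.log ‖H c‖ ≤ Real.circleAverage (fun w => Real.log ‖H w‖) c r := by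
  have hH' : AnalyticOnNhd ℂ H (closedBall c |r|) := by rwa [abs_of_pos hr]
  have := hH'.circleAverage_log_norm hr.ne' hc
  rw [this]
  have : 0 ≤ ∑ᶠ u, (MeromorphicOn.divisor H (closedBall c |r|) u : ℝ) * Real.log (r * ‖c - u‖⁻¹) := by
    apply finsum_nonneg
    intro u
    by_cases hu : u ∈ closedBall c |r|
    · have h1 : 0 ≤ (MeromorphicOn.divisor H (closedBall c |r|)) u :=
        (MeromorphicOn.AnalyticOnNhd.divisor_nonneg hH') u
      by_cases hcu : u = c
      · subst hcu; simp
      · have h2 : 0 < ‖c - u‖ := norm_pos_iff.2 (sub_ne_zero.2 (Ne.symm hcu))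
        have h3 : ‖c - u‖ ≤ r := by
          rw [mem_closedBall, dist_eq_norm, abs_of_pos hr] at hu
          rwa [norm_sub_rev]
        apply mul_nonneg (by exact_mod_cast h1)
        apply Real.log_nonneg
        rw [← div_eq_mul_inv, le_div_iff₀ h2]
        linarith
    · rw [Function.locallyFinsuppWithin.apply_eq_zero_of_notMem _ hu]; simp
  linarith

theorem area_submean (c : ℂ) (s : ℝ) (hs : 0 < s) (U : Set ℂ) (hU : IsOpen U) (hUc : IsPreconnected U)
    (hsub : closedBall c s ⊆ U) (H : ℂ → ℂ) (hH : DifferentiableOn ℂ H U) (hne : ∃ z ∈ U, H z ≠ 0) :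
    ‖H c‖ ≤ Real.exp ((1 / (Real.pi * s ^ 2)) * ∫ w in ball c s, Real.log ‖H w‖) := by
  by_cases hHc : H c = 0
  · rw [hHc, norm_zero]; positivity
  have hAn : AnalyticOnNhd ℂ H U := hH.analyticOnNhd hU
  have hint : IntegrableOn (fun w => Real.log ‖H w‖) (ball c s) :=
    (log_integrable (closedBall c s) U (isCompact_closedBall _ _) hU hUc hsub H hH hne).mono_set
      ball_subset_closedBall
  -- the translated truncated function
  set F : ℂ → ℝ := (ball (0:ℂ) s).indicator (fun w => Real.log ‖H (c + w)‖) with hF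
  have hFint : Integrable F := by
    rw [hF, integrable_indicator_iff measurableSet_ball]
    have h1 := ((measurePreserving_add_left volume c).integrableOn_comp_preimage
      (MeasurableEquiv.addLeft c).measurableEmbedding (f := fun w : ℂ => Real.log ‖H w‖)
      (s := ball c s)).2 hint
    have h2 : (fun x : ℂ => c + x) ⁻¹' ball c s = ball 0 s := by
      ext x; simp [mem_ball, dist_eq_norm]
    rw [h2] at h1
    exact h1
  have hFval : ∫ w, F w = ∫ w in ball c s, Real.log ‖H w‖ := by
    rw [hF, integral_indicator measurableSet_ball]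
    have h1 := (measurePreserving_add_left volume c).setIntegral_preimage_emb
      (MeasurableEquiv.addLeft c).measurableEmbedding (fun w : ℂ => Real.log ‖H w‖) (ball c s)
    have h2 : (fun x : ℂ => c + x) ⁻¹' ball c s = ball 0 s := by
      ext x; simp [mem_ball, dist_eq_norm]
    rw [h2] at h1
    exact h1
  -- polar coordinates
  have hpol := Complex.integral_comp_polarCoord_symm F
  have htar : polarCoord.target = Set.Ioi (0:ℝ) ×ˢ Set.Ioo (-Real.pi) Real.pi := rfl
  rw [htar] at hpol
  have hG : IntegrableOn (fun p : ℝ × ℝ => p.1 • F (Complex.polarCoord.symm p))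
      (Set.Ioi (0:ℝ) ×ˢ Set.Ioo (-Real.pi) Real.pi) := by
    have h1 : Integrable (F ∘ Complex.measurableEquivRealProd.symm) :=
      (Complex.volume_preserving_equiv_real_prod.symm.integrable_comp_emb
        Complex.measurableEquivRealProd.symm.measurableEmbedding).2 hFint
    have h2 := (integrableOn_image_iff_integrableOn_abs_det_fderiv_smul volume
      (s := polarCoord.target) polarCoord.open_target.measurableSet
      (fun p _ ↦ (hasFDerivAt_polarCoord_symm p).hasFDerivWithinAt) polarCoord.symm.injOn
      (F ∘ Complex.measurableEquivRealProd.symm)).1 h1.integrableOn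
    rw [htar] at h2
    refine h2.congr_fun (fun p hp => ?_) (measurableSet_Ioi.prod measurableSet_Ioo)
    have hp1 : 0 < p.1 := hp.1
    simp only [det_fderivPolarCoordSymm, abs_of_pos hp1, Function.comp]
    rfl
  have hprod : (volume : Measure (ℝ × ℝ)).restrict (Set.Ioi (0:ℝ) ×ˢ Set.Ioo (-Real.pi) Real.pi) =
      (volume.restrict (Set.Ioi (0:ℝ))).prod (volume.restrict (Set.Ioo (-Real.pi) Real.pi)) := by
    rw [Measure.prod_restrict]; rfl
  unfold IntegrableOn at hG
  rw [hprod] at hG hpol
  rw [integral_prod _ hG] at hpol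
  have hG2 := hG.integral_prod_left
  -- inner integral
  have hin : ∀ r ∈ Set.Ioi (0:ℝ), ∫ θ in Set.Ioo (-Real.pi) Real.pi,
      r • F (Complex.polarCoord.symm (r, θ)) =
      (Set.Iio s).indicator (fun r => r * (2 * Real.pi *
        Real.circleAverage (fun w => Real.log ‖H w‖) c r)) r := by
    intro r hr
    have hr' : 0 < r := hr
    have hF2 : ∀ θ : ℝ, F (Complex.polarCoord.symm (r, θ)) =
        (Set.Iio s).indicator (fun r => Real.log ‖H (circleMap c r θ)‖) r := by
      intro θ
      have e1 : Complex.polarCoord.symm (r, θ) = circleMap 0 r θ := by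
        rw [Complex.polarCoord_symm_apply, circleMap, Complex.exp_mul_I]; simp
      rw [e1, hF]
      by_cases hrs : r < s
      · rw [Set.indicator_of_mem (by simpa [abs_of_pos hr'] using hrs), Set.indicator_of_mem (by exact hrs)]
        simp [circleMap]
      · rw [Set.indicator_of_notMem (by simpa [abs_of_pos hr'] using hrs),
          Set.indicator_of_notMem (by exact hrs)]
    simp_rw [hF2]
    by_cases hrs : r < s
    · simp only [Set.indicator_of_mem (show r ∈ Set.Iio s from hrs), smul_eq_mul]
      rw [integral_const_mul]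
      congr 1
      rw [Real.circleAverage, smul_eq_mul, ← mul_assoc, mul_inv_cancel₀ (by positivity), one_mul,
        ← integral_Ioc_eq_integral_Ioo, ← intervalIntegral.integral_of_le (by linarith [Real.pi_pos])]
      have hper : Function.Periodic (fun θ : ℝ => Real.log ‖H (circleMap c r θ)‖) (2 * Real.pi) := by
        intro θ; simp only; rw [periodic_circleMap c r θ]
      have := hper.intervalIntegral_add_eq (-Real.pi) 0
      rw [show -Real.pi + 2 * Real.pi = Real.pi by ring, zero_add] at this
      exact this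
    · simp only [Set.indicator_of_notMem (show r ∉ Set.Iio s from hrs), smul_zero, integral_zero]
  rw [setIntegral_congr_fun measurableSet_Ioi hin] at hpol
  have hG3 : IntegrableOn ((Set.Iio s).indicator (fun r => r * (2 * Real.pi *
        Real.circleAverage (fun w => Real.log ‖H w‖) c r))) (Set.Ioi (0:ℝ)) :=
    IntegrableOn.congr_fun hG2 hin measurableSet_Ioi
  have hlow : ∫ r in Set.Ioi (0:ℝ), (Set.Iio s).indicator (fun r => r * (2 * Real.pi *
      Real.log ‖H c‖)) r = Real.pi * s ^ 2 * Real.log ‖H c‖ := by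
    rw [setIntegral_indicator measurableSet_Iio, Set.Ioi_inter_Iio, ← integral_Ioc_eq_integral_Ioo,
      ← intervalIntegral.integral_of_le hs.le, intervalIntegral.integral_mul_const, integral_id]
    ring
  have hle : Real.pi * s ^ 2 * Real.log ‖H c‖ ≤ ∫ w, F w := by
    rw [← hlow, ← hpol]
    apply setIntegral_mono_on _ hG3 measurableSet_Ioi
    · intro r hr
      by_cases hrs : r < s
      · rw [Set.indicator_of_mem (show r ∈ Set.Iio s from hrs),
          Set.indicator_of_mem (show r ∈ Set.Iio s from hrs)]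
        have hr' : 0 < r := hr
        have := circAvg_ge c r hr' H (fun z hz => hAn z (hsub (closedBall_subset_closedBall hrs.le hz))) hHc
        gcongr
      · rw [Set.indicator_of_notMem (show r ∉ Set.Iio s from hrs),
          Set.indicator_of_notMem (show r ∉ Set.Iio s from hrs)]
    · rw [integrableOn_indicator_iff measurableSet_Iio]
      rw [Set.inter_comm, Set.Ioi_inter_Iio]
      apply (Continuous.integrableOn_Icc (a := 0) (b := s) (by fun_prop)).mono_set
        Set.Ioo_subset_Icc_self
  rw [hFval] at hle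
  rw [← Real.exp_log (norm_pos_iff.2 hHc)]
  apply Real.exp_le_exp.2
  rw [div_mul_eq_mul_div, one_mul, le_div_iff₀ (by positivity)]
  linarith

end MinMod.U2
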