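import Mathlib
import Pool.Agent.MP06ac62.Defs

set_option linter.all false
set_option maxHeartbeats 1000000

namespace MinMod.U0

open MinMod
open Metric

theorem pl_S (p : ℕ) (z : ℂ) (hz : 1 / 2 ≤ ‖z‖) :
    |(∑ k ∈ Finset.range p, z ^ (k + 1) / ((k : ℂ) + 1)).re| ≤ p * 2 ^ p * ‖z‖ ^ p := by
  have h1 : ∀ k ∈ Finset.range p, ‖z ^ (k + 1) / ((k : ℂ) + 1)‖ ≤ 2 ^ p * ‖z‖ ^ p := by
    intro k hk
    rw [Finset.mem_range] at hk
    have h2 : ‖((k : ℂ) + 1)‖ = (k : ℝ) + 1 := by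
      have : ((k : ℂ) + 1) = (((k + 1 : ℕ)) : ℂ) := by push_cast; ring
      rw [this, Complex.norm_natCast]; push_cast; ring
    rw [norm_div, norm_pow, h2]
    have h3 : ‖z‖ ^ (k + 1) / ((k : ℝ) + 1) ≤ ‖z‖ ^ (k + 1) := by
      apply div_le_self (by positivity)
      have : (0 : ℝ) ≤ k := by positivity
      linarith
    have h4 : (1 : ℝ) ≤ 2 * ‖z‖ := by linarith
    have h5 : (2 * ‖z‖) ^ (k + 1) ≤ (2 * ‖z‖) ^ p := pow_le_pow_right₀ h4 (by omega)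
    have h6 : ‖z‖ ^ (k + 1) ≤ (2 * ‖z‖) ^ (k + 1) :=
      pow_le_pow_left₀ (norm_nonneg z) (by linarith) _
    rw [mul_pow 2 ‖z‖ p] at h5
    linarith
  calc |(∑ k ∈ Finset.range p, z ^ (k + 1) / ((k : ℂ) + 1)).re|
      ≤ ‖∑ k ∈ Finset.range p, z ^ (k + 1) / ((k : ℂ) + 1)‖ := Complex.abs_re_le_norm _
    _ ≤ ∑ k ∈ Finset.range p, ‖z ^ (k + 1) / ((k : ℂ) + 1)‖ := norm_sum_le _ _
    _ ≤ ∑ k ∈ Finset.range p, 2 ^ p * ‖z‖ ^ p := Finset.sum_le_sum h1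
    _ = p * 2 ^ p * ‖z‖ ^ p := by simp; ring

theorem pl_log (p : ℕ) (z : ℂ) (hz : z ≠ 1) : Real.log ‖Ep p z‖ =
    Real.log ‖1 - z‖ + (∑ k ∈ Finset.range p, z ^ (k + 1) / ((k : ℂ) + 1)).re := by
  unfold Ep
  rw [norm_mul, Complex.norm_exp, Real.log_mul
    (norm_ne_zero_iff.mpr (sub_ne_zero.mpr (Ne.symm hz))) (Real.exp_pos _).ne', Real.log_exp]

theorem pl_ne (p : ℕ) (z : ℂ) (hz : z ≠ 1) : Ep p z ≠ 0 := by
  unfold Ep
  exact mul_ne_zero (sub_ne_zero.mpr (Ne.symm hz)) (Complex.exp_ne_zero _)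

theorem Ep_bounds (p : ℕ) (hp : 1 ≤ p) : ∃ C > (0:ℝ),
    (∀ z : ℂ, 2 ≤ ‖z‖ → |Real.log ‖Ep p z‖| ≤ C * ‖z‖ ^ p) ∧
    (∀ z : ℂ, 1 / 2 ≤ ‖z‖ → -(C * ‖z‖ ^ p) + min 0 (Real.log ‖1 - z‖) ≤ Real.log ‖Ep p z‖) := by
  refine ⟨p * 2 ^ p + 1, by positivity, ?_, ?_⟩
  · intro z hz
    have hz1 : z ≠ 1 := by
      rintro rfl
      norm_num at hz
    rw [pl_log p z hz1]
    have h1 := pl_S p z (by linarith)
    have h2 : 1 ≤ ‖1 - z‖ := by
      have h3 := norm_sub_norm_le z 1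
      rw [norm_one] at h3
      rw [norm_sub_rev]
      linarith
    have h4 : ‖1 - z‖ ≤ 1 + ‖z‖ := by
      have := norm_sub_le (1 : ℂ) z
      rwa [norm_one] at this
    have h5 : 0 ≤ Real.log ‖1 - z‖ := Real.log_nonneg h2
    have h6 : Real.log ‖1 - z‖ ≤ ‖1 - z‖ - 1 :=
      Real.log_le_sub_one_of_pos (by linarith)
    have h7 : ‖z‖ ≤ ‖z‖ ^ p := le_self_pow₀ (by linarith) (by omega)
    have h8 := abs_le.mp h1
    rw [abs_le]
    constructor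
    · nlinarith [h8.1]
    · nlinarith [h8.2]
  · intro z hz
    by_cases hz1 : z = 1
    · subst hz1
      have h0 : Ep p 1 = 0 := by unfold Ep; simp
      rw [h0]
      simp only [norm_zero, Real.log_zero, sub_self, min_self, norm_one, one_pow, mul_one,
        add_zero]
      have : (0 : ℝ) ≤ p * 2 ^ p + 1 := by positivity
      linarith
    · rw [pl_log p z hz1]
      have h1 := pl_S p z hz
      have h8 := abs_le.mp h1
      have h9 : min 0 (Real.log ‖1 - z‖) ≤ Real.log ‖1 - z‖ := min_le_right _ _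
      have h10 : 0 ≤ ‖z‖ ^ p := by positivity
      nlinarith [h8.1]


theorem pl_iter (p : ℕ) (q : ℝ) (Q : ℕ) (hq : 1 < q) (P : ℂ → ℂ)
    (hfe : ∀ z : ℂ, P z = Ep p z * P (z / (q : ℂ)) ^ Q) (hnz : ∀ z : ℂ, ‖z‖ < 1 → P z ≠ 0)
    (M : ℕ) : ∀ z : ℂ, (∀ n : ℕ, z ≠ (q : ℂ) ^ n) → ‖z‖ / q ^ M < 1 →
      P z ≠ 0 ∧ Real.log ‖P z‖ = ∑ n ∈ Finset.range M, (Q : ℝ) ^ n *
        Real.log ‖Ep p (z / (q : ℂ) ^ n)‖ + (Q : ℝ) ^ M * Real.log ‖P (z / (q : ℂ) ^ M)‖ := by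
  have hqc : (q : ℂ) ≠ 0 := by
    have : q ≠ 0 := by linarith
    exact_mod_cast this
  induction M with
  | zero =>
    intro z hz h
    simp only [pow_zero, div_one] at h ⊢
    refine ⟨hnz z h, by simp⟩
  | succ M ih =>
    intro z hz h
    have hz' : ∀ n : ℕ, z / (q : ℂ) ≠ (q : ℂ) ^ n := by
      intro n hn
      apply hz (n + 1)
      rw [pow_succ, ← hn]
      field_simp
    have h' : ‖z / (q : ℂ)‖ / q ^ M < 1 := by
      rw [norm_div, Complex.norm_real, Real.norm_of_nonneg (by linarith), div_div]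
      rw [pow_succ] at h
      rwa [mul_comm]
    obtain ⟨ih1, ih2⟩ := ih _ hz' h'
    have hz1 : z ≠ 1 := by
      have := hz 0
      simpa using this
    have hE := pl_ne p z hz1
    have hP : P z ≠ 0 := by
      rw [hfe z]
      exact mul_ne_zero hE (pow_ne_zero _ ih1)
    refine ⟨hP, ?_⟩
    rw [hfe z, norm_mul, norm_pow, Real.log_mul (norm_ne_zero_iff.mpr hE)
      (pow_ne_zero _ (norm_ne_zero_iff.mpr ih1)), Real.log_pow, ih2, Finset.sum_range_succ']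
    have e1 : ∀ n : ℕ, z / (q : ℂ) / (q : ℂ) ^ n = z / (q : ℂ) ^ (n + 1) := by
      intro n
      rw [div_div, pow_succ, mul_comm]
    simp only [e1, pow_zero, div_one, one_mul]
    rw [mul_add, Finset.mul_sum]
    have e2 : ∀ n ∈ Finset.range M, (Q : ℝ) * ((Q : ℝ) ^ n *
        Real.log ‖Ep p (z / (q : ℂ) ^ (n + 1))‖) =
        (Q : ℝ) ^ (n + 1) * Real.log ‖Ep p (z / (q : ℂ) ^ (n + 1))‖ := by
      intro n _
      ring
    rw [Finset.sum_congr rfl e2]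
    ring

/-- lower bound for log|P| by iterating the functional equation -/
theorem Pi_lower (p : ℕ) (lam q : ℝ) (Q : ℕ) (hp : 1 ≤ p) (h1 : (p:ℝ) < lam) (h2 : lam < p + 1)
    (hq : 1 < q) (hQ : (Q:ℝ) = q ^ lam) (P : ℂ → ℂ) (hP : Differentiable ℂ P) (hP0 : P 0 = 1)
    (hfe : ∀ z : ℂ, P z = Ep p z * P (z / (q:ℂ)) ^ Q) (hnz : ∀ z : ℂ, ‖z‖ < 1 → P z ≠ 0) :
    ∃ C > (0:ℝ), ∀ z : ℂ, 1 ≤ ‖z‖ → (∀ n : ℕ, z ≠ (q:ℂ) ^ n) →
      ∀ M : ℕ, ‖z‖ / q ^ M ≤ 1 / 2 → q ^ M ≤ 2 * q * ‖z‖ →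
      -(C * ‖z‖ ^ lam) + ∑ n ∈ Finset.range M, (Q:ℝ) ^ n * min 0 (Real.log ‖1 - z / (q:ℂ) ^ n‖)
        ≤ Real.log ‖P z‖ := by
  obtain ⟨C1, hC1, -, hE⟩ := Ep_bounds p hp
  have hq0 : 0 < q := by linarith
  -- compactness
  obtain ⟨C0, hC0, hlow⟩ : ∃ C0 : ℝ, 0 ≤ C0 ∧ ∀ z : ℂ, ‖z‖ ≤ 1 / 2 → -C0 ≤ Real.log ‖P z‖ := by
    have hcont : ContinuousOn (fun z => Real.log ‖P z‖) (closedBall (0 : ℂ) (1 / 2)) := by
      apply ContinuousOn.log
      · exact hP.continuous.norm.continuousOn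
      · intro z hz
        rw [mem_closedBall_zero_iff] at hz
        exact norm_ne_zero_iff.mpr (hnz z (by linarith))
    obtain ⟨b, hb⟩ := ((isCompact_closedBall (0 : ℂ) (1 / 2)).image_of_continuousOn hcont).bddBelow
    refine ⟨|b|, abs_nonneg b, fun z hz => ?_⟩
    have h := hb ⟨z, mem_closedBall_zero_iff.mpr hz, rfl⟩
    have h2 := neg_abs_le b
    linarith
  set t : ℝ := q ^ (lam - p) with ht
  have ht1 : 1 < t := Real.one_lt_rpow hq (by linarith)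
  refine ⟨C1 * (2 * q) ^ (lam - p) / (t - 1) + C0 * (2 * q) ^ lam + 1, ?_, ?_⟩
  · have : 0 < t - 1 := by linarith
    positivity
  intro z hz1 hz M hM1 hM2
  have hz0 : 0 < ‖z‖ := by linarith
  obtain ⟨-, hform⟩ := pl_iter p q Q hq P hfe hnz M z hz (by linarith)
  rw [hform]
  have hQt : (Q : ℝ) = t * q ^ p := by
    rw [hQ, ht, ← Real.rpow_natCast q p, ← Real.rpow_add hq0]
    congr 1; ring
  have hQ0 : (0 : ℝ) < Q := by rw [hQ]; positivity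
  have hnorm : ∀ n : ℕ, ‖z / (q : ℂ) ^ n‖ = ‖z‖ / q ^ n := by
    intro n
    rw [norm_div, norm_pow, Complex.norm_real, Real.norm_of_nonneg hq0.le]
  have hterm : ∀ n ∈ Finset.range M, (Q : ℝ) ^ n * min 0 (Real.log ‖1 - z / (q : ℂ) ^ n‖)
      - C1 * ‖z‖ ^ p * t ^ n ≤ (Q : ℝ) ^ n * Real.log ‖Ep p (z / (q : ℂ) ^ n)‖ := by
    intro n hn
    rw [Finset.mem_range] at hn
    have hhalf : 1 / 2 ≤ ‖z / (q : ℂ) ^ n‖ := by
      rw [hnorm, le_div_iff₀ (by positivity)]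
      have h3 : q ^ (n + 1) ≤ q ^ M := pow_le_pow_right₀ hq.le (by omega)
      rw [pow_succ] at h3
      have h4 : q ^ n * q ≤ 2 * ‖z‖ * q := by nlinarith
      have h5 := le_of_mul_le_mul_right h4 hq0
      linarith
    have h6 := hE _ hhalf
    rw [hnorm] at h6
    have h7 : (Q : ℝ) ^ n * (C1 * (‖z‖ / q ^ n) ^ p) = C1 * ‖z‖ ^ p * t ^ n := by
      rw [hQt, mul_pow, div_pow, ← pow_mul, ← pow_mul, mul_comm p n]
      field_simp
    have h8 : 0 < (Q : ℝ) ^ n := by positivity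
    have h9 := mul_le_mul_of_nonneg_left h6 h8.le
    rw [← h7]
    linarith
  have hsum := Finset.sum_le_sum hterm
  rw [Finset.sum_sub_distrib, ← Finset.mul_sum, geom_sum_eq ht1.ne'] at hsum
  have hzM : ‖z / (q : ℂ) ^ M‖ ≤ 1 / 2 := by rw [hnorm]; exact hM1
  have hPl := hlow _ hzM
  have hQM : (Q : ℝ) ^ M ≤ (2 * q) ^ lam * ‖z‖ ^ lam := by
    rw [hQ, ← Real.rpow_natCast, ← Real.rpow_mul hq0.le, mul_comm lam, Real.rpow_mul hq0.le,
      Real.rpow_natCast, ← Real.mul_rpow (by positivity) (by positivity)]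
    apply Real.rpow_le_rpow (by positivity) hM2
    have : (0 : ℝ) ≤ p := by positivity
    linarith
  have htM : t ^ M ≤ (2 * q) ^ (lam - p) * ‖z‖ ^ (lam - p) := by
    rw [ht, ← Real.rpow_natCast, ← Real.rpow_mul hq0.le, mul_comm (lam - p), Real.rpow_mul hq0.le,
      Real.rpow_natCast, ← Real.mul_rpow (by positivity) (by positivity)]
    apply Real.rpow_le_rpow (by positivity) hM2
    linarith
  have hzl : ‖z‖ ^ (lam - p) * ‖z‖ ^ p = ‖z‖ ^ lam := by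
    rw [← Real.rpow_natCast ‖z‖ p, ← Real.rpow_add hz0]
    congr 1; ring
  have hA : C1 * ‖z‖ ^ p * ((t ^ M - 1) / (t - 1)) ≤
      C1 * (2 * q) ^ (lam - p) / (t - 1) * ‖z‖ ^ lam := by
    have ht0 : 0 < t - 1 := by linarith
    rw [← hzl]
    have e1 : C1 * ‖z‖ ^ p * ((t ^ M - 1) / (t - 1)) =
        (C1 * ‖z‖ ^ p / (t - 1)) * (t ^ M - 1) := by ring
    have e2 : C1 * (2 * q) ^ (lam - p) / (t - 1) * (‖z‖ ^ (lam - p) * ‖z‖ ^ p) =
        (C1 * ‖z‖ ^ p / (t - 1)) * ((2 * q) ^ (lam - p) * ‖z‖ ^ (lam - p)) := by ring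
    rw [e1, e2]
    apply mul_le_mul_of_nonneg_left
    · linarith
    · positivity
  have hB : -(C0 * (2 * q) ^ lam * ‖z‖ ^ lam) ≤ (Q : ℝ) ^ M * Real.log ‖P (z / (q : ℂ) ^ M)‖ := by
    have h8 : 0 ≤ (Q : ℝ) ^ M := by positivity
    have h9 := mul_le_mul_of_nonneg_left hPl h8
    have h10 := mul_le_mul_of_nonneg_left hQM hC0
    linarith
  have hC : 0 ≤ ‖z‖ ^ lam := by positivity
  linarith

end MinMod.U0
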