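import Mathlib
import Pool.Agent.MP06ac62.Defs

set_option linter.all false
set_option maxHeartbeats 1000000

namespace MinMod.U3a

open MinMod
open Metric MeasureTheory Set

theorem polar_sector_aux_pt (p : ℝ × ℝ) :
    Complex.measurableEquivRealProd.symm (polarCoord.symm p) =
      (p.1 : ℂ) * Complex.exp (p.2 * Complex.I) := by
  rw [Complex.measurableEquivRealProd_symm_polarCoord_symm_apply, Complex.polarCoord_symm_apply,
    Complex.exp_mul_I, Complex.ofReal_cos, Complex.ofReal_sin]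

theorem polar_sector_aux_set (β ρ1 ρ2 : ℝ) (hβ2 : β < Real.pi) (h1 : 0 < ρ1) :
    Complex.measurableEquivRealProd.symm ⁻¹' {w : ℂ | ρ1 < ‖w‖ ∧ ‖w‖ < ρ2 ∧ |Complex.arg w| < β} =
      polarCoord.symm '' (Ioo ρ1 ρ2 ×ˢ Ioo (-β) β) := by
  ext x
  constructor
  · intro hx
    have hx' : ρ1 < ‖Complex.measurableEquivRealProd.symm x‖ ∧
      ‖Complex.measurableEquivRealProd.symm x‖ < ρ2 ∧
      |Complex.arg (Complex.measurableEquivRealProd.symm x)| < β := hx
    obtain ⟨w, hw⟩ : ∃ w, w = Complex.measurableEquivRealProd.symm x := ⟨_, rfl⟩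
    rw [← hw] at hx'
    obtain ⟨a1, a2, a3⟩ := hx'
    refine ⟨(‖w‖, Complex.arg w), ⟨⟨a1, a2⟩, abs_lt.1 a3⟩, ?_⟩
    apply Complex.measurableEquivRealProd.symm.injective
    rw [polar_sector_aux_pt, ← hw]
    exact Complex.norm_mul_exp_arg_mul_I w
  · rintro ⟨p, ⟨⟨a1, a2⟩, a3, a4⟩, rfl⟩
    show ρ1 < ‖Complex.measurableEquivRealProd.symm (polarCoord.symm p)‖ ∧
      ‖Complex.measurableEquivRealProd.symm (polarCoord.symm p)‖ < ρ2 ∧
      |Complex.arg (Complex.measurableEquivRealProd.symm (polarCoord.symm p))| < β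
    have hp : 0 < p.1 := h1.trans a1
    rw [polar_sector_aux_pt]
    have hn : ‖(p.1 : ℂ) * Complex.exp (p.2 * Complex.I)‖ = p.1 := by
      rw [norm_mul, Complex.norm_exp_ofReal_mul_I, mul_one, Complex.norm_real,
        Real.norm_of_nonneg hp.le]
    have ha : Complex.arg ((p.1 : ℂ) * Complex.exp (p.2 * Complex.I)) = p.2 := by
      rw [Complex.exp_mul_I]
      exact Complex.arg_mul_cos_add_sin_mul_I hp ⟨by linarith, by linarith⟩
    rw [hn, ha]
    exact ⟨a1, a2, abs_lt.2 ⟨a3, a4⟩⟩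

theorem polar_sector_aux_int (β ρ1 ρ2 : ℝ) (hβ2 : β < Real.pi) (h1 : 0 < ρ1)
    (G : ℂ → ℝ) :
    (IntegrableOn G {w : ℂ | ρ1 < ‖w‖ ∧ ‖w‖ < ρ2 ∧ |Complex.arg w| < β} →
      IntegrableOn (fun p : ℝ × ℝ => p.1 * G (p.1 * Complex.exp (p.2 * Complex.I)))
        (Ioo ρ1 ρ2 ×ˢ Ioo (-β) β)) ∧
    (∫ w in {w : ℂ | ρ1 < ‖w‖ ∧ ‖w‖ < ρ2 ∧ |Complex.arg w| < β}, G w) =
      ∫ p in Ioo ρ1 ρ2 ×ˢ Ioo (-β) β, p.1 * G (p.1 * Complex.exp (p.2 * Complex.I)) := by
  have hms : MeasurableSet (Ioo ρ1 ρ2 ×ˢ Ioo (-β) β) := measurableSet_Ioo.prod measurableSet_Ioo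
  have hinj : InjOn polarCoord.symm (Ioo ρ1 ρ2 ×ˢ Ioo (-β) β) := by
    refine polarCoord.symm.injOn.mono ?_
    rintro p ⟨⟨a1, a2⟩, a3, a4⟩
    exact ⟨h1.trans a1, by show -Real.pi < p.2; linarith, by show p.2 < Real.pi; linarith⟩
  have hd : ∀ x ∈ (Ioo ρ1 ρ2 ×ˢ Ioo (-β) β),
      HasFDerivWithinAt polarCoord.symm (fderivPolarCoordSymm x) (Ioo ρ1 ρ2 ×ˢ Ioo (-β) β) x :=
    fun x _ => (hasFDerivAt_polarCoord_symm x).hasFDerivWithinAt
  have hfun : ∀ x ∈ (Ioo ρ1 ρ2 ×ˢ Ioo (-β) β),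
      |(fderivPolarCoordSymm x).det| • (G ∘ Complex.measurableEquivRealProd.symm)
        (polarCoord.symm x) = x.1 * G (x.1 * Complex.exp (x.2 * Complex.I)) := by
    rintro x ⟨⟨a1, a2⟩, a3, a4⟩
    rw [det_fderivPolarCoordSymm, Function.comp_apply, polar_sector_aux_pt,
      abs_of_pos (h1.trans a1), smul_eq_mul]
  have hmp := Complex.volume_preserving_equiv_real_prod.symm
  have hme := Complex.measurableEquivRealProd.symm.measurableEmbedding
  constructor
  · intro hG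
    rw [← hmp.integrableOn_comp_preimage hme, polar_sector_aux_set β ρ1 ρ2 hβ2 h1,
      integrableOn_image_iff_integrableOn_abs_det_fderiv_smul volume hms hd hinj] at hG
    exact hG.congr_fun hfun hms
  · rw [← hmp.setIntegral_preimage_emb hme, polar_sector_aux_set β ρ1 ρ2 hβ2 h1]
    have h2 := integral_image_eq_integral_abs_det_fderiv_smul volume hms hd hinj
      (G ∘ Complex.measurableEquivRealProd.symm)
    rw [setIntegral_congr_fun hms hfun] at h2
    exact h2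

/-- polar coordinates on a circular sector -/
theorem polar_sector (β ρ1 ρ2 : ℝ) (hβ : 0 < β) (hβ2 : β < Real.pi) (h1 : 0 < ρ1) (h2 : ρ1 ≤ ρ2)
    (G : ℂ → ℝ) (hG : IntegrableOn G {w : ℂ | ρ1 < ‖w‖ ∧ ‖w‖ < ρ2 ∧ |Complex.arg w| < β}) :
    (∫ w in {w : ℂ | ρ1 < ‖w‖ ∧ ‖w‖ < ρ2 ∧ |Complex.arg w| < β}, G w)
      = ∫ ρ in ρ1..ρ2, ρ * ∫ φ in (-β)..β, G (ρ * Complex.exp (φ * Complex.I)) := by
  obtain ⟨hA, hB⟩ := polar_sector_aux_int β ρ1 ρ2 hβ2 h1 G
  have hA' := hA hG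
  rw [hB]
  rw [intervalIntegral.integral_of_le h2, integral_Ioc_eq_integral_Ioo]
  have h3 := setIntegral_prod (μ := (volume : Measure ℝ)) (ν := (volume : Measure ℝ))
    (fun p : ℝ × ℝ => p.1 * G (p.1 * Complex.exp (p.2 * Complex.I))) hA'
  refine h3.trans ?_
  refine setIntegral_congr_fun measurableSet_Ioo ?_
  intro x _
  show ∫ y in Ioo (-β) β, x * G (x * Complex.exp (y * Complex.I)) =
    x * ∫ φ in (-β)..β, G (x * Complex.exp (φ * Complex.I))
  rw [intervalIntegral.integral_of_le (by linarith), integral_Ioc_eq_integral_Ioo,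
    integral_const_mul]

theorem polar_sector_intervalIntegrable (β ρ1 ρ2 : ℝ) (hβ : 0 < β) (hβ2 : β < Real.pi) (h1 : 0 < ρ1)
    (h2 : ρ1 ≤ ρ2) (G : ℂ → ℝ)
    (hG : IntegrableOn G {w : ℂ | ρ1 < ‖w‖ ∧ ‖w‖ < ρ2 ∧ |Complex.arg w| < β}) :
    IntervalIntegrable (fun ρ : ℝ => ρ * ∫ φ in (-β)..β, G (ρ * Complex.exp (φ * Complex.I)))
      volume ρ1 ρ2 := by
  obtain ⟨hA, hB⟩ := polar_sector_aux_int β ρ1 ρ2 hβ2 h1 G
  have hA' := hA hG
  have h3 : Integrable (fun p : ℝ × ℝ => p.1 * G (p.1 * Complex.exp (p.2 * Complex.I)))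
      (((volume : Measure ℝ).restrict (Ioo ρ1 ρ2)).prod
        ((volume : Measure ℝ).restrict (Ioo (-β) β))) := by
    rw [Measure.prod_restrict]
    exact hA'
  have h4 := h3.integral_prod_left
  rw [intervalIntegrable_iff_integrableOn_Ioo_of_le h2]
  refine Integrable.congr h4 (Filter.Eventually.of_forall ?_)
  intro x
  show ∫ y in Ioo (-β) β, x * G (x * Complex.exp (y * Complex.I)) =
    x * ∫ φ in (-β)..β, G (x * Complex.exp (φ * Complex.I))
  rw [intervalIntegral.integral_of_le (by linarith), integral_Ioc_eq_integral_Ioo,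
    integral_const_mul]

/-- full circle decomposed into J arcs -/
theorem angular_sum (u : ℂ → ℝ) (t : ℝ) (hu : CircleIntegrable u 0 t) (a ψ : ℝ) (ha : 0 < a)
    (J : ℕ) (hJ : 0 < J) :
    ∑ j ∈ Finset.range J, ∫ φ in (-(Real.pi / (a * J)))..(Real.pi / (a * J)),
        u (t * Complex.exp (((ψ - 2 * Real.pi * j / J - a * φ : ℝ) : ℂ) * Complex.I))
      = (2 * Real.pi / a) * Real.circleAverage u 0 t := by
  have hJ0 : (0 : ℝ) < J := by exact_mod_cast hJ
  obtain ⟨f, hf⟩ : ∃ f : ℝ → ℝ, f = fun θ => u (circleMap 0 t θ) := ⟨_, rfl⟩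
  have hper : Function.Periodic f (2 * Real.pi) := by
    intro θ
    rw [hf]
    show u (circleMap 0 t (θ + 2 * Real.pi)) = u (circleMap 0 t θ)
    rw [periodic_circleMap 0 t θ]
  have hint : ∀ a b, IntervalIntegrable f volume a b := by
    have h0 : IntervalIntegrable f volume 0 (2 * Real.pi) := by
      rw [hf]
      exact hu
    exact fun a b => hper.intervalIntegrable₀ Real.two_pi_pos.ne' h0 a b
  obtain ⟨A, hA⟩ : ∃ A : ℕ → ℝ, A = fun j : ℕ => ψ + Real.pi / J - 2 * Real.pi * (j : ℝ) / J := ⟨_, rfl⟩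
  have hterm : ∀ j : ℕ, (∫ φ in (-(Real.pi / (a * J)))..(Real.pi / (a * J)),
        u (t * Complex.exp (((ψ - 2 * Real.pi * j / J - a * φ : ℝ) : ℂ) * Complex.I))) =
      a⁻¹ * ∫ θ in A (j + 1)..A j, f θ := by
    intro j
    have h1 : ∀ φ : ℝ, u (t * Complex.exp (((ψ - 2 * Real.pi * j / J - a * φ : ℝ) : ℂ) *
        Complex.I)) = f ((ψ - 2 * Real.pi * j / J) - a * φ) := by
      intro φ
      rw [hf]
      show _ = u (circleMap 0 t _)
      unfold circleMap
      rw [zero_add]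
    rw [intervalIntegral.integral_congr (fun φ _ => h1 φ),
      intervalIntegral.integral_comp_sub_mul f ha.ne', smul_eq_mul]
    congr 2
    · rw [hA]
      show ψ - 2 * Real.pi * j / J - a * (Real.pi / (a * J)) =
        ψ + Real.pi / J - 2 * Real.pi * ((j + 1 : ℕ) : ℝ) / J
      push_cast
      field_simp
      ring
    · rw [hA]
      show ψ - 2 * Real.pi * j / J - a * -(Real.pi / (a * J)) =
        ψ + Real.pi / J - 2 * Real.pi * j / J
      field_simp
      ring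
  rw [Finset.sum_congr rfl (fun j _ => hterm j), ← Finset.mul_sum]
  have hsum : ∑ j ∈ Finset.range J, ∫ θ in A (j + 1)..A j, f θ = ∫ θ in A J..A 0, f θ := by
    have h1 := intervalIntegral.sum_integral_adjacent_intervals (a := A) (n := J) (f := f)
      (μ := volume) (fun k _ => hint _ _)
    rw [intervalIntegral.integral_symm, ← h1, ← Finset.sum_neg_distrib]
    refine Finset.sum_congr rfl (fun j _ => ?_)
    rw [intervalIntegral.integral_symm]
  rw [hsum]
  have hA0 : A 0 = A J + 2 * Real.pi := by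
    rw [hA]
    show ψ + Real.pi / J - 2 * Real.pi * ((0 : ℕ) : ℝ) / J =
      ψ + Real.pi / J - 2 * Real.pi * (J : ℝ) / J + 2 * Real.pi
    push_cast
    field_simp
    ring
  rw [hA0, hper.intervalIntegral_add_eq (A J) 0, zero_add, Real.circleAverage_def, ← hf,
    smul_eq_mul]
  field_simp

end MinMod.U3a
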