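import Mathlib
import Pool.Agent.MP06ac62.Defs
import Pool.Agent.MP06ac62.U2
import Pool.Agent.MP06ac62.U3a

set_option linter.all false
set_option maxHeartbeats 1000000

namespace MinMod.U3b

open MinMod
open MinMod.U2
open MinMod.U3a
open Metric MeasureTheory Set




theorem st_cpow (ρ φ a : ℝ) (hρ : 0 < ρ) (h1 : -Real.pi < φ) (h2 : φ ≤ Real.pi) :
    ((ρ : ℂ) * Complex.exp (φ * Complex.I)) ^ ((-a : ℝ) : ℂ)
      = ((ρ ^ (-a) : ℝ) : ℂ) * Complex.exp (((-(a * φ) : ℝ) : ℂ) * Complex.I) := by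
  have hne : (ρ : ℂ) * Complex.exp (φ * Complex.I) ≠ 0 :=
    mul_ne_zero (by exact_mod_cast hρ.ne') (Complex.exp_ne_zero _)
  rw [Complex.cpow_def_of_ne_zero hne, Complex.log_ofReal_mul hρ (Complex.exp_ne_zero _),
    Complex.log_exp (by simpa using h1) (by simpa using h2), Real.rpow_def_of_pos hρ,
    Complex.ofReal_exp, ← Complex.exp_add]
  congr 1
  push_cast
  ring

theorem st_curve (E : ℂ → ℂ) (hE : Differentiable ℂ E) (c : ℂ) (a x y : ℝ) :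
    IntervalIntegrable (fun φ : ℝ => Real.log ‖E (c * Complex.exp (((-(a * φ) : ℝ) : ℂ) * Complex.I))‖)
      volume x y := by
  have h1 : Differentiable ℂ (fun w : ℂ => E (c * Complex.exp (-((a : ℂ) * w) * Complex.I))) := by
    apply hE.comp
    fun_prop
  have h2 : MeromorphicOn (fun φ : ℝ => E (c * Complex.exp (-((a : ℂ) * (φ : ℂ)) * Complex.I)))
      (Set.uIcc x y) := by
    apply AnalyticOnNhd.meromorphicOn
    intro φ _
    exact AnalyticAt.comp (g := fun w : ℂ => E (c * Complex.exp (-((a : ℂ) * w) * Complex.I)))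
      (f := fun φ : ℝ => (φ : ℂ))
      ((h1.analyticAt (φ : ℂ)).restrictScalars (𝕜 := ℝ)) (Complex.ofRealCLM.analyticAt φ)
  have h3 := h2.intervalIntegrable_log_norm
  refine h3.congr ?_
  intro φ _
  simp only [Complex.ofReal_neg, Complex.ofReal_mul]

theorem st_sector (E : ℂ → ℂ) (hE : Differentiable ℂ E) (hE0 : E 0 ≠ 0) (z : ℂ) (a : ℝ) (ha : 0 < a)
    (β ρ1 ρ2 : ℝ) (hβ : 0 < β) (hβ2 : β < Real.pi / 2) (h1 : 0 < ρ1) (h2 : ρ1 ≤ ρ2) :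
    IntegrableOn (fun w : ℂ => Real.log ‖E (z * w ^ ((-a : ℝ) : ℂ))‖)
      {w : ℂ | ρ1 < ‖w‖ ∧ ‖w‖ < ρ2 ∧ |Complex.arg w| < β} := by
  have hK : IsCompact ((fun p : ℝ × ℝ => (p.1 : ℂ) * Complex.exp (p.2 * Complex.I)) ''
      (Icc ρ1 ρ2 ×ˢ Icc (-β) β)) := by
    apply (isCompact_Icc.prod isCompact_Icc).image
    fun_prop
  have hmain := log_integrable _ {w : ℂ | 0 < w.re} hK
    (isOpen_lt continuous_const Complex.continuous_re) (convex_halfSpace_re_gt 0).isPreconnected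
    ?_ (fun w : ℂ => E (z * w ^ ((-a : ℝ) : ℂ))) ?_ ?_
  · apply hmain.mono_set
    rintro w ⟨hw1, hw2, hw3⟩
    refine ⟨(‖w‖, Complex.arg w), ⟨⟨hw1.le, hw2.le⟩, ?_⟩, ?_⟩
    · have := abs_lt.1 hw3
      exact ⟨this.1.le, this.2.le⟩
    · exact Complex.norm_mul_exp_arg_mul_I w
  · rintro w ⟨⟨ρ, φ⟩, ⟨hρ, hφ⟩, rfl⟩
    show 0 < ((ρ : ℂ) * Complex.exp (φ * Complex.I)).re
    rw [Complex.re_ofReal_mul, Complex.exp_ofReal_mul_I_re]
    apply mul_pos (lt_of_lt_of_le h1 hρ.1)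
    apply Real.cos_pos_of_mem_Ioo
    exact ⟨by linarith [hφ.1], by linarith [hφ.2]⟩
  · intro w hw
    have hs : w ∈ Complex.slitPlane := Or.inl hw
    apply DifferentiableAt.differentiableWithinAt
    apply DifferentiableAt.comp w (hE _)
    exact ((differentiableAt_id).cpow_const hs).const_mul z
  · have ht : Filter.Tendsto (fun t : ℝ => E (z * ((t ^ (-a) : ℝ) : ℂ))) Filter.atTop (nhds (E 0)) := by
      apply (hE.continuous.tendsto 0).comp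
      have h3 : Filter.Tendsto (fun t : ℝ => ((t ^ (-a) : ℝ) : ℂ)) Filter.atTop (nhds ((0 : ℝ) : ℂ)) :=
        (Complex.continuous_ofReal.tendsto 0).comp (tendsto_rpow_neg_atTop ha)
      have h4 := h3.const_mul z
      simpa using h4
    obtain ⟨t, ht1, ht2⟩ := ((ht.eventually_ne hE0).and (Filter.eventually_gt_atTop 0)).exists
    refine ⟨(t : ℂ), by simpa using ht2, ?_⟩
    have h5 : ((t : ℂ)) ^ ((-a : ℝ) : ℂ) = ((t ^ (-a) : ℝ) : ℂ) := by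
      rw [Complex.ofReal_cpow ht2.le]
    rw [h5]
    exact ht1

theorem st_int (E : ℂ → ℂ) (hE : Differentiable ℂ E) (hE0 : E 0 ≠ 0) (z : ℂ) (a : ℝ) (ha : 0 < a)
    (β ρ1 ρ2 : ℝ) (hβ : 0 < β) (hβ2 : β < Real.pi / 2) (h1 : 0 < ρ1) (h2 : ρ1 ≤ ρ2) :
    IntervalIntegrable (fun ρ : ℝ => ρ * ∫ φ in (-β)..β,
        Real.log ‖E (z * ((ρ ^ (-a) : ℝ) : ℂ) * Complex.exp (((-(a * φ) : ℝ) : ℂ) * Complex.I))‖)
      volume ρ1 ρ2 := by
  have hpi := Real.pi_pos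
  have h3 := polar_sector_intervalIntegrable β ρ1 ρ2 hβ (by linarith) h1 h2 _
    (st_sector E hE hE0 z a ha β ρ1 ρ2 hβ hβ2 h1 h2)
  refine h3.congr ?_
  intro ρ hρ
  rw [uIoc_of_le h2] at hρ
  have hρ0 : 0 < ρ := lt_trans h1 hρ.1
  simp only
  congr 1
  apply intervalIntegral.integral_congr
  intro φ hφ
  rw [uIcc_of_le (by linarith)] at hφ
  simp only
  rw [st_cpow ρ φ a hρ0 (by linarith [hφ.1]) (by linarith [hφ.2]), mul_assoc]

theorem st_count (P : ℂ → ℂ) (hP : Differentiable ℂ P) (h0 : P 0 ≠ 0) :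
    {w | P w = 0}.Countable := by
  have h1 : AnalyticOnNhd ℂ P univ := hP.differentiableOn.analyticOnNhd isOpen_univ
  have h2 := h1.preimage_zero_mem_codiscrete h0
  rw [mem_codiscrete'] at h2
  have h3 := h2.2
  have h4 : (P ⁻¹' {0}ᶜ)ᶜ = {w | P w = 0} := by
    ext w; simp
  rw [h4] at h3
  have : DiscreteTopology ({w | P w = 0} : Set ℂ) := h3.to_subtype
  exact countable_of_Lindelof_of_discrete (X := ({w | P w = 0} : Set ℂ))

theorem st_null (P : ℂ → ℂ) (hP : Differentiable ℂ P) (h0 : P 0 ≠ 0) (c : ℂ) (hc : c ≠ 0) (a β : ℝ)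
    (ha : 0 < a) (ha1 : a < 1) (hβ : 0 < β) (hβ2 : β < Real.pi / 2) :
    ∀ᵐ φ : ℝ, φ ∈ Set.uIoc (-β) β → P (c * Complex.exp (((-(a * φ) : ℝ) : ℂ) * Complex.I)) ≠ 0 := by
  have hpi := Real.pi_pos
  have hcount : {φ : ℝ | φ ∈ Set.uIoc (-β) β ∧
      P (c * Complex.exp (((-(a * φ) : ℝ) : ℂ) * Complex.I)) = 0}.Countable := by
    apply MapsTo.countable_of_injOn
      (f := fun φ : ℝ => c * Complex.exp (((-(a * φ) : ℝ) : ℂ) * Complex.I))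
      (t := {w | P w = 0}) _ _ (st_count P hP h0)
    · rintro φ ⟨_, hφ⟩
      exact hφ
    · rintro φ ⟨hφ, _⟩ ψ ⟨hψ, _⟩ h
      simp only at h
      rw [uIoc_of_le (by linarith)] at hφ hψ
      have h5 := mul_left_cancel₀ hc h
      have aux : ∀ θ : ℝ, θ ∈ Ioc (-β) β → -Real.pi < -(a * θ) ∧ -(a * θ) ≤ Real.pi := by
        intro θ hθ
        have h6 : |a * θ| ≤ β := by
          rw [abs_mul, abs_of_pos ha]
          have : |θ| ≤ β := abs_le.2 ⟨hθ.1.le, hθ.2⟩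
          nlinarith [abs_nonneg θ]
        have := abs_le.1 h6
        constructor <;> linarith
      have h7 := Complex.exp_inj_of_neg_pi_lt_of_le_pi (by simpa using (aux φ hφ).1)
        (by simpa using (aux φ hφ).2) (by simpa using (aux ψ hψ).1)
        (by simpa using (aux ψ hψ).2) h5
      have h8 := mul_right_cancel₀ Complex.I_ne_zero h7
      have h9 : -(a * φ) = -(a * ψ) := by exact_mod_cast h8
      have h10 : a * φ = a * ψ := by linarith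
      exact mul_left_cancel₀ ha.ne' h10
  have hz := hcount.measure_zero volume
  rw [ae_iff]
  convert hz using 2
  ext φ
  simp

theorem st_Ep_diff (p : ℕ) : Differentiable ℂ (Ep p) := by
  unfold Ep
  fun_prop

theorem st_Ep_zero (p : ℕ) : Ep p 0 = 1 := by
  unfold Ep
  simp

theorem st_fe (p : ℕ) (a q : ℝ) (ha : 0 < a) (ha1 : a < 1) (q0 : ℕ) (hq0 : 2 ≤ q0)
    (hq : q = (q0:ℝ) ^ a)
    (P : ℂ → ℂ) (hP : Differentiable ℂ P) (hP0 : P 0 = 1)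
    (hfe : ∀ z : ℂ, P z = Ep p z * P (z / (q:ℂ)) ^ (q0 ^ 2))
    (β : ℝ) (hβ : 0 < β) (hβ2 : β < Real.pi / 2) (z : ℂ) (hz : z ≠ 0) (ρ : ℝ) (hρ : 0 < ρ) :
    (∫ φ in (-β)..β,
        Real.log ‖P (z * ((ρ ^ (-a) : ℝ) : ℂ) * Complex.exp (((-(a * φ) : ℝ) : ℂ) * Complex.I))‖)
      = (∫ φ in (-β)..β,
        Real.log ‖Ep p (z * ((ρ ^ (-a) : ℝ) : ℂ) * Complex.exp (((-(a * φ) : ℝ) : ℂ) * Complex.I))‖)
      + (q0 : ℝ) ^ 2 * ∫ φ in (-β)..β,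
        Real.log ‖P (z * ((((q0 : ℝ) * ρ) ^ (-a) : ℝ) : ℂ)
          * Complex.exp (((-(a * φ) : ℝ) : ℂ) * Complex.I))‖ := by
  have hq0' : (0 : ℝ) < q0 := by
    have : (2 : ℝ) ≤ q0 := by exact_mod_cast hq0
    linarith
  have hP0' : P 0 ≠ 0 := by rw [hP0]; exact one_ne_zero
  rw [← intervalIntegral.integral_const_mul, ← intervalIntegral.integral_add
    (st_curve (Ep p) (st_Ep_diff p) _ a _ _) ((st_curve P hP _ a _ _).const_mul _)]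
  apply intervalIntegral.integral_congr_ae
  have hc : z * ((ρ ^ (-a) : ℝ) : ℂ) ≠ 0 := by
    apply mul_ne_zero hz
    have := (Real.rpow_pos_of_pos hρ (-a)).ne'
    exact_mod_cast this
  filter_upwards [st_null P hP hP0' _ hc a β ha ha1 hβ hβ2] with φ hφ hφm
  have h1 := hφ hφm
  have hqpos : 0 < q := by rw [hq]; exact Real.rpow_pos_of_pos hq0' a
  have hu : z * ((ρ ^ (-a) : ℝ) : ℂ) * Complex.exp (((-(a * φ) : ℝ) : ℂ) * Complex.I) / (q : ℂ)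
      = z * ((((q0 : ℝ) * ρ) ^ (-a) : ℝ) : ℂ) * Complex.exp (((-(a * φ) : ℝ) : ℂ) * Complex.I) := by
    have h2 : ((q0 : ℝ) * ρ) ^ (-a) = ρ ^ (-a) / q := by
      rw [Real.mul_rpow hq0'.le hρ.le, hq, Real.rpow_neg hq0'.le a]
      field_simp
    rw [h2, Complex.ofReal_div]
    ring
  have h2 := hfe (z * ((ρ ^ (-a) : ℝ) : ℂ) * Complex.exp (((-(a * φ) : ℝ) : ℂ) * Complex.I))
  rw [hu] at h2
  have h3 : Ep p (z * ((ρ ^ (-a) : ℝ) : ℂ) * Complex.exp (((-(a * φ) : ℝ) : ℂ) * Complex.I)) ≠ 0 := by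
    intro h4
    rw [h4, zero_mul] at h2
    exact h1 h2
  have h4 : P (z * ((((q0 : ℝ) * ρ) ^ (-a) : ℝ) : ℂ)
      * Complex.exp (((-(a * φ) : ℝ) : ℂ) * Complex.I)) ^ (q0 ^ 2) ≠ 0 := by
    intro h4
    rw [h4, mul_zero] at h2
    exact h1 h2
  rw [h2, norm_mul, Real.log_mul (norm_ne_zero_iff.2 h3) (norm_ne_zero_iff.2 h4), norm_pow,
    Real.log_pow]
  push_cast
  ring

/-- TARGET: staircase identity from the functional equation (q = q0^a) -/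
theorem staircase (p : ℕ) (hp : 1 ≤ p) (a q : ℝ) (ha : 0 < a) (ha1 : a < 1) (q0 : ℕ) (hq0 : 2 ≤ q0)
    (hq : q = (q0:ℝ) ^ a)
    (P : ℂ → ℂ) (hP : Differentiable ℂ P) (hP0 : P 0 = 1)
    (hfe : ∀ z : ℂ, P z = Ep p z * P (z / (q:ℂ)) ^ (q0 ^ 2))
    (β ρ0 ρ1 : ℝ) (hβ : 0 < β) (hβ2 : β < Real.pi / 2) (hρ0 : 0 < ρ0) (hρ1 : ρ0 ≤ ρ1) (z : ℂ) (hz : z ≠ 0) :
    (∫ ρ in ρ1..(q0 * ρ1), ρ * ∫ φ in (-β)..β,
        Real.log ‖P (z * ((ρ ^ (-a) : ℝ) : ℂ) * Complex.exp (((-(a * φ) : ℝ) : ℂ) * Complex.I))‖)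
      = (∫ ρ in ρ0..(q0 * ρ0), ρ * ∫ φ in (-β)..β,
          Real.log ‖P (z * ((ρ ^ (-a) : ℝ) : ℂ) * Complex.exp (((-(a * φ) : ℝ) : ℂ) * Complex.I))‖)
        - ∫ ρ in ρ0..ρ1, ρ * ∫ φ in (-β)..β,
          Real.log ‖Ep p (z * ((ρ ^ (-a) : ℝ) : ℂ) * Complex.exp (((-(a * φ) : ℝ) : ℂ) * Complex.I))‖ := by
  have hq2 : (2 : ℝ) ≤ q0 := by exact_mod_cast hq0
  have hq0' : (0 : ℝ) < q0 := by linarith
  have hP0' : P 0 ≠ 0 := by rw [hP0]; exact one_ne_zero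
  have hE0' : Ep p 0 ≠ 0 := by rw [st_Ep_zero]; exact one_ne_zero
  have hρ1' : 0 < ρ1 := lt_of_lt_of_le hρ0 hρ1
  obtain ⟨F, hF⟩ : ∃ F : ℝ → ℝ, F = fun ρ => ∫ φ in (-β)..β,
        Real.log ‖P (z * ((ρ ^ (-a) : ℝ) : ℂ) * Complex.exp (((-(a * φ) : ℝ) : ℂ) * Complex.I))‖ :=
    ⟨_, rfl⟩
  obtain ⟨FK, hFK⟩ : ∃ FK : ℝ → ℝ, FK = fun ρ => ∫ φ in (-β)..β,
        Real.log ‖Ep p (z * ((ρ ^ (-a) : ℝ) : ℂ) * Complex.exp (((-(a * φ) : ℝ) : ℂ) * Complex.I))‖ :=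
    ⟨_, rfl⟩
  have iF : ∀ x y : ℝ, 0 < x → 0 < y → IntervalIntegrable (fun ρ => ρ * F ρ) volume x y := by
    intro x y hx hy
    rcases le_total x y with hxy | hxy
    · rw [hF]; exact st_int P hP hP0' z a ha β x y hβ hβ2 hx hxy
    · rw [hF]; exact (st_int P hP hP0' z a ha β y x hβ hβ2 hy hxy).symm
  have iK : ∀ x y : ℝ, 0 < x → 0 < y → IntervalIntegrable (fun ρ => ρ * FK ρ) volume x y := by
    intro x y hx hy
    rcases le_total x y with hxy | hxy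
    · rw [hFK]; exact st_int (Ep p) (st_Ep_diff p) hE0' z a ha β x y hβ hβ2 hx hxy
    · rw [hFK]; exact (st_int (Ep p) (st_Ep_diff p) hE0' z a ha β y x hβ hβ2 hy hxy).symm
  have fe : ∀ ρ : ℝ, 0 < ρ → F ρ = FK ρ + (q0 : ℝ) ^ 2 * F (q0 * ρ) := by
    intro ρ hρ
    rw [hF, hFK]
    exact st_fe p a q ha ha1 q0 hq0 hq P hP hP0 hfe β hβ hβ2 z hz ρ hρ
  have g1 : (∫ ρ in ρ1..(q0 * ρ1), ρ * F ρ) = (∫ ρ in ρ0..(q0 * ρ0), ρ * F ρ)
      + (∫ ρ in (q0 * ρ0)..(q0 * ρ1), ρ * F ρ) - ∫ ρ in ρ0..ρ1, ρ * F ρ := by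
    have e1 := intervalIntegral.integral_add_adjacent_intervals
      (iF ρ0 (q0 * ρ0) hρ0 (by positivity)) (iF (q0 * ρ0) (q0 * ρ1) (by positivity) (by positivity))
    have e2 := intervalIntegral.integral_add_adjacent_intervals
      (iF ρ0 ρ1 hρ0 hρ1') (iF ρ1 (q0 * ρ1) hρ1' (by positivity))
    linarith
  have g2 : (∫ ρ in (q0 * ρ0)..(q0 * ρ1), ρ * F ρ)
      = (∫ ρ in ρ0..ρ1, ρ * F ρ) - ∫ ρ in ρ0..ρ1, ρ * FK ρ := by
    rw [← intervalIntegral.integral_sub (iF ρ0 ρ1 hρ0 hρ1') (iK ρ0 ρ1 hρ0 hρ1')]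
    rw [← intervalIntegral.smul_integral_comp_mul_left (f := fun ρ => ρ * F ρ) (q0 : ℝ), smul_eq_mul,
      ← intervalIntegral.integral_const_mul]
    apply intervalIntegral.integral_congr
    intro x hx
    rw [uIcc_of_le hρ1] at hx
    have hx0 : 0 < x := lt_of_lt_of_le hρ0 hx.1
    simp only
    rw [fe x hx0]
    ring
  have g3 : (∫ ρ in ρ1..(q0 * ρ1), ρ * F ρ) = (∫ ρ in ρ0..(q0 * ρ0), ρ * F ρ)
      - ∫ ρ in ρ0..ρ1, ρ * FK ρ := by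
    rw [g1, g2]; ring
  rw [hF, hFK] at g3
  exact g3

end MinMod.U3b
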