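import Mathlib
import Pool.Agent.MP06ac62.Defs

set_option linter.all false
set_option maxHeartbeats 1000000

namespace MinMod.U3d

open MinMod
open Metric MeasureTheory Set

theorem cont_max {f : ℝ → ℝ} {x : ℝ} (hf : ContinuousAt f x) :
    ContinuousAt (fun y => max 0 (f y)) x :=
  ((continuous_const.max continuous_id : Continuous fun y : ℝ => max 0 y).continuousAt).comp hf

theorem avg_log_mul {A B : ℂ → ℂ} (hA : Differentiable ℂ A) (hB : Differentiable ℂ B)
    (hA0 : A 0 ≠ 0) (hB0 : B 0 ≠ 0) (m : ℕ) (s : ℝ) :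
    Real.circleAverage (fun z => Real.log ‖A z * B z ^ m‖) 0 s =
      Real.circleAverage (fun z => Real.log ‖A z‖) 0 s +
        m * Real.circleAverage (fun z => Real.log ‖B z‖) 0 s := by
  rcases eq_or_ne s 0 with rfl | hs
  · rw [Real.circleAverage_zero, Real.circleAverage_zero, Real.circleAverage_zero, norm_mul,
      norm_pow, Real.log_mul (norm_ne_zero_iff.2 hA0) (pow_ne_zero _ (norm_ne_zero_iff.2 hB0)),
      Real.log_pow]
  · have hAa : AnalyticOnNhd ℂ A Set.univ := fun x _ => hA.analyticAt x
    have hBa : AnalyticOnNhd ℂ B Set.univ := fun x _ => hB.analyticAt x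
    have iA : CircleIntegrable (fun z => Real.log ‖A z‖) 0 s :=
      MeromorphicOn.circleIntegrable_log_norm (fun z _ => (hA.analyticAt z).meromorphicAt)
    have iB : CircleIntegrable (fun z => Real.log ‖B z‖) 0 s :=
      MeromorphicOn.circleIntegrable_log_norm (fun z _ => (hB.analyticAt z).meromorphicAt)
    have h1 : Real.circleAverage (fun z => Real.log ‖A z * B z ^ m‖) 0 s =
        Real.circleAverage (fun z => Real.log ‖A z‖ + (m : ℝ) • Real.log ‖B z‖) 0 s := by
      apply Real.circleAverage_congr_codiscreteWithin _ hs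
      have cA := hAa.preimage_zero_mem_codiscrete hA0
      have cB := hBa.preimage_zero_mem_codiscrete hB0
      have mA := Filter.codiscreteWithin_mono (Set.subset_univ (Metric.sphere (0 : ℂ) |s|)) cA
      have mB := Filter.codiscreteWithin_mono (Set.subset_univ (Metric.sphere (0 : ℂ) |s|)) cB
      filter_upwards [mA, mB] with z hz1 hz2
      have h1 : A z ≠ 0 := hz1
      have h2 : B z ≠ 0 := hz2
      rw [norm_mul, norm_pow, Real.log_mul (norm_ne_zero_iff.2 h1)
        (pow_ne_zero _ (norm_ne_zero_iff.2 h2)), Real.log_pow, smul_eq_mul]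
    have iB' : CircleIntegrable (fun z => (m : ℝ) • Real.log ‖B z‖) 0 s :=
      iB.const_smul (a := (m : ℝ))
    have h2 : Real.circleAverage (fun z => Real.log ‖A z‖ + (m : ℝ) • Real.log ‖B z‖) 0 s =
        Real.circleAverage (fun z => Real.log ‖A z‖) 0 s +
          Real.circleAverage (fun z => (m : ℝ) • Real.log ‖B z‖) 0 s :=
      Real.circleAverage_fun_add iA iB'
    rw [h1, h2, Real.circleAverage_fun_smul, smul_eq_mul]

theorem circleAvg_Ep (p : ℕ) (s : ℝ) (hs : 0 ≤ s) :
    Real.circleAverage (fun z => Real.log ‖Ep p z‖) 0 s = max 0 (Real.log s) := by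
  have hh : Differentiable ℂ (fun z : ℂ =>
      Complex.exp (∑ k ∈ Finset.range p, z ^ (k + 1) / ((k : ℂ) + 1))) := by
    apply Differentiable.cexp
    apply Differentiable.fun_sum
    intro i _
    exact (differentiable_id.pow _).div_const _
  have h0 : Complex.exp (∑ k ∈ Finset.range p, (0 : ℂ) ^ (k + 1) / ((k : ℂ) + 1)) = 1 := by
    simp
  have h1 := avg_log_mul (A := fun z => 1 - z)
    (B := fun z : ℂ => Complex.exp (∑ k ∈ Finset.range p, z ^ (k + 1) / ((k : ℂ) + 1)))
    (by fun_prop) hh (by simp) (by rw [h0]; exact one_ne_zero) 1 s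
  simp only [pow_one, Nat.cast_one, one_mul] at h1
  have h2 : Real.circleAverage (fun z : ℂ => Real.log
      ‖Complex.exp (∑ k ∈ Finset.range p, z ^ (k + 1) / ((k : ℂ) + 1))‖) 0 s = 0 := by
    have h3 := AnalyticOnNhd.circleAverage_log_norm_of_ne_zero (R := s) (c := 0)
      (g := fun z : ℂ => Complex.exp (∑ k ∈ Finset.range p, z ^ (k + 1) / ((k : ℂ) + 1)))
      (fun z _ => hh.analyticAt z) (fun z _ => Complex.exp_ne_zero _)
    rw [h3, h0]
    simp
  have h4 : Real.circleAverage (fun z : ℂ => Real.log ‖1 - z‖) 0 s = max 0 (Real.log s) := by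
    rcases hs.eq_or_lt with rfl | hs
    · simp
    · have h5 : (fun z : ℂ => Real.log ‖1 - z‖) = (fun z : ℂ => Real.log ‖z - 1‖) := by
        funext z
        rw [norm_sub_rev]
      rw [h5]
      have h6 := circleAverage_log_norm_sub_const_eq_log_radius_add_posLog (a := 1) (c := 0) hs.ne'
      rw [h6]
      simp only [zero_sub, norm_neg, norm_one, mul_one, Real.posLog, Real.log_inv]
      rcases le_total 0 (Real.log s) with h | h
      · rw [max_eq_left (by linarith), max_eq_right h]
        ring
      · rw [max_eq_right (by linarith), max_eq_left h]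
        ring
  have h7 : (fun z => Real.log ‖Ep p z‖) = (fun z : ℂ => Real.log ‖(1 - z) *
      Complex.exp (∑ k ∈ Finset.range p, z ^ (k + 1) / ((k : ℂ) + 1))‖) := rfl
  rw [h7, h1, h2, h4, add_zero]

/-- the elementary integral -/
theorem elem_int (a M u v : ℝ) (ha : 0 < a) (hM : 0 < M) (hu : 0 < u) (huv : u ≤ v) :
    (∫ x in u..v, x * max 0 (a * (Real.log M - Real.log x))) ≤ a * M ^ 2 / 4 := by
  have hcont : ∀ c d : ℝ, 0 < c → 0 < d → IntervalIntegrable
      (fun x => x * max 0 (a * (Real.log M - Real.log x))) volume c d := by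
    intro c d hc hd
    apply ContinuousOn.intervalIntegrable
    intro x hx
    have hx0 : x ≠ 0 := by
      rcases Set.mem_uIcc.1 hx with h | h <;> exact ne_of_gt (by linarith [h.1])
    apply ContinuousAt.continuousWithinAt
    apply ContinuousAt.mul continuousAt_id
    exact cont_max (continuousAt_const.mul (continuousAt_const.sub (Real.continuousAt_log hx0)))
  have hzero : ∀ c d : ℝ, M ≤ c → c ≤ d →
      (∫ x in c..d, x * max 0 (a * (Real.log M - Real.log x))) = 0 := by
    intro c d hc hcd
    rw [intervalIntegral.integral_congr (g := fun _ => (0 : ℝ))]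
    · simp
    · intro x hx
      rw [Set.uIcc_of_le hcd] at hx
      have h1 : Real.log M ≤ Real.log x := Real.log_le_log hM (by linarith [hx.1])
      have h2 : a * (Real.log M - Real.log x) ≤ 0 :=
        mul_nonpos_of_nonneg_of_nonpos ha.le (by linarith)
      simp only [max_eq_left h2, mul_zero]
  have hnn : 0 ≤ a * M ^ 2 / 4 := by positivity
  rcases le_or_gt M u with hMu | hMu
  · rw [hzero u v hMu huv]
    exact hnn
  · -- main case `u < M`
    have hmain : ∀ w, u ≤ w → w ≤ M →
        (∫ x in u..w, x * max 0 (a * (Real.log M - Real.log x))) ≤ a * M ^ 2 / 4 := by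
      intro w huw hwM
      have hw : 0 < w := lt_of_lt_of_le hu huw
      have hder : ∀ x ∈ Set.uIcc u w, HasDerivAt
          (fun y => a * (y ^ 2 / 2 * (Real.log M - Real.log y) + y ^ 2 / 4))
          (x * max 0 (a * (Real.log M - Real.log x))) x := by
        intro x hx
        rw [Set.uIcc_of_le huw] at hx
        have hx0 : 0 < x := lt_of_lt_of_le hu hx.1
        have h1 : Real.log x ≤ Real.log M := Real.log_le_log hx0 (by linarith [hx.2])
        have h2 : 0 ≤ a * (Real.log M - Real.log x) := mul_nonneg ha.le (by linarith)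
        rw [max_eq_right h2]
        have h3 : HasDerivAt (fun y : ℝ => y ^ 2) (2 * x) x := by
          simpa using hasDerivAt_pow 2 x
        have h4 : HasDerivAt (fun y : ℝ => Real.log M - Real.log y) (-(x⁻¹)) x := by
          simpa using (Real.hasDerivAt_log hx0.ne').const_sub (Real.log M)
        have h5 := (((h3.div_const 2).mul h4).add (h3.div_const 4)).const_mul a
        refine HasDerivAt.congr_deriv h5 ?_
        field_simp
        ring
      rw [intervalIntegral.integral_eq_sub_of_hasDerivAt hder (hcont u w hu hw)]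
      have h6 : 0 ≤ a * (u ^ 2 / 2 * (Real.log M - Real.log u) + u ^ 2 / 4) := by
        have : Real.log u ≤ Real.log M := Real.log_le_log hu (by linarith)
        have h7 : 0 ≤ Real.log M - Real.log u := by linarith
        positivity
      have h8 : a * (w ^ 2 / 2 * (Real.log M - Real.log w) + w ^ 2 / 4) ≤ a * M ^ 2 / 4 := by
        have h9 : Real.log M - Real.log w = Real.log (M / w) := (Real.log_div hM.ne' hw.ne').symm
        have h10 : Real.log (M ^ 2 / w ^ 2) ≤ M ^ 2 / w ^ 2 - 1 :=
          Real.log_le_sub_one_of_pos (by positivity)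
        have h11 : Real.log (M ^ 2 / w ^ 2) = 2 * Real.log (M / w) := by
          rw [← div_pow, Real.log_pow]; norm_num
        rw [h11] at h10
        have h12 : w ^ 2 * (2 * Real.log (M / w)) ≤ w ^ 2 * (M ^ 2 / w ^ 2 - 1) :=
          mul_le_mul_of_nonneg_left h10 (by positivity)
        have h13 : w ^ 2 * (M ^ 2 / w ^ 2 - 1) = M ^ 2 - w ^ 2 := by
          field_simp
        rw [h13] at h12
        rw [h9]
        have h14 : w ^ 2 / 2 * Real.log (M / w) + w ^ 2 / 4 ≤ M ^ 2 / 4 := by linarith
        have := mul_le_mul_of_nonneg_left h14 ha.le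
        linarith
      linarith
    rcases le_total v M with hv | hv
    · exact hmain v huv hv
    · rw [← intervalIntegral.integral_add_adjacent_intervals (hcont u M hu hM)
        (hcont M v hM (by linarith)), hzero M v le_rfl hv, add_zero]
      exact hmain M hMu.le le_rfl

/-- radial integral bound; a = 2/lam, q = q0^a -/
theorem radial_integral (p : ℕ) (hp : 1 ≤ p) (lam a q : ℝ) (hlam : 0 < lam) (ha : a = 2 / lam) (q0 : ℕ)
    (hq0 : 2 ≤ q0) (hq : q = (q0:ℝ) ^ a)
    (P : ℂ → ℂ) (hP : Differentiable ℂ P) (hP0 : P 0 = 1)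
    (hfe : ∀ z : ℂ, P z = Ep p z * P (z / (q:ℂ)) ^ (q0 ^ 2)) (hnz : ∀ z : ℂ, ‖z‖ < 1 → P z ≠ 0)
    (ρ0 : ℝ) (hρ0 : 0 < ρ0) (t : ℝ) (ht : 0 < t) :
    (∫ ρ in ρ0..(q0 * ρ0), ρ * Real.circleAverage (fun z => Real.log ‖P z‖) 0 (t * ρ ^ (-a)))
      ≤ a / 4 * t ^ lam := by
  have ha0 : 0 < a := by rw [ha]; positivity
  have hq0' : (2 : ℝ) ≤ q0 := by exact_mod_cast hq0
  have hq0pos : (0 : ℝ) < q0 := by linarith
  have hq1 : 1 < q := by
    rw [hq]
    exact Real.one_lt_rpow (by linarith) ha0
  have hqpos : 0 < q := by linarith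
  have hqc : (q : ℂ) ≠ 0 := Complex.ofReal_ne_zero.2 hqpos.ne'
  let n : ℝ → ℝ := fun s => Real.circleAverage (fun z => Real.log ‖P z‖) 0 s
  -- small radii
  have hn0 : ∀ s, 0 ≤ s → s < 1 → n s = 0 := by
    intro s hs hs1
    have h3 := AnalyticOnNhd.circleAverage_log_norm_of_ne_zero (R := s) (c := 0)
      (g := P) (fun z _ => hP.analyticAt z) (fun z hz => by
        apply hnz
        rw [mem_closedBall, dist_zero_right, abs_of_nonneg hs] at hz
        linarith)
    show Real.circleAverage (fun z => Real.log ‖P z‖) 0 s = 0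
    rw [h3, hP0]
    simp
  -- functional equation
  have hEpd : Differentiable ℂ (Ep p) := by
    unfold Ep
    apply Differentiable.mul (by fun_prop)
    apply Differentiable.cexp
    apply Differentiable.fun_sum
    intro i _
    exact (differentiable_id.pow _).div_const _
  have hstep : ∀ s, 0 ≤ s → n s = max 0 (Real.log s) + (q0 : ℝ) ^ 2 * n (s / q) := by
    intro s hs
    have h1 := avg_log_mul (A := Ep p) (B := fun z => P (z / (q : ℂ))) hEpd
      (hP.comp (differentiable_id.div_const _)) (by simp [Ep]) (by simp [hP0]) (q0 ^ 2) s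
    have h2 : (fun z => Real.log ‖P z‖) = (fun z => Real.log ‖Ep p z * P (z / (q:ℂ)) ^ (q0 ^ 2)‖) := by
      funext z
      rw [← hfe z]
    have h3 : Real.circleAverage (fun z => Real.log ‖P (z / (q : ℂ))‖) 0 s = n (s / q) := by
      show _ = Real.circleAverage (fun z => Real.log ‖P z‖) 0 (s / q)
      unfold Real.circleAverage
      congr 1
      apply intervalIntegral.integral_congr
      intro θ _
      have : circleMap 0 s θ / (q : ℂ) = circleMap 0 (s / q) θ := by
        simp only [circleMap, zero_add, Complex.ofReal_div]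
        ring
      simp only [this]
    show Real.circleAverage (fun z => Real.log ‖P z‖) 0 s = _
    rw [h2, h1, circleAvg_Ep p s hs, h3]
    push_cast
    ring
  have hnk : ∀ k : ℕ, ∀ s, 0 ≤ s → s < q ^ k →
      n s = ∑ i ∈ Finset.range k, ((q0 : ℝ) ^ 2) ^ i * max 0 (Real.log (s / q ^ i)) := by
    intro k
    induction k with
    | zero =>
      intro s hs hs1
      rw [pow_zero] at hs1
      simp [hn0 s hs hs1]
    | succ k ih =>
      intro s hs hsk
      rw [hstep s hs, ih (s / q) (by positivity) (by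
        rw [div_lt_iff₀ hqpos]
        rw [pow_succ] at hsk
        exact hsk), Finset.sum_range_succ', pow_zero, pow_zero, div_one, one_mul, add_comm,
        Finset.mul_sum]
      congr 1
      apply Finset.sum_congr rfl
      intro i _
      have : s / q / q ^ i = s / q ^ (i + 1) := by
        rw [pow_succ]; field_simp
      rw [this, pow_succ]
      ring
  -- choose `k`
  obtain ⟨k, hk⟩ : ∃ k : ℕ, t * ρ0 ^ (-a) < q ^ k := pow_unbounded_of_one_lt _ hq1
  set M : ℝ := t ^ (lam / 2) with hM
  have hMpos : 0 < M := Real.rpow_pos_of_pos ht _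
  have hMsq : M ^ 2 = t ^ lam := by
    rw [hM, ← Real.rpow_natCast, ← Real.rpow_mul ht.le]
    congr 1
    push_cast
    ring
  have hlogM : a * Real.log M = Real.log t := by
    rw [hM, Real.log_rpow ht, ha]
    field_simp
  let g : ℝ → ℝ := fun x => x * max 0 (a * (Real.log M - Real.log x))
  have hle : ρ0 ≤ q0 * ρ0 := by nlinarith
  have hkey : ∀ ρ, ρ0 ≤ ρ → ρ * n (t * ρ ^ (-a)) =
      ∑ i ∈ Finset.range k, (q0 : ℝ) ^ i * g ((q0 : ℝ) ^ i * ρ) := by
    intro ρ hρ
    have hρpos : 0 < ρ := lt_of_lt_of_le hρ0 hρ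
    have hpw : ρ ^ (-a) ≤ ρ0 ^ (-a) := Real.rpow_le_rpow_of_nonpos hρ0 hρ (by linarith)
    have hs : t * ρ ^ (-a) < q ^ k :=
      lt_of_le_of_lt (mul_le_mul_of_nonneg_left hpw ht.le) hk
    have hρa : 0 < ρ ^ (-a) := Real.rpow_pos_of_pos hρpos _
    rw [hnk k _ (by positivity) hs, Finset.mul_sum]
    apply Finset.sum_congr rfl
    intro i _
    have hqi : Real.log (q ^ i) = a * Real.log ((q0 : ℝ) ^ i) := by
      rw [hq, Real.log_pow, Real.log_pow, Real.log_rpow hq0pos]
      ring
    have hlog : Real.log (t * ρ ^ (-a) / q ^ i) =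
        a * (Real.log M - Real.log ((q0 : ℝ) ^ i * ρ)) := by
      rw [Real.log_div (by positivity) (by positivity), Real.log_mul ht.ne' hρa.ne',
        Real.log_rpow hρpos, hqi, Real.log_mul (by positivity) hρpos.ne', ← hlogM]
      ring
    simp only [g]
    rw [hlog]
    ring
  have hgint : ∀ c d : ℝ, 0 < c → 0 < d → IntervalIntegrable g volume c d := by
    intro c d hc hd
    apply ContinuousOn.intervalIntegrable
    intro x hx
    have hx0 : x ≠ 0 := by
      rcases Set.mem_uIcc.1 hx with h | h <;> exact ne_of_gt (by linarith [h.1])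
    apply ContinuousAt.continuousWithinAt
    apply ContinuousAt.mul continuousAt_id
    exact cont_max (continuousAt_const.mul (continuousAt_const.sub (Real.continuousAt_log hx0)))
  have hI1 : (∫ ρ in ρ0..(q0 * ρ0), ρ * n (t * ρ ^ (-a))) =
      ∑ i ∈ Finset.range k, ∫ ρ in ρ0..(q0 * ρ0), (q0 : ℝ) ^ i * g ((q0 : ℝ) ^ i * ρ) := by
    rw [← intervalIntegral.integral_finsetSum]
    · apply intervalIntegral.integral_congr
      intro ρ hρ
      rw [Set.uIcc_of_le hle] at hρ
      exact hkey ρ hρ.1
    · intro i _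
      apply IntervalIntegrable.const_mul
      apply ContinuousOn.intervalIntegrable
      intro x hx
      rw [Set.uIcc_of_le hle] at hx
      have hx0 : 0 < x := lt_of_lt_of_le hρ0 hx.1
      have hx1 : (q0 : ℝ) ^ i * x ≠ 0 := by positivity
      apply ContinuousAt.continuousWithinAt
      apply ContinuousAt.mul (continuousAt_const.mul continuousAt_id)
      exact cont_max (continuousAt_const.mul (continuousAt_const.sub
        (ContinuousAt.log (continuousAt_const.mul continuousAt_id) hx1)))
  have hI2 : ∀ i : ℕ, (∫ ρ in ρ0..(q0 * ρ0), (q0 : ℝ) ^ i * g ((q0 : ℝ) ^ i * ρ)) =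
      ∫ x in ((q0 : ℝ) ^ i * ρ0)..((q0 : ℝ) ^ (i + 1) * ρ0), g x := by
    intro i
    rw [intervalIntegral.integral_const_mul, intervalIntegral.mul_integral_comp_mul_left]
    congr 1
    rw [pow_succ]
    ring
  show (∫ ρ in ρ0..(q0 * ρ0), ρ * n (t * ρ ^ (-a))) ≤ a / 4 * t ^ lam
  rw [hI1, Finset.sum_congr rfl (fun i _ => hI2 i),
    intervalIntegral.sum_integral_adjacent_intervals (a := fun i => (q0 : ℝ) ^ i * ρ0)
      (fun i _ => hgint _ _ (by positivity) (by positivity)), ← hMsq]
  have h1 : (1 : ℝ) ≤ (q0 : ℝ) ^ k := one_le_pow₀ (by linarith)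
  have := elem_int a M ((q0 : ℝ) ^ 0 * ρ0) ((q0 : ℝ) ^ k * ρ0) ha0 hMpos (by positivity)
    (by rw [pow_zero, one_mul]; nlinarith)
  calc _ ≤ a * M ^ 2 / 4 := this
    _ = a / 4 * M ^ 2 := by ring

end MinMod.U3d
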