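import Mathlib
import Pool.Agent.MP06ac62.Defs
import Pool.Agent.MP06ac62.U0
import Pool.Agent.MP06ac62.U2
import Pool.Agent.MP06ac62.U3a
import Pool.Agent.MP06ac62.U3b
import Pool.Agent.MP06ac62.U3d

set_option linter.all false
set_option maxHeartbeats 1000000

namespace MinMod.U3e

open MinMod
open MinMod.U0
open MinMod.U2
open MinMod.U3a
open MinMod.U3b
open MinMod.U3d
open Metric MeasureTheory Set









theorem rb_integrable (a : ℝ) (ha : 0 < a) (P : ℂ → ℂ) (hP : Differentiable ℂ P)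
    (hnz : ∀ z : ℂ, ‖z‖ < 1 → P z ≠ 0) (β ρ1 ρ2 : ℝ) (hβ : 0 < β) (hβ2 : β < Real.pi / 2)
    (h1 : 0 < ρ1) (z' : ℂ) :
    IntegrableOn (fun w : ℂ => Real.log ‖P (z' / w ^ (a:ℂ))‖)
      {w : ℂ | ρ1 < ‖w‖ ∧ ‖w‖ < ρ2 ∧ |Complex.arg w| < β} := by
  have hpi := Real.pi_pos
  have hcos : 0 < Real.cos β := Real.cos_pos_of_mem_Ioo ⟨by linarith, hβ2⟩
  let K : Set ℂ := {w | ρ1 ≤ ‖w‖ ∧ ‖w‖ ≤ ρ2 ∧ ‖w‖ * Real.cos β ≤ w.re}
  let U : Set ℂ := {w | 0 < w.re}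
  have hK : IsCompact K := by
    refine (isCompact_closedBall (0:ℂ) ρ2).of_isClosed_subset ?_ ?_
    · exact (isClosed_le continuous_const continuous_norm).inter
        ((isClosed_le continuous_norm continuous_const).inter
          (isClosed_le (continuous_norm.mul continuous_const) Complex.continuous_re))
    · intro w hw
      rw [mem_closedBall_zero_iff]
      exact hw.2.1
  have hU : IsOpen U := isOpen_lt continuous_const Complex.continuous_re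
  have hUc : IsPreconnected U := (convex_halfSpace_re_gt 0).isPreconnected
  have hKU : K ⊆ U := by
    intro w hw
    have : 0 < ‖w‖ * Real.cos β := mul_pos (lt_of_lt_of_le h1 hw.1) hcos
    exact lt_of_lt_of_le this hw.2.2
  have hH : DifferentiableOn ℂ (fun w : ℂ => P (z' / w ^ (a:ℂ))) U := by
    intro w hw
    have hw' : w ∈ Complex.slitPlane := Or.inl hw
    have hw0 : w ≠ 0 := Complex.slitPlane_ne_zero hw'
    have h1 : DifferentiableAt ℂ (fun w : ℂ => w ^ (a:ℂ)) w :=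
      (differentiableAt_id).cpow_const hw'
    have h2 : w ^ (a:ℂ) ≠ 0 := by simp [Complex.cpow_eq_zero_iff, hw0]
    exact ((hP _).comp w ((differentiableAt_const z').div h1 h2)).differentiableWithinAt
  have hne : ∃ w ∈ U, P (z' / w ^ (a:ℂ)) ≠ 0 := by
    refine ⟨(((‖z'‖ + 1) ^ (1/a) : ℝ) : ℂ), ?_, ?_⟩
    · show 0 < ((((‖z'‖ + 1) ^ (1/a) : ℝ) : ℂ)).re
      rw [Complex.ofReal_re]; positivity
    · apply hnz
      rw [norm_div, ← Complex.ofReal_cpow (by positivity), ← Real.rpow_mul (by positivity), one_div,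
        inv_mul_cancel₀ ha.ne', Real.rpow_one, Complex.norm_real,
        Real.norm_of_nonneg (by positivity), div_lt_one (by positivity)]
      linarith
  refine (log_integrable K U hK hU hUc hKU _ hH hne).mono_set ?_
  rintro w ⟨hw1, hw2, hw3⟩
  refine ⟨hw1.le, hw2.le, ?_⟩
  have hre : w.re = ‖w‖ * Real.cos (Complex.arg w) := (Complex.norm_mul_cos_arg w).symm
  rw [hre]
  refine mul_le_mul_of_nonneg_left ?_ (norm_nonneg w)
  rw [← Real.cos_abs (Complex.arg w)]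
  exact Real.cos_le_cos_of_nonneg_of_le_pi (abs_nonneg _) (by linarith) hw3.le

theorem rb_pt (a ρ φ : ℝ) (hρ : 0 < ρ) (hφ : φ ∈ Ioc (-Real.pi) Real.pi) (z' : ℂ) :
    z' / ((ρ:ℂ) * Complex.exp ((φ:ℂ) * Complex.I)) ^ (a:ℂ) =
      z' * ((ρ ^ (-a) : ℝ) : ℂ) * Complex.exp (((-(a * φ) : ℝ) : ℂ) * Complex.I) := by
  have h1 : ((ρ:ℂ) * Complex.exp ((φ:ℂ) * Complex.I)) ≠ 0 :=
    mul_ne_zero (Complex.ofReal_ne_zero.2 hρ.ne') (Complex.exp_ne_zero _)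
  have hlog : Complex.log ((ρ:ℂ) * Complex.exp ((φ:ℂ) * Complex.I)) =
      ((Real.log ρ : ℝ) : ℂ) + φ * Complex.I := by
    rw [Complex.log_ofReal_mul hρ (Complex.exp_ne_zero _), Complex.log_exp]
    · simpa using hφ.1
    · simpa using hφ.2
  rw [Complex.cpow_def_of_ne_zero h1, hlog, div_eq_mul_inv, ← Complex.exp_neg, mul_assoc]
  congr 1
  rw [Real.rpow_def_of_pos hρ, Complex.ofReal_exp, ← Complex.exp_add]
  congr 1
  push_cast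
  ring

theorem rb_polar (a : ℝ) (ha : 0 < a) (P : ℂ → ℂ) (hP : Differentiable ℂ P)
    (hnz : ∀ z : ℂ, ‖z‖ < 1 → P z ≠ 0) (β ρ1 ρ2 : ℝ) (hβ : 0 < β) (hβ2 : β < Real.pi / 2)
    (h1 : 0 < ρ1) (h2 : ρ1 ≤ ρ2) (z' : ℂ) :
    (∫ w in {w : ℂ | ρ1 < ‖w‖ ∧ ‖w‖ < ρ2 ∧ |Complex.arg w| < β},
      Real.log ‖P (z' / w ^ (a:ℂ))‖) =
      (∫ ρ in ρ1..ρ2, ρ * ∫ φ in (-β)..β,
        Real.log ‖P (z' * ((ρ ^ (-a) : ℝ) : ℂ) * Complex.exp (((-(a * φ) : ℝ) : ℂ) * Complex.I))‖) ∧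
    IntervalIntegrable (fun ρ : ℝ => ρ * ∫ φ in (-β)..β,
        Real.log ‖P (z' * ((ρ ^ (-a) : ℝ) : ℂ) * Complex.exp (((-(a * φ) : ℝ) : ℂ) * Complex.I))‖)
      volume ρ1 ρ2 := by
  have hpi := Real.pi_pos
  have hG := rb_integrable a ha P hP hnz β ρ1 ρ2 hβ hβ2 h1 z'
  have heq : ∀ ρ : ℝ, 0 < ρ → (ρ * ∫ φ in (-β)..β,
      Real.log ‖P (z' / ((ρ:ℂ) * Complex.exp ((φ:ℂ) * Complex.I)) ^ (a:ℂ))‖) =
      ρ * ∫ φ in (-β)..β,
        Real.log ‖P (z' * ((ρ ^ (-a) : ℝ) : ℂ) *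
          Complex.exp (((-(a * φ) : ℝ) : ℂ) * Complex.I))‖ := by
    intro ρ hρ
    congr 1
    apply intervalIntegral.integral_congr
    intro φ hφ
    rw [uIcc_of_le (by linarith)] at hφ
    show Real.log ‖P (z' / ((ρ:ℂ) * Complex.exp ((φ:ℂ) * Complex.I)) ^ (a:ℂ))‖ = _
    rw [rb_pt a ρ φ hρ ⟨by linarith [hφ.1], by linarith [hφ.2]⟩ z']
  constructor
  · rw [polar_sector β ρ1 ρ2 hβ (by linarith) h1 h2 _ hG]
    apply intervalIntegral.integral_congr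
    intro ρ hρ
    rw [uIcc_of_le h2] at hρ
    exact heq ρ (lt_of_lt_of_le h1 hρ.1)
  · have h := polar_sector_intervalIntegrable β ρ1 ρ2 hβ (by linarith) h1 h2 _ hG
    rw [intervalIntegrable_iff_integrableOn_Ioc_of_le h2] at h ⊢
    refine h.congr_fun ?_ measurableSet_Ioc
    intro ρ hρ
    exact heq ρ (lt_trans h1 hρ.1)

theorem rb_scale (a : ℝ) (P : ℂ → ℂ) (β ρ1 ρ2 y : ℝ) (hy : 0 < y)
    (h1 : 0 < ρ1) (h2 : ρ1 ≤ ρ2) (z' : ℂ) :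
    (∫ ρ in ρ1..ρ2, ρ * ∫ φ in (-β)..β,
        Real.log ‖P ((z' / ((y ^ a : ℝ) : ℂ)) * ((ρ ^ (-a) : ℝ) : ℂ) *
          Complex.exp (((-(a * φ) : ℝ) : ℂ) * Complex.I))‖) =
    (y ^ 2)⁻¹ * ∫ ρ in (y * ρ1)..(y * ρ2), ρ * ∫ φ in (-β)..β,
        Real.log ‖P (z' * ((ρ ^ (-a) : ℝ) : ℂ) *
          Complex.exp (((-(a * φ) : ℝ) : ℂ) * Complex.I))‖ := by
  have h := intervalIntegral.integral_comp_mul_left (a := ρ1) (b := ρ2) (fun ρ : ℝ => ρ * ∫ φ in (-β)..β,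
        Real.log ‖P (z' * ((ρ ^ (-a) : ℝ) : ℂ) *
          Complex.exp (((-(a * φ) : ℝ) : ℂ) * Complex.I))‖) hy.ne'
  rw [smul_eq_mul] at h
  have h3 : (∫ ρ in (y * ρ1)..(y * ρ2), ρ * ∫ φ in (-β)..β,
        Real.log ‖P (z' * ((ρ ^ (-a) : ℝ) : ℂ) *
          Complex.exp (((-(a * φ) : ℝ) : ℂ) * Complex.I))‖) =
      y * ∫ ρ in ρ1..ρ2, (y * ρ) * ∫ φ in (-β)..β,
        Real.log ‖P (z' * (((y * ρ) ^ (-a) : ℝ) : ℂ) *
          Complex.exp (((-(a * φ) : ℝ) : ℂ) * Complex.I))‖ := by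
    rw [h, ← mul_assoc, mul_inv_cancel₀ hy.ne', one_mul]
  rw [h3, ← mul_assoc, ← intervalIntegral.integral_const_mul]
  apply intervalIntegral.integral_congr
  intro ρ hρ
  rw [uIcc_of_le h2] at hρ
  have hρ0 : 0 < ρ := lt_of_lt_of_le h1 hρ.1
  have hpow : ((y * ρ) ^ (-a) : ℝ) = (y ^ a)⁻¹ * ρ ^ (-a) := by
    rw [Real.mul_rpow hy.le hρ0.le, Real.rpow_neg hy.le]
  have harg : ∀ φ : ℝ, (z' / ((y ^ a : ℝ) : ℂ)) * ((ρ ^ (-a) : ℝ) : ℂ) *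
          Complex.exp (((-(a * φ) : ℝ) : ℂ) * Complex.I) =
      z' * (((y * ρ) ^ (-a) : ℝ) : ℂ) * Complex.exp (((-(a * φ) : ℝ) : ℂ) * Complex.I) := by
    intro φ
    rw [hpow, Complex.ofReal_mul, Complex.ofReal_inv, div_eq_mul_inv]
    ring
  simp only [harg]
  have hyy : (y ^ 2)⁻¹ * y * (y * ρ * ∫ φ in (-β)..β,
        Real.log ‖P (z' * (((y * ρ) ^ (-a) : ℝ) : ℂ) *
          Complex.exp (((-(a * φ) : ℝ) : ℂ) * Complex.I))‖) =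
      ((y ^ 2)⁻¹ * y ^ 2) * (ρ * ∫ φ in (-β)..β,
        Real.log ‖P (z' * (((y * ρ) ^ (-a) : ℝ) : ℂ) *
          Complex.exp (((-(a * φ) : ℝ) : ℂ) * Complex.I))‖) := by ring
  rw [hyy, inv_mul_cancel₀ (by positivity), one_mul]

theorem rb_term (p : ℕ) (hp : 2 ≤ p) (lam a q : ℝ) (h1 : (p:ℝ) < lam)
    (ha : a = 2 / lam) (q0 : ℕ) (hq0 : 2 ≤ q0) (hq : q = (q0:ℝ) ^ a)
    (P : ℂ → ℂ) (hP : Differentiable ℂ P) (hP0 : P 0 = 1)
    (hfe : ∀ z : ℂ, P z = Ep p z * P (z / (q:ℂ)) ^ (q0 ^ 2)) (hnz : ∀ z : ℂ, ‖z‖ < 1 → P z ≠ 0)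
    (J : ℝ) (β ρ0 : ℝ) (hβ : 0 < β) (hβ2 : β < Real.pi / 2) (hρ0 : 0 < ρ0)
    (x : ℝ) (hx : 1 ≤ x) (E z : ℂ) (hE : E ≠ 0) (hz : z ≠ 0) :
    (J * x) * ((2 / Real.pi) *
      ∫ w in {w : ℂ | ρ0 < ‖w‖ ∧ ‖w‖ < q0 * ρ0 ∧ |Complex.arg w| < β},
          Real.log ‖P (z / (E * ((x ^ (1 / lam) : ℝ) : ℂ) * w ^ (a : ℂ)))‖) =
    J * (2 / Real.pi) * ((∫ ρ in ρ0..(q0 * ρ0), ρ * ∫ φ in (-β)..β,
          Real.log ‖P ((z / E) * ((ρ ^ (-a) : ℝ) : ℂ) *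
            Complex.exp (((-(a * φ) : ℝ) : ℂ) * Complex.I))‖)
        - ∫ ρ in ρ0..(√x * ρ0), ρ * ∫ φ in (-β)..β,
          Real.log ‖Ep p ((z / E) * ((ρ ^ (-a) : ℝ) : ℂ) *
            Complex.exp (((-(a * φ) : ℝ) : ℂ) * Complex.I))‖) := by
  have hp' : (2:ℝ) ≤ p := by exact_mod_cast hp
  have hlam : 2 < lam := lt_of_le_of_lt hp' h1
  have ha0 : 0 < a := by rw [ha]; positivity
  have ha1 : a < 1 := by rw [ha, div_lt_one (by linarith)]; exact hlam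
  have hq0' : (2:ℝ) ≤ q0 := by exact_mod_cast hq0
  have hx0 : 0 < x := by linarith
  have hy : 0 < √x := Real.sqrt_pos.2 hx0
  have hy1 : 1 ≤ √x := Real.one_le_sqrt.2 hx
  have hs : x ^ (1 / lam) = (√x) ^ a := by
    rw [Real.sqrt_eq_rpow, ← Real.rpow_mul hx0.le, ha]
    congr 1
    field_simp
  have h12 : ρ0 ≤ q0 * ρ0 := by nlinarith
  have hre : ∀ w : ℂ, z / (E * ((x ^ (1 / lam) : ℝ) : ℂ) * w ^ (a : ℂ)) =
      ((z / E) / (((√x) ^ a : ℝ) : ℂ)) / w ^ (a : ℂ) := by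
    intro w
    rw [hs, div_div, div_div, mul_assoc]
  simp only [hre]
  rw [(rb_polar a ha0 P hP hnz β ρ0 (q0 * ρ0) hβ hβ2 hρ0 h12 _).1,
    rb_scale a P β ρ0 (q0 * ρ0) (√x) hy hρ0 h12 (z / E)]
  have hst := staircase p (by omega) a q ha0 ha1 q0 hq0 hq P hP hP0 hfe β ρ0 (√x * ρ0) hβ hβ2 hρ0
    (by nlinarith) (z / E) (div_ne_zero hz hE)
  have hlim : √x * (q0 * ρ0) = q0 * (√x * ρ0) := by ring
  rw [hlim, hst, Real.sq_sqrt hx0.le]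
  have hfin : ∀ A : ℝ, J * x * (2 / Real.pi * (x⁻¹ * A)) = J * (2 / Real.pi) * A := by
    intro A
    have : J * x * (2 / Real.pi * (x⁻¹ * A)) = (x * x⁻¹) * (J * (2 / Real.pi) * A) := by ring
    rw [this, mul_inv_cancel₀ hx0.ne', one_mul]
  exact hfin _

theorem rb_sum (p : ℕ) (hp : 2 ≤ p) (lam a q : ℝ) (h1 : (p:ℝ) < lam)
    (ha : a = 2 / lam) (q0 : ℕ) (hq0 : 2 ≤ q0) (hq : q = (q0:ℝ) ^ a)
    (P : ℂ → ℂ) (hP : Differentiable ℂ P) (hP0 : P 0 = 1)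
    (hfe : ∀ z : ℂ, P z = Ep p z * P (z / (q:ℂ)) ^ (q0 ^ 2)) (hnz : ∀ z : ℂ, ‖z‖ < 1 → P z ≠ 0)
    (J : ℕ) (hJ : 0 < J) (β ρ0 : ℝ) (hβJ : β = Real.pi / (a * J)) (hβ2 : β < Real.pi / 2)
    (hρ0 : 0 < ρ0) (z : ℂ) (hz : z ≠ 0) :
    ∑ j ∈ Finset.range J, (∫ ρ in ρ0..(q0 * ρ0), ρ * ∫ φ in (-β)..β,
          Real.log ‖P ((z / Complex.exp (((2 * Real.pi * j / J : ℝ) : ℂ) * Complex.I)) *
            ((ρ ^ (-a) : ℝ) : ℂ) *
            Complex.exp (((-(a * φ) : ℝ) : ℂ) * Complex.I))‖) ≤ Real.pi / 2 * ‖z‖ ^ lam := by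
  have hpi := Real.pi_pos
  have hp' : (2:ℝ) ≤ p := by exact_mod_cast hp
  have hlam : 2 < lam := lt_of_le_of_lt hp' h1
  have ha0 : 0 < a := by rw [ha]; positivity
  have hq0' : (2:ℝ) ≤ q0 := by exact_mod_cast hq0
  have hJ' : (0:ℝ) < J := by exact_mod_cast hJ
  have hβ : 0 < β := by rw [hβJ]; positivity
  have h12 : ρ0 ≤ q0 * ρ0 := by nlinarith
  have hzn : 0 < ‖z‖ := norm_pos_iff.2 hz
  rw [← intervalIntegral.integral_finset_sum (fun j _ =>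
    (rb_polar a ha0 P hP hnz β ρ0 (q0 * ρ0) hβ hβ2 hρ0 h12 _).2)]
  have hrad := radial_integral p (by omega) lam a q (by linarith) ha q0 hq0 hq P hP hP0 hfe hnz
    ρ0 hρ0 ‖z‖ hzn
  have hcongr : (∫ ρ in ρ0..(q0 * ρ0), ∑ j ∈ Finset.range J, (ρ * ∫ φ in (-β)..β,
          Real.log ‖P ((z / Complex.exp (((2 * Real.pi * j / J : ℝ) : ℂ) * Complex.I)) *
            ((ρ ^ (-a) : ℝ) : ℂ) *
            Complex.exp (((-(a * φ) : ℝ) : ℂ) * Complex.I))‖)) =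
      ∫ ρ in ρ0..(q0 * ρ0), (2 * Real.pi / a) *
        (ρ * Real.circleAverage (fun z => Real.log ‖P z‖) 0 (‖z‖ * ρ ^ (-a))) := by
    apply intervalIntegral.integral_congr
    intro ρ hρ
    rw [uIcc_of_le h12] at hρ
    have hρp : 0 < ρ := lt_of_lt_of_le hρ0 hρ.1
    show (∑ j ∈ Finset.range J, (ρ * ∫ φ in (-β)..β,
          Real.log ‖P ((z / Complex.exp (((2 * Real.pi * j / J : ℝ) : ℂ) * Complex.I)) *
            ((ρ ^ (-a) : ℝ) : ℂ) *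
            Complex.exp (((-(a * φ) : ℝ) : ℂ) * Complex.I))‖)) = (2 * Real.pi / a) *
        (ρ * Real.circleAverage (fun z => Real.log ‖P z‖) 0 (‖z‖ * ρ ^ (-a)))
    rw [← Finset.mul_sum]
    have hci : CircleIntegrable (fun z => Real.log ‖P z‖) 0 (‖z‖ * ρ ^ (-a)) := by
      apply circleIntegrable_log_norm_meromorphicOn
      intro w _
      exact (hP.analyticAt w).meromorphicAt
    have hang := angular_sum (fun z => Real.log ‖P z‖) (‖z‖ * ρ ^ (-a)) hci a (Complex.arg z) ha0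
      J hJ
    rw [mul_left_comm, ← hang, ← hβJ]
    congr 1
    apply Finset.sum_congr rfl
    intro j _
    apply intervalIntegral.integral_congr
    intro φ _
    show Real.log ‖P ((z / Complex.exp (((2 * Real.pi * j / J : ℝ) : ℂ) * Complex.I)) *
            ((ρ ^ (-a) : ℝ) : ℂ) *
            Complex.exp (((-(a * φ) : ℝ) : ℂ) * Complex.I))‖ =
      Real.log ‖P (((‖z‖ * ρ ^ (-a) : ℝ) : ℂ) *
        Complex.exp (((Complex.arg z - 2 * Real.pi * j / J - a * φ : ℝ) : ℂ) * Complex.I))‖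
    have harg : (z / Complex.exp (((2 * Real.pi * j / J : ℝ) : ℂ) * Complex.I)) *
            ((ρ ^ (-a) : ℝ) : ℂ) * Complex.exp (((-(a * φ) : ℝ) : ℂ) * Complex.I) =
        ((‖z‖ * ρ ^ (-a) : ℝ) : ℂ) *
        Complex.exp (((Complex.arg z - 2 * Real.pi * j / J - a * φ : ℝ) : ℂ) * Complex.I) := by
      have he : Complex.exp (((Complex.arg z - 2 * Real.pi * j / J - a * φ : ℝ) : ℂ) * Complex.I) =
          Complex.exp ((Complex.arg z : ℂ) * Complex.I) *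
            (Complex.exp (((2 * Real.pi * j / J : ℝ) : ℂ) * Complex.I))⁻¹ *
            Complex.exp (((-(a * φ) : ℝ) : ℂ) * Complex.I) := by
        rw [← Complex.exp_neg, ← Complex.exp_add, ← Complex.exp_add]
        congr 1
        push_cast
        ring
      rw [he]
      conv_lhs => rw [← Complex.norm_mul_exp_arg_mul_I z]
      rw [div_eq_mul_inv, Complex.ofReal_mul]
      ring
    rw [harg]
  rw [hcongr, intervalIntegral.integral_const_mul]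
  calc _ ≤ (2 * Real.pi / a) * (a / 4 * ‖z‖ ^ lam) :=
        mul_le_mul_of_nonneg_left hrad (by positivity)
    _ = Real.pi / 2 * ‖z‖ ^ lam := by field_simp; ring

theorem rb_err (p : ℕ) (C : ℝ)
    (hC : ∀ z : ℂ, 2 ≤ ‖z‖ → |Real.log ‖Ep p z‖| ≤ C * ‖z‖ ^ p) (hC0 : 0 < C)
    (a β ρ0 ρ1 B : ℝ) (ha : 0 < a) (hβ : 0 < β) (hρ0 : 0 < ρ0) (h01 : ρ0 ≤ ρ1) (h1B : ρ1 ≤ B)
    (z' : ℂ) (hz' : 2 * B ^ a ≤ ‖z'‖) :
    |∫ ρ in ρ0..ρ1, ρ * ∫ φ in (-β)..β,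
          Real.log ‖Ep p (z' * ((ρ ^ (-a) : ℝ) : ℂ) *
            Complex.exp (((-(a * φ) : ℝ) : ℂ) * Complex.I))‖| ≤
      (B * (C * (ρ0 ^ (-a)) ^ p * (2 * β)) * B) * ‖z'‖ ^ p := by
  have hB : 0 < B := by linarith
  have key : ∀ ρ ∈ Set.uIoc ρ0 ρ1, ‖ρ * ∫ φ in (-β)..β,
          Real.log ‖Ep p (z' * ((ρ ^ (-a) : ℝ) : ℂ) *
            Complex.exp (((-(a * φ) : ℝ) : ℂ) * Complex.I))‖‖ ≤
      B * (C * (‖z'‖ * ρ0 ^ (-a)) ^ p * (2 * β)) := by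
    intro ρ hρ
    rw [uIoc_of_le h01] at hρ
    have hρp : 0 < ρ := lt_trans hρ0 hρ.1
    rw [norm_mul, Real.norm_of_nonneg hρp.le]
    refine mul_le_mul (hρ.2.trans h1B) ?_ (norm_nonneg _) hB.le
    have h2 := intervalIntegral.norm_integral_le_of_norm_le_const (a := -β) (b := β)
      (f := fun φ : ℝ => Real.log ‖Ep p (z' * ((ρ ^ (-a) : ℝ) : ℂ) *
            Complex.exp (((-(a * φ) : ℝ) : ℂ) * Complex.I))‖)
      (C := C * (‖z'‖ * ρ0 ^ (-a)) ^ p) ?_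
    · have h3 : |β - -β| = 2 * β := by
        rw [abs_of_pos (by linarith)]; ring
      rw [h3] at h2
      exact h2
    · intro φ _
      have hn : ‖z' * ((ρ ^ (-a) : ℝ) : ℂ) *
            Complex.exp (((-(a * φ) : ℝ) : ℂ) * Complex.I)‖ = ‖z'‖ * ρ ^ (-a) := by
        rw [norm_mul, norm_mul, Complex.norm_exp_ofReal_mul_I, Complex.norm_real,
          Real.norm_of_nonneg (Real.rpow_nonneg hρp.le _), mul_one]
      have hlow : B ^ (-a) ≤ ρ ^ (-a) :=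
        Real.rpow_le_rpow_of_nonpos hρp (hρ.2.trans h1B) (by linarith)
      have hup : ρ ^ (-a) ≤ ρ0 ^ (-a) :=
        Real.rpow_le_rpow_of_nonpos hρ0 hρ.1.le (by linarith)
      have h2 : 2 ≤ ‖z'‖ * ρ ^ (-a) := by
        calc (2:ℝ) = (2 * B ^ a) * B ^ (-a) := by
              rw [mul_assoc, ← Real.rpow_add hB]; simp
          _ ≤ ‖z'‖ * ρ ^ (-a) := mul_le_mul hz' hlow (Real.rpow_nonneg hB.le _) (norm_nonneg _)
      rw [Real.norm_eq_abs]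
      refine (hC _ (by rw [hn]; exact h2)).trans ?_
      rw [hn]
      gcongr
  have h3 := intervalIntegral.norm_integral_le_of_norm_le_const key
  rw [Real.norm_eq_abs] at h3
  refine h3.trans ?_
  have h4 : |ρ1 - ρ0| ≤ B := by
    rw [abs_of_nonneg (by linarith)]; linarith
  rw [mul_pow]
  calc B * (C * (‖z'‖ ^ p * (ρ0 ^ (-a)) ^ p) * (2 * β)) * |ρ1 - ρ0|
      ≤ B * (C * (‖z'‖ ^ p * (ρ0 ^ (-a)) ^ p) * (2 * β)) * B := by
        apply mul_le_mul_of_nonneg_left h4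
        positivity
    _ = _ := by ring

/-- TARGET -/
theorem radial_bound (p : ℕ) (hp : 2 ≤ p) (lam a q : ℝ) (h1 : (p:ℝ) < lam) (h2 : lam < p + 1)
    (ha : a = 2 / lam) (q0 : ℕ) (hq0 : 2 ≤ q0) (hq : q = (q0:ℝ) ^ a)
    (P : ℂ → ℂ) (hP : Differentiable ℂ P) (hP0 : P 0 = 1)
    (hfe : ∀ z : ℂ, P z = Ep p z * P (z / (q:ℂ)) ^ (q0 ^ 2)) (hnz : ∀ z : ℂ, ‖z‖ < 1 → P z ≠ 0)
    (J : ℕ) (hJ : J = ⌈lam⌉₊) (β R : ℝ) (hβ : β = Real.pi / (a * J)) (hR : R = ((q0:ℝ) - 1) / (q0 + 1)) :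
    ∃ C > (0:ℝ), ∃ r0 ≥ (1:ℝ), ∀ z : ℂ, r0 ≤ ‖z‖ →
      ∑ j ∈ Finset.range J, ((J:ℝ) + j * ((q0:ℝ) ^ 2 - 1)) * ((2 / Real.pi) *
        ∫ w in {w : ℂ | 1 - R < ‖w‖ ∧ ‖w‖ < 1 + R ∧ |Complex.arg w| < β},
          Real.log ‖P (z / (Complex.exp (((2 * Real.pi * j / J : ℝ) : ℂ) * Complex.I) *
            ((((J:ℝ) + j * ((q0:ℝ) ^ 2 - 1)) / J) ^ (1 / lam) : ℝ) * w ^ (a : ℂ)))‖)
      ≤ J * ‖z‖ ^ lam + C * ‖z‖ ^ p := by
  have hpi := Real.pi_pos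
  have hp' : (2:ℝ) ≤ p := by exact_mod_cast hp
  have hlam : 2 < lam := lt_of_le_of_lt hp' h1
  have ha0 : 0 < a := by rw [ha]; positivity
  have ha1 : a < 1 := by rw [ha, div_lt_one (by linarith)]; exact hlam
  have hq0' : (2:ℝ) ≤ q0 := by exact_mod_cast hq0
  have hJeq : J = p + 1 := by
    rw [hJ, Nat.ceil_eq_iff (by omega)]
    constructor
    · simpa using h1
    · push_cast; linarith
  have hJlam : lam < J := by rw [hJeq]; push_cast; exact h2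
  have hJ0 : 0 < J := by omega
  have hJ' : (0:ℝ) < J := by exact_mod_cast hJ0
  have haJ : 2 < a * J := by
    rw [ha, div_mul_eq_mul_div, lt_div_iff₀ (by linarith)]
    nlinarith
  have hβ0 : 0 < β := by rw [hβ]; positivity
  have hβ2 : β < Real.pi / 2 := by
    rw [hβ]; exact div_lt_div_of_pos_left hpi (by norm_num) haJ
  have hρ0e : 1 - R = 2 / (q0 + 1) := by rw [hR]; field_simp; ring
  have hR1 : 1 + R = q0 * (1 - R) := by rw [hR]; field_simp; ring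
  have hρ0 : 0 < 1 - R := by rw [hρ0e]; positivity
  have hρ01 : 1 - R ≤ 1 := by
    rw [hρ0e, div_le_one (by positivity)]; linarith
  rw [hR1]
  generalize 1 - R = ρ0 at *
  obtain ⟨C, hC0, hC, _⟩ := Ep_bounds p (by omega)
  obtain ⟨K, hK⟩ : ∃ K : ℝ, K = (q0:ℝ) * (C * (ρ0 ^ (-a)) ^ p * (2 * β)) * q0 := ⟨_, rfl⟩
  have hK0 : 0 < K := by rw [hK]; positivity
  refine ⟨J * (J * (2 / Real.pi) * K), by positivity, 2 * (q0:ℝ) ^ a, ?_, ?_⟩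
  · have : 1 ≤ (q0:ℝ) ^ a := Real.one_le_rpow (by linarith) ha0.le
    linarith
  intro z hz
  have hzn : 0 < ‖z‖ := lt_of_lt_of_le (by positivity) hz
  have hz0 : z ≠ 0 := norm_pos_iff.1 hzn
  have hterm : ∀ j ∈ Finset.range J, ((J:ℝ) + j * ((q0:ℝ) ^ 2 - 1)) * ((2 / Real.pi) *
        ∫ w in {w : ℂ | ρ0 < ‖w‖ ∧ ‖w‖ < q0 * ρ0 ∧ |Complex.arg w| < β},
          Real.log ‖P (z / (Complex.exp (((2 * Real.pi * j / J : ℝ) : ℂ) * Complex.I) *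
            ((((J:ℝ) + j * ((q0:ℝ) ^ 2 - 1)) / J) ^ (1 / lam) : ℝ) * w ^ (a : ℂ)))‖) ≤
      J * (2 / Real.pi) * (∫ ρ in ρ0..(q0 * ρ0), ρ * ∫ φ in (-β)..β,
          Real.log ‖P ((z / Complex.exp (((2 * Real.pi * j / J : ℝ) : ℂ) * Complex.I)) *
            ((ρ ^ (-a) : ℝ) : ℂ) *
            Complex.exp (((-(a * φ) : ℝ) : ℂ) * Complex.I))‖) +
      J * (2 / Real.pi) * (K * ‖z‖ ^ p) := by
    intro j hj
    have hjJ : (j:ℝ) ≤ J := by exact_mod_cast (Finset.mem_range.1 hj).le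
    have hj0 : (0:ℝ) ≤ j := Nat.cast_nonneg j
    have hq2 : 0 ≤ (q0:ℝ) ^ 2 - 1 := by nlinarith
    have hx : 1 ≤ ((J:ℝ) + j * ((q0:ℝ) ^ 2 - 1)) / J := by
      rw [le_div_iff₀ hJ']
      nlinarith [mul_nonneg hj0 hq2]
    have hx2 : ((J:ℝ) + j * ((q0:ℝ) ^ 2 - 1)) / J ≤ (q0:ℝ) ^ 2 := by
      rw [div_le_iff₀ hJ']
      nlinarith [mul_le_mul_of_nonneg_right hjJ hq2]
    have hJx : (J:ℝ) + j * ((q0:ℝ) ^ 2 - 1) = J * (((J:ℝ) + j * ((q0:ℝ) ^ 2 - 1)) / J) := by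
      field_simp
    have hE : Complex.exp (((2 * Real.pi * j / J : ℝ) : ℂ) * Complex.I) ≠ 0 :=
      Complex.exp_ne_zero _
    have hnE : ‖z / Complex.exp (((2 * Real.pi * j / J : ℝ) : ℂ) * Complex.I)‖ = ‖z‖ := by
      rw [norm_div, Complex.norm_exp_ofReal_mul_I, div_one]
    have ht := rb_term p hp lam a q h1 ha q0 hq0 hq P hP hP0 hfe hnz J β ρ0 hβ0 hβ2 hρ0
      (((J:ℝ) + j * ((q0:ℝ) ^ 2 - 1)) / J) hx _ z hE hz0
    have hsq1 : 1 ≤ √(((J:ℝ) + j * ((q0:ℝ) ^ 2 - 1)) / J) := Real.one_le_sqrt.2 hx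
    have hsq2 : √(((J:ℝ) + j * ((q0:ℝ) ^ 2 - 1)) / J) ≤ q0 := by
      rw [Real.sqrt_le_left (by linarith)]
      exact hx2
    have herr := rb_err p C hC hC0 a β ρ0 (√(((J:ℝ) + j * ((q0:ℝ) ^ 2 - 1)) / J) * ρ0) q0 ha0 hβ0
      hρ0 (by nlinarith) (by nlinarith)
      (z / Complex.exp (((2 * Real.pi * j / J : ℝ) : ℂ) * Complex.I)) (by rw [hnE]; exact hz)
    rw [hnE, ← hK] at herr
    have herr' := (abs_le.1 herr).1
    rw [← hJx] at ht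
    rw [ht]
    have hc : 0 < J * (2 / Real.pi) := by positivity
    nlinarith [mul_le_mul_of_nonneg_left herr' hc.le]
  refine (Finset.sum_le_sum hterm).trans ?_
  rw [Finset.sum_add_distrib, ← Finset.mul_sum, Finset.sum_const, Finset.card_range, nsmul_eq_mul]
  have hsum := rb_sum p hp lam a q h1 ha q0 hq0 hq P hP hP0 hfe hnz J hJ0 β ρ0 hβ hβ2 hρ0 z hz0
  have h3 : J * (2 / Real.pi) * (∑ j ∈ Finset.range J, (∫ ρ in ρ0..(q0 * ρ0),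
      ρ * ∫ φ in (-β)..β,
          Real.log ‖P ((z / Complex.exp (((2 * Real.pi * j / J : ℝ) : ℂ) * Complex.I)) *
            ((ρ ^ (-a) : ℝ) : ℂ) *
            Complex.exp (((-(a * φ) : ℝ) : ℂ) * Complex.I))‖)) ≤ J * ‖z‖ ^ lam := by
    calc _ ≤ J * (2 / Real.pi) * (Real.pi / 2 * ‖z‖ ^ lam) :=
          mul_le_mul_of_nonneg_left hsum (by positivity)
      _ = J * ‖z‖ ^ lam := by field_simp
  have h4 : (J:ℝ) * (J * (2 / Real.pi) * (K * ‖z‖ ^ p)) = J * (J * (2 / Real.pi) * K) * ‖z‖ ^ p := by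
    ring
  rw [h4]
  linarith

end MinMod.U3e
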