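import Mathlib
import Pool.Agent.MP06ac62.Defs
import Pool.Agent.MP06ac62.U0

set_option linter.all false
set_option maxHeartbeats 1000000

namespace MinMod.U4

open MinMod
open MinMod.U0
open Metric MeasureTheory



theorem sli_min_log (x : ℝ) (hx : 0 ≤ x) : |min 0 (Real.log x)| ≤ 2 * x ^ (-(1/2) : ℝ) := by
  rcases hx.eq_or_lt with h | h
  · subst h
    simp
  · have h0 : (0:ℝ) < x ^ (-(1/2) : ℝ) := Real.rpow_pos_of_pos h _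
    rw [abs_of_nonpos (min_le_left _ _)]
    rcases le_total 0 (Real.log x) with h1 | h1
    · rw [min_eq_left h1]; linarith
    · rw [min_eq_right h1]
      have h2 := Real.log_le_sub_one_of_pos h0
      rw [Real.log_rpow h] at h2
      linarith

theorem sli_meas : Measurable (fun ζ : ℂ => ‖ζ‖ ^ (-(1/2) : ℝ)) := by
  fun_prop

theorem sli_kernel (R : ℝ) : IntegrableOn (fun ζ : ℂ => ‖ζ‖ ^ (-(1/2) : ℝ)) (ball 0 R) := by
  refine MeasureTheory.integrableOn_ball_of_norm_le_rpow (α := 1/2) (C := 1) ?_ ?_ ?_ ?_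
  · rw [Complex.finrank_real_complex]; norm_num
  · rw [Complex.finrank_real_complex]; norm_num
  · refine Filter.Eventually.of_forall fun x => ?_
    rw [Real.norm_of_nonneg (by positivity), one_mul]
  · exact sli_meas.aestronglyMeasurable

theorem sli_unif (R : ℝ) (η : ℝ) (hη : 0 < η) :
    ∃ δ > (0:ℝ), ∀ S : Set ℂ, MeasurableSet S → volume S ≤ ENNReal.ofReal δ →
      ∀ v : ℂ, (∀ ζ ∈ S, ‖ζ - v‖ < R) →
        ∫⁻ ζ in S, ENNReal.ofReal (‖ζ - v‖ ^ (-(1/2) : ℝ)) ≤ ENNReal.ofReal η := by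
  set g : ℂ → ENNReal := Set.indicator (ball 0 R) (fun ζ : ℂ => ENNReal.ofReal (‖ζ‖ ^ (-(1/2) : ℝ))) with hg
  have hgm : Measurable g := by
    refine Measurable.indicator ?_ measurableSet_ball
    exact sli_meas.ennreal_ofReal
  have hfin : ∫⁻ x, g x ≠ ⊤ := by
    rw [hg, lintegral_indicator measurableSet_ball]
    have h := (sli_kernel R).2
    rw [hasFiniteIntegral_iff_enorm] at h
    have he : ∀ ζ : ℂ, ‖‖ζ‖ ^ (-(1/2) : ℝ)‖ₑ = ENNReal.ofReal (‖ζ‖ ^ (-(1/2) : ℝ)) := by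
      intro ζ
      rw [Real.enorm_eq_ofReal_abs, abs_of_nonneg (by positivity)]
    simp only [he] at h
    exact h.ne
  obtain ⟨δ0, hδ0, h0⟩ := exists_pos_setLIntegral_lt_of_measure_lt hfin
    (ε := ENNReal.ofReal η) (by simpa using hη)
  obtain ⟨δ, hδ, hδ1, hδ2⟩ := ENNReal.lt_iff_exists_real_btwn.1 (show (0:ENNReal) < δ0 from hδ0)
  have hδpos : 0 < δ := by simpa using hδ1
  refine ⟨δ, hδpos, fun S hS hSv v hSR => ?_⟩
  have hmp := measurePreserving_add_right (volume : Measure ℂ) v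
  have e1 : ∫⁻ ζ in S, ENNReal.ofReal (‖ζ - v‖ ^ (-(1/2) : ℝ)) = ∫⁻ ζ in S, g (ζ - v) := by
    apply setLIntegral_congr_fun hS
    intro ζ hζ
    have : ζ - v ∈ ball (0:ℂ) R := by
      rw [mem_ball_zero_iff]; exact hSR ζ hζ
    simp only [hg, Set.indicator_of_mem this]
  have e2 : ∫⁻ ζ in S, g (ζ - v) = ∫⁻ x in (fun x => x + v) ⁻¹' S, g x := by
    rw [← hmp.setLIntegral_comp_preimage hS (f := fun ζ => g (ζ - v)) (by fun_prop)]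
    simp
  have e3 : volume ((fun x => x + v) ⁻¹' S) = volume S := hmp.measure_preimage hS.nullMeasurableSet
  rw [e1, e2]
  apply (h0 _ _).le
  rw [e3]
  exact lt_of_le_of_lt hSv hδ2

/-- the sector annulus -/
theorem sli_inj (a β ρ1 ρ2 : ℝ) (ha : 0 < a) (ha1 : a < 1) (hβ : 0 < β)
    (hβ2 : β < Real.pi / 2) (h1 : 0 < ρ1) :
    Set.InjOn (fun w : ℂ => w ^ (a:ℂ)) {w : ℂ | ρ1 < ‖w‖ ∧ ‖w‖ < ρ2 ∧ |Complex.arg w| < β} := by
  intro x hx y hy hxy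
  have hx0 : x ≠ 0 := by
    rintro rfl; have := hx.1; simp at this; linarith
  have hy0 : y ≠ 0 := by
    rintro rfl; have := hy.1; simp at this; linarith
  have hpi := Real.pi_pos
  have hxa := abs_lt.1 hx.2.2
  have hya := abs_lt.1 hy.2.2
  simp only at hxy
  rw [Complex.cpow_def_of_ne_zero hx0, Complex.cpow_def_of_ne_zero hy0] at hxy
  have him : ∀ z : ℂ, (Complex.log z * (a:ℂ)).im = Complex.arg z * a := by
    intro z
    rw [Complex.mul_im]; simp [Complex.log_im]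
  have key : ∀ t : ℝ, -β < t → t < β → -Real.pi < t * a ∧ t * a ≤ Real.pi := by
    intro t h1 h2
    constructor <;> nlinarith
  have h := Complex.exp_inj_of_neg_pi_lt_of_le_pi
    (by rw [him]; exact (key _ hxa.1 hxa.2).1) (by rw [him]; exact (key _ hxa.1 hxa.2).2)
    (by rw [him]; exact (key _ hya.1 hya.2).1) (by rw [him]; exact (key _ hya.1 hya.2).2) hxy
  have ha0 : (a:ℂ) ≠ 0 := by exact_mod_cast ha.ne'
  have h' := mul_right_cancel₀ ha0 h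
  rw [← Complex.exp_log hx0, ← Complex.exp_log hy0, h']

theorem sli_slit (β ρ1 ρ2 : ℝ) (hβ2 : β < Real.pi / 2) (h1 : 0 < ρ1) (w : ℂ)
    (hw : w ∈ {w : ℂ | ρ1 < ‖w‖ ∧ ‖w‖ < ρ2 ∧ |Complex.arg w| < β}) : w ∈ Complex.slitPlane := by
  have hpi := Real.pi_pos
  have hwa := abs_lt.1 hw.2.2
  rw [Complex.mem_slitPlane_iff_arg]
  refine ⟨fun h => by linarith [hwa.2], ?_⟩
  rintro rfl; have := hw.1; simp at this; linarith

theorem sli_det (c : ℂ) :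
    ((ContinuousLinearMap.toSpanSingleton ℂ c : ℂ →L[ℂ] ℂ).restrictScalars ℝ).det = ‖c‖ ^ 2 := by
  rw [ContinuousLinearMap.det]
  have e : ((((ContinuousLinearMap.toSpanSingleton ℂ c : ℂ →L[ℂ] ℂ).restrictScalars ℝ : ℂ →L[ℝ] ℂ)) : ℂ →ₗ[ℝ] ℂ)
    = ((ContinuousLinearMap.toSpanSingleton ℂ c : ℂ →L[ℂ] ℂ) : ℂ →ₗ[ℂ] ℂ).restrictScalars ℝ := rfl
  rw [e, LinearMap.det_restrictScalars]
  simp [Algebra.norm_complex_eq, Complex.normSq_eq_norm_sq]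

theorem sli_deriv (a β ρ1 ρ2 : ℝ) (hβ2 : β < Real.pi / 2) (h1 : 0 < ρ1) (N : Set ℂ)
    (hN : N ⊆ {w : ℂ | ρ1 < ‖w‖ ∧ ‖w‖ < ρ2 ∧ |Complex.arg w| < β}) :
    ∀ w ∈ N, HasFDerivWithinAt (fun w : ℂ => w ^ (a:ℂ))
      ((ContinuousLinearMap.toSpanSingleton ℂ ((a:ℂ) * w ^ ((a:ℂ) - 1)) : ℂ →L[ℂ] ℂ).restrictScalars ℝ) N w := by
  intro w hw
  have h := (Complex.hasStrictDerivAt_cpow_const (c := (a:ℂ)) (sli_slit β ρ1 ρ2 hβ2 h1 w (hN hw))).hasDerivAt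
  exact (h.hasFDerivAt.restrictScalars ℝ).hasFDerivWithinAt

theorem sli_detnorm (a : ℝ) (ha : 0 < a) (w : ℂ) :
    ‖(a:ℂ) * w ^ ((a:ℂ) - 1)‖ ^ 2 = (a * ‖w‖ ^ (a - 1)) ^ 2 := by
  have : ((a:ℂ) - 1) = ((a - 1 : ℝ) : ℂ) := by push_cast; ring
  rw [norm_mul, this, Complex.norm_cpow_real, Complex.norm_real, Real.norm_of_nonneg ha.le]

theorem sli_cov (a β ρ1 ρ2 : ℝ) (ha : 0 < a) (ha1 : a < 1) (hβ : 0 < β)
    (hβ2 : β < Real.pi / 2) (h1 : 0 < ρ1) (N : Set ℂ) (hNm : MeasurableSet N)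
    (hN : N ⊆ {w : ℂ | ρ1 < ‖w‖ ∧ ‖w‖ < ρ2 ∧ |Complex.arg w| < β}) (g : ℂ → ENNReal) :
    ∫⁻ x in (fun w : ℂ => w ^ (a:ℂ)) '' N, g x =
      ∫⁻ w in N, ENNReal.ofReal ((a * ‖w‖ ^ (a - 1)) ^ 2) * g (w ^ (a:ℂ)) := by
  rw [lintegral_image_eq_lintegral_abs_det_fderiv_mul volume hNm
    (sli_deriv a β ρ1 ρ2 hβ2 h1 N hN) ((sli_inj a β ρ1 ρ2 ha ha1 hβ hβ2 h1).mono hN)]
  apply lintegral_congr
  intro w
  rw [sli_det, sli_detnorm a ha, abs_of_nonneg (by positivity)]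

theorem sli_vol (a β ρ1 ρ2 : ℝ) (ha : 0 < a) (ha1 : a < 1) (hβ : 0 < β)
    (hβ2 : β < Real.pi / 2) (h1 : 0 < ρ1) (N : Set ℂ) (hNm : MeasurableSet N)
    (hN : N ⊆ {w : ℂ | ρ1 < ‖w‖ ∧ ‖w‖ < ρ2 ∧ |Complex.arg w| < β}) :
    volume ((fun w : ℂ => w ^ (a:ℂ)) '' N) ≤ ENNReal.ofReal ((a * ρ1 ^ (a - 1)) ^ 2) * volume N := by
  have h := sli_cov a β ρ1 ρ2 ha ha1 hβ hβ2 h1 N hNm hN (fun _ => 1)
  simp only [lintegral_const, one_mul, mul_one, Measure.restrict_apply_univ] at h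
  rw [h, ← setLIntegral_const]
  apply setLIntegral_mono' hNm
  intro w hw
  apply ENNReal.ofReal_le_ofReal
  have h2 : ‖w‖ ^ (a - 1) ≤ ρ1 ^ (a - 1) :=
    Real.rpow_le_rpow_of_nonpos h1 (hN hw).1.le (by linarith)
  have h3 : 0 ≤ ‖w‖ ^ (a - 1) := by positivity
  gcongr

theorem sli_back (a β ρ1 ρ2 : ℝ) (ha : 0 < a) (ha1 : a < 1) (hβ : 0 < β)
    (hβ2 : β < Real.pi / 2) (h1 : 0 < ρ1) (h2 : ρ1 < ρ2) (N : Set ℂ) (hNm : MeasurableSet N)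
    (hN : N ⊆ {w : ℂ | ρ1 < ‖w‖ ∧ ‖w‖ < ρ2 ∧ |Complex.arg w| < β}) (g : ℂ → ENNReal)
    (hg : Measurable g) :
    ENNReal.ofReal ((a * ρ2 ^ (a - 1)) ^ 2) * ∫⁻ w in N, g (w ^ (a:ℂ)) ≤
      ∫⁻ x in (fun w : ℂ => w ^ (a:ℂ)) '' N, g x := by
  rw [sli_cov a β ρ1 ρ2 ha ha1 hβ hβ2 h1 N hNm hN g, ← lintegral_const_mul _ (by fun_prop)]
  apply setLIntegral_mono' hNm
  intro w hw
  have h3 : ρ2 ^ (a - 1) ≤ ‖w‖ ^ (a - 1) :=
    Real.rpow_le_rpow_of_nonpos (h1.trans (hN hw).1) (hN hw).2.1.le (by linarith)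
  have h4 : 0 ≤ ρ2 ^ (a - 1) := (Real.rpow_pos_of_pos (h1.trans h2) _).le
  apply mul_le_mul_left
  apply ENNReal.ofReal_le_ofReal
  apply pow_le_pow_left₀ (by positivity)
  exact mul_le_mul_of_nonneg_left h3 ha.le


/-- TARGET 1 -/
theorem small_log_integral (a β ρ1 ρ2 : ℝ) (ha : 0 < a) (ha1 : a < 1) (hβ : 0 < β)
    (hβ2 : β < Real.pi / 2) (h1 : 0 < ρ1) (h2 : ρ1 < ρ2) :
    ∀ η > 0, ∃ ε' > 0, ∀ N : Set ℂ, MeasurableSet N →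
      N ⊆ {w : ℂ | ρ1 < ‖w‖ ∧ ‖w‖ < ρ2 ∧ |Complex.arg w| < β} → volume N ≤ ENNReal.ofReal ε' →
      ∀ v : ℂ, IntegrableOn (fun w => min 0 (Real.log ‖1 - v / w ^ (a : ℂ)‖)) N ∧
        -η ≤ ∫ w in N, min 0 (Real.log ‖1 - v / w ^ (a : ℂ)‖) := by
  intro η hη
  have hρ2 : 0 < ρ2 := h1.trans h2
  set c := (a * ρ2 ^ (a - 1)) ^ 2 with hc
  have hcpos : 0 < c := by positivity
  set C1 := (a * ρ1 ^ (a - 1)) ^ 2 with hC1
  have hC1pos : 0 < C1 := by positivity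
  set K := 2 * (ρ2 ^ a) ^ (1/2 : ℝ) with hK
  have hKpos : 0 < K := by positivity
  obtain ⟨δ, hδ, hu⟩ := sli_unif (3 * ρ2 ^ a) (η * c / K) (by positivity)
  refine ⟨δ / C1, by positivity, fun N hNm hN hNv v => ?_⟩
  set F : ℂ → ℝ := fun w => min 0 (Real.log ‖1 - v / w ^ (a : ℂ)‖) with hF
  have hFm : Measurable F := by
    rw [hF]; fun_prop
  have hw0 : ∀ w ∈ N, 0 < ‖w‖ := fun w hw => h1.trans (hN hw).1
  have main : ∫⁻ w in N, ‖F w‖ₑ ≤ ENNReal.ofReal η := by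
    rcases lt_or_ge (2 * ρ2 ^ a) ‖v‖ with hv | hv
    · have : ∫⁻ w in N, ‖F w‖ₑ = ∫⁻ w in N, 0 := by
        apply setLIntegral_congr_fun hNm
        intro w hw
        have hwa : ‖w ^ (a:ℂ)‖ ≤ ρ2 ^ a := by
          rw [Complex.norm_cpow_real]
          exact Real.rpow_le_rpow (norm_nonneg _) (hN hw).2.1.le ha.le
        have hwp : 0 < ‖w ^ (a:ℂ)‖ := by
          rw [Complex.norm_cpow_real]; exact Real.rpow_pos_of_pos (hw0 w hw) _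
        have h3 : 2 ≤ ‖v / w ^ (a:ℂ)‖ := by
          rw [norm_div, le_div_iff₀ hwp]; nlinarith
        have h4 : 1 ≤ ‖1 - v / w ^ (a:ℂ)‖ := by
          have := norm_sub_norm_le (v / w ^ (a:ℂ)) 1
          rw [norm_one, norm_sub_rev] at this
          linarith
        have : F w = 0 := by
          simp only [hF]
          exact min_eq_left (Real.log_nonneg h4)
        simp [this]
      rw [this]; simp
    · have hS := measurable_image_of_fderivWithin hNm (sli_deriv a β ρ1 ρ2 hβ2 h1 N hN)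
        ((sli_inj a β ρ1 ρ2 ha ha1 hβ hβ2 h1).mono hN)
      have hSv : volume ((fun w : ℂ => w ^ (a:ℂ)) '' N) ≤ ENNReal.ofReal δ := by
        refine (sli_vol a β ρ1 ρ2 ha ha1 hβ hβ2 h1 N hNm hN).trans ?_
        rw [← hC1]
        calc ENNReal.ofReal C1 * volume N ≤ ENNReal.ofReal C1 * ENNReal.ofReal (δ / C1) := by gcongr
          _ = ENNReal.ofReal δ := by
            rw [← ENNReal.ofReal_mul hC1pos.le]; congr 1; field_simp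
      have h3 := hu _ hS hSv v (by
        rintro ζ ⟨w, hw, rfl⟩
        have hwa : ‖w ^ (a:ℂ)‖ < ρ2 ^ a := by
          rw [Complex.norm_cpow_real]
          exact Real.rpow_lt_rpow (norm_nonneg _) (hN hw).2.1 ha
        have := norm_sub_le (w ^ (a:ℂ)) v
        simp only
        linarith)
      have h4 := sli_back a β ρ1 ρ2 ha ha1 hβ hβ2 h1 h2 N hNm hN
        (fun ζ => ENNReal.ofReal (‖ζ - v‖ ^ (-(1/2) : ℝ))) (by fun_prop)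
      rw [← hc] at h4
      have h5 : ∫⁻ w in N, ‖F w‖ₑ ≤ ENNReal.ofReal K *
          ∫⁻ w in N, ENNReal.ofReal (‖w ^ (a:ℂ) - v‖ ^ (-(1/2) : ℝ)) := by
        rw [← lintegral_const_mul _ (by fun_prop)]
        apply setLIntegral_mono' hNm
        intro w hw
        rw [Real.enorm_eq_ofReal_abs, ← ENNReal.ofReal_mul hKpos.le]
        apply ENNReal.ofReal_le_ofReal
        have hwa : ‖w ^ (a:ℂ)‖ ≤ ρ2 ^ a := by
          rw [Complex.norm_cpow_real]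
          exact Real.rpow_le_rpow (norm_nonneg _) (hN hw).2.1.le ha.le
        have hwp : 0 < ‖w ^ (a:ℂ)‖ := by
          rw [Complex.norm_cpow_real]; exact Real.rpow_pos_of_pos (hw0 w hw) _
        have hne : w ^ (a:ℂ) ≠ 0 := norm_pos_iff.1 hwp
        have e1 : 1 - v / w ^ (a:ℂ) = (w ^ (a:ℂ) - v) / w ^ (a:ℂ) := by
          field_simp
        have h6 := sli_min_log ‖1 - v / w ^ (a:ℂ)‖ (norm_nonneg _)
        refine h6.trans ?_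
        rw [e1, norm_div, Real.div_rpow (norm_nonneg _) (norm_nonneg _), div_eq_mul_inv,
          ← Real.rpow_neg (norm_nonneg _), neg_neg, hK]
        have h7 : ‖w ^ (a:ℂ)‖ ^ (1/2 : ℝ) ≤ (ρ2 ^ a) ^ (1/2 : ℝ) :=
          Real.rpow_le_rpow (norm_nonneg _) hwa (by norm_num)
        have h8 : 0 ≤ ‖w ^ (a:ℂ) - v‖ ^ (-(1/2) : ℝ) := by positivity
        nlinarith [mul_le_mul_of_nonneg_left h7 h8]
      have h9 : ENNReal.ofReal c * ∫⁻ w in N, ENNReal.ofReal (‖w ^ (a:ℂ) - v‖ ^ (-(1/2) : ℝ)) ≤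
          ENNReal.ofReal (η * c / K) := h4.trans h3
      have h10 : ∫⁻ w in N, ENNReal.ofReal (‖w ^ (a:ℂ) - v‖ ^ (-(1/2) : ℝ)) ≤
          ENNReal.ofReal (η / K) := by
        have : ENNReal.ofReal (η * c / K) = ENNReal.ofReal c * ENNReal.ofReal (η / K) := by
          rw [← ENNReal.ofReal_mul hcpos.le]; congr 1; ring
        rw [this] at h9
        exact (ENNReal.mul_le_mul_iff_right (by simpa using hcpos) ENNReal.ofReal_ne_top).1 h9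
      calc ∫⁻ w in N, ‖F w‖ₑ ≤ ENNReal.ofReal K *
          ∫⁻ w in N, ENNReal.ofReal (‖w ^ (a:ℂ) - v‖ ^ (-(1/2) : ℝ)) := h5
        _ ≤ ENNReal.ofReal K * ENNReal.ofReal (η / K) := by gcongr
        _ = ENNReal.ofReal η := by
          rw [← ENNReal.ofReal_mul hKpos.le]; congr 1; field_simp
  refine ⟨⟨hFm.aestronglyMeasurable, lt_of_le_of_lt main ENNReal.ofReal_lt_top⟩, ?_⟩
  have h11 : ‖∫ w in N, F w‖ₑ ≤ ENNReal.ofReal η := (enorm_integral_le_lintegral_enorm _).trans main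
  rw [Real.enorm_eq_ofReal_abs, ENNReal.ofReal_le_ofReal_iff hη.le] at h11
  exact (abs_le.1 h11).1


theorem eb_bad_null (a β ρ1 ρ2 : ℝ) (ha : 0 < a) (ha1 : a < 1) (hβ : 0 < β)
    (hβ2 : β < Real.pi / 2) (h1 : 0 < ρ1) (z q : ℂ) (hz : z ≠ 0) :
    volume {w : ℂ | w ∈ {w : ℂ | ρ1 < ‖w‖ ∧ ‖w‖ < ρ2 ∧ |Complex.arg w| < β} ∧
      ∃ n : ℕ, z / w ^ (a:ℂ) = q ^ n} = 0 := by
  have hsub : {w : ℂ | w ∈ {w : ℂ | ρ1 < ‖w‖ ∧ ‖w‖ < ρ2 ∧ |Complex.arg w| < β} ∧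
      ∃ n : ℕ, z / w ^ (a:ℂ) = q ^ n} ⊆ ⋃ n : ℕ,
      {w : ℂ | w ∈ {w : ℂ | ρ1 < ‖w‖ ∧ ‖w‖ < ρ2 ∧ |Complex.arg w| < β} ∧ z / w ^ (a:ℂ) = q ^ n} := by
    rintro w ⟨hw, n, hn⟩
    exact Set.mem_iUnion.2 ⟨n, hw, hn⟩
  refine measure_mono_null hsub (measure_iUnion_null fun n => ?_)
  apply Set.Subsingleton.measure_zero
  rintro x ⟨hx, hxn⟩ y ⟨hy, hyn⟩
  apply sli_inj a β ρ1 ρ2 ha ha1 hβ hβ2 h1 hx hy
  simp only
  have hx0 : x ≠ 0 := by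
    rintro rfl; have := hx.1; simp at this; linarith
  have hy0 : y ≠ 0 := by
    rintro rfl; have := hy.1; simp at this; linarith
  have hxa : x ^ (a:ℂ) ≠ 0 := by
    rw [Ne, Complex.cpow_eq_zero_iff]; tauto
  have hya : y ^ (a:ℂ) ≠ 0 := by
    rw [Ne, Complex.cpow_eq_zero_iff]; tauto
  have h := hxn.trans hyn.symm
  rw [div_eq_div_iff hxa hya] at h
  exact (mul_left_cancel₀ hz h).symm

/-- pointwise bound -/
theorem eb_pointwise (p : ℕ) (lam q : ℝ) (Q : ℕ) (hlam : 0 < lam) (hq : 1 < q) (P : ℂ → ℂ) (C : ℝ)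
    (hC : 0 < C)
    (hlow : ∀ z : ℂ, 1 ≤ ‖z‖ → (∀ n : ℕ, z ≠ (q:ℂ) ^ n) →
      ∀ M : ℕ, ‖z‖ / q ^ M ≤ 1 / 2 → q ^ M ≤ 2 * q * ‖z‖ →
      -(C * ‖z‖ ^ lam) + ∑ n ∈ Finset.range M, (Q:ℝ) ^ n * min 0 (Real.log ‖1 - z / (q:ℂ) ^ n‖)
        ≤ Real.log ‖P z‖) (u : ℂ) (hu : 1 ≤ ‖u‖) (hun : ∀ n : ℕ, u ≠ (q:ℂ) ^ n) (U : ℝ) (hU : ‖u‖ ≤ U)
    (n0 : ℕ) (hn0 : 2 * U < q ^ (n0 + 1)) :
    -(C * ‖u‖ ^ lam) + ∑ n ∈ Finset.range (n0 + 1), (Q:ℝ) ^ n * min 0 (Real.log ‖1 - u / (q:ℂ) ^ n‖)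
        ≤ Real.log ‖P u‖ := by
  obtain ⟨n, hn1, hn2⟩ := exists_nat_pow_near (x := 2 * ‖u‖) (y := q) (by linarith) hq
  have hq0 : 0 < q := by linarith
  have hle : n + 1 ≤ n0 + 1 := by
    by_contra hcon
    have : n0 + 1 ≤ n := by omega
    have h3 : q ^ (n0 + 1) ≤ q ^ n := pow_le_pow_right₀ hq.le this
    linarith
  have h := hlow u hu hun (n + 1) (by rw [div_le_iff₀ (by positivity)]; linarith)
    (by rw [pow_succ]; nlinarith)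
  refine le_trans ?_ h
  have hsum : ∑ n ∈ Finset.range (n0 + 1), (Q:ℝ) ^ n * min 0 (Real.log ‖1 - u / (q:ℂ) ^ n‖) ≤
      ∑ n ∈ Finset.range (n + 1), (Q:ℝ) ^ n * min 0 (Real.log ‖1 - u / (q:ℂ) ^ n‖) := by
    apply Finset.sum_le_sum_of_subset_of_nonpos' (Finset.range_mono hle)
    intro i _ _
    exact mul_nonpos_of_nonneg_of_nonpos (by positivity) (min_le_left _ _)
  linarith

theorem eb_geom (lam q U : ℝ) (Q : ℕ) (hlam : 0 < lam) (hq : 1 < q) (hQ : (Q:ℝ) = q ^ lam) (hQ2 : 2 ≤ Q)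
    (hU : 1 ≤ U) (n0 : ℕ) (hn0 : q ^ n0 ≤ 2 * U) :
    ∑ n ∈ Finset.range (n0 + 1), (Q:ℝ) ^ n ≤ (2 * q * U) ^ lam := by
  have h := Nat.geomSum_lt (m := Q) (n := n0 + 1) (s := Finset.range (n0 + 1)) hQ2
    (fun k hk => Finset.mem_range.1 hk)
  have h' : ∑ n ∈ Finset.range (n0 + 1), (Q:ℝ) ^ n ≤ (Q:ℝ) ^ (n0 + 1) := by
    exact_mod_cast h.le
  refine h'.trans ?_
  have hq0 : 0 < q := by linarith
  rw [hQ, ← Real.rpow_natCast (q ^ lam), ← Real.rpow_mul hq0.le, mul_comm lam, Real.rpow_mul hq0.le,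
    Real.rpow_natCast]
  apply Real.rpow_le_rpow (by positivity) _ hlam.le
  rw [pow_succ]; nlinarith

/-- TARGET 2 -/
theorem error_bound (p : ℕ) (lam q : ℝ) (Q : ℕ) (hp : 2 ≤ p) (h1 : (p:ℝ) < lam) (h2 : lam < p + 1)
    (hq : 1 < q) (hQ : (Q:ℝ) = q ^ lam) (hQ2 : 2 ≤ Q) (P : ℂ → ℂ) (hP : Differentiable ℂ P) (hP0 : P 0 = 1)
    (hfe : ∀ z : ℂ, P z = Ep p z * P (z / (q:ℂ)) ^ Q) (hnz : ∀ z : ℂ, ‖z‖ < 1 → P z ≠ 0)
    (β ρ1 ρ2 : ℝ) (hβ : 0 < β) (hβ2 : β < Real.pi / 2) (hρ1 : 0 < ρ1) (hρ2 : ρ1 < ρ2) :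
    ∀ η > 0, ∃ ε' > 0, ∃ r0 > 0, ∀ N : Set ℂ, MeasurableSet N →
      N ⊆ {w : ℂ | ρ1 < ‖w‖ ∧ ‖w‖ < ρ2 ∧ |Complex.arg w| < β} → volume N ≤ ENNReal.ofReal ε' →
      ∀ z : ℂ, r0 ≤ ‖z‖ →
        -(η * ‖z‖ ^ lam) ≤ ∫ w in N, Real.log ‖P (z / w ^ ((2 / lam : ℝ) : ℂ))‖ := by
  
  intro η hη
  have hlam : 2 < lam := by
    have : (2:ℝ) ≤ p := by exact_mod_cast hp
    linarith
  have hlam0 : 0 < lam := by linarith
  set a : ℝ := 2 / lam with ha_def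
  have ha : 0 < a := by positivity
  have ha1 : a < 1 := by rw [ha_def, div_lt_one hlam0]; exact hlam
  have hal : a * lam = 2 := by rw [ha_def]; field_simp
  have hρ2p : 0 < ρ2 := hρ1.trans hρ2
  have hq0 : 0 < q := by linarith
  obtain ⟨C, hC, hlow⟩ := Pi_lower p lam q Q (by omega) h1 h2 hq hQ P hP hP0 hfe hnz
  set A : ℝ := (ρ1 ^ 2)⁻¹ with hA
  have hApos : 0 < A := by positivity
  set B : ℝ := (2 * q) ^ lam * A with hB
  have hBpos : 0 < B := by positivity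
  obtain ⟨ε1, hε1, hsm⟩ := small_log_integral a β ρ1 ρ2 ha ha1 hβ hβ2 hρ1 hρ2 (η / (2 * B)) (by positivity)
  refine ⟨min ε1 (η / (2 * (C * A))), by positivity, max (ρ2 ^ a) (ρ1 ^ a), by positivity, ?_⟩
  intro N hNm hN hNv z hz
  have hNv1 : volume N ≤ ENNReal.ofReal ε1 :=
    hNv.trans (ENNReal.ofReal_le_ofReal (min_le_left _ _))
  have hNv2 : volume N ≤ ENNReal.ofReal (η / (2 * (C * A))) :=
    hNv.trans (ENNReal.ofReal_le_ofReal (min_le_right _ _))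
  have hz2 : ρ2 ^ a ≤ ‖z‖ := (le_max_left _ _).trans hz
  have hz1 : ρ1 ^ a ≤ ‖z‖ := (le_max_right _ _).trans hz
  have hzpos : 0 < ‖z‖ := lt_of_lt_of_le (by positivity) hz2
  have hz0 : z ≠ 0 := norm_pos_iff.1 hzpos
  by_cases hint : IntegrableOn (fun w => Real.log ‖P (z / w ^ (a : ℂ))‖) N
  swap
  · have : ∫ w in N, Real.log ‖P (z / w ^ (a : ℂ))‖ = 0 := integral_undef hint
    rw [this]
    have : 0 ≤ η * ‖z‖ ^ lam := by positivity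
    linarith
  set U : ℝ := ‖z‖ / ρ1 ^ a with hU_def
  have hρ1a : 0 < ρ1 ^ a := by positivity
  have hU1 : 1 ≤ U := by rw [hU_def, le_div_iff₀ hρ1a]; linarith
  obtain ⟨n0, hn1, hn2⟩ := exists_nat_pow_near (x := 2 * U) (y := q) (by linarith) hq
  have hUlam : U ^ lam = ‖z‖ ^ lam * A := by
    rw [hU_def, Real.div_rpow hzpos.le hρ1a.le, ← Real.rpow_mul hρ1.le, hal, hA, div_eq_mul_inv]
    norm_num
  have hgeom : ∑ n ∈ Finset.range (n0 + 1), (Q:ℝ) ^ n ≤ B * ‖z‖ ^ lam := by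
    refine (eb_geom lam q U Q hlam0 hq hQ hQ2 hU1 n0 hn1).trans ?_
    rw [Real.mul_rpow (by positivity) (by positivity), hUlam, hB]
    apply le_of_eq; ring
  have hpt : ∀ w ∈ N, (∀ n : ℕ, z / w ^ (a:ℂ) ≠ (q:ℂ) ^ n) →
      -(C * A * ‖z‖ ^ lam) + ∑ n ∈ Finset.range (n0 + 1), (Q:ℝ) ^ n *
        min 0 (Real.log ‖1 - (z / (q:ℂ) ^ n) / w ^ (a:ℂ)‖) ≤ Real.log ‖P (z / w ^ (a : ℂ))‖ := by
    intro w hw hbad
    have hwpos : 0 < ‖w‖ := hρ1.trans (hN hw).1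
    have hwa : 0 < ‖w‖ ^ a := by positivity
    have hnorm : ‖z / w ^ (a:ℂ)‖ = ‖z‖ / ‖w‖ ^ a := by
      rw [norm_div, Complex.norm_cpow_real]
    have hw2 : ‖w‖ ^ a ≤ ρ2 ^ a := Real.rpow_le_rpow hwpos.le (hN hw).2.1.le ha.le
    have hw1 : ρ1 ^ a ≤ ‖w‖ ^ a := Real.rpow_le_rpow hρ1.le (hN hw).1.le ha.le
    have hu1 : 1 ≤ ‖z / w ^ (a:ℂ)‖ := by
      rw [hnorm, le_div_iff₀ hwa]; linarith
    have huU : ‖z / w ^ (a:ℂ)‖ ≤ U := by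
      rw [hnorm, hU_def]; gcongr
    have h := eb_pointwise p lam q Q hlam0 hq P C hC hlow (z / w ^ (a:ℂ)) hu1 hbad U huU n0 hn2
    refine le_trans ?_ h
    have e1 : ∀ n : ℕ, z / w ^ (a:ℂ) / (q:ℂ) ^ n = (z / (q:ℂ) ^ n) / w ^ (a:ℂ) := by
      intro n; rw [div_div, div_div, mul_comm]
    simp only [e1]
    have h3 : ‖z / w ^ (a:ℂ)‖ ^ lam ≤ A * ‖z‖ ^ lam := by
      refine (Real.rpow_le_rpow (norm_nonneg _) huU hlam0.le).trans ?_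
      rw [hUlam, mul_comm]
    have h4 := mul_le_mul_of_nonneg_left h3 hC.le
    linarith
  have hintn : ∀ n : ℕ, IntegrableOn (fun w : ℂ => (Q:ℝ) ^ n *
        min 0 (Real.log ‖1 - (z / (q:ℂ) ^ n) / w ^ (a:ℂ)‖)) N := by
    intro n
    exact (hsm N hNm hN hNv1 (z / (q:ℂ) ^ n)).1.const_mul _
  have hvfin : volume N ≠ ⊤ := ne_top_of_le_ne_top ENNReal.ofReal_ne_top hNv1
  have hconst : IntegrableOn (fun _ : ℂ => -(C * A * ‖z‖ ^ lam)) N := integrableOn_const hvfin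
  have hsumint : IntegrableOn (fun w : ℂ => ∑ n ∈ Finset.range (n0 + 1), (Q:ℝ) ^ n *
        min 0 (Real.log ‖1 - (z / (q:ℂ) ^ n) / w ^ (a:ℂ)‖)) N :=
    integrable_finset_sum _ (fun n _ => hintn n)
  have hmono := integral_mono_ae (hconst.add hsumint) hint (by
    have hnull := eb_bad_null a β ρ1 ρ2 ha ha1 hβ hβ2 hρ1 z (q:ℂ) hz0
    rw [Filter.EventuallyLE, ae_restrict_iff' hNm]
    have hae : ∀ᵐ w ∂(volume : Measure ℂ), w ∉ {w : ℂ | w ∈ {w : ℂ | ρ1 < ‖w‖ ∧ ‖w‖ < ρ2 ∧ |Complex.arg w| < β} ∧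
      ∃ n : ℕ, z / w ^ (a:ℂ) = (q:ℂ) ^ n} := measure_eq_zero_iff_ae_notMem.1 hnull
    filter_upwards [hae] with w hw hwN
    apply hpt w hwN
    intro n hn
    exact hw ⟨hN hwN, n, hn⟩)
  refine le_trans ?_ hmono
  have e2 : ∫ w in N, ((fun _ : ℂ => -(C * A * ‖z‖ ^ lam)) + (fun w : ℂ => ∑ n ∈ Finset.range (n0 + 1), (Q:ℝ) ^ n *
        min 0 (Real.log ‖1 - (z / (q:ℂ) ^ n) / w ^ (a:ℂ)‖))) w =
      (∫ w in N, -(C * A * ‖z‖ ^ lam)) + ∫ w in N, ∑ n ∈ Finset.range (n0 + 1), (Q:ℝ) ^ n *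
        min 0 (Real.log ‖1 - (z / (q:ℂ) ^ n) / w ^ (a:ℂ)‖) := integral_add hconst hsumint
  rw [e2, setIntegral_const, integral_finset_sum _ (fun n _ => hintn n)]
  have hreal : volume.real N ≤ η / (2 * (C * A)) := by
    rw [Measure.real]
    exact ENNReal.toReal_le_of_le_ofReal (by positivity) hNv2
  have h5 : -(η / 2 * ‖z‖ ^ lam) ≤ volume.real N • -(C * A * ‖z‖ ^ lam) := by
    rw [smul_eq_mul, mul_neg, neg_le_neg_iff]
    calc volume.real N * (C * A * ‖z‖ ^ lam) ≤ (η / (2 * (C * A))) * (C * A * ‖z‖ ^ lam) := by gcongr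
      _ = η / 2 * ‖z‖ ^ lam := by field_simp
  have h6 : -(η / 2 * ‖z‖ ^ lam) ≤ ∑ n ∈ Finset.range (n0 + 1), ∫ w in N, (Q:ℝ) ^ n *
        min 0 (Real.log ‖1 - (z / (q:ℂ) ^ n) / w ^ (a:ℂ)‖) := by
    have h7 : ∀ n ∈ Finset.range (n0 + 1), (Q:ℝ) ^ n * (-(η / (2 * B))) ≤ ∫ w in N, (Q:ℝ) ^ n *
        min 0 (Real.log ‖1 - (z / (q:ℂ) ^ n) / w ^ (a:ℂ)‖) := by
      intro n _
      rw [integral_const_mul]
      exact mul_le_mul_of_nonneg_left (hsm N hNm hN hNv1 (z / (q:ℂ) ^ n)).2 (by positivity)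
    refine le_trans ?_ (Finset.sum_le_sum h7)
    rw [← Finset.sum_mul, mul_neg, neg_le_neg_iff]
    calc (∑ n ∈ Finset.range (n0 + 1), (Q:ℝ) ^ n) * (η / (2 * B)) ≤ (B * ‖z‖ ^ lam) * (η / (2 * B)) := by gcongr
      _ = η / 2 * ‖z‖ ^ lam := by field_simp
  linarith

end MinMod.U4
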