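import Mathlib
import Pool.Agent.MP06ac62.Defs

set_option linter.all false
set_option maxHeartbeats 1000000

namespace MinMod.U5

open MinMod
open Metric MeasureTheory
theorem packing (O : Set ℂ) (hO : IsOpen O) (hb : Bornology.IsBounded O) (ε : ℝ) (hε : 0 < ε) :
    ∃ (n : ℕ) (c : Fin n → ℂ) (s : Fin n → ℚ), (∀ i, 0 < s i) ∧
      (∀ i, closedBall (c i) (s i : ℝ) ⊆ O) ∧
      (∀ i j, i ≠ j → Disjoint (closedBall (c i) (s i : ℝ)) (closedBall (c j) (s j : ℝ))) ∧
      volume (O \ ⋃ i, closedBall (c i) (s i : ℝ)) ≤ ENNReal.ofReal ε := by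
  classical
  let f : ℂ → Set ℝ := fun x => {ρ | ∃ q : ℚ, ρ = q ∧ 0 < ρ ∧ closedBall x ρ ⊆ O}
  have hf : ∀ x ∈ O, ∀ δ > 0, (f x ∩ Set.Ioo 0 δ).Nonempty := by
    intro x hx δ hδ
    obtain ⟨η, hη, hηO⟩ := Metric.isOpen_iff.1 hO x hx
    obtain ⟨q, hq1, hq2⟩ := exists_rat_btwn (lt_min hδ hη)
    refine ⟨(q : ℝ), ⟨q, rfl, hq1, ?_⟩, hq1, lt_of_lt_of_le hq2 (min_le_left _ _)⟩
    exact (closedBall_subset_ball (lt_of_lt_of_le hq2 (min_le_right _ _))).trans hηO
  obtain ⟨t, r, htc, hts, hr, hμ, hdisj⟩ :=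
    Besicovitch.exists_disjoint_closedBall_covering_ae (volume : Measure ℂ) f O hf (fun _ => 1)
      (fun _ _ => one_pos)
  have hvol : volume O < ⊤ := hb.measure_lt_top
  haveI : Countable t := htc.to_subtype
  let B : t → Set ℂ := fun x => closedBall (x : ℂ) (r x)
  have hBdisj : Pairwise (Function.onFun Disjoint B) := by
    intro x y hxy
    exact hdisj x.2 y.2 (fun h => hxy (Subtype.ext h))
  have hBO : ∀ x : t, B x ⊆ O := by
    intro x
    obtain ⟨q, _, _, h3⟩ := (hr x x.2).1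
    exact h3
  have hsum : ∑' x : t, volume (B x) ≠ ⊤ := by
    rw [← measure_iUnion hBdisj (fun x => isClosed_closedBall.measurableSet)]
    exact (lt_of_le_of_lt (measure_mono (Set.iUnion_subset hBO)) hvol).ne
  have htend := ENNReal.tendsto_tsum_compl_atTop_zero hsum
  have hev := (ENNReal.tendsto_nhds_zero.1 htend) (ENNReal.ofReal ε) (ENNReal.ofReal_pos.2 hε)
  obtain ⟨F, hF⟩ := hev.exists
  have hq : ∀ x : t, ∃ q : ℚ, r x = q ∧ 0 < q := by
    intro x
    obtain ⟨q, h1, h2, _⟩ := (hr x x.2).1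
    refine ⟨q, h1, ?_⟩
    rw [h1] at h2
    exact_mod_cast h2
  choose q hq1 hq2 using hq
  let e : Fin F.card ≃ F := F.equivFin.symm
  have hball : ∀ i : Fin F.card, closedBall (((e i : t) : ℂ)) ((q (e i : t) : ℚ) : ℝ) = B (e i : t) := by
    intro i
    show _ = closedBall _ _
    rw [hq1]
  refine ⟨F.card, fun i => ((e i : t) : ℂ), fun i => q (e i : t), fun i => hq2 _, ?_, ?_, ?_⟩
  · intro i
    rw [hball]
    exact hBO _
  · intro i j hij
    rw [hball, hball]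
    apply hBdisj
    intro h
    exact hij (e.injective (Subtype.ext h))
  · have hsub : O \ ⋃ i : Fin F.card, closedBall (((e i : t) : ℂ)) ((q (e i : t) : ℚ) : ℝ)
        ⊆ (O \ ⋃ x ∈ t, closedBall x (r x)) ∪ ⋃ b : {x : t // x ∉ F}, B b := by
      rintro z ⟨hzO, hz⟩
      by_cases hzt : z ∈ ⋃ x ∈ t, closedBall x (r x)
      · right
        obtain ⟨x, hx, hzx⟩ := Set.mem_iUnion₂.1 hzt
        have hxF : (⟨x, hx⟩ : t) ∉ F := by
          intro hxF
          apply hz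
          refine Set.mem_iUnion.2 ⟨e.symm ⟨⟨x, hx⟩, hxF⟩, ?_⟩
          rw [hball, Equiv.apply_symm_apply]
          exact hzx
        exact Set.mem_iUnion.2 ⟨⟨⟨x, hx⟩, hxF⟩, hzx⟩
      · left
        exact ⟨hzO, hzt⟩
    calc volume (O \ ⋃ i : Fin F.card, closedBall (((e i : t) : ℂ)) ((q (e i : t) : ℚ) : ℝ))
        ≤ volume ((O \ ⋃ x ∈ t, closedBall x (r x)) ∪ ⋃ b : {x : t // x ∉ F}, B b) :=
          measure_mono hsub
      _ ≤ volume (O \ ⋃ x ∈ t, closedBall x (r x)) + volume (⋃ b : {x : t // x ∉ F}, B b) :=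
          measure_union_le _ _
      _ ≤ 0 + ∑' b : {x : t // x ∉ F}, volume (B b) := by
          rw [hμ]
          gcongr
          exact measure_iUnion_le _
      _ ≤ ENNReal.ofReal ε := by rw [zero_add]; exact hF

end MinMod.U5
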