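import Mathlib
import Pool.Agent.MP06ac62.Defs
import Pool.Agent.MP06ac62.U1
import Pool.Agent.MP06ac62.U2
import Pool.Agent.MP06ac62.U5
import Pool.Agent.MP06ac62.U4
import Pool.Agent.MP06ac62.U3e

set_option linter.all false
set_option maxHeartbeats 1000000

namespace MinMod.U6

open MinMod
open MinMod.U1
open MinMod.U2
open MinMod.U5
open MinMod.U4
open MinMod.U3e
open Metric MeasureTheory Set








/-! ### auxiliary lemmas for `upper_core` -/

/-- the sector annulus -/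
def ucA (R β : ℝ) : Set ℂ := {w : ℂ | 1 - R < ‖w‖ ∧ ‖w‖ < 1 + R ∧ |Complex.arg w| < β}

theorem uc_re {R β : ℝ} (hR : R < 1) (hβ : β < Real.pi / 2) {w : ℂ} (hw : w ∈ ucA R β) :
    (1 - R) * Real.cos β ≤ w.re ∧ 0 < w.re := by
  obtain ⟨h1, h2, h3⟩ := hw
  have hb0 : 0 < β := lt_of_le_of_lt (abs_nonneg _) h3
  have hpi := Real.pi_pos
  have h4 : Real.cos β ≤ Real.cos |Complex.arg w| :=
    Real.cos_le_cos_of_nonneg_of_le_pi (abs_nonneg _) (by linarith) h3.le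
  have h5 : 0 < Real.cos β := Real.cos_pos_of_mem_Ioo ⟨by linarith, hβ⟩
  rw [Real.cos_abs] at h4
  have h6 : w.re = ‖w‖ * Real.cos (Complex.arg w) := (Complex.norm_mul_cos_arg w).symm
  have h7 : (1 - R) * Real.cos β ≤ w.re := by
    rw [h6]
    exact mul_le_mul h1.le h4 h5.le (norm_nonneg _)
  exact ⟨h7, lt_of_lt_of_le (mul_pos (by linarith) h5) h7⟩

theorem uc_open {R β : ℝ} (hR : R < 1) (hβ : β < Real.pi / 2) : IsOpen (ucA R β) := by
  rw [isOpen_iff_mem_nhds]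
  intro w hw
  have hre := (uc_re hR hβ hw).2
  have hslit : w ∈ Complex.slitPlane := Or.inl hre
  have h1 : ∀ᶠ v in nhds w, 1 - R < ‖v‖ :=
    continuous_norm.continuousAt.eventually (lt_mem_nhds hw.1)
  have h2 : ∀ᶠ v in nhds w, ‖v‖ < 1 + R :=
    continuous_norm.continuousAt.eventually (gt_mem_nhds hw.2.1)
  have h3 : ∀ᶠ v in nhds w, |Complex.arg v| < β :=
    (Complex.continuousAt_arg hslit).abs.eventually (gt_mem_nhds hw.2.2)
  filter_upwards [h1, h2, h3] with v a b c using ⟨a, b, c⟩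

theorem uc_ball {R β : ℝ} (hR : R < 1) (hβ0 : 0 < β) (hβ : β < Real.pi / 2)
    (hs : R ≤ Real.sin β) : ball (1:ℂ) R ⊆ ucA R β := by
  intro w hw
  rw [mem_ball, dist_eq_norm] at hw
  have h1 : 1 - R < ‖w‖ := by
    have := norm_sub_norm_le (1:ℂ) w
    rw [norm_one, norm_sub_rev] at this
    linarith
  have h2 : ‖w‖ < 1 + R := by
    have := norm_sub_norm_le w (1:ℂ)
    rw [norm_one] at this
    linarith
  have hre : 0 < w.re := by
    have := Complex.abs_re_le_norm (w - 1)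
    rw [Complex.sub_re, Complex.one_re] at this
    have := abs_lt.mp (lt_of_le_of_lt this hw)
    linarith [this.1]
  refine ⟨h1, h2, ?_⟩
  by_contra hcon
  rw [not_lt] at hcon
  have h3 : |Complex.arg w| < Real.pi / 2 := Complex.abs_arg_lt_pi_div_two_iff.mpr (Or.inl hre)
  have hpi := Real.pi_pos
  have h4 : Real.sin β ≤ Real.sin |Complex.arg w| :=
    Real.sin_le_sin_of_le_of_le_pi_div_two (by linarith) h3.le hcon
  rw [← Real.abs_sin_eq_sin_abs_of_abs_le_pi (Complex.abs_arg_le_pi w)] at h4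
  have hsb : 0 < Real.sin β := Real.sin_pos_of_pos_of_lt_pi hβ0 (by linarith)
  have h5 : Real.sin β ^ 2 ≤ Real.sin (Complex.arg w) ^ 2 := by
    rw [← sq_abs (Real.sin (Complex.arg w))]
    exact pow_le_pow_left₀ hsb.le h4 2
  have h6 : w.re = ‖w‖ * Real.cos (Complex.arg w) := (Complex.norm_mul_cos_arg w).symm
  have h7 : ‖w - 1‖ ^ 2 = ‖w‖ ^ 2 - 2 * w.re + 1 := by
    rw [← Complex.normSq_eq_norm_sq, ← Complex.normSq_eq_norm_sq, Complex.normSq_apply,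
      Complex.normSq_apply]
    simp
    ring
  have h8 : Real.sin (Complex.arg w) ^ 2 ≤ ‖w - 1‖ ^ 2 := by
    rw [h7, h6]
    nlinarith [sq_nonneg (‖w‖ - Real.cos (Complex.arg w)), Real.sin_sq_add_cos_sq (Complex.arg w)]
  have h9 : Real.sin β ≤ ‖w - 1‖ := by
    have := abs_le_of_sq_le_sq' (h5.trans h8) (norm_nonneg _)
    exact this.2
  linarith

theorem uc_int {R β : ℝ} (hR : R < 1) (hβ0 : 0 < β) (hβ : β < Real.pi / 2) (H : ℂ → ℂ)
    (hH : DifferentiableOn ℂ H {w : ℂ | 0 < w.re}) (hne : ∃ z ∈ {w : ℂ | 0 < w.re}, H z ≠ 0) :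
    IntegrableOn (fun w => Real.log ‖H w‖) (ucA R β) := by
  have hK : IsCompact ({w : ℂ | (1 - R) * Real.cos β ≤ w.re} ∩ closedBall (0:ℂ) (1 + R)) := by
    refine (isCompact_closedBall (0:ℂ) (1 + R)).inter_left ?_
    exact isClosed_le continuous_const Complex.continuous_re
  have hpi := Real.pi_pos
  have h5 : 0 < Real.cos β := Real.cos_pos_of_mem_Ioo ⟨by linarith, hβ⟩
  have h1 := log_integrable _ {w : ℂ | 0 < w.re} hK
    (isOpen_lt continuous_const Complex.continuous_re)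
    (convex_halfSpace_re_gt 0).isPreconnected
    (fun w hw => lt_of_lt_of_le (mul_pos (by linarith) h5) hw.1) H hH hne
  refine h1.mono_set fun w hw => ⟨(uc_re hR hβ hw).1, ?_⟩
  rw [mem_closedBall, dist_zero_right]
  exact hw.2.1.le

theorem uc_H (P : ℂ → ℂ) (hP : Differentiable ℂ P) (hnz : ∀ z : ℂ, ‖z‖ < 1 → P z ≠ 0)
    (a : ℝ) (ha : 0 < a) (S z : ℂ) (hS : S ≠ 0) :
    DifferentiableOn ℂ (fun w => P (z / (S * w ^ (a:ℂ)))) {w : ℂ | 0 < w.re} ∧
      ∃ w ∈ {w : ℂ | 0 < w.re}, P (z / (S * w ^ (a:ℂ))) ≠ 0 := by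
  constructor
  · intro w hw
    have hw' : (0:ℝ) < w.re := hw
    have hw0 : w ≠ 0 := by
      intro h; rw [h] at hw'; simp at hw'
    have h1 : DifferentiableAt ℂ (fun w : ℂ => w ^ (a:ℂ)) w :=
      differentiableAt_id.cpow_const (Or.inl hw')
    have h2 : S * w ^ (a:ℂ) ≠ 0 := by
      refine mul_ne_zero hS ?_
      rw [Complex.cpow_def_of_ne_zero hw0]
      exact Complex.exp_ne_zero _
    have h3 : DifferentiableAt ℂ (fun w : ℂ => z / (S * w ^ (a:ℂ))) w :=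
      (differentiableAt_const z).div (h1.const_mul S) h2
    exact ((hP _).comp w h3).differentiableWithinAt
  · have hSn : 0 < ‖S‖ := norm_pos_iff.mpr hS
    set t : ℝ := (2 * ‖z‖ / ‖S‖ + 1) ^ (1 / a) with ht
    have hb : 0 < 2 * ‖z‖ / ‖S‖ + 1 := by positivity
    have ht0 : 0 < t := Real.rpow_pos_of_pos hb _
    have hta : t ^ a = 2 * ‖z‖ / ‖S‖ + 1 := by
      rw [ht, ← Real.rpow_mul hb.le, one_div, inv_mul_cancel₀ ha.ne', Real.rpow_one]
    refine ⟨(t:ℂ), by simpa using ht0, hnz _ ?_⟩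
    rw [norm_div, norm_mul, Complex.norm_cpow_eq_rpow_re_of_pos ht0, Complex.ofReal_re, hta,
      div_lt_one (by positivity)]
    have : ‖S‖ * (2 * ‖z‖ / ‖S‖ + 1) = 2 * ‖z‖ + ‖S‖ := by
      field_simp
    rw [this]
    linarith [norm_nonneg z]

theorem uc_sub (c : ℂ) (s : ℝ) (hs : 0 < s)
    (hsub : closedBall c s ⊆ {w : ℂ | 0 < w.re}) (H : ℂ → ℂ)
    (hH : DifferentiableOn ℂ H {w : ℂ | 0 < w.re}) (hne : ∃ z ∈ {w : ℂ | 0 < w.re}, H z ≠ 0)
    (L : ℝ) (n : ℕ) (hn : (n:ℝ) = 2 * L * s ^ 2) :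
    ‖H c‖ ^ n ≤ Real.exp ((2 * L / Real.pi) * ∫ w in ball c s, Real.log ‖H w‖) := by
  have h1 := area_submean c s hs {w : ℂ | 0 < w.re}
    (isOpen_lt continuous_const Complex.continuous_re)
    (convex_halfSpace_re_gt 0).isPreconnected hsub H hH hne
  have h2 := pow_le_pow_left₀ (norm_nonneg _) h1 n
  rw [← Real.exp_nat_mul] at h2
  refine h2.trans (le_of_eq ?_)
  congr 1
  rw [hn]
  have hpi := Real.pi_pos.ne'
  field_simp

theorem uc_perj (P : ℂ → ℂ) (hP : Differentiable ℂ P) (hnz : ∀ z : ℂ, ‖z‖ < 1 → P z ≠ 0)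
    (a : ℝ) (ha : 0 < a) (S z : ℂ) (hS : S ≠ 0) (R β : ℝ) (hR0 : 0 < R) (hR : R < 1)
    (hβ0 : 0 < β) (hβ : β < Real.pi / 2) (hb : ball (1:ℂ) R ⊆ ucA R β)
    (n : ℕ) (c : Fin n → ℂ) (s : Fin n → ℝ) (hs : ∀ i, 0 < s i)
    (hsub : ∀ i, closedBall (c i) (s i) ⊆ ucA R β \ closedBall 1 R)
    (hdis : ∀ i j, i ≠ j → Disjoint (closedBall (c i) (s i)) (closedBall (c j) (s j)))
    (L : ℝ) (aR : ℕ) (haR : (aR:ℝ) = 2 * L * R ^ 2) (ai : Fin n → ℕ)
    (hai : ∀ i, (ai i:ℝ) = 2 * L * s i ^ 2) :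
    ‖P (z / S)‖ ^ aR * ∏ i, ‖P (z / (S * c i ^ (a:ℂ)))‖ ^ (ai i) ≤
      Real.exp ((2 * L / Real.pi) * ((∫ w in ucA R β, Real.log ‖P (z / (S * w ^ (a:ℂ)))‖) -
        ∫ w in ucA R β \ (ball 1 R ∪ ⋃ i, ball (c i) (s i)),
          Real.log ‖P (z / (S * w ^ (a:ℂ)))‖)) := by
  obtain ⟨hH, hne⟩ := uc_H P hP hnz a ha S z hS
  set H : ℂ → ℂ := fun w => P (z / (S * w ^ (a:ℂ))) with hHdef
  have hint := uc_int hR hβ0 hβ H hH hne
  have hTsub : (ball 1 R ∪ ⋃ i, ball (c i) (s i)) ⊆ ucA R β := by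
    refine union_subset hb (iUnion_subset fun i w hw => ?_)
    exact (hsub i (ball_subset_closedBall hw)).1
  have hTmeas : MeasurableSet (⋃ i, ball (c i) (s i)) :=
    MeasurableSet.iUnion fun i => measurableSet_ball
  have h1 : (∫ w in ucA R β, Real.log ‖H w‖) -
        ∫ w in ucA R β \ (ball 1 R ∪ ⋃ i, ball (c i) (s i)), Real.log ‖H w‖
      = (∫ w in ball 1 R, Real.log ‖H w‖) + ∑ i, ∫ w in ball (c i) (s i), Real.log ‖H w‖ := by
    rw [setIntegral_sdiff (measurableSet_ball.union hTmeas) hint hTsub, sub_sub_cancel,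
      setIntegral_union _ hTmeas (hint.mono_set hb)
        (hint.mono_set (subset_union_right.trans hTsub)),
      integral_iUnion_fintype (fun i => measurableSet_ball)]
    · intro i j hij
      exact (hdis i j hij).mono ball_subset_closedBall ball_subset_closedBall
    · intro i
      exact hint.mono_set fun w hw => (hsub i (ball_subset_closedBall hw)).1
    · rw [Set.disjoint_left]
      intro w hw hw2
      obtain ⟨i, hi⟩ := mem_iUnion.mp hw2
      exact (hsub i (ball_subset_closedBall hi)).2 (ball_subset_closedBall hw)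
  have h1R : H 1 = P (z / S) := by
    simp only [hHdef, Complex.one_cpow, mul_one]
  have h2 : ‖P (z / S)‖ ^ aR ≤
      Real.exp ((2 * L / Real.pi) * ∫ w in ball 1 R, Real.log ‖H w‖) := by
    rw [← h1R]
    refine uc_sub 1 R hR0 ?_ H hH hne L aR haR
    intro w hw
    rw [mem_closedBall, dist_eq_norm] at hw
    have := Complex.abs_re_le_norm (w - 1)
    rw [Complex.sub_re, Complex.one_re] at this
    have := abs_le.mp (this.trans hw)
    show 0 < w.re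
    linarith [this.1]
  have h3 : ∀ i, ‖P (z / (S * c i ^ (a:ℂ)))‖ ^ (ai i) ≤
      Real.exp ((2 * L / Real.pi) * ∫ w in ball (c i) (s i), Real.log ‖H w‖) := by
    intro i
    exact uc_sub (c i) (s i) (hs i) (fun w hw => (uc_re hR hβ (hsub i hw).1).2) H hH hne L (ai i)
      (hai i)
  rw [h1, mul_add, Real.exp_add, Finset.mul_sum, Real.exp_sum]
  refine mul_le_mul h2 ?_ (by positivity) (Real.exp_pos _).le
  exact Finset.prod_le_prod (fun i _ => by positivity) fun i _ => h3 i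

theorem uc_vol {R β : ℝ} (n : ℕ) (c : Fin n → ℂ) (s : Fin n → ℝ) (ε : ℝ)
    (hvol : volume ((ucA R β \ closedBall 1 R) \ ⋃ i, closedBall (c i) (s i)) ≤ ENNReal.ofReal ε) :
    volume (ucA R β \ (ball 1 R ∪ ⋃ i, ball (c i) (s i))) ≤ ENNReal.ofReal ε := by
  have h1 : ucA R β \ (ball 1 R ∪ ⋃ i, ball (c i) (s i)) ⊆
      ((ucA R β \ closedBall 1 R) \ ⋃ i, closedBall (c i) (s i)) ∪
        (sphere 1 R ∪ ⋃ i, sphere (c i) (s i)) := by
    intro w hw
    obtain ⟨hwA, hwT⟩ := hw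
    by_cases h : w ∈ sphere (1:ℂ) R ∪ ⋃ i, sphere (c i) (s i)
    · exact Or.inr h
    · left
      rw [mem_union, not_or] at h hwT
      refine ⟨⟨hwA, ?_⟩, ?_⟩
      · intro hc
        rcases (mem_closedBall.mp hc).lt_or_eq with h2 | h2
        · exact hwT.1 h2
        · exact h.1 h2
      · intro hc
        obtain ⟨i, hi⟩ := mem_iUnion.mp hc
        rcases (mem_closedBall.mp hi).lt_or_eq with h2 | h2
        · exact hwT.2 (mem_iUnion.mpr ⟨i, h2⟩)
        · exact h.2 (mem_iUnion.mpr ⟨i, h2⟩)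
  refine (measure_mono h1).trans ((measure_union_le _ _).trans ?_)
  have h2 : volume (sphere (1:ℂ) R ∪ ⋃ i, sphere (c i) (s i)) = 0 := by
    rw [measure_union_null_iff]
    refine ⟨Measure.addHaar_sphere _ _ _, ?_⟩
    rw [measure_iUnion_null_iff]
    exact fun i => Measure.addHaar_sphere _ _ _
  rw [h2, add_zero]
  exact hvol

theorem uc_L (n : ℕ) (t : Fin n → ℚ) (ht : ∀ i, 0 ≤ t i) :
    ∃ L : ℕ, 1 ≤ L ∧ ∀ i, ∃ a : ℕ, (a:ℝ) = L * (t i : ℝ) := by
  refine ⟨∏ i, (t i).den, Nat.one_le_iff_ne_zero.mpr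
    (Finset.prod_ne_zero_iff.mpr fun i _ => (t i).den_nz), fun i => ?_⟩
  obtain ⟨m, hm⟩ : (t i).den ∣ ∏ i, (t i).den := Finset.dvd_prod_of_mem _ (Finset.mem_univ i)
  refine ⟨m * (t i).num.toNat, ?_⟩
  have h0 : 0 ≤ (t i).num := Rat.num_nonneg.mpr (ht i)
  have h1 : ((t i).num.toNat : ℝ) = ((t i).num : ℝ) := by
    have : (((t i).num.toNat : ℤ) : ℝ) = ((t i).num : ℝ) := by rw [Int.toNat_of_nonneg h0]
    exact_mod_cast this
  have h2 : ((t i).den : ℝ) ≠ 0 := by exact_mod_cast (t i).den_nz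
  have h3 : ((t i : ℚ) : ℝ) = (t i).num / (t i).den := Rat.cast_def _
  rw [hm]
  push_cast
  rw [h1, h3]
  field_simp

theorem uc_zero (p : ℕ) (q : ℝ) (hq : 1 < q) (Q : ℕ) (P : ℂ → ℂ) (hP : Differentiable ℂ P)
    (hfe : ∀ z : ℂ, P z = Ep p z * P (z / (q:ℂ)) ^ Q) (n : ℕ) :
    ∃ g : ℂ → ℂ, Differentiable ℂ g ∧ ∀ z, P z = (1 - z / (q:ℂ) ^ n) ^ (Q ^ n) * g z := by
  have hq0 : (q:ℂ) ≠ 0 := by
    exact_mod_cast (by linarith : q ≠ 0)
  have hE : Differentiable ℂ (fun z => Complex.exp (∑ k ∈ Finset.range p, z ^ (k + 1) / ((k : ℂ) + 1))) := by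
    fun_prop
  have key : ∀ n : ℕ, ∃ g : ℂ → ℂ, Differentiable ℂ g ∧
      ∀ z, P z = g z * P (z / (q:ℂ) ^ n) ^ (Q ^ n) := by
    intro n
    induction n with
    | zero => exact ⟨fun _ => 1, differentiable_const _, fun z => by simp⟩
    | succ n ih =>
      obtain ⟨g, hg, hg2⟩ := ih
      refine ⟨fun z => g z * Ep p (z / (q:ℂ) ^ n) ^ (Q ^ n), ?_, fun z => ?_⟩
      · refine hg.mul (Differentiable.pow ?_ _)
        unfold Ep
        have h1 : Differentiable ℂ (fun z : ℂ => z / (q:ℂ) ^ n) := by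
          exact differentiable_id.div_const _
        exact (h1.const_sub 1).mul (hE.comp h1)
      · have h1 := hfe (z / (q:ℂ) ^ n)
        have h2 : z / (q:ℂ) ^ n / (q:ℂ) = z / (q:ℂ) ^ (n + 1) := by
          rw [div_div, pow_succ]
        rw [h2] at h1
        rw [hg2 z]
        conv_lhs => rw [h1]
        rw [mul_pow, ← pow_mul, ← pow_succ', mul_assoc]
  obtain ⟨g, hg, hg2⟩ := key n
  refine ⟨fun z => g z * (Complex.exp (∑ k ∈ Finset.range p, (z / (q:ℂ) ^ n) ^ (k + 1) / ((k : ℂ) + 1))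
    * P (z / (q:ℂ) ^ n / (q:ℂ)) ^ Q) ^ (Q ^ n), ?_, fun z => ?_⟩
  · have h1 : Differentiable ℂ (fun z : ℂ => z / (q:ℂ) ^ n) := by
      exact differentiable_id.div_const _
    have h2 : Differentiable ℂ (fun z : ℂ => z / (q:ℂ) ^ n / (q:ℂ)) := h1.div_const _
    exact hg.mul (((hE.comp h1).mul ((hP.comp h2).pow _)).pow _)
  · rw [hg2 z]
    conv_lhs => rw [hfe (z / (q:ℂ) ^ n)]
    unfold Ep
    rw [mul_assoc, mul_pow]
    ring

theorem uc_radius (lam : ℝ) (hlam : 1 ≤ lam) (J : ℕ) (hJ : lam < J) (Q : ℕ) (hQ : 2 ≤ Q) (q : ℝ)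
    (hq : 0 < q) (hqQ : q ^ lam = (Q:ℝ)) (r : ℝ) (hr : 1 ≤ r) :
    ∃ n j : ℕ, j < J ∧
      |r / ((((J:ℝ) + j * ((Q:ℝ) - 1)) / J) ^ (1 / lam) * q ^ n) - 1| ≤ 4 * (Q:ℝ) / lam ^ 2 := by
  have hJ0 : (0:ℝ) < J := by linarith
  have hQ2 : (2:ℝ) ≤ Q := by exact_mod_cast hQ
  have hlam0 : 0 < lam := by linarith
  have hr0 : 0 < r := by linarith
  have hx1 : 1 ≤ r ^ lam := Real.one_le_rpow hr hlam0.le
  obtain ⟨n, hn1, hn2⟩ := exists_nat_pow_near hx1 (by linarith : (1:ℝ) < Q)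
  set x : ℝ := r ^ lam / (Q:ℝ) ^ n with hx
  have hQn : (0:ℝ) < (Q:ℝ) ^ n := by positivity
  have hxa : 1 ≤ x := by rw [hx, le_div_iff₀ hQn, one_mul]; exact hn1
  have hxb : x < Q := by
    rw [hx, div_lt_iff₀ hQn, ← pow_succ']; exact hn2
  set y0 : ℝ := (x - 1) * J / ((Q:ℝ) - 1) with hy0
  have hQ1 : (0:ℝ) < (Q:ℝ) - 1 := by linarith
  have hy0n : 0 ≤ y0 := by
    rw [hy0]
    have : 0 ≤ x - 1 := by linarith
    positivity
  have hy0J : y0 < J := by
    rw [hy0, div_lt_iff₀ hQ1]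
    nlinarith
  set j : ℕ := ⌊y0⌋₊ with hj
  have hj1 : (j:ℝ) ≤ y0 := Nat.floor_le hy0n
  have hj2 : y0 < j + 1 := Nat.lt_floor_add_one y0
  have hjJ : j < J := by
    have : (j:ℝ) < J := lt_of_le_of_lt hj1 hy0J
    exact_mod_cast this
  refine ⟨n, j, hjJ, ?_⟩
  set xj : ℝ := ((J:ℝ) + j * ((Q:ℝ) - 1)) / J with hxj
  have hxj1 : 1 ≤ xj := by
    rw [hxj, le_div_iff₀ hJ0]
    have : (0:ℝ) ≤ j * ((Q:ℝ) - 1) := by positivity
    linarith
  have hy0' : y0 * ((Q:ℝ) - 1) = (x - 1) * J := by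
    rw [hy0]; field_simp
  have hxj2 : xj ≤ x := by
    rw [hxj, div_le_iff₀ hJ0]
    nlinarith
  have hxj3 : x < xj + ((Q:ℝ) - 1) / J := by
    rw [hxj, ← add_div, lt_div_iff₀ hJ0]
    nlinarith
  have hxj0 : 0 < xj := by linarith
  set y : ℝ := r / (xj ^ (1 / lam) * q ^ n) with hy
  have hyp : 0 < y := by
    rw [hy]
    have := Real.rpow_pos_of_pos hxj0 (1 / lam)
    positivity
  have hylam : y ^ lam = x / xj := by
    rw [hy, Real.div_rpow hr0.le (by positivity), Real.mul_rpow (by positivity) (by positivity),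
      ← Real.rpow_mul hxj0.le, one_div, inv_mul_cancel₀ hlam0.ne', Real.rpow_one,
      ← Real.rpow_natCast q n, ← Real.rpow_mul hq.le, mul_comm (n:ℝ) lam, Real.rpow_mul hq.le, hqQ,
      Real.rpow_natCast, hx]
    field_simp
  have hy1 : 1 ≤ y := by
    by_contra hcon
    rw [not_le] at hcon
    have h1 := Real.rpow_lt_one hyp.le hcon hlam0
    rw [hylam, div_lt_one hxj0] at h1
    linarith
  set δ : ℝ := ((Q:ℝ) - 1) / (J * lam) with hδ
  have hδ0 : 0 ≤ δ := by rw [hδ]; positivity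
  have hy2 : y ≤ 1 + δ := by
    by_contra hcon
    rw [not_le] at hcon
    have h1 := Real.rpow_lt_rpow (by linarith) hcon hlam0
    have h2 := one_add_mul_self_le_rpow_one_add (by linarith : -1 ≤ δ) hlam
    rw [hylam] at h1
    have h3 : lam * δ = ((Q:ℝ) - 1) / J := by
      rw [hδ]; field_simp
    have h4 : x / xj ≤ 1 + ((Q:ℝ) - 1) / J := by
      rw [div_le_iff₀ hxj0]
      have : ((Q:ℝ) - 1) / J ≤ ((Q:ℝ) - 1) / J * xj := by
        apply le_mul_of_one_le_right _ hxj1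
        positivity
      nlinarith
    linarith
  have hδ2 : δ ≤ 4 * (Q:ℝ) / lam ^ 2 := by
    rw [hδ, div_le_div_iff₀ (by positivity) (by positivity)]
    have h1 : lam ^ 2 ≤ J * lam := by nlinarith
    have h2 : (0:ℝ) < J * lam := by positivity
    nlinarith
  rw [abs_of_nonneg (by linarith)]
  linarith

set_option maxHeartbeats 4000000

/-- TARGET -/
theorem upper_core (q0 : ℕ) (hq0 : 2 ≤ q0) (ε : ℝ) (hε : 0 < ε) :
    ∃ lam0 > (2:ℝ), ∀ lam ≥ lam0, (∀ n : ℕ, (n:ℝ) ≠ lam) →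
    ∃ f : ℂ → ℂ, Differentiable ℂ f ∧ f 0 ≠ 0 ∧ ∃ B > (0:ℝ), ∃ r0 ≥ (1:ℝ),
      (∀ z : ℂ, r0 ≤ ‖z‖ → ‖f z‖ ≤ Real.exp ((1 + ε) * B * ‖z‖ ^ lam)) ∧
      (∀ r ≥ r0, ∃ z0 : ℂ, z0 ≠ 0 ∧ |r / ‖z0‖ - 1| ≤ 4 * (q0:ℝ) ^ 2 / lam ^ 2 ∧ ∃ m : ℕ,
        2 * (((q0:ℝ) - 1) / (q0 + 1)) ^ 2 * B * ‖z0‖ ^ lam ≤ m ∧
        ∃ g : ℂ → ℂ, Differentiable ℂ g ∧ ∀ z, f z = (z - z0) ^ m * g z) := by
  have hq0' : (2:ℝ) ≤ q0 := by exact_mod_cast hq0
  refine ⟨(q0:ℝ) + 1, by linarith, fun lam hlam hnint => ?_⟩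
  have hlam3 : (3:ℝ) ≤ lam := by linarith
  have hlam0 : 0 < lam := by linarith
  obtain ⟨p, hp⟩ : ∃ p : ℕ, p = ⌊lam⌋₊ := ⟨_, rfl⟩
  have hp1 : (p:ℝ) < lam := by
    rw [hp]; exact lt_of_le_of_ne (Nat.floor_le hlam0.le) (hnint _)
  have hp2 : lam < p + 1 := by rw [hp]; exact Nat.lt_floor_add_one lam
  have hp3 : 2 ≤ p := by
    have : (2:ℝ) < p := by linarith
    exact_mod_cast this.le
  obtain ⟨J, hJ⟩ : ∃ J : ℕ, J = ⌈lam⌉₊ := ⟨_, rfl⟩
  have hJ1 : lam < J := by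
    rw [hJ]; exact lt_of_le_of_ne (Nat.le_ceil lam) (hnint _).symm
  have hJ2 : (J:ℝ) < lam + 1 := by rw [hJ]; exact Nat.ceil_lt_add_one hlam0.le
  have hJ0 : (0:ℝ) < J := by linarith
  obtain ⟨a, ha⟩ : ∃ a : ℝ, a = 2 / lam := ⟨_, rfl⟩
  have ha0 : 0 < a := by rw [ha]; positivity
  obtain ⟨q, hq⟩ : ∃ q : ℝ, q = (q0:ℝ) ^ a := ⟨_, rfl⟩
  have hq1 : 1 < q := by rw [hq]; exact Real.one_lt_rpow (by linarith) ha0
  have hq00 : 0 < q := by linarith
  have hqQ : q ^ lam = ((q0 ^ 2 : ℕ) : ℝ) := by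
    rw [hq, ← Real.rpow_mul (by linarith), ha, div_mul_cancel₀ _ hlam0.ne']
    push_cast
    exact Real.rpow_two _
  have hQ2 : 2 ≤ q0 ^ 2 := by nlinarith
  obtain ⟨β, hβ⟩ : ∃ β : ℝ, β = Real.pi / (a * J) := ⟨_, rfl⟩
  obtain ⟨R, hR⟩ : ∃ R : ℝ, R = ((q0:ℝ) - 1) / (q0 + 1) := ⟨_, rfl⟩
  have hpi := Real.pi_pos
  have hβe : β = Real.pi / 2 * (lam / J) := by
    rw [hβ, ha]; field_simp
  have hβ0 : 0 < β := by rw [hβe]; positivity
  have hβ1 : β < Real.pi / 2 := by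
    rw [hβe]
    have : lam / J < 1 := by rw [div_lt_one hJ0]; exact hJ1
    nlinarith
  have hR0 : 0 < R := by
    rw [hR]
    exact div_pos (by linarith) (by linarith)
  have hR1 : R < 1 := by
    rw [hR, div_lt_one (by linarith)]
    linarith
  have hRs : R ≤ Real.sin β := by
    have h1 : Real.sin β = Real.cos (Real.pi / 2 - β) := (Real.cos_pi_div_two_sub β).symm
    have h2 := Real.one_sub_sq_div_two_le_cos (x := Real.pi / 2 - β)
    have h3 : 0 ≤ Real.pi / 2 - β := by linarith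
    have h4 : Real.pi / 2 - β ≤ 2 / lam := by
      have h5 : Real.pi / 2 - β = Real.pi / 2 * ((J - lam) / J) := by
        rw [hβe]; field_simp
      have h6 : ((J:ℝ) - lam) / J ≤ 1 / lam := by
        rw [div_le_div_iff₀ hJ0 hlam0]
        nlinarith
      have h7 : Real.pi / 2 ≤ 2 := by linarith [Real.pi_le_four]
      have h8 : 0 ≤ ((J:ℝ) - lam) / J := div_nonneg (by linarith) hJ0.le
      rw [h5]
      calc Real.pi / 2 * ((J - lam) / J) ≤ 2 * (1 / lam) :=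
            mul_le_mul h7 h6 h8 (by norm_num)
        _ = 2 / lam := by ring
    have h5 : (Real.pi / 2 - β) ^ 2 ≤ (2 / lam) ^ 2 := pow_le_pow_left₀ h3 h4 2
    have h6 : (2 / lam) ^ 2 / 2 ≤ 2 / ((q0:ℝ) + 1) := by
      rw [div_pow, div_div, div_le_div_iff₀ (by positivity) (by positivity)]
      nlinarith
    have h7 : R = 1 - 2 / ((q0:ℝ) + 1) := by
      rw [hR]; field_simp; ring
    rw [h1, h7]
    linarith
  obtain ⟨P, hP, hP0, hfe, hnz⟩ := exists_Pi p lam q (q0 ^ 2) (by omega) hp1 hp2 hq1 hqQ.symm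
  obtain ⟨C, hC, r1, hr1, hrad⟩ := radial_bound p hp3 lam a q hp1 hp2 ha q0 hq0 hq P hP hP0 hfe
    hnz J hJ β R hβ hR
  obtain ⟨ε1, hε1, r2, hr2, herr⟩ := error_bound p lam q (q0 ^ 2) hp3 hp1 hp2 hq1 hqQ.symm hQ2 P
    hP hP0 hfe hnz β (1 - R) (1 + R) hβ0 hβ1 (by linarith) (by linarith)
    (ε * Real.pi / (8 * J)) (by positivity)
  have hbdd : Bornology.IsBounded (ucA R β \ closedBall 1 R) := by
    refine (isBounded_ball (x := (0:ℂ)) (r := 1 + R)).subset fun w hw => ?_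
    rw [mem_ball, dist_zero_right]
    exact hw.1.2.1
  obtain ⟨n, c, s, hs, hsub, hdis, hvol⟩ := packing (ucA R β \ closedBall 1 R)
    ((uc_open hR1 hβ1).sdiff isClosed_closedBall) hbdd ε1 hε1
  obtain ⟨L1, hL1, hL2⟩ := uc_L n (fun i => s i ^ 2) (fun i => sq_nonneg _)
  choose b hb using hL2
  obtain ⟨L, hL⟩ : ∃ L : ℕ, L = L1 * (q0 + 1) ^ 2 := ⟨_, rfl⟩
  have hL0 : (0:ℝ) < L := by
    have h1 : (1:ℝ) ≤ L1 := by exact_mod_cast hL1
    rw [hL]; push_cast; positivity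
  obtain ⟨aR, haR⟩ : ∃ aR : ℕ, (aR:ℝ) = 2 * L * R ^ 2 := by
    refine ⟨2 * L1 * (q0 - 1) ^ 2, ?_⟩
    rw [hL, hR]
    push_cast [Nat.cast_sub (by omega : 1 ≤ q0)]
    field_simp
  obtain ⟨ai, hai⟩ : ∃ ai : Fin n → ℕ, ∀ i, (ai i:ℝ) = 2 * L * (s i : ℝ) ^ 2 := by
    refine ⟨fun i => 2 * b i * (q0 + 1) ^ 2, fun i => ?_⟩
    have h1 := hb i
    push_cast at h1 ⊢
    rw [hL, h1]
    push_cast
    ring
  obtain ⟨k, hk⟩ : ∃ k : ℕ → ℕ, ∀ j, (k j : ℝ) = (J:ℝ) + j * ((q0:ℝ) ^ 2 - 1) := by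
    refine ⟨fun j => J + j * (q0 ^ 2 - 1), fun j => ?_⟩
    push_cast [Nat.cast_sub (by omega : 1 ≤ q0 ^ 2)]
    ring
  have hQm1 : (0:ℝ) < (q0:ℝ) ^ 2 - 1 := by nlinarith
  have hk0 : ∀ j, (0:ℝ) < k j := by
    intro j
    rw [hk]
    positivity
  obtain ⟨S, hS⟩ : ∃ S : ℕ → ℂ, ∀ j : ℕ, S j = Complex.exp (((2 * Real.pi * j / J : ℝ) : ℂ) * Complex.I) *
            ((((J:ℝ) + j * ((q0:ℝ) ^ 2 - 1)) / J) ^ (1 / lam) : ℝ) := ⟨_, fun j => rfl⟩
  have hSn : ∀ j, ‖S j‖ = ((k j : ℝ) / J) ^ (1 / lam) := by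
    intro j
    rw [hS, norm_mul, Complex.norm_exp_ofReal_mul_I, one_mul, ← hk, Complex.norm_real,
      Real.norm_of_nonneg]
    exact Real.rpow_nonneg (div_nonneg (hk0 j).le hJ0.le) _
  have hSpos : ∀ j, 0 < ‖S j‖ := by
    intro j
    rw [hSn]
    exact Real.rpow_pos_of_pos (div_pos (hk0 j) hJ0) _
  have hS0 : ∀ j, S j ≠ 0 := fun j => norm_pos_iff.mp (hSpos j)
  have hSlam : ∀ j, ‖S j‖ ^ lam = (k j : ℝ) / J := by
    intro j
    rw [hSn, ← Real.rpow_mul (div_nonneg (hk0 j).le hJ0.le), one_div, inv_mul_cancel₀ hlam0.ne',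
      Real.rpow_one]
  -- the function
  obtain ⟨F, hF⟩ : ∃ F : ℕ → ℂ → ℂ, ∀ j z, F j z =
      (P (z / S j) ^ aR * ∏ i, P (z / (S j * c i ^ (a:ℂ))) ^ (ai i)) ^ (k j) := ⟨_, fun j z => rfl⟩
  have hFd : ∀ j, Differentiable ℂ (F j) := by
    intro j
    have h1 : Differentiable ℂ (fun z => P (z / S j)) :=
      hP.comp (differentiable_id.div_const _)
    have h2 : ∀ i, Differentiable ℂ (fun z => P (z / (S j * c i ^ (a:ℂ)))) := fun i =>
      hP.comp (differentiable_id.div_const _)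
    have h3 : F j = fun z => (P (z / S j) ^ aR * ∏ i, P (z / (S j * c i ^ (a:ℂ))) ^ (ai i)) ^ (k j) :=
      funext (hF j)
    rw [h3]
    exact ((h1.pow _).mul (Differentiable.fun_finsetProd fun i _ => (h2 i).pow _)).pow _
  have hMdef : ∀ j ∈ Finset.range J, ‖S j‖ ≤ ∑ j ∈ Finset.range J, ‖S j‖ := fun j hj =>
    Finset.single_le_sum (f := fun j => ‖S j‖) (fun i _ => norm_nonneg _) hj
  obtain ⟨M, hM⟩ : ∃ M : ℝ, M = ∑ j ∈ Finset.range J, ‖S j‖ := ⟨_, rfl⟩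
  rw [← hM] at hMdef
  obtain ⟨r3, hr3⟩ : ∃ r3 : ℝ, r3 = (4 * C / (ε * J)) ^ (1 / (lam - p)) := ⟨_, rfl⟩
  have hlp : 0 < lam - p := by linarith
  refine ⟨fun z => ∏ j ∈ Finset.range J, F j z,
    Differentiable.fun_finsetProd fun j _ => hFd j, ?_, L * J, by positivity,
    max (max 1 r1) (max (r2 * M) r3), le_trans (le_max_left _ _) (le_max_left _ _), ?_, ?_⟩
  · refine Finset.prod_ne_zero_iff.mpr fun j _ => ?_
    rw [hF]
    simp [hP0]
  · intro z hz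
    have hz1 : 1 ≤ ‖z‖ := le_trans (le_trans (le_max_left _ _) (le_max_left _ _)) hz
    have hzr1 : r1 ≤ ‖z‖ := le_trans (le_trans (le_max_right _ _) (le_max_left _ _)) hz
    have hzr2 : r2 * M ≤ ‖z‖ := le_trans (le_trans (le_max_left _ _) (le_max_right _ _)) hz
    have hzr3 : r3 ≤ ‖z‖ := le_trans (le_trans (le_max_right _ _) (le_max_right _ _)) hz
    have hz0 : 0 < ‖z‖ := by linarith
    obtain ⟨IA, hIA⟩ : ∃ IA : ℕ → ℝ, ∀ j, IA j =
      ∫ w in ucA R β, Real.log ‖P (z / (S j * w ^ (a:ℂ)))‖ := ⟨_, fun j => rfl⟩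
    obtain ⟨IN, hIN⟩ : ∃ IN : ℕ → ℝ, ∀ j, IN j =
      ∫ w in ucA R β \ (ball 1 R ∪ ⋃ i, ball (c i) (s i : ℝ)),
          Real.log ‖P (z / (S j * w ^ (a:ℂ)))‖ := ⟨_, fun j => rfl⟩
    have hFj : ∀ j, ‖F j z‖ ≤ Real.exp ((k j : ℝ) * ((2 * L / Real.pi) * (IA j - IN j))) := by
      intro j
      have h1 := uc_perj P hP hnz a ha0 (S j) z (hS0 j) R β hR0 hR1 hβ0 hβ1
        (uc_ball hR1 hβ0 hβ1 hRs) n c (fun i => (s i : ℝ)) (fun i => by exact_mod_cast hs i)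
        hsub hdis L aR haR ai hai
      rw [← hIA j, ← hIN j] at h1
      rw [hF, norm_pow, norm_mul, norm_pow, norm_prod, Real.exp_nat_mul]
      refine pow_le_pow_left₀ (by positivity) ?_ _
      simp only [norm_pow]
      exact h1
    have h2 : ‖∏ j ∈ Finset.range J, F j z‖ ≤
        Real.exp (∑ j ∈ Finset.range J, (k j : ℝ) * ((2 * L / Real.pi) * (IA j - IN j))) := by
      rw [norm_prod, Real.exp_sum]
      exact Finset.prod_le_prod (fun i _ => norm_nonneg _) fun j _ => hFj j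
    refine h2.trans (Real.exp_le_exp.mpr ?_)
    have h3 : ∑ j ∈ Finset.range J, (k j : ℝ) * ((2 / Real.pi) * IA j)
        ≤ J * ‖z‖ ^ lam + C * ‖z‖ ^ p := by
      have h4 := hrad z hzr1
      refine le_trans (le_of_eq ?_) h4
      refine Finset.sum_congr rfl fun j _ => ?_
      rw [hIA j, hk j, hS j]
      rfl
    have h4 : ∀ j ∈ Finset.range J,
        -((ε * Real.pi / 8) * ‖z‖ ^ lam) ≤ (k j : ℝ) * IN j := by
      intro j hj
      have h5 : r2 ≤ ‖z / S j‖ := by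
        rw [norm_div, le_div_iff₀ (hSpos j)]
        refine le_trans (mul_le_mul_of_nonneg_left (hMdef j hj) hr2.le) hzr2
      have h6 := herr (ucA R β \ (ball 1 R ∪ ⋃ i, ball (c i) (s i : ℝ)))
        ((uc_open hR1 hβ1).measurableSet.diff
          (measurableSet_ball.union (MeasurableSet.iUnion fun i => measurableSet_ball)))
        (fun w hw => hw.1) (uc_vol n c (fun i => (s i : ℝ)) ε1 hvol) (z / S j) h5
      rw [← ha] at h6
      have h7 : (∫ w in ucA R β \ (ball 1 R ∪ ⋃ i, ball (c i) (s i : ℝ)),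
          Real.log ‖P (z / S j / w ^ (a:ℂ))‖) = IN j := by
        rw [hIN]
        simp only [div_mul_eq_div_div]
      rw [h7, norm_div, Real.div_rpow (norm_nonneg _) (norm_nonneg _), hSlam] at h6
      have h8 := mul_le_mul_of_nonneg_left h6 (hk0 j).le
      refine le_trans (le_of_eq ?_) h8
      have h9 := (hk0 j).ne'
      field_simp
    have h5 : C * ‖z‖ ^ p ≤ (ε / 4) * (J * ‖z‖ ^ lam) := by
      have h6 : 4 * C / (ε * J) ≤ ‖z‖ ^ (lam - p) := by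
        have h7 : r3 ^ (lam - p) = 4 * C / (ε * J) := by
          rw [hr3, ← Real.rpow_mul (by positivity), one_div, inv_mul_cancel₀ hlp.ne',
            Real.rpow_one]
        rw [← h7]
        exact Real.rpow_le_rpow (by rw [hr3]; positivity) hzr3 hlp.le
      have h7 : ‖z‖ ^ lam = ‖z‖ ^ (lam - p) * ‖z‖ ^ p := by
        rw [← Real.rpow_natCast ‖z‖ p, ← Real.rpow_add hz0]
        congr 1
        ring
      rw [div_le_iff₀ (by positivity)] at h6
      rw [h7]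
      have h8 : 0 < ‖z‖ ^ p := by positivity
      nlinarith
    have h6 : ∑ j ∈ Finset.range J, (k j : ℝ) * ((2 * L / Real.pi) * (IA j - IN j))
        = L * (∑ j ∈ Finset.range J, (k j : ℝ) * ((2 / Real.pi) * IA j))
          - (2 * L / Real.pi) * ∑ j ∈ Finset.range J, (k j : ℝ) * IN j := by
      rw [Finset.mul_sum, Finset.mul_sum, ← Finset.sum_sub_distrib]
      refine Finset.sum_congr rfl fun j _ => ?_
      ring
    have h7 : -((J:ℝ) * ((ε * Real.pi / 8) * ‖z‖ ^ lam)) ≤ ∑ j ∈ Finset.range J, (k j : ℝ) * IN j := by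
      have := Finset.sum_le_sum h4
      rw [Finset.sum_const, Finset.card_range, nsmul_eq_mul] at this
      linarith
    rw [h6]
    have h8 := mul_le_mul_of_nonneg_left h3 hL0.le
    have h9 := mul_le_mul_of_nonneg_left h7 (by positivity : (0:ℝ) ≤ 2 * L / Real.pi)
    have h10 : (2 * L / Real.pi) * -((J:ℝ) * ((ε * Real.pi / 8) * ‖z‖ ^ lam))
        = -((ε / 4) * (L * (J * ‖z‖ ^ lam))) := by
      field_simp
      ring
    rw [h10] at h9
    have h11 := mul_le_mul_of_nonneg_left h5 hL0.le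
    have h12 : 0 ≤ ε * (L * (J * ‖z‖ ^ lam)) := by positivity
    nlinarith
  · intro r hr
    have hr1' : 1 ≤ r := le_trans (le_trans (le_max_left _ _) (le_max_left _ _)) hr
    obtain ⟨N, j, hj, hrad2⟩ := uc_radius lam (by linarith) J hJ1 (q0 ^ 2) hQ2 q hq00 hqQ r hr1'
    push_cast at hrad2
    rw [← hk j, ← hSn j] at hrad2
    have hqc : (q:ℂ) ≠ 0 := by exact_mod_cast hq00.ne'
    have hz0 : S j * (q:ℂ) ^ N ≠ 0 := mul_ne_zero (hS0 j) (pow_ne_zero _ hqc)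
    have hz0n : ‖S j * (q:ℂ) ^ N‖ = ‖S j‖ * q ^ N := by
      rw [norm_mul, norm_pow, Complex.norm_real, Real.norm_of_nonneg hq00.le]
    refine ⟨S j * (q:ℂ) ^ N, hz0, ?_, (q0 ^ 2) ^ N * (aR * k j), ?_, ?_⟩
    · rw [hz0n]; exact hrad2
    · rw [← hR, hz0n, Real.mul_rpow (norm_nonneg _) (by positivity), hSlam,
        ← Real.rpow_natCast q N, ← Real.rpow_mul hq00.le, mul_comm (N:ℝ) lam,
        Real.rpow_mul hq00.le, hqQ, Real.rpow_natCast]
      push_cast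
      rw [haR]
      apply le_of_eq
      field_simp
    · obtain ⟨g, hg, hg2⟩ := uc_zero p q hq1 (q0 ^ 2) P hP hfe N
      obtain ⟨z0, hz0e⟩ : ∃ z0 : ℂ, z0 = S j * (q:ℂ) ^ N := ⟨_, rfl⟩
      rw [← hz0e] at hz0 ⊢
      obtain ⟨G, hG⟩ : ∃ G : ℂ → ℂ, ∀ z, G z = (g (z / S j) ^ aR *
        ∏ i, P (z / (S j * c i ^ (a:ℂ))) ^ (ai i)) ^ (k j) := ⟨_, fun z => rfl⟩
      have hGd : Differentiable ℂ G := by
        have h1 : Differentiable ℂ (fun z => g (z / S j)) :=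
          hg.comp (differentiable_id.div_const _)
        have h2 : ∀ i, Differentiable ℂ (fun z => P (z / (S j * c i ^ (a:ℂ)))) := fun i =>
          hP.comp (differentiable_id.div_const _)
        have h3 : G = fun z => (g (z / S j) ^ aR *
            ∏ i, P (z / (S j * c i ^ (a:ℂ))) ^ (ai i)) ^ (k j) := funext hG
        rw [h3]
        exact ((h1.pow _).mul (Differentiable.fun_finsetProd fun i _ => (h2 i).pow _)).pow _
      refine ⟨fun z => (-1 / z0) ^ ((q0 ^ 2) ^ N * (aR * k j)) * (G z *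
        ∏ j' ∈ (Finset.range J).erase j, F j' z), ?_, fun z => ?_⟩
      · exact (hGd.mul (Differentiable.fun_finsetProd fun i _ => hFd i)).const_mul _
      · have h1 : F j z = (1 - z / z0) ^ ((q0 ^ 2) ^ N * (aR * k j)) * G z := by
          rw [hF, hG, hg2 (z / S j)]
          have h2 : z / S j / (q:ℂ) ^ N = z / z0 := by
            rw [hz0e, div_div]
          rw [h2, mul_pow ((1 - z / z0) ^ (q0 ^ 2) ^ N), mul_assoc, mul_pow, ← pow_mul, ← pow_mul]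
        have h3 : (1 - z / z0) = (z - z0) * (-1 / z0) := by
          field_simp
          ring
        have hjm : j ∈ Finset.range J := Finset.mem_range.mpr hj
        show ∏ j ∈ Finset.range J, F j z = _
        rw [← Finset.mul_prod_erase _ _ hjm, h1, h3, mul_pow]
        ring

end MinMod.U6
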