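import Mathlib
import Pool.Agent.MP06ac62.Defs
import Pool.Agent.MP06ac62.U6

set_option linter.all false
set_option maxHeartbeats 1000000

namespace MinMod.U7

open MinMod
open MinMod.U6
open Metric MeasureTheory Filter




theorem un_le_maxMod {f : ℂ → ℂ} (hf : Continuous f) {r : ℝ} {z : ℂ} (hz : ‖z‖ = r) :
    ‖f z‖ ≤ maxMod f r := by
  have hb : BddAbove (Set.range fun z : Metric.sphere (0:ℂ) r => ‖f z‖) := by
    have h1 : IsCompact (Metric.sphere (0:ℂ) r) := isCompact_sphere 0 r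
    obtain ⟨C, hC⟩ := h1.exists_bound_of_continuousOn hf.continuousOn
    exact ⟨C, by rintro _ ⟨w, rfl⟩; exact hC w w.2⟩
  exact le_ciSup hb (⟨z, by simpa using hz⟩ : Metric.sphere (0:ℂ) r)

theorem un_maxMod_le {f : ℂ → ℂ} {r C : ℝ} (hr : 0 ≤ r) (h : ∀ z : ℂ, ‖z‖ = r → ‖f z‖ ≤ C) :
    maxMod f r ≤ C := by
  haveI : Nonempty (Metric.sphere (0:ℂ) r) := (NormedSpace.sphere_nonempty.2 hr).to_subtype
  exact ciSup_le fun z => h z (by simpa using z.2)

theorem un_jensen {f g : ℂ → ℂ} (hf : Differentiable ℂ f) (hg : Differentiable ℂ g) {z0 : ℂ}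
    (hz0 : z0 ≠ 0) {m : ℕ} (hfg : ∀ z, f z = (z - z0) ^ m * g z) {r : ℝ} (hr : 0 < r) :
    ‖f 0‖ * (r / ‖z0‖) ^ m ≤ maxMod f r := by
  have hr' : (r : ℂ) ≠ 0 := by exact_mod_cast hr.ne'
  have hh : Differentiable ℂ fun z => g z * (((r:ℂ) ^ 2 - (starRingEnd ℂ) z0 * z) / r) ^ m := by
    fun_prop
  have hkey : ∀ z ∈ frontier (Metric.ball (0:ℂ) r),
      ‖g z * (((r:ℂ) ^ 2 - (starRingEnd ℂ) z0 * z) / r) ^ m‖ ≤ maxMod f r := by
    intro z hz
    rw [frontier_ball _ hr.ne'] at hz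
    have hzr : ‖z‖ = r := by simpa using hz
    have h1 : ‖((r:ℂ) ^ 2 - (starRingEnd ℂ) z0 * z) / r‖ = ‖z - z0‖ := by
      have h2 : (r:ℂ) ^ 2 = (starRingEnd ℂ) z * z := by
        rw [Complex.conj_mul', hzr]
      have h3 : (r:ℂ) ^ 2 - (starRingEnd ℂ) z0 * z = (starRingEnd ℂ) (z - z0) * z := by
        rw [h2, map_sub]; ring
      rw [h3, norm_div, norm_mul, Complex.norm_conj, Complex.norm_real, hzr, Real.norm_eq_abs,
        abs_of_pos hr]
      field_simp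
    have h3 : ‖g z * (((r:ℂ) ^ 2 - (starRingEnd ℂ) z0 * z) / r) ^ m‖ = ‖f z‖ := by
      rw [hfg, norm_mul, norm_mul, norm_pow, norm_pow, h1]; ring
    rw [h3]
    exact un_le_maxMod hf.continuous hzr
  have h0 := Complex.norm_le_of_forall_mem_frontier_norm_le Metric.isBounded_ball
    hh.diffContOnCl hkey (subset_closure (Metric.mem_ball_self hr))
  have h1 : ‖g 0 * (((r:ℂ) ^ 2 - (starRingEnd ℂ) z0 * 0) / r) ^ m‖ = ‖g 0‖ * r ^ m := by
    rw [mul_zero, sub_zero, pow_two, mul_div_assoc, div_self hr', mul_one, norm_mul, norm_pow,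
      Complex.norm_real, Real.norm_eq_abs, abs_of_pos hr]
  rw [h1] at h0
  have h2 : ‖f 0‖ = ‖z0‖ ^ m * ‖g 0‖ := by
    rw [hfg, norm_mul, norm_pow, zero_sub, norm_neg]
  have hρ : 0 < ‖z0‖ := norm_pos_iff.2 hz0
  have h3 : ‖f 0‖ * (r / ‖z0‖) ^ m = ‖g 0‖ * r ^ m := by
    rw [h2, div_pow]
    have : ‖z0‖ ^ m ≠ 0 := (pow_pos hρ m).ne'
    field_simp
  rw [h3]
  exact h0

theorem un_rpow_le {x lam : ℝ} (hx : 0 ≤ x) (hlam : 0 < lam) :
    (1 + x / lam) ^ lam ≤ Real.exp x := by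
  have h1 : 1 + x / lam ≤ Real.exp (x / lam) := by
    have := Real.add_one_le_exp (x / lam)
    linarith
  have h0 : 0 ≤ 1 + x / lam := by positivity
  calc (1 + x / lam) ^ lam ≤ (Real.exp (x / lam)) ^ lam := Real.rpow_le_rpow h0 h1 hlam.le
    _ = Real.exp x := by
      rw [← Real.exp_mul]
      congr 1
      field_simp

theorem un_small {f g : ℂ → ℂ} (hg : Differentiable ℂ g) {z0 : ℂ}
    (hz0 : z0 ≠ 0) {m : ℕ} (hfg : ∀ z, f z = (z - z0) ^ m * g z) {B lam e κ Q r0 r : ℝ}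
    (hB : 0 < B) (hlam : 2 < lam) (hQ : 1 ≤ Q) (hlQ : 4 * Q ≤ lam) (he : 0 < e) (he1 : e ≤ 1)
    (hP1 : ∀ z : ℂ, r0 ≤ ‖z‖ → ‖f z‖ ≤ Real.exp ((1 + e) * B * ‖z‖ ^ lam)) (hr : 0 < r)
    (hz0r : |r / ‖z0‖ - 1| ≤ 4 * Q / lam ^ 2) (hρ0 : 2 * r0 ≤ ‖z0‖)
    (hm : κ * B * ‖z0‖ ^ lam ≤ m) :
    ∃ z : ℂ, ‖z‖ = r ∧
      ‖f z‖ ≤ Real.exp (-(B * ‖z0‖ ^ lam * (κ * Real.log (lam / (4 * Q)) - 6))) := by
  obtain ⟨ρ, hρe⟩ : ∃ ρ, ρ = ‖z0‖ := ⟨_, rfl⟩
  have hρ : 0 < ρ := by rw [hρe]; exact norm_pos_iff.2 hz0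
  rw [← hρe] at hz0r hρ0 hm ⊢
  have hlam0 : 0 < lam := by linarith
  have hQ0 : 0 < Q := by linarith
  obtain ⟨d, hd⟩ : ∃ d, d = ρ / lam := ⟨_, rfl⟩
  have hd0 : 0 < d := by rw [hd]; positivity
  have hd2 : d ≤ ρ / 2 := by
    rw [hd]
    exact div_le_div_of_nonneg_left hρ.le (by norm_num) hlam.le
  have hzz : ‖z0 * ((r / ρ : ℝ) : ℂ)‖ = r := by
    rw [norm_mul, Complex.norm_real, Real.norm_eq_abs, abs_of_pos (by positivity), ← hρe]
    field_simp
  have hzd : ‖z0 * ((r / ρ : ℝ) : ℂ) - z0‖ ≤ ρ * (4 * Q / lam ^ 2) := by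
    have h1 : z0 * ((r / ρ : ℝ) : ℂ) - z0 = z0 * ((r / ρ - 1 : ℝ) : ℂ) := by
      push_cast; ring
    rw [h1, norm_mul, Complex.norm_real, Real.norm_eq_abs, ← hρe]
    exact mul_le_mul_of_nonneg_left hz0r hρ.le
  have hzd2 : ρ * (4 * Q / lam ^ 2) = d * (4 * Q / lam) := by
    rw [hd]; field_simp
  have hq1 : 4 * Q / lam ≤ 1 := by rw [div_le_one hlam0]; exact hlQ
  have hq0 : 0 < 4 * Q / lam := by positivity
  have hX0 : 0 < B * ρ ^ lam := mul_pos hB (Real.rpow_pos_of_pos hρ _)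
  -- bound of f on the circle
  have hfc : ∀ ζ : ℂ, ‖ζ - z0‖ = d → ‖f ζ‖ ≤ Real.exp (6 * (B * ρ ^ lam)) := by
    intro ζ hζ
    have h1 : ‖ζ‖ ≤ ρ * (1 + 1 / lam) := by
      have h2 : ‖ζ‖ ≤ ‖ζ - z0‖ + ‖z0‖ := by
        have := norm_add_le (ζ - z0) z0
        rwa [sub_add_cancel] at this
      rw [hζ, ← hρe, hd] at h2
      have h3 : ρ * (1 + 1 / lam) = ρ / lam + ρ := by ring
      rw [h3]
      exact h2
    have h2 : r0 ≤ ‖ζ‖ := by
      have h3 : ‖z0‖ ≤ ‖ζ‖ + ‖ζ - z0‖ := by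
        have := norm_sub_le ζ (ζ - z0)
        rwa [sub_sub_cancel] at this
      rw [hζ, ← hρe] at h3
      linarith
    refine le_trans (hP1 ζ h2) (Real.exp_le_exp.2 ?_)
    have h3 : ‖ζ‖ ^ lam ≤ ρ ^ lam * Real.exp 1 := by
      calc ‖ζ‖ ^ lam ≤ (ρ * (1 + 1 / lam)) ^ lam :=
            Real.rpow_le_rpow (norm_nonneg _) h1 hlam0.le
        _ = ρ ^ lam * (1 + 1 / lam) ^ lam := Real.mul_rpow hρ.le (by positivity)
        _ ≤ ρ ^ lam * Real.exp 1 :=
            mul_le_mul_of_nonneg_left (un_rpow_le zero_le_one hlam0)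
              (Real.rpow_nonneg hρ.le _)
    have h4 := Real.exp_one_lt_d9
    have h5 : (1 + e) * B * ‖ζ‖ ^ lam ≤ (1 + e) * B * (ρ ^ lam * Real.exp 1) :=
      mul_le_mul_of_nonneg_left h3 (by positivity)
    have h6 : (1 + e) * Real.exp 1 ≤ 6 := by
      have h7 : 0 < Real.exp 1 := Real.exp_pos 1
      nlinarith
    calc (1 + e) * B * ‖ζ‖ ^ lam ≤ (1 + e) * B * (ρ ^ lam * Real.exp 1) := h5
      _ = ((1 + e) * Real.exp 1) * (B * ρ ^ lam) := by ring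
      _ ≤ 6 * (B * ρ ^ lam) := mul_le_mul_of_nonneg_right h6 hX0.le
  have hgc : ∀ ζ ∈ frontier (Metric.ball z0 d), ‖g ζ‖ ≤ Real.exp (6 * (B * ρ ^ lam)) / d ^ m := by
    intro ζ hζ
    rw [frontier_ball _ hd0.ne', mem_sphere_iff_norm] at hζ
    have h1 := hfc ζ hζ
    rw [hfg, norm_mul, norm_pow, hζ] at h1
    rw [le_div_iff₀ (pow_pos hd0 m)]
    linarith
  have hgz := Complex.norm_le_of_forall_mem_frontier_norm_le (z := z0 * ((r / ρ : ℝ) : ℂ))
    Metric.isBounded_ball hg.diffContOnCl hgc (by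
      rw [closure_ball _ hd0.ne', mem_closedBall_iff_norm]
      refine le_trans hzd ?_
      rw [hzd2]
      exact mul_le_of_le_one_right hd0.le hq1)
  refine ⟨_, hzz, ?_⟩
  rw [hfg, norm_mul, norm_pow]
  have h1 : ‖z0 * ((r / ρ : ℝ) : ℂ) - z0‖ ^ m ≤ (d * (4 * Q / lam)) ^ m := by
    rw [← hzd2]
    exact pow_le_pow_left₀ (norm_nonneg _) hzd m
  have hL : 0 ≤ Real.log (lam / (4 * Q)) := Real.log_nonneg (by
    rw [le_div_iff₀ (by positivity)]; linarith)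
  have h2 : (4 * Q / lam) ^ m = Real.exp (-(m * Real.log (lam / (4 * Q)))) := by
    have h3 : 4 * Q / lam = Real.exp (-Real.log (lam / (4 * Q))) := by
      rw [Real.exp_neg, Real.exp_log (by positivity), inv_div]
    rw [h3, ← Real.exp_nat_mul]
    congr 1
    ring
  calc ‖z0 * ((r / ρ : ℝ) : ℂ) - z0‖ ^ m * ‖g (z0 * ((r / ρ : ℝ) : ℂ))‖
      ≤ (d * (4 * Q / lam)) ^ m * (Real.exp (6 * (B * ρ ^ lam)) / d ^ m) :=
        mul_le_mul h1 hgz (norm_nonneg _) (by positivity)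
    _ = (4 * Q / lam) ^ m * Real.exp (6 * (B * ρ ^ lam)) := by
        rw [mul_pow]
        have : d ^ m ≠ 0 := (pow_pos hd0 m).ne'
        field_simp
    _ = Real.exp (-(m * Real.log (lam / (4 * Q))) + 6 * (B * ρ ^ lam)) := by
        rw [h2, Real.exp_add]
    _ ≤ Real.exp (-(B * ρ ^ lam * (κ * Real.log (lam / (4 * Q)) - 6))) := by
        apply Real.exp_le_exp.2
        have h4 := mul_le_mul_of_nonneg_right hm hL
        linarith

theorem un_order {f : ℂ → ℂ} {lam c1 c2 R : ℝ} (hc1 : 0 < c1) (hc2 : 0 < c2)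
    (h1 : ∀ r ≥ R, aF f r ≤ c1 * r ^ lam) (h2 : ∀ r ≥ R, c2 * r ^ lam ≤ aF f r) :
    liminf (fun r : ℝ => ((Real.log (aF f r) / Real.log r : ℝ) : EReal)) atTop = (lam : EReal) := by
  have hlim : ∀ c : ℝ, Tendsto (fun r : ℝ => lam + c / Real.log r) atTop (nhds lam) := by
    intro c
    have h := (Real.tendsto_log_atTop.const_div_atTop c).const_add lam
    rwa [add_zero] at h
  have ht : Tendsto (fun r : ℝ => Real.log (aF f r) / Real.log r) atTop (nhds lam) := by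
    refine tendsto_of_tendsto_of_tendsto_of_le_of_le' (hlim (Real.log c2)) (hlim (Real.log c1))
      ?_ ?_
    · filter_upwards [eventually_ge_atTop R, eventually_ge_atTop 2] with r hr hr2
      have hl : 0 < Real.log r := Real.log_pos (by linarith)
      have hr0 : 0 < r := by linarith
      rw [le_div_iff₀ hl, add_mul, div_mul_cancel₀ _ hl.ne', ← Real.log_rpow hr0, add_comm,
        ← Real.log_mul hc2.ne' (Real.rpow_pos_of_pos hr0 _).ne']
      exact Real.log_le_log (by positivity) (h2 r hr)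
    · filter_upwards [eventually_ge_atTop R, eventually_ge_atTop 2] with r hr hr2
      have hl : 0 < Real.log r := Real.log_pos (by linarith)
      have hr0 : 0 < r := by linarith
      have hp : 0 < aF f r := lt_of_lt_of_le (by positivity) (h2 r hr)
      rw [div_le_iff₀ hl, add_mul, div_mul_cancel₀ _ hl.ne', ← Real.log_rpow hr0, add_comm,
        ← Real.log_mul hc1.ne' (Real.rpow_pos_of_pos hr0 _).ne']
      exact Real.log_le_log hp (h1 r hr)
  have ht2 : Tendsto (fun r : ℝ => ((Real.log (aF f r) / Real.log r : ℝ) : EReal)) atTop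
      (nhds (lam : EReal)) := (continuous_coe_real_ereal.tendsto lam).comp ht
  exact ht2.liminf_eq

theorem un_q0 (ε : ℝ) (hε : 0 < ε) : ∃ q0 : ℕ, 2 ≤ q0 ∧
    2 - ε / 4 ≤ 2 * (((q0:ℝ) - 1) / (q0 + 1)) ^ 2 := by
  obtain ⟨k, hk⟩ := exists_nat_gt (32 / ε)
  refine ⟨k + 2, by omega, ?_⟩
  have hk0 : (0:ℝ) ≤ k := Nat.cast_nonneg k
  have h1 : (((k + 2 : ℕ) : ℝ) - 1) / (((k + 2 : ℕ) : ℝ) + 1) = 1 - 2 / ((k:ℝ) + 3) := by
    push_cast
    have : (k:ℝ) + 3 ≠ 0 := by positivity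
    have h2 : (k:ℝ) + 2 + 1 = (k:ℝ) + 3 := by ring
    rw [h2]
    field_simp
    ring
  rw [h1]
  have h2 : 2 / ((k:ℝ) + 3) ≤ ε / 16 := by
    rw [div_le_iff₀ (by positivity)]
    have h3 : 32 < ε * k := by
      rw [div_lt_iff₀ hε] at hk
      linarith
    have : 0 < ε * 3 := by positivity
    nlinarith
  have h3 : 0 ≤ 2 / ((k:ℝ) + 3) := by positivity
  nlinarith

/-- TARGET -/
theorem upper_nonint (ε : ℝ) (hε : 0 < ε) (hε1 : ε ≤ 1) :
    ∃ lam0 > (1:ℝ), ∀ lam ≥ lam0, (∀ n : ℕ, (n:ℝ) ≠ lam) →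
      ∃ f : ℂ → ℂ, GoodFn lam ((2 - ε) * Real.log lam) f := by
  obtain ⟨q0, hq0, hκq⟩ := un_q0 ε hε
  obtain ⟨e, he⟩ : ∃ e : ℝ, e = ε / 16 := ⟨_, rfl⟩
  have he0 : 0 < e := by rw [he]; positivity
  have he1 : e ≤ 1 := by rw [he]; linarith
  obtain ⟨lam1, hlam1, hcore⟩ := upper_core q0 hq0 e he0
  obtain ⟨κ, hκ⟩ : ∃ κ : ℝ, κ = 2 * (((q0:ℝ) - 1) / (q0 + 1)) ^ 2 := ⟨_, rfl⟩
  rw [← hκ] at hκq
  obtain ⟨Q, hQ⟩ : ∃ Q : ℝ, Q = (q0:ℝ) ^ 2 := ⟨_, rfl⟩
  have hq0R : (2:ℝ) ≤ q0 := by exact_mod_cast hq0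
  have hQ1 : 1 ≤ Q := by rw [hQ]; nlinarith
  have hκ0 : 0 < κ := by linarith
  have hκ2 : (2 - ε) * (1 + 2 * e) < κ := by rw [he]; nlinarith
  -- the choice of lam0
  have hev : ∀ᶠ lam : ℝ in atTop, lam1 ≤ lam ∧ 4 * Q ≤ lam ∧ 40 * Q ≤ lam ∧
      (1 + e) * Real.exp (4 * Q / lam) ≤ 1 + 2 * e ∧
      (2 - ε) * (1 + 2 * e) * Real.log lam ≤ κ * Real.log (lam / (4 * Q)) - 6 := by
    have t1 : Tendsto (fun lam : ℝ => (1 + e) * Real.exp (4 * Q / lam)) atTop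
        (nhds ((1 + e) * 1)) := by
      have h1 : Tendsto (fun lam : ℝ => 4 * Q / lam) atTop (nhds 0) :=
        tendsto_id.const_div_atTop (4 * Q)
      have h2 := (Real.continuous_exp.tendsto 0).comp h1
      rw [Real.exp_zero] at h2
      exact h2.const_mul (1 + e)
    have t2 : ∀ᶠ lam : ℝ in atTop, (1 + e) * Real.exp (4 * Q / lam) ≤ 1 + 2 * e := by
      have h3 : (1 + e) * 1 < 1 + 2 * e := by linarith
      filter_upwards [t1.eventually (gt_mem_nhds h3)] with lam hl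
      exact hl.le
    have t3 : ∀ᶠ lam : ℝ in atTop, (κ * Real.log (4 * Q) + 6) /
        (κ - (2 - ε) * (1 + 2 * e)) ≤ Real.log lam :=
      Real.tendsto_log_atTop.eventually_ge_atTop _
    filter_upwards [t2, t3, eventually_ge_atTop lam1, eventually_ge_atTop (4 * Q),
      eventually_ge_atTop (40 * Q)] with lam h2 h3 h4 h5 h6
    refine ⟨h4, h5, h6, h2, ?_⟩
    have hlp : 0 < lam := by linarith
    rw [div_le_iff₀ (by linarith)] at h3
    rw [Real.log_div hlp.ne' (by positivity)]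
    linarith
  obtain ⟨lam2, hlam2⟩ := eventually_atTop.1 hev
  refine ⟨max lam2 2, lt_of_lt_of_le (by norm_num) (le_max_right _ _), fun lam hlam hint => ?_⟩
  obtain ⟨a1, a2, a3, a4, a5⟩ := hlam2 lam (le_trans (le_max_left _ _) hlam)
  have hl2 : 2 < lam := lt_of_lt_of_le hlam1 a1
  have hl0 : 0 < lam := by linarith
  obtain ⟨f, hf, hf0, B, hB, r0, hr0, hP1, hP2⟩ := hcore lam a1 hint
  rw [← hQ, ← hκ] at hP2
  have hsm : 4 * Q / lam ^ 2 ≤ 1 / 10 := by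
    rw [div_le_iff₀ (by positivity)]
    nlinarith
  have hrr : ∀ r : ℝ, 0 < r → ∀ z0 : ℂ, z0 ≠ 0 → |r / ‖z0‖ - 1| ≤ 4 * Q / lam ^ 2 →
      r * (10 / 11) ≤ ‖z0‖ ∧ ‖z0‖ ≤ r * (10 / 9) := by
    intro r hr z0 hz0 h
    have hρ : 0 < ‖z0‖ := norm_pos_iff.2 hz0
    have h1 := abs_le.1 (le_trans h hsm)
    have h2 : r / ‖z0‖ ≤ 11 / 10 := by linarith [h1.2]
    have h3 : 9 / 10 ≤ r / ‖z0‖ := by linarith [h1.1]
    rw [div_le_iff₀ hρ] at h2
    rw [le_div_iff₀ hρ] at h3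
    constructor <;> linarith
  -- upper bound of aF
  have hup : ∀ r ≥ 2 * r0, aF f r ≤ (1 + e) * B * r ^ lam := by
    intro r hr
    have hr1 : 0 < r := by linarith
    have h1 : maxMod f r ≤ Real.exp ((1 + e) * B * r ^ lam) := by
      refine un_maxMod_le hr1.le fun z hz => ?_
      have := hP1 z (by rw [hz]; linarith)
      rwa [hz] at this
    unfold aF
    by_cases hp : 0 < maxMod f r
    · have := Real.log_le_log hp h1
      rwa [Real.log_exp] at this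
    · have h2 : 0 ≤ maxMod f r := by
        have h3 : ‖(r : ℂ)‖ = r := by
          rw [Complex.norm_real, Real.norm_eq_abs, abs_of_pos hr1]
        exact le_trans (norm_nonneg _) (un_le_maxMod hf.continuous h3)
      have h3 : maxMod f r = 0 := le_antisymm (not_lt.1 hp) h2
      rw [h3, Real.log_zero]
      have := Real.rpow_nonneg hr1.le lam
      positivity
  -- lower bound of aF
  obtain ⟨c2, hc2⟩ : ∃ c2 : ℝ, c2 = κ * B * (1 / 4) ^ lam * Real.log (3 / 2) := ⟨_, rfl⟩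
  have hlog32 : 0 < Real.log (3 / 2) := Real.log_pos (by norm_num)
  have hc20 : 0 < c2 := by
    rw [hc2]
    have : (0:ℝ) < (1 / 4) ^ lam := Real.rpow_pos_of_pos (by norm_num) _
    positivity
  have hf0p : 0 < ‖f 0‖ := norm_pos_iff.2 hf0
  have hlow : ∀ r ≥ 2 * r0, Real.log ‖f 0‖ + c2 * r ^ lam ≤ aF f r := by
    intro r hr
    have hr1 : 0 < r := by linarith
    obtain ⟨z0, hz0, hz0r, m, hm, g, hg, hfg⟩ := hP2 (r / 2) (by linarith)
    obtain ⟨b1, b2⟩ := hrr (r / 2) (by linarith) z0 hz0 hz0r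
    have hρ : 0 < ‖z0‖ := norm_pos_iff.2 hz0
    have h1 := un_jensen hf hg hz0 hfg hr1
    have h2 : 3 / 2 ≤ r / ‖z0‖ := by
      rw [le_div_iff₀ hρ]; linarith
    have h3 : ‖f 0‖ * (3 / 2) ^ m ≤ maxMod f r := by
      refine le_trans ?_ h1
      apply mul_le_mul_of_nonneg_left _ hf0p.le
      exact pow_le_pow_left₀ (by norm_num) h2 m
    have h4 : Real.log (‖f 0‖ * (3 / 2) ^ m) ≤ aF f r :=
      Real.log_le_log (by positivity) h3
    rw [Real.log_mul hf0p.ne' (by positivity), Real.log_pow] at h4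
    have h5 : (1 / 4) ^ lam * r ^ lam ≤ ‖z0‖ ^ lam := by
      rw [← Real.mul_rpow (by norm_num) hr1.le]
      exact Real.rpow_le_rpow (by positivity) (by linarith) hl0.le
    have h6 : κ * B * ((1 / 4) ^ lam * r ^ lam) ≤ κ * B * ‖z0‖ ^ lam :=
      mul_le_mul_of_nonneg_left h5 (by positivity)
    have h7 : κ * B * ((1 / 4) ^ lam * r ^ lam) ≤ m := le_trans h6 hm
    have h8 := mul_le_mul_of_nonneg_right h7 hlog32.le
    have h9 : c2 * r ^ lam = κ * B * ((1 / 4) ^ lam * r ^ lam) * Real.log (3 / 2) := by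
      rw [hc2]; ring
    rw [h9]
    linarith
  obtain ⟨R, hR⟩ : ∃ R : ℝ, ∀ r ≥ R, -(Real.log ‖f 0‖) ≤ (c2 / 2) * r ^ lam := by
    have h1 : Tendsto (fun r : ℝ => (c2 / 2) * r ^ lam) atTop atTop :=
      (tendsto_rpow_atTop hl0).const_mul_atTop (by positivity)
    exact eventually_atTop.1 (h1.eventually_ge_atTop _)
  have hlow2 : ∀ r ≥ max R (2 * r0), (c2 / 2) * r ^ lam ≤ aF f r := by
    intro r hr
    have h1 := hR r (le_trans (le_max_left _ _) hr)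
    have h2 := hlow r (le_trans (le_max_right _ _) hr)
    linarith
  refine ⟨f, hf, ?_, ?_⟩
  · exact un_order (c1 := (1 + e) * B) (c2 := c2 / 2) (R := max R (2 * r0)) (by positivity)
      (by positivity) (fun r hr => hup r (le_trans (le_max_right _ _) hr)) hlow2
  · filter_upwards [eventually_ge_atTop (max R (2 * r0)), eventually_ge_atTop (4 * r0)]
      with r hr hr4
    have hr1 : 0 < r := by linarith
    have hpos : 0 < aF f r := lt_of_lt_of_le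
      (mul_pos (by positivity) (Real.rpow_pos_of_pos hr1 _)) (hlow2 r hr)
    refine ⟨hpos, ?_⟩
    obtain ⟨z0, hz0, hz0r, m, hm, g, hg, hfg⟩ := hP2 r (by linarith)
    obtain ⟨b1, b2⟩ := hrr r hr1 z0 hz0 hz0r
    have hρ : 0 < ‖z0‖ := norm_pos_iff.2 hz0
    obtain ⟨z, hz, hfz⟩ := un_small hg hz0 hfg hB hl2 hQ1 a2 he0 he1 hP1 hr1 hz0r
      (by linarith) hm
    refine ⟨z, hz, le_trans hfz (Real.exp_le_exp.2 (neg_le_neg ?_))⟩
    have hX0 : 0 < B * ‖z0‖ ^ lam := mul_pos hB (Real.rpow_pos_of_pos hρ _)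
    have h1 : aF f r ≤ (1 + 2 * e) * (B * ‖z0‖ ^ lam) := by
      have h2 : r ^ lam ≤ ‖z0‖ ^ lam * Real.exp (4 * Q / lam) := by
        have h3 : r / ‖z0‖ ≤ 1 + (4 * Q / lam) / lam := by
          have h4 := (abs_le.1 hz0r).2
          have h5 : (4 * Q / lam) / lam = 4 * Q / lam ^ 2 := by
            rw [div_div, pow_two]
          rw [h5]
          linarith
        have h4 : r = ‖z0‖ * (r / ‖z0‖) := by field_simp
        calc r ^ lam = (‖z0‖ * (r / ‖z0‖)) ^ lam := by rw [← h4]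
          _ = ‖z0‖ ^ lam * (r / ‖z0‖) ^ lam := Real.mul_rpow hρ.le (by positivity)
          _ ≤ ‖z0‖ ^ lam * (1 + (4 * Q / lam) / lam) ^ lam := by
              apply mul_le_mul_of_nonneg_left _ (Real.rpow_nonneg hρ.le _)
              exact Real.rpow_le_rpow (by positivity) h3 hl0.le
          _ ≤ ‖z0‖ ^ lam * Real.exp (4 * Q / lam) := by
              apply mul_le_mul_of_nonneg_left _ (Real.rpow_nonneg hρ.le _)
              exact un_rpow_le (by positivity) hl0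
      calc aF f r ≤ (1 + e) * B * r ^ lam := hup r (by linarith)
        _ ≤ (1 + e) * B * (‖z0‖ ^ lam * Real.exp (4 * Q / lam)) :=
            mul_le_mul_of_nonneg_left h2 (by positivity)
        _ = ((1 + e) * Real.exp (4 * Q / lam)) * (B * ‖z0‖ ^ lam) := by ring
        _ ≤ (1 + 2 * e) * (B * ‖z0‖ ^ lam) := mul_le_mul_of_nonneg_right a4 hX0.le
    have hlogl : 0 ≤ Real.log lam := Real.log_nonneg (by linarith)
    have h3 : 0 ≤ (2 - ε) * Real.log lam := mul_nonneg (by linarith) hlogl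
    calc (2 - ε) * Real.log lam * aF f r
        ≤ (2 - ε) * Real.log lam * ((1 + 2 * e) * (B * ‖z0‖ ^ lam)) :=
          mul_le_mul_of_nonneg_left h1 h3
      _ = ((2 - ε) * (1 + 2 * e) * Real.log lam) * (B * ‖z0‖ ^ lam) := by ring
      _ ≤ (κ * Real.log (lam / (4 * Q)) - 6) * (B * ‖z0‖ ^ lam) :=
          mul_le_mul_of_nonneg_right a5 hX0.le
      _ = B * ‖z0‖ ^ lam * (κ * Real.log (lam / (4 * Q)) - 6) := by ring

end MinMod.U7
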