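import Mathlib
import Pool.Agent.MP06ac62.Defs
import Pool.Agent.MP06ac62.U7

set_option linter.all false
set_option maxHeartbeats 1000000

namespace MinMod.U8

open MinMod
open MinMod.U7
open Metric MeasureTheory Filter




theorem U8_two_pow_le (k : ℕ) : 2 ^ k ≤ Nat.centralBinom k := by
  induction k with
  | zero => simp
  | succ k ih =>
    have h1 := Nat.succ_mul_centralBinom_succ k
    have h2 : (k + 1) * (2 * Nat.centralBinom k) ≤ (k + 1) * Nat.centralBinom (k + 1) := by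
      rw [h1]
      nlinarith [Nat.centralBinom_pos k]
    have h3 := Nat.le_of_mul_le_mul_left h2 (Nat.succ_pos k)
    rw [pow_succ]
    omega

theorem U8_dvd (n k : ℕ) (hk : 0 < k) (h : ∀ K, 2 ≤ K → K ≤ 2 * k → K ∣ n) :
    Nat.centralBinom k ∣ n := by
  rw [Nat.dvd_iff_prime_pow_dvd_dvd]
  intro p j hp hpj
  rw [Nat.centralBinom_eq_two_mul_choose] at hpj
  have hne : (2 * k).choose k ≠ 0 := by
    rw [← Nat.centralBinom_eq_two_mul_choose]
    exact Nat.centralBinom_ne_zero k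
  have h1 : j ≤ ((2 * k).choose k).factorization p :=
    (hp.pow_dvd_iff_le_factorization hne).1 hpj
  have h2 : p ^ j ≤ 2 * k :=
    (Nat.pow_le_pow_right hp.pos h1).trans (Nat.pow_factorization_choose_le (by omega))
  rcases Nat.lt_or_ge (p ^ j) 2 with h3 | h3
  · have h4 : 0 < p ^ j := Nat.pow_pos hp.pos
    have h5 : p ^ j = 1 := by omega
    rw [h5]
    exact one_dvd n
  · exact h _ h3 h2

/-- TARGET 1: a small natural number not dividing n -/
theorem exists_small_nondivisor (ε : ℝ) (hε : 0 < ε) :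
    ∃ n0 : ℕ, ∀ n ≥ n0, ∃ K : ℕ, 2 ≤ K ∧ (K:ℝ) ≤ (n:ℝ) ^ ε ∧ ¬ K ∣ n := by
  have hlog2 : 0 < Real.log 2 := Real.log_pos (by norm_num)
  have h1 : ∀ᶠ x : ℝ in atTop, ‖Real.log x‖ ≤ Real.log 2 / 8 * ‖x ^ ε‖ :=
    (isLittleO_log_rpow_atTop hε).bound (by positivity)
  have h2 : ∀ᶠ x : ℝ in atTop, 8 < x ^ ε := (tendsto_rpow_atTop hε).eventually_gt_atTop 8
  have h3 : ∀ᶠ n : ℕ in atTop, ‖Real.log (n : ℝ)‖ ≤ Real.log 2 / 8 * ‖(n : ℝ) ^ ε‖ ∧
      8 < (n : ℝ) ^ ε ∧ 1 ≤ n :=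
    ((tendsto_natCast_atTop_atTop (R := ℝ)).eventually h1).and
      (((tendsto_natCast_atTop_atTop (R := ℝ)).eventually h2).and (eventually_ge_atTop 1))
  obtain ⟨n0, hn0⟩ := eventually_atTop.1 h3
  refine ⟨n0, ?_⟩
  intro n hn
  obtain ⟨g1, g2, g3⟩ := hn0 n hn
  by_contra hcon
  push Not at hcon
  obtain ⟨k, hk⟩ : ∃ k, k = ⌊(n : ℝ) ^ ε / 2⌋₊ := ⟨_, rfl⟩
  have hk1 : (k : ℝ) ≤ (n : ℝ) ^ ε / 2 := by
    rw [hk]
    exact Nat.floor_le (by positivity)
  have hk2 : (n : ℝ) ^ ε / 2 < k + 1 := by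
    rw [hk]
    exact Nat.lt_floor_add_one _
  have hk0 : 0 < k := by
    have : (0 : ℝ) < k := by linarith
    exact_mod_cast this
  have hdvd := U8_dvd n k hk0 (by
    intro K hK1 hK2
    apply hcon K hK1
    have : (K : ℝ) ≤ 2 * k := by exact_mod_cast hK2
    linarith)
  have h4 : 2 ^ k ≤ n := (U8_two_pow_le k).trans (Nat.le_of_dvd g3 hdvd)
  have h5 : (k : ℝ) * Real.log 2 ≤ Real.log n := by
    rw [← Real.log_pow]
    apply Real.log_le_log (by positivity)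
    exact_mod_cast h4
  have h6 : Real.log n ≤ Real.log 2 / 8 * (n : ℝ) ^ ε := by
    have e1 : ‖(n : ℝ) ^ ε‖ = (n : ℝ) ^ ε := Real.norm_of_nonneg (by positivity)
    rw [e1] at g1
    exact (le_abs_self _).trans g1
  have h7 : ((n : ℝ) ^ ε / 2 - 1) * Real.log 2 ≤ (k : ℝ) * Real.log 2 :=
    mul_le_mul_of_nonneg_right (by linarith) hlog2.le
  have h8 : ((n : ℝ) ^ ε / 2 - 1) * Real.log 2 ≤ Real.log 2 / 8 * (n : ℝ) ^ ε := by linarith
  nlinarith

theorem U8_map_pow (K : ℕ) (hK : 1 ≤ K) : Filter.map (fun r : ℝ => r ^ K) atTop = atTop := by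
  have hK0 : K ≠ 0 := by omega
  apply le_antisymm
  · exact tendsto_pow_atTop hK0
  · have h1 : Tendsto (fun s : ℝ => s ^ ((K : ℝ)⁻¹)) atTop atTop :=
      tendsto_rpow_atTop (by positivity)
    have h2 : Filter.map (fun s : ℝ => (s ^ ((K : ℝ)⁻¹)) ^ K) atTop = atTop := by
      have h3 : (fun s : ℝ => (s ^ ((K : ℝ)⁻¹)) ^ K) =ᶠ[atTop] id := by
        filter_upwards [eventually_ge_atTop (0 : ℝ)] with s hs
        exact Real.rpow_inv_natCast_pow hs hK0
      rw [Filter.map_congr h3, Filter.map_id]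
    calc (atTop : Filter ℝ) = Filter.map (fun s : ℝ => (s ^ ((K : ℝ)⁻¹)) ^ K) atTop := h2.symm
      _ = Filter.map (fun r : ℝ => r ^ K) (Filter.map (fun s : ℝ => s ^ ((K : ℝ)⁻¹)) atTop) := by
          rw [Filter.map_map]
          rfl
      _ ≤ Filter.map (fun r : ℝ => r ^ K) atTop := Filter.map_mono h1

theorem U8_maxMod (f : ℂ → ℂ) (K : ℕ) (hK : 1 ≤ K) (r : ℝ) (hr : 0 ≤ r) :
    maxMod (fun z => f (z ^ K)) r = maxMod f (r ^ K) := by
  have hK0 : K ≠ 0 := by omega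
  unfold maxMod
  have hmem : ∀ z : Metric.sphere (0:ℂ) r, (z : ℂ) ^ K ∈ Metric.sphere (0:ℂ) (r ^ K) := by
    intro z
    rw [mem_sphere_zero_iff_norm, norm_pow, mem_sphere_zero_iff_norm.1 z.2]
  have hsurj : Function.Surjective (fun z : Metric.sphere (0:ℂ) r =>
      (⟨(z : ℂ) ^ K, hmem z⟩ : Metric.sphere (0:ℂ) (r ^ K))) := by
    rintro ⟨w, hw⟩
    obtain ⟨z, hz⟩ := IsAlgClosed.exists_pow_nat_eq w (show 0 < K by omega)
    have hzn : ‖z‖ = r := by
      have h1 : ‖z‖ ^ K = r ^ K := by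
        rw [← norm_pow, hz]
        exact mem_sphere_zero_iff_norm.1 hw
      exact (pow_left_inj₀ (norm_nonneg z) hr hK0).1 h1
    exact ⟨⟨z, mem_sphere_zero_iff_norm.2 hzn⟩, Subtype.ext hz⟩
  exact hsurj.iSup_comp (g := fun w : Metric.sphere (0:ℂ) (r ^ K) => ‖f w‖)

/-- TARGET 2 -/
theorem goodFn_comp_pow (lam T : ℝ) (hlam : 0 < lam) (f : ℂ → ℂ) (hf : GoodFn lam T f) (K : ℕ) (hK : 1 ≤ K) :
    GoodFn (K * lam) T (fun z => f (z ^ K)) := by
  have hK0 : K ≠ 0 := by omega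
  have hKr : (K : ℝ) ≠ 0 := by exact_mod_cast hK0
  obtain ⟨h1, h2, h3⟩ := hf
  have haF : ∀ r : ℝ, 0 ≤ r → aF (fun z => f (z ^ K)) r = aF f (r ^ K) := by
    intro r hr
    unfold aF
    rw [U8_maxMod f K hK r hr]
  refine ⟨h1.comp (differentiable_id.pow K), ?_, ?_⟩
  · have hcongr : (fun r : ℝ => ((Real.log (aF (fun z => f (z ^ K)) r) / Real.log r : ℝ) : EReal))
        =ᶠ[atTop] fun r : ℝ => ((K : ℝ) : EReal) *
          ((Real.log (aF f (r ^ K)) / Real.log (r ^ K) : ℝ) : EReal) := by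
      filter_upwards [eventually_ge_atTop (0 : ℝ)] with r hr
      rw [haF r hr, Real.log_pow, ← EReal.coe_mul, ← mul_div_assoc, mul_div_mul_left _ _ hKr]
    rw [liminf_congr hcongr, EReal.liminf_const_mul_of_nonneg_of_ne_top
      (by exact_mod_cast Nat.cast_nonneg K) (EReal.coe_ne_top _)]
    have hcomp : liminf (fun r : ℝ => ((Real.log (aF f (r ^ K)) / Real.log (r ^ K) : ℝ) : EReal))
        atTop = liminf (fun r : ℝ => ((Real.log (aF f r) / Real.log r : ℝ) : EReal)) atTop := by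
      unfold liminf
      conv_rhs => rw [← U8_map_pow K hK, Filter.map_map]
      rfl
    rw [hcomp, h2, ← EReal.coe_mul]
  · have ht : Tendsto (fun r : ℝ => r ^ K) atTop atTop := tendsto_pow_atTop hK0
    filter_upwards [ht.eventually h3, eventually_ge_atTop (0 : ℝ)] with r hr hr0
    obtain ⟨g1, w, hw, hfw⟩ := hr
    rw [haF r hr0]
    refine ⟨g1, ?_⟩
    obtain ⟨z, hz⟩ := IsAlgClosed.exists_pow_nat_eq w (show 0 < K by omega)
    refine ⟨z, ?_, ?_⟩
    · have h4 : ‖z‖ ^ K = r ^ K := by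
        rw [← norm_pow, hz]
        exact hw
      exact (pow_left_inj₀ (norm_nonneg z) hr0 hK0).1 h4
    · beta_reduce
      rw [hz]
      exact hfw

theorem U8_mono (lam T T' : ℝ) (f : ℂ → ℂ) (hf : GoodFn lam T f) (h : T' ≤ T) :
    GoodFn lam T' f := by
  obtain ⟨h1, h2, h3⟩ := hf
  refine ⟨h1, h2, ?_⟩
  filter_upwards [h3] with r hr
  obtain ⟨g1, z, hz, hfz⟩ := hr
  refine ⟨g1, z, hz, hfz.trans (Real.exp_le_exp.2 ?_)⟩
  have := mul_le_mul_of_nonneg_right h g1.le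
  linarith

/-- TARGET 3 -/
theorem upper_main (ε : ℝ) (hε : 0 < ε) (hε1 : ε ≤ 1) :
    ∃ lam0 > (1:ℝ), ∀ lam ≥ lam0, ∃ f : ℂ → ℂ, GoodFn lam ((2 - ε) * Real.log lam) f := by
  obtain ⟨l0, hl0, hl⟩ := upper_nonint (ε / 2) (by linarith) (by linarith)
  obtain ⟨n0, hn0⟩ := exists_small_nondivisor (ε / 8) (by linarith)
  have hn0' : (0 : ℝ) ≤ (n0 : ℝ) := Nat.cast_nonneg _
  refine ⟨l0 ^ 2 + n0, by nlinarith, ?_⟩
  intro lam hlam
  have hlam1 : l0 ^ 2 ≤ lam := by linarith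
  have hlam2 : l0 ≤ lam := by nlinarith
  have hlam3 : (1 : ℝ) < lam := by linarith
  have hloglam : 0 < Real.log lam := Real.log_pos hlam3
  by_cases hnat : ∀ n : ℕ, (n : ℝ) ≠ lam
  · obtain ⟨f, hf⟩ := hl lam hlam2 hnat
    refine ⟨f, U8_mono _ _ _ f hf ?_⟩
    exact mul_le_mul_of_nonneg_right (by linarith) hloglam.le
  · push Not at hnat
    obtain ⟨n, hn⟩ := hnat
    have hnn0 : n ≥ n0 := by
      have : (n0 : ℝ) ≤ n := by
        rw [hn]
        nlinarith [sq_nonneg l0]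
      exact_mod_cast this
    obtain ⟨K, hK2, hKle, hKd⟩ := hn0 n hnn0
    rw [hn] at hKle
    have hKr : (0 : ℝ) < K := by
      have : 0 < K := by omega
      exact_mod_cast this
    have hlampos : 0 < lam := by linarith
    obtain ⟨mu, hmu⟩ : ∃ mu : ℝ, mu = lam / K := ⟨_, rfl⟩
    have hKmu : (K : ℝ) * mu = lam := by
      rw [hmu]
      field_simp
    have hmu1 : lam ^ (1 - ε / 8) ≤ mu := by
      rw [hmu, Real.rpow_sub hlampos, Real.rpow_one]
      exact div_le_div_of_nonneg_left hlampos.le hKr hKle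
    have hmu2 : l0 ≤ mu := by
      refine le_trans ?_ hmu1
      have h1 : lam ^ (1 / 2 : ℝ) ≤ lam ^ (1 - ε / 8) :=
        Real.rpow_le_rpow_of_exponent_le hlam3.le (by linarith)
      refine le_trans ?_ h1
      rw [← Real.sqrt_eq_rpow]
      exact Real.le_sqrt_of_sq_le hlam1
    have hmunat : ∀ j : ℕ, (j : ℝ) ≠ mu := by
      intro j hj
      apply hKd
      refine ⟨j, ?_⟩
      have : (n : ℝ) = K * j := by
        rw [hn, hj, hKmu]
      exact_mod_cast this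
    obtain ⟨f, hf⟩ := hl mu hmu2 hmunat
    have hcp := goodFn_comp_pow _ _ (by linarith) f hf K (by omega)
    rw [hKmu] at hcp
    refine ⟨_, U8_mono _ _ _ _ hcp ?_⟩
    have h2 : (1 - ε / 8) * Real.log lam ≤ Real.log mu := by
      rw [← Real.log_rpow hlampos]
      exact Real.log_le_log (Real.rpow_pos_of_pos hlampos _) hmu1
    have h3 : (2 - ε / 2) * ((1 - ε / 8) * Real.log lam) ≤ (2 - ε / 2) * Real.log mu :=
      mul_le_mul_of_nonneg_left h2 (by linarith)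
    have h4 : (2 - ε) * Real.log lam ≤ (2 - ε / 2) * ((1 - ε / 8) * Real.log lam) := by
      rw [← mul_assoc]
      refine mul_le_mul_of_nonneg_right ?_ hloglam.le
      nlinarith
    linarith

end MinMod.U8
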