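import Mathlib
import Pool.Agent.MP06ac62.Defs
import Pool.Agent.MP06ac62.L4a
import Pool.Agent.MP06ac62.U8

set_option linter.all false
set_option maxHeartbeats 1000000

namespace MinMod.G

open MinMod
open MinMod.L4a
open MinMod.U8
open Metric MeasureTheory Filter Topology



theorem cot_le_maxMod (f : ℂ → ℂ) (hf : Continuous f) {r : ℝ} {z : ℂ} (hz : ‖z‖ = r) :
    ‖f z‖ ≤ maxMod f r := by
  have hb : BddAbove (Set.range fun z : Metric.sphere (0:ℂ) r => ‖f z‖) := by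
    have hc : Continuous (fun z : Metric.sphere (0:ℂ) r => ‖f z‖) :=
      hf.norm.comp continuous_subtype_val
    exact (isCompact_range hc).bddAbove
  exact le_ciSup hb ⟨z, mem_sphere_zero_iff_norm.2 hz⟩

theorem cot_minMod_le (f : ℂ → ℂ) {r : ℝ} {z : ℂ} (hz : ‖z‖ = r) : minMod f r ≤ ‖f z‖ := by
  have hb : BddBelow (Set.range fun z : Metric.sphere (0:ℂ) r => ‖f z‖) := by
    refine ⟨0, ?_⟩
    rintro _ ⟨w, rfl⟩
    exact norm_nonneg _
  exact ciInf_le hb ⟨z, mem_sphere_zero_iff_norm.2 hz⟩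

theorem cot_min_att (f : ℂ → ℂ) (hf : Continuous f) {r : ℝ} (hr : 0 ≤ r) :
    ∃ z : ℂ, ‖z‖ = r ∧ ‖f z‖ ≤ minMod f r := by
  have hne : (Metric.sphere (0:ℂ) r).Nonempty := NormedSpace.sphere_nonempty.2 hr
  obtain ⟨z, hz, hmin⟩ := (isCompact_sphere (0:ℂ) r).exists_isMinOn hne hf.norm.continuousOn
  refine ⟨z, mem_sphere_zero_iff_norm.1 hz, ?_⟩
  have : Nonempty (Metric.sphere (0:ℂ) r) := ⟨⟨z, hz⟩⟩
  exact le_ciInf fun w => hmin w.2

theorem cot_bF_le {f : ℂ → ℂ} {r x : ℝ} (h : minMod f r ≤ Real.exp x) : bF f r ≤ (x : EReal) := by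
  unfold bF
  rw [ENNReal.log_ofReal]
  split_ifs with h0
  · exact bot_le
  · rw [EReal.coe_le_coe_iff]
    exact (Real.log_le_iff_le_exp (not_le.1 h0)).2 h

theorem cot_lt_of_bF {f : ℂ → ℂ} {r x : ℝ} (h : bF f r < (x : EReal)) :
    minMod f r < Real.exp x := by
  by_contra hc
  have hc' := not_lt.1 hc
  have h0 : 0 < minMod f r := lt_of_lt_of_le (Real.exp_pos x) hc'
  unfold bF at h
  rw [ENNReal.log_ofReal_of_pos h0, EReal.coe_lt_coe_iff] at h
  have h1 := (Real.le_log_iff_exp_le h0).2 hc'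
  linarith

theorem cot_const_order {f : ℂ → ℂ} {c : ℂ} (h : ∀ z, f z = c) :
    liminf (fun r : ℝ => ((Real.log (aF f r) / Real.log r : ℝ) : EReal)) atTop = 0 := by
  have h1 : ∀ᶠ r : ℝ in atTop, Real.log (Real.log ‖c‖) / Real.log r
      = Real.log (aF f r) / Real.log r := by
    filter_upwards [eventually_ge_atTop (0:ℝ)] with r hr
    have hne : (Metric.sphere (0:ℂ) r).Nonempty := NormedSpace.sphere_nonempty.2 hr
    have : Nonempty (Metric.sphere (0:ℂ) r) := hne.to_subtype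
    have h2 : maxMod f r = ‖c‖ := by
      unfold maxMod
      simp only [h]
      exact ciSup_const
    unfold aF
    rw [h2]
  have h2 : Tendsto (fun r : ℝ => Real.log (Real.log ‖c‖) / Real.log r) atTop (𝓝 0) :=
    tendsto_const_nhds.div_atTop Real.tendsto_log_atTop
  have h3 := h2.congr' h1
  have h4 : Tendsto (fun r : ℝ => ((Real.log (aF f r) / Real.log r : ℝ) : EReal)) atTop
      (𝓝 ((0:ℝ) : EReal)) := (continuous_coe_real_ereal.tendsto 0).comp h3
  exact h4.liminf_eq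

theorem cot_pos {f : ℂ → ℂ} (hd : Differentiable ℂ f) (hnc : ¬ ∃ c, ∀ z, f z = c) {lam : ℝ}
    (hlam : 1 < lam)
    (hlo : liminf (fun r : ℝ => ((Real.log (aF f r) / Real.log r : ℝ) : EReal)) atTop
      = (lam : EReal)) : ∀ᶠ r : ℝ in atTop, 0 < aF f r := by
  have h1 : ∀ᶠ r : ℝ in atTop, ((1:ℝ) : EReal)
      < ((Real.log (aF f r) / Real.log r : ℝ) : EReal) := by
    have h0 : ((1:ℝ) : EReal) < liminf
        (fun r : ℝ => ((Real.log (aF f r) / Real.log r : ℝ) : EReal)) atTop := by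
      rw [hlo, EReal.coe_lt_coe_iff]
      exact hlam
    exact eventually_lt_of_lt_liminf h0
  have h2 : ∀ᶠ r : ℝ in atTop, r < |aF f r| := by
    filter_upwards [h1, eventually_gt_atTop (1:ℝ)] with r hr hr1
    rw [EReal.coe_lt_coe_iff] at hr
    have hl : 0 < Real.log r := Real.log_pos hr1
    rw [lt_div_iff₀ hl, one_mul, ← Real.log_abs (aF f r)] at hr
    have h3 : 0 < |aF f r| := by
      rcases (abs_nonneg (aF f r)).lt_or_eq with h3 | h3
      · exact h3
      · rw [← h3, Real.log_zero] at hr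
        linarith
    exact (Real.log_lt_log_iff (by linarith) h3).1 hr
  by_contra hcon
  have h3 : ∃ᶠ r : ℝ in atTop, ¬ 0 < aF f r := Filter.not_eventually.1 hcon
  have h4 : ∃ᶠ r : ℝ in atTop, maxMod f r ≤ Real.exp (-r) ∧ 0 < r := by
    refine (h3.and_eventually (h2.and (eventually_gt_atTop (0:ℝ)))).mono ?_
    rintro r ⟨ha, hb, hc⟩
    refine ⟨?_, hc⟩
    rw [abs_of_nonpos (not_lt.1 ha)] at hb
    by_cases hm : 0 < maxMod f r
    · rw [← Real.log_le_iff_le_exp hm]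
      show aF f r ≤ -r
      linarith
    · exact (not_lt.1 hm).trans (Real.exp_pos _).le
  apply hnc
  refine ⟨0, ?_⟩
  intro z
  by_contra hz
  have hz' : 0 < ‖f z‖ := norm_pos_iff.2 hz
  have h5 : ∀ᶠ r : ℝ in atTop, Real.exp (-r) < ‖f z‖ := by
    have h6 : Tendsto (fun r : ℝ => Real.exp (-r)) atTop (𝓝 0) := Real.tendsto_exp_neg_atTop_nhds_zero
    exact h6.eventually_lt_const hz'
  obtain ⟨r, ⟨hr1, hr0⟩, hr2, hr3⟩ :=
    (h4.and_eventually (h5.and (eventually_gt_atTop ‖z‖))).exists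
  have h7 : ‖f z‖ ≤ maxMod f r := by
    refine Complex.norm_le_of_forall_mem_frontier_norm_le (U := Metric.ball (0:ℂ) r)
      Metric.isBounded_ball hd.diffContOnCl ?_ ?_
    · intro w hw
      rw [frontier_ball (0:ℂ) hr0.ne'] at hw
      exact cot_le_maxMod f hd.continuous (mem_sphere_zero_iff_norm.1 hw)
    · apply subset_closure
      exact mem_ball_zero_iff.2 hr3
  linarith

theorem cot_upper (ε : ℝ) (hε : 0 < ε) (hε1 : ε ≤ 1) :
    ∃ lam0 > (1:ℝ), ∀ lam ≥ lam0, Cc lam / (Real.log lam : EReal) ≤ ((-(2 - ε) : ℝ) : EReal) := by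
  obtain ⟨lam0, h0, h⟩ := upper_main ε hε hε1
  refine ⟨lam0, h0, ?_⟩
  intro lam hlam
  obtain ⟨f, hd, hlo, hev⟩ := h lam hlam
  have hlam1 : 1 < lam := lt_of_lt_of_le h0 hlam
  have hlog : 0 < Real.log lam := Real.log_pos hlam1
  rw [EReal.div_le_iff_le_mul (by exact_mod_cast hlog) (EReal.coe_ne_top _)]
  have hnc : ¬ ∃ c, ∀ z, f z = c := by
    rintro ⟨c, hc⟩
    have h1 := cot_const_order hc
    rw [hlo] at h1
    have h2 : lam = 0 := by exact_mod_cast h1
    linarith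
  have h1 : Cc lam ≤ Lam f := sInf_le ⟨f, hd, hnc, hlo, rfl⟩
  refine h1.trans ?_
  unfold Lam
  refine limsup_le_of_le (by isBoundedDefault) ?_
  filter_upwards [hev] with r hr
  obtain ⟨ha, z, hz, hfz⟩ := hr
  rw [EReal.div_le_iff_le_mul (by exact_mod_cast ha) (EReal.coe_ne_top _)]
  have h2 := cot_bF_le ((cot_minMod_le f hz).trans hfz)
  refine h2.trans (le_of_eq ?_)
  rw [← EReal.coe_mul, ← EReal.coe_mul]
  congr 1
  ring

theorem cot_lower (ε : ℝ) (hε : 0 < ε) (hε1 : ε ≤ 1) :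
    ∃ lam0 > (1:ℝ), ∀ lam ≥ lam0, ((-(2 + ε) : ℝ) : EReal) ≤ Cc lam / (Real.log lam : EReal) := by
  obtain ⟨lam0, h0, h⟩ := lower_main ε hε hε1
  refine ⟨lam0, h0, ?_⟩
  intro lam hlam
  have hlam1 : 1 < lam := lt_of_lt_of_le h0 hlam
  have hlog : 0 < Real.log lam := Real.log_pos hlam1
  rw [EReal.le_div_iff_mul_le (by exact_mod_cast hlog) (EReal.coe_ne_top _), ← EReal.coe_mul]
  refine le_sInf ?_
  rintro L ⟨f, hd, hnc, hlo, rfl⟩
  by_contra hcon
  have hcon' := not_le.1 hcon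
  obtain ⟨t, ht1, ht2⟩ := EReal.lt_iff_exists_real_btwn.1 hcon'
  rw [EReal.coe_lt_coe_iff] at ht2
  have hpos := cot_pos hd hnc hlam1 hlo
  have hT := h lam hlam f hd hlo (-t) (by nlinarith) ?_
  · linarith
  · have h1 : ∀ᶠ r : ℝ in atTop, bF f r / (aF f r : EReal) < (t : EReal) :=
      eventually_lt_of_limsup_lt ht1
    filter_upwards [h1, hpos, eventually_ge_atTop (0:ℝ)] with r hr ha hr0
    rw [EReal.div_lt_iff (by exact_mod_cast ha) (EReal.coe_ne_top _), ← EReal.coe_mul] at hr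
    have h2 := cot_lt_of_bF hr
    obtain ⟨z, hz, hfz⟩ := cot_min_att f hd.continuous hr0
    refine ⟨z, hz, hfz.trans (h2.le.trans (le_of_eq ?_))⟩
    congr 1
    ring

/-- TARGET: C(λ)/log λ → -2 -/
theorem C_over_log_tendsto :
    Tendsto (fun lam : ℝ => Cc lam / (Real.log lam : EReal)) atTop (𝓝 (-2 : EReal)) := by
  have e2 : (-2 : EReal) = ((-2 : ℝ) : EReal) := by
    rw [EReal.coe_neg]
    rfl
  rw [e2]
  refine tendsto_order.2 ⟨?_, ?_⟩
  · intro a ha
    obtain ⟨t, ht1, ht2⟩ := EReal.lt_iff_exists_real_btwn.1 ha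
    rw [EReal.coe_lt_coe_iff] at ht2
    have hε : 0 < min 1 ((-2 - t) / 2) := lt_min one_pos (by linarith)
    obtain ⟨lam0, -, h⟩ := cot_lower _ hε (min_le_left _ _)
    filter_upwards [eventually_ge_atTop lam0] with lam hlam
    refine lt_of_lt_of_le (lt_of_lt_of_le ht1 ?_) (h lam hlam)
    rw [EReal.coe_le_coe_iff]
    have := min_le_right 1 ((-2 - t) / 2)
    linarith
  · intro b hb
    obtain ⟨t, ht1, ht2⟩ := EReal.lt_iff_exists_real_btwn.1 hb
    rw [EReal.coe_lt_coe_iff] at ht1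
    have hε : 0 < min 1 ((t + 2) / 2) := lt_min one_pos (by linarith)
    obtain ⟨lam0, -, h⟩ := cot_upper _ hε (min_le_left _ _)
    filter_upwards [eventually_ge_atTop lam0] with lam hlam
    refine lt_of_le_of_lt (h lam hlam) (lt_of_le_of_lt ?_ ht2)
    rw [EReal.coe_le_coe_iff]
    have := min_le_right 1 ((t + 2) / 2)
    linarith

end MinMod.G
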